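import Pool.Agent.Helper856.Lcw.Defs

open Classical SimpleGraph

namespace Pool.Agent.Helper856.Lcw

/-- Arrangement by an injective position function such that at every threshold the earlier
vertices fall into at most `k` classes with respect to their later neighbours. -/
def GLin {V : Type} (k : ℕ) (G : SimpleGraph V) : Prop :=
  ∃ p : V → ℕ, Function.Injective p ∧ ∀ t : ℕ, ∃ c : V → Fin k,
    ∀ u v, p u < t → p v < t → c u = c v → ∀ w, t ≤ p w → (G.Adj u w ↔ G.Adj v w)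

/-- For every injective position function there is a threshold with `k` earlier vertices having
pairwise different nonempty sets of later neighbours. -/
def Wide {V : Type} (k : ℕ) (G : SimpleGraph V) : Prop :=
  ∀ p : V → ℕ, Function.Injective p → ∃ (t : ℕ) (f : Fin k → V),
    (∀ i, p (f i) < t ∧ ∃ w, t ≤ p w ∧ G.Adj (f i) w) ∧
    ∀ i j, i ≠ j → ∃ w, t ≤ p w ∧ ¬ (G.Adj (f i) w ↔ G.Adj (f j) w)

def C3 := gr 3 [(0,1),(1,2),(0,2)]
def C4 := gr 4 [(0,1),(1,2),(2,3),(0,3)]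
def C5 := gr 5 [(0,1),(1,2),(2,3),(3,4),(0,4)]
def C6 := gr 6 [(0,1),(1,2),(2,3),(3,4),(4,5),(0,5)]
def P6 := gr 6 [(0,1),(1,2),(2,3),(3,4),(4,5)]
def K14 := gr 5 [(0,1),(0,2),(0,3),(0,4)]
def DS := gr 6 [(0,1),(0,2),(0,3),(1,4),(1,5)]
def F2P1_2P2 := gr 6 [(0,1),(2,3)]
def F2P1_P4 := gr 6 [(0,1),(1,2),(2,3)]
def F4P1_P2 := gr 6 [(0,1)]
def F3P2 := gr 6 [(0,1),(2,3),(4,5)]
def FP2_P4 := gr 6 [(0,1),(2,3),(3,4),(4,5)]
def F2P3 := gr 6 [(0,1),(1,2),(3,4),(4,5)]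

/-- the bipartite graphs without induced `F` have unbounded width -/
def Unb {n : ℕ} (F : SimpleGraph (Fin n)) : Prop :=
  ∀ k, ∃ (V : Type) (_ : Finite V) (G : SimpleGraph V),
    G.IsBipartite ∧ ¬ F.IsIndContained G ∧ ¬ GLin k G

end Pool.Agent.Helper856.Lcw
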