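import Pool.Agent.Helper856.Lcw.Base
import Pool.Agent.Helper856.Lcw.GBase

open Classical SimpleGraph

namespace Pool.Agent.Helper856.Lcw.FreeL

variable {V : Type} (G : SimpleGraph V) (S T : Finset V)


theorem ind_of {n : ℕ} {L : List (ℕ × ℕ)} (f : Fin n → V)
    (h : ∀ i j : Fin n, i < j → f i ≠ f j ∧
      (((i.val, j.val) ∈ L ∨ (j.val, i.val) ∈ L) ↔ G.Adj (f i) (f j))) :
    (gr n L).IsIndContained G := by
  have hinj : Function.Injective f := by
    intro i j hij
    by_contra hne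
    rcases lt_or_gt_of_ne hne with h1 | h1
    · exact (h i j h1).1 hij
    · exact (h j i h1).1 hij.symm
  refine ⟨⟨⟨f, hinj⟩, ?_⟩⟩
  intro i j
  simp only [Function.Embedding.coeFn_mk]
  unfold gr
  rw [SimpleGraph.fromRel_adj]
  rcases lt_trichotomy i j with h1 | h1 | h1
  · rw [← (h i j h1).2]
    constructor
    · intro h2; exact ⟨h1.ne, h2⟩
    · intro h2; exact h2.2
  · subst h1
    simp
  · rw [G.adj_comm, ← (h j i h1).2]
    constructor
    · intro h2; exact ⟨h1.ne', h2.symm⟩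
    · intro h2; exact h2.2.symm

theorem adj_swap : (fun b a : V => G.Adj a b) = G.Adj := by
  funext b a
  exact propext (G.adj_comm a b)

theorem lam_aux (hST : Disjoint S T) (hS : ∀ u ∈ S, ∀ v ∈ S, ¬ G.Adj u v)
    (hT : ∀ u ∈ T, ∀ v ∈ T, ¬ G.Adj u v) (hF : ¬ S122.IsIndContained G) :
    Lam G.Adj S T := by
  intro c hc a1 ha1 a2 ha2 b1 hb1 b2 hb2 b3 hb3 h1 h2 h3 h4 h5 n1 n2 n3 n4
  apply hF
  have d : ∀ a ∈ S, ∀ b ∈ T, a ≠ b ∧ b ≠ a := by
    intro a ha b hb
    have : a ≠ b := by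
      rintro rfl
      exact Finset.disjoint_left.1 hST ha hb
    exact ⟨this, this.symm⟩
  have m : ∀ x y : V, ¬ G.Adj x y → ¬ G.Adj y x := fun x y h h' => h h'.symm
  have e1 : c ≠ a1 := by rintro rfl; exact n1 h1
  have e2 : c ≠ a2 := by rintro rfl; exact n3 h1
  have e3 : a1 ≠ a2 := by rintro rfl; exact n4 h4
  have e4 : b1 ≠ b2 := by rintro rfl; exact n1 h4
  have e5 : b1 ≠ b3 := by rintro rfl; exact n3 h5
  have e6 : b2 ≠ b3 := by rintro rfl; exact n2 h4
  have h4' := h4.symm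
  have h5' := h5.symm
  have n1' := m _ _ n1
  have n3' := m _ _ n3
  have n4' := m _ _ n4
  apply ind_of G ![c, b1, b2, a1, b3, a2]
  intro i j hij
  fin_cases i <;> fin_cases j <;> first
    | (exfalso; revert hij; decide)
    | (refine ⟨?_, ?_⟩
       · first
         | exact (d _ ‹_› _ ‹_›).1
         | exact (d _ ‹_› _ ‹_›).2
         | assumption
       · first
         | (refine ⟨fun _ => by assumption, fun _ => by decide⟩)
         | (refine ⟨fun h => absurd h (by decide), fun h => ?_⟩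
            first
              | exact absurd h (hS _ ‹_› _ ‹_›)
              | exact absurd h (hT _ ‹_› _ ‹_›)
              | exact absurd h ‹_›))

theorem star_aux (hST : Disjoint S T) (hS : ∀ u ∈ S, ∀ v ∈ S, ¬ G.Adj u v)
    (hT : ∀ u ∈ T, ∀ v ∈ T, ¬ G.Adj u v) (hF : ¬ K13_P2.IsIndContained G) :
    Star G.Adj S T := by
  intro v hv x hx
  by_contra hcon
  push Not at hcon
  obtain ⟨hcard, b', hb', hxb', hvb'⟩ := hcon
  obtain ⟨b1, b2, b3, hb1, hb2, hb3, e1, e2, e3⟩ := Finset.two_lt_card_iff.1 hcard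
  simp only [Finset.mem_filter] at hb1 hb2 hb3
  obtain ⟨t1, h1, n1⟩ := hb1
  obtain ⟨t2, h2, n2⟩ := hb2
  obtain ⟨t3, h3, n3⟩ := hb3
  apply hF
  have d : ∀ a ∈ S, ∀ b ∈ T, a ≠ b ∧ b ≠ a := by
    intro a ha b hb
    have : a ≠ b := by
      rintro rfl
      exact Finset.disjoint_left.1 hST ha hb
    exact ⟨this, this.symm⟩
  have m : ∀ x y : V, ¬ G.Adj x y → ¬ G.Adj y x := fun x y h h' => h h'.symm
  have e4 : v ≠ x := by rintro rfl; exact n1 h1
  have e5 : b1 ≠ b' := by rintro rfl; exact n1 hxb'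
  have e6 : b2 ≠ b' := by rintro rfl; exact n2 hxb'
  have e7 : b3 ≠ b' := by rintro rfl; exact n3 hxb'
  have n1' := m _ _ n1
  have n2' := m _ _ n2
  have n3' := m _ _ n3
  apply ind_of G ![v, b1, b2, b3, x, b']
  intro i j hij
  fin_cases i <;> fin_cases j <;> first
    | (exfalso; revert hij; decide)
    | (refine ⟨?_, ?_⟩
       · first
         | exact (d _ ‹_› _ ‹_›).1
         | exact (d _ ‹_› _ ‹_›).2
         | assumption
       · first
         | (refine ⟨fun _ => by assumption, fun _ => by decide⟩)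
         | (refine ⟨fun h => absurd h (by decide), fun h => ?_⟩
            first
              | exact absurd h (hS _ ‹_› _ ‹_›)
              | exact absurd h (hT _ ‹_› _ ‹_›)
              | exact absurd h ‹_›))

theorem badcover_aux (hST : Disjoint S T) (hS : ∀ u ∈ S, ∀ v ∈ S, ¬ G.Adj u v)
    (hT : ∀ u ∈ T, ∀ v ∈ T, ¬ G.Adj u v) (hF : ¬ P1_S113.IsIndContained G) :
    BadCover G.Adj S T := by
  intro c y x l1 l2 z hbad p hp
  obtain ⟨hc, hy, hx, hl1, hl2, hz, el, cx, yx, cl1, yl1, cl2, yl2, yz, cz⟩ := hbad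
  by_contra hcon
  push Not at hcon
  obtain ⟨cp, yp⟩ := hcon
  apply hF
  have d : ∀ a ∈ S, ∀ b ∈ T, a ≠ b ∧ b ≠ a := by
    intro a ha b hb
    have : a ≠ b := by
      rintro rfl
      exact Finset.disjoint_left.1 hST ha hb
    exact ⟨this, this.symm⟩
  have m : ∀ x y : V, ¬ G.Adj x y → ¬ G.Adj y x := fun x y h h' => h h'.symm
  have e1 : c ≠ y := by rintro rfl; exact cz yz
  have e2 : l1 ≠ x := by rintro rfl; exact yl1 yx
  have e3 : l2 ≠ x := by rintro rfl; exact yl2 yx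
  have e4 : l1 ≠ z := by rintro rfl; exact yl1 yz
  have e5 : l2 ≠ z := by rintro rfl; exact yl2 yz
  have e6 : x ≠ z := by rintro rfl; exact cz cx
  have e7 : x ≠ p := by rintro rfl; exact cp cx
  have e8 : l1 ≠ p := by rintro rfl; exact cp cl1
  have e9 : l2 ≠ p := by rintro rfl; exact cp cl2
  have e10 : z ≠ p := by rintro rfl; exact yp yz
  have yx' := yx.symm
  have yl1' := m _ _ yl1
  have yl2' := m _ _ yl2
  apply ind_of G ![c, l1, l2, x, y, z, p]
  intro i j hij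
  fin_cases i <;> fin_cases j <;> first
    | (exfalso; revert hij; decide)
    | (refine ⟨?_, ?_⟩
       · first
         | exact (d _ ‹_› _ ‹_›).1
         | exact (d _ ‹_› _ ‹_›).2
         | assumption
       · first
         | (refine ⟨fun _ => by assumption, fun _ => by decide⟩)
         | (refine ⟨fun h => absurd h (by decide), fun h => ?_⟩
            first
              | exact absurd h (hS _ ‹_› _ ‹_›)
              | exact absurd h (hT _ ‹_› _ ‹_›)
              | exact absurd h ‹_›))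

theorem badhit_aux (hST : Disjoint S T) (hS : ∀ u ∈ S, ∀ v ∈ S, ¬ G.Adj u v)
    (hT : ∀ u ∈ T, ∀ v ∈ T, ¬ G.Adj u v) (hF : ¬ P1_S113.IsIndContained G) :
    BadHit G.Adj S T := by
  intro c y x l1 l2 z hbad p hp
  obtain ⟨hc, hy, hx, hl1, hl2, hz, el, cx, yx, cl1, yl1, cl2, yl2, yz, cz⟩ := hbad
  by_contra hcon
  push Not at hcon
  obtain ⟨px, pl1, pl2, pz⟩ := hcon
  apply hF
  have d : ∀ a ∈ S, ∀ b ∈ T, a ≠ b ∧ b ≠ a := by
    intro a ha b hb
    have : a ≠ b := by
      rintro rfl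
      exact Finset.disjoint_left.1 hST ha hb
    exact ⟨this, this.symm⟩
  have m : ∀ x y : V, ¬ G.Adj x y → ¬ G.Adj y x := fun x y h h' => h h'.symm
  have e1 : c ≠ y := by rintro rfl; exact cz yz
  have e2 : l1 ≠ x := by rintro rfl; exact yl1 yx
  have e3 : l2 ≠ x := by rintro rfl; exact yl2 yx
  have e4 : l1 ≠ z := by rintro rfl; exact yl1 yz
  have e5 : l2 ≠ z := by rintro rfl; exact yl2 yz
  have e6 : x ≠ z := by rintro rfl; exact cz cx
  have e7 : c ≠ p := by rintro rfl; exact px cx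
  have e8 : y ≠ p := by rintro rfl; exact pz yz
  have yx' := yx.symm
  have yl1' := m _ _ yl1
  have yl2' := m _ _ yl2
  have px' := m _ _ px
  have pl1' := m _ _ pl1
  have pl2' := m _ _ pl2
  have pz' := m _ _ pz
  apply ind_of G ![c, l1, l2, x, y, z, p]
  intro i j hij
  fin_cases i <;> fin_cases j <;> first
    | (exfalso; revert hij; decide)
    | (refine ⟨?_, ?_⟩
       · first
         | exact (d _ ‹_› _ ‹_›).1
         | exact (d _ ‹_› _ ‹_›).2
         | assumption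
       · first
         | (refine ⟨fun _ => by assumption, fun _ => by decide⟩)
         | (refine ⟨fun h => absurd h (by decide), fun h => ?_⟩
            first
              | exact absurd h (hS _ ‹_› _ ‹_›)
              | exact absurd h (hT _ ‹_› _ ‹_›)
              | exact absurd h ‹_›))

theorem deg_aux (hST : Disjoint S T) (hS : ∀ u ∈ S, ∀ v ∈ S, ¬ G.Adj u v)
    (hT : ∀ u ∈ T, ∀ v ∈ T, ¬ G.Adj u v) (hF : ¬ K13_3P1.IsIndContained G) :
    ∀ a ∈ S, (T.filter (fun b => G.Adj a b)).card ≤ 2 ∨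
      (T.filter (fun b => ¬ G.Adj a b)).card ≤ 2 := by
  intro a ha
  by_contra hcon
  push Not at hcon
  obtain ⟨hc1, hc2⟩ := hcon
  obtain ⟨b1, b2, b3, hb1, hb2, hb3, e1, e2, e3⟩ := Finset.two_lt_card_iff.1 hc1
  obtain ⟨b4, b5, b6, hb4, hb5, hb6, e4, e5, e6⟩ := Finset.two_lt_card_iff.1 hc2
  simp only [Finset.mem_filter] at hb1 hb2 hb3 hb4 hb5 hb6
  obtain ⟨t1, h1⟩ := hb1
  obtain ⟨t2, h2⟩ := hb2
  obtain ⟨t3, h3⟩ := hb3
  obtain ⟨t4, n4⟩ := hb4
  obtain ⟨t5, n5⟩ := hb5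
  obtain ⟨t6, n6⟩ := hb6
  apply hF
  have d : ∀ a ∈ S, ∀ b ∈ T, a ≠ b ∧ b ≠ a := by
    intro a ha b hb
    have : a ≠ b := by
      rintro rfl
      exact Finset.disjoint_left.1 hST ha hb
    exact ⟨this, this.symm⟩
  have m : ∀ x y : V, ¬ G.Adj x y → ¬ G.Adj y x := fun x y h h' => h h'.symm
  have f14 : b1 ≠ b4 := by rintro rfl; exact n4 h1
  have f15 : b1 ≠ b5 := by rintro rfl; exact n5 h1
  have f16 : b1 ≠ b6 := by rintro rfl; exact n6 h1
  have f24 : b2 ≠ b4 := by rintro rfl; exact n4 h2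
  have f25 : b2 ≠ b5 := by rintro rfl; exact n5 h2
  have f26 : b2 ≠ b6 := by rintro rfl; exact n6 h2
  have f34 : b3 ≠ b4 := by rintro rfl; exact n4 h3
  have f35 : b3 ≠ b5 := by rintro rfl; exact n5 h3
  have f36 : b3 ≠ b6 := by rintro rfl; exact n6 h3
  apply ind_of G ![a, b1, b2, b3, b4, b5, b6]
  intro i j hij
  fin_cases i <;> fin_cases j <;> first
    | (exfalso; revert hij; decide)
    | (refine ⟨?_, ?_⟩
       · first
         | exact (d _ ‹_› _ ‹_›).1
         | exact (d _ ‹_› _ ‹_›).2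
         | assumption
       · first
         | (refine ⟨fun _ => by assumption, fun _ => by decide⟩)
         | (refine ⟨fun h => absurd h (by decide), fun h => ?_⟩
            first
              | exact absurd h (hS _ ‹_› _ ‹_›)
              | exact absurd h (hT _ ‹_› _ ‹_›)
              | exact absurd h ‹_›))

theorem lam_of_free (hST : Disjoint S T) (hS : ∀ u ∈ S, ∀ v ∈ S, ¬ G.Adj u v)
    (hT : ∀ u ∈ T, ∀ v ∈ T, ¬ G.Adj u v) (hF : ¬ S122.IsIndContained G) :
    Lam G.Adj S T ∧ Lam (fun b a => G.Adj a b) T S := by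
  rw [adj_swap]
  exact ⟨lam_aux G S T hST hS hT hF, lam_aux G T S hST.symm hT hS hF⟩

theorem star_of_free (hST : Disjoint S T) (hS : ∀ u ∈ S, ∀ v ∈ S, ¬ G.Adj u v)
    (hT : ∀ u ∈ T, ∀ v ∈ T, ¬ G.Adj u v) (hF : ¬ K13_P2.IsIndContained G) :
    Star G.Adj S T ∧ Star (fun b a => G.Adj a b) T S := by
  rw [adj_swap]
  exact ⟨star_aux G S T hST hS hT hF, star_aux G T S hST.symm hT hS hF⟩

theorem bad_of_free (hST : Disjoint S T) (hS : ∀ u ∈ S, ∀ v ∈ S, ¬ G.Adj u v)
    (hT : ∀ u ∈ T, ∀ v ∈ T, ¬ G.Adj u v) (hF : ¬ P1_S113.IsIndContained G) :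
    BadHit G.Adj S T ∧ BadCover G.Adj S T ∧ BadHit (fun b a => G.Adj a b) T S ∧
      BadCover (fun b a => G.Adj a b) T S := by
  rw [adj_swap]
  exact ⟨badhit_aux G S T hST hS hT hF, badcover_aux G S T hST hS hT hF,
    badhit_aux G T S hST.symm hT hS hF, badcover_aux G T S hST.symm hT hS hF⟩

theorem deg_of_free (hST : Disjoint S T) (hS : ∀ u ∈ S, ∀ v ∈ S, ¬ G.Adj u v)
    (hT : ∀ u ∈ T, ∀ v ∈ T, ¬ G.Adj u v) (hF : ¬ K13_3P1.IsIndContained G) :
    (∀ a ∈ S, (T.filter (fun b => G.Adj a b)).card ≤ 2 ∨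
      (T.filter (fun b => ¬ G.Adj a b)).card ≤ 2) ∧
    (∀ b ∈ T, (S.filter (fun a => G.Adj a b)).card ≤ 2 ∨
      (S.filter (fun a => ¬ G.Adj a b)).card ≤ 2) := by
  refine ⟨deg_aux G S T hST hS hT hF, ?_⟩
  intro b hb
  have := deg_aux G T S hST.symm hT hS hF b hb
  simp only [G.adj_comm b] at this
  exact this

end Pool.Agent.Helper856.Lcw.FreeL
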