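import Pool.Agent.Helper856.Lcw.GBase

open Classical SimpleGraph

namespace Pool.Agent.Helper856.Lcw.GB

/-- `B K S A l`: the graph with adjacency `A` on the subset `S` of `V`, labelled by `l`, can be
built (up to isomorphism). -/
def B {V : Type} (K : ℕ) (S : Set V) (A : V → V → Prop) (l : V → Fin K) : Prop :=
  ∃ (W : Type) (G' : SimpleGraph W) (l' : W → Fin K) (e : W → V), LinBuilt K W G' l' ∧
    Function.Injective e ∧ Set.range e = S ∧ (∀ a b, G'.Adj a b ↔ A (e a) (e b)) ∧
    (∀ a, l' a = l (e a))

namespace B
variable {V : Type} {K : ℕ} {S : Set V} {A A' : V → V → Prop} {l l' : V → Fin K}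

lemma congr (h : B K S A l) (hA : ∀ u ∈ S, ∀ v ∈ S, (A u v ↔ A' u v)) (hl : ∀ u ∈ S, l u = l' u) :
    B K S A' l' := by
  obtain ⟨W, G', m, e, h1, h2, h3, h4, h5⟩ := h
  refine ⟨W, G', m, e, h1, h2, h3, ?_, ?_⟩
  · intro a b
    rw [h4]
    exact hA _ (h3 ▸ ⟨a, rfl⟩) _ (h3 ▸ ⟨b, rfl⟩)
  · intro a
    rw [h5]
    exact hl _ (h3 ▸ ⟨a, rfl⟩)

lemma single (x : V) (i : Fin K) : B K {x} (fun _ _ => False) (fun _ => i) := by
  refine ⟨Unit, ⊥, fun _ => i, fun _ => x, LinBuilt.single i, fun _ _ _ => rfl, ?_, ?_, ?_⟩
  · ext v; simp [eq_comm]
  · intro a b; simp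
  · intro a; rfl

lemma addVertex (h : B K S A l) (x : V) (hx : x ∉ S) (i : Fin K) :
    B K (insert x S) (fun u v => u ≠ x ∧ v ≠ x ∧ A u v) (fun v => if v = x then i else l v) := by
  obtain ⟨W, G', m, e, h1, h2, h3, h4, h5⟩ := h
  have hex : ∀ a, e a ≠ x := fun a ha => hx (h3 ▸ ⟨a, ha⟩)
  refine ⟨W ⊕ Unit, G' ⊕g ⊥, Sum.elim m (fun _ => i), Sum.elim e (fun _ => x),
    LinBuilt.union W Unit G' ⊥ m (fun _ => i) (Or.inr (by simp)) h1 (LinBuilt.single i), ?_, ?_, ?_, ?_⟩
  · rintro (a | a) (b | b) hab
    · simp only [Sum.elim_inl] at hab
      rw [h2 hab]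
    · exact absurd hab (hex a)
    · exact absurd hab.symm (hex b)
    · rfl
  · ext v
    simp only [Set.mem_range, Sum.exists, Sum.elim_inl, Sum.elim_inr, Set.mem_insert_iff, ← h3]
    constructor
    · rintro (⟨a, ha⟩ | ⟨a, ha⟩)
      · exact Or.inr ⟨a, ha⟩
      · exact Or.inl ha.symm
    · rintro (ha | ⟨a, ha⟩)
      · exact Or.inr ⟨(), ha.symm⟩
      · exact Or.inl ⟨a, ha⟩
  · rintro (a | a) (b | b)
    · simp [h4, hex]
    · simp
    · simp
    · simp
  · rintro (a | a)
    · simp [h5, hex]
    · simp

lemma join (h : B K S A l) (i j : Fin K) (hij : i ≠ j) :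
    B K S (fun u v => A u v ∨ (u ≠ v ∧ ((l u = i ∧ l v = j) ∨ (l v = i ∧ l u = j)))) l := by
  obtain ⟨W, G', m, e, h1, h2, h3, h4, h5⟩ := h
  refine ⟨W, _, m, e, LinBuilt.join W G' m i j hij h1, h2, h3, ?_, h5⟩
  intro a b
  simp only [SimpleGraph.sup_adj, SimpleGraph.fromRel_adj, h4, h5, h2.ne_iff]

lemma relabel (h : B K S A l) (i j : Fin K) :
    B K S A (fun v => if l v = i then j else l v) := by
  obtain ⟨W, G', m, e, h1, h2, h3, h4, h5⟩ := h
  refine ⟨W, _, _, e, LinBuilt.relabel W G' m i j h1, h2, h3, h4, ?_⟩
  intro a
  simp only [h5]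

lemma joinMany (h : B K S A l) (i : Fin K) (J : Finset (Fin K)) (hJ : i ∉ J) :
    B K S (fun u v => A u v ∨ (u ≠ v ∧ ((l u = i ∧ l v ∈ J) ∨ (l v = i ∧ l u ∈ J)))) l := by
  induction J using Finset.induction_on with
  | empty => exact h.congr (by intro u _ v _; simp) (fun _ _ => rfl)
  | insert j J hj ih =>
    have hJ' : i ∉ J := fun hc => hJ (Finset.mem_insert_of_mem hc)
    have hij : i ≠ j := fun hc => hJ (hc ▸ Finset.mem_insert_self _ _)
    refine ((ih hJ').join i j hij).congr ?_ (fun _ _ => rfl)
    intro u _ v _
    simp only [Finset.mem_insert]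
    tauto

lemma relabelMany (h : B K S A l) (D : Finset (Fin K)) (f : Fin K → Fin K)
    (hf : ∀ i ∈ D, f i ∉ D) :
    B K S A (fun v => if l v ∈ D then f (l v) else l v) := by
  have key : ∀ D' : Finset (Fin K), D' ⊆ D →
      B K S A (fun v => if l v ∈ D' then f (l v) else l v) := by
    intro D'
    induction D' using Finset.induction_on with
    | empty => intro _; exact h.congr (by intro u _ v _; simp) (by intro u _; simp)
    | insert i D' hi ih =>
      intro hD
      have hD' : D' ⊆ D := fun a ha => hD (Finset.mem_insert_of_mem ha)
      have hiD : i ∈ D := hD (Finset.mem_insert_self _ _)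
      refine ((ih hD').relabel i (f i)).congr (by intro u _ v _; rfl) ?_
      intro u _
      simp only [Finset.mem_insert]
      by_cases h1 : l u ∈ D'
      · simp only [h1, if_true, or_true]
        have : f (l u) ≠ i := fun hc => hf _ (hD' h1) (hc ▸ hiD)
        simp [this]
      · simp only [h1, if_false, or_false]
        by_cases h2 : l u = i
        · simp [h2]
        · simp [h2]
  exact key D (Finset.Subset.refl _)

end B

theorem lcwLE_of_GLin {V : Type} [Finite V] [Nonempty V] (G : SimpleGraph V) (k : ℕ)
    (h : GLin k G) : LcwLE G (2 * k + 1) := by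
  obtain ⟨p, hp, hc⟩ := h
  have main : ∀ t : ℕ, (∃ v, p v < t) → ∃ l : V → Fin (2 * k + 1),
      B (2 * k + 1) {v | p v < t} G.Adj l ∧ (∀ v, p v < t → (l v : ℕ) < k) ∧
      (∀ u v, p u < t → p v < t → l u = l v → ∀ w, t ≤ p w → (G.Adj u w ↔ G.Adj v w)) := by
    intro t
    induction t with
    | zero => rintro ⟨v, hv⟩; omega
    | succ t ih =>
      intro hex
      by_cases hx : ∃ x, p x = t
      · obtain ⟨x, hx⟩ := hx
        obtain ⟨c, hc⟩ := hc (t + 1)
        have hk : 0 < k := (Nat.zero_le _).trans_lt (c x).isLt
        have hmem : ∀ v, p v < t + 1 ↔ v = x ∨ p v < t := by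
          intro v
          constructor
          · intro hv
            by_cases h1 : p v = t
            · exact Or.inl (hp (h1.trans hx.symm))
            · right; omega
          · rintro (rfl | h1)
            · omega
            · omega
        have hset : {v | p v < t + 1} = insert x {v | p v < t} := by
          ext v
          rw [Set.mem_insert_iff]
          exact hmem v
        by_cases hne : ∃ v, p v < t
        · obtain ⟨l, hB, hlk, hl⟩ := ih hne
          set top : Fin (2 * k + 1) := ⟨2 * k, by omega⟩ with htop
          have hxS : x ∉ {v | p v < t} := by simp [hx]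
          have hltop : ∀ v, p v < t → l v ≠ top := by
            intro v hv hc
            have := hlk v hv
            rw [hc] at this
            simp only [htop] at this
            omega
          have hvx : ∀ v, p v < t → v ≠ x := by
            rintro v hv rfl
            omega
          have b1 := hB.addVertex x hxS top
          set l1 : V → Fin (2 * k + 1) := fun v => if v = x then top else l v with hl1
          have hl1x : l1 x = top := by simp [hl1]
          have hl1v : ∀ v, p v < t → l1 v = l v := fun v hv => by simp [hl1, hvx v hv]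
          set J : Finset (Fin (2 * k + 1)) :=
            Finset.univ.filter (fun i => ∃ v, p v < t ∧ l v = i ∧ G.Adj v x) with hJ
          have hJtop : top ∉ J := by
            simp only [hJ, Finset.mem_filter, Finset.mem_univ, true_and, not_exists, not_and]
            intro v hv hlv
            exact absurd hlv (hltop v hv)
          have hJmem : ∀ v, p v < t → (l v ∈ J ↔ G.Adj v x) := by
            intro v hv
            simp only [hJ, Finset.mem_filter, Finset.mem_univ, true_and]
            constructor
            · rintro ⟨u, hu, hlu, hadj⟩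
              exact (hl u v hu hv hlu x hx.ge).1 hadj
            · intro hadj
              exact ⟨v, hv, rfl, hadj⟩
          have b2 : B (2 * k + 1) {v | p v < t + 1} G.Adj l1 := by
            rw [hset]
            refine (b1.joinMany top J hJtop).congr ?_ (fun _ _ => rfl)
            intro u hu v hv
            rw [Set.mem_insert_iff, Set.mem_ofPred_eq] at hu hv
            rcases hu with rfl | hu <;> rcases hv with rfl | hv
            · simp
            · rw [hl1x, hl1v v hv]
              have := hltop v hv
              have h2 := hvx v hv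
              simp only [ne_eq, not_true_eq_false, false_and, false_or, true_and, hJmem v hv,
                this, or_false, G.adj_comm]
              exact ⟨fun h => h.2, fun h => ⟨h2.symm, h⟩⟩
            · rw [hl1x, hl1v u hu]
              have := hltop u hu
              have h2 := hvx u hu
              simp only [ne_eq, not_true_eq_false, false_and, and_false, false_or, true_and,
                hJmem u hu, this]
              exact ⟨fun h => h.2, fun h => ⟨h2, h⟩⟩
            · rw [hl1v u hu, hl1v v hv]
              simp [hltop u hu, hltop v hv, hvx u hu, hvx v hv]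
          -- representatives
          have hr : ∀ i : Fin (2 * k + 1), ∃ r : V, (∃ v, p v < t + 1 ∧ l1 v = i) →
              (p r < t + 1 ∧ l1 r = i) := by
            intro i
            by_cases h1 : ∃ v, p v < t + 1 ∧ l1 v = i
            · obtain ⟨v, hv⟩ := h1
              exact ⟨v, fun _ => hv⟩
            · exact ⟨x, fun h => absurd h h1⟩
          choose r hr using hr
          let f : Fin (2 * k + 1) → Fin (2 * k + 1) := fun i =>
            ⟨k + (c (r i) : ℕ), by have := (c (r i)).isLt; omega⟩
          let D : Finset (Fin (2 * k + 1)) :=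
            Finset.univ.filter (fun i => (i : ℕ) < k ∨ (i : ℕ) = 2 * k)
          have b3 := b2.relabelMany D f (by
            intro i _
            simp only [D, f, Finset.mem_filter, Finset.mem_univ, true_and]
            have := (c (r i)).isLt
            omega)
          set l2 : V → Fin (2 * k + 1) := fun v => if l1 v ∈ D then f (l1 v) else l1 v with hl2
          let D' : Finset (Fin (2 * k + 1)) :=
            Finset.univ.filter (fun i => k ≤ (i : ℕ) ∧ (i : ℕ) < 2 * k)
          let f' : Fin (2 * k + 1) → Fin (2 * k + 1) := fun i => ⟨(i : ℕ) - k, by omega⟩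
          have b4 := b3.relabelMany D' f' (by
            intro i hi
            simp only [D', f', Finset.mem_filter, Finset.mem_univ, true_and] at *
            omega)
          set l3 : V → Fin (2 * k + 1) := fun v => if l2 v ∈ D' then f' (l2 v) else l2 v with hl3
          have hval : ∀ v, p v < t + 1 → (l3 v : ℕ) = (c (r (l1 v)) : ℕ) := by
            intro v hv
            have h1 : l1 v ∈ D := by
              simp only [D, Finset.mem_filter, Finset.mem_univ, true_and]
              rcases (hmem v).1 hv with rfl | hv'
              · right; rw [hl1x]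
              · left; rw [hl1v v hv']; exact hlk v hv'
            have h2 : l2 v = f (l1 v) := by simp only [hl2, h1, if_true]
            have h3 : l2 v ∈ D' := by
              rw [h2]
              simp only [D', f, Finset.mem_filter, Finset.mem_univ, true_and]
              have := (c (r (l1 v))).isLt
              omega
            simp only [hl3, h3, if_true]
            rw [h2]
            simp only [f, f']
            omega
          refine ⟨l3, b4, ?_, ?_⟩
          · intro v hv
            rw [hval v hv]
            exact (c _).isLt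
          · intro u v hu hv huv w hw
            have h1 : ((l3 u : Fin (2 * k + 1)) : ℕ) = (l3 v : ℕ) := by rw [huv]
            rw [hval u hu, hval v hv] at h1
            have h2 : c (r (l1 u)) = c (r (l1 v)) := Fin.ext h1
            have hru := hr (l1 u) ⟨u, hu, rfl⟩
            have hrv := hr (l1 v) ⟨v, hv, rfl⟩
            have h3 := hc _ _ hru.1 hrv.1 h2 w hw
            have key : ∀ a b, p a < t + 1 → p b < t + 1 → l1 a = l1 b →
                (G.Adj a w ↔ G.Adj b w) := by
              intro a b ha hb hab
              rcases (hmem a).1 ha with rfl | ha' <;> rcases (hmem b).1 hb with hb' | hb'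
              · rw [hb']
              · rw [hl1x, hl1v b hb'] at hab
                exact absurd hab.symm (hltop b hb')
              · rw [hb', hl1x, hl1v a ha'] at hab
                exact absurd hab (hltop a ha')
              · rw [hl1v a ha', hl1v b hb'] at hab
                exact hl a b ha' hb' hab w (by omega)
            rw [key u _ hu hru.1 hru.2.symm, h3, key _ v hrv.1 hv hrv.2]
        · have hset' : {v | p v < t + 1} = {x} := by
            ext v
            simp only [Set.mem_ofPred_eq, Set.mem_singleton_iff, hmem v]
            constructor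
            · rintro (h1 | h1)
              · exact h1
              · exact absurd ⟨v, h1⟩ hne
            · intro h1; exact Or.inl h1
          refine ⟨fun _ => ⟨0, by omega⟩, ?_, fun _ _ => hk, ?_⟩
          · rw [hset']
            refine (B.single x _).congr ?_ (fun _ _ => rfl)
            rintro u rfl v hv
            rw [Set.mem_singleton_iff] at hv
            rw [hv]; simp
          · intro u v hu hv _ w _
            have hu' : u ∈ ({x} : Set V) := hset' ▸ hu
            have hv' : v ∈ ({x} : Set V) := hset' ▸ hv
            rw [Set.mem_singleton_iff] at hu' hv'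
            rw [hu', hv']
      · have hiff : ∀ v, p v < t + 1 ↔ p v < t := by
          intro v
          constructor
          · intro hv
            have : p v ≠ t := fun h => hx ⟨v, h⟩
            omega
          · intro hv; omega
        have hset : {v | p v < t + 1} = {v | p v < t} := by
          ext v; exact hiff v
        obtain ⟨l, hB, hlk, hl⟩ := ih (by
          obtain ⟨v, hv⟩ := hex
          exact ⟨v, (hiff v).1 hv⟩)
        refine ⟨l, hset ▸ hB, fun v hv => hlk v ((hiff v).1 hv), ?_⟩
        intro u v hu hv huv w hw
        exact hl u v ((hiff u).1 hu) ((hiff v).1 hv) huv w (by omega)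
  obtain ⟨T, hT⟩ : ∃ T, ∀ v, p v < T := by
    obtain ⟨M, hM⟩ := (Set.finite_range p).bddAbove
    exact ⟨M + 1, fun v => Nat.lt_succ_of_le (hM ⟨v, rfl⟩)⟩
  obtain ⟨l, hB, _, _⟩ := main T ⟨Classical.arbitrary V, hT _⟩
  obtain ⟨W, G', m, e, h1, h2, h3, h4, h5⟩ := hB
  have hsurj : Function.Surjective e := by
    intro v
    have : v ∈ Set.range e := by rw [h3]; exact hT v
    exact this
  let E : W ≃ V := Equiv.ofBijective e ⟨h2, hsurj⟩
  exact ⟨W, G', m, h1, ⟨(⟨E, by intro a b; exact (h4 a b).symm⟩ : G' ≃g G).symm⟩⟩

end Pool.Agent.Helper856.Lcw.GB
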