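import Pool.Agent.Helper856.Lcw.Base

open Classical SimpleGraph

namespace Pool.Agent.Helper856.Lcw.NSL

variable {α β : Type} {E E' : α → β → Prop} {A A' : Finset α} {B B' : Finset β} {k l : ℕ}

theorem family_center (F : Set (Finset α)) (m : ℕ) (hm : ∀ S ∈ F, S.card = m)
    (hF : ∀ S ∈ F, ∀ T ∈ F, (S \ T).card ≤ 1) :
    ∃ U : Finset α, ∀ S ∈ F, (S \ U).card + (U \ S).card ≤ 1 := by
  have two : ∀ (S : Finset α) (x y : α), S.card ≤ 1 → x ∈ S → y ∈ S → x = y := by
    intro S x y hS hx hy
    exact Finset.card_le_one.1 hS x hx y hy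
  by_cases h0 : ∀ S ∈ F, ∀ T ∈ F, S = T
  · by_cases hne : ∃ S, S ∈ F
    · obtain ⟨S, hS⟩ := hne
      refine ⟨S, fun T hT => ?_⟩
      rw [h0 T hT S hS]
      simp
    · exact ⟨∅, fun S hS => absurd ⟨S, hS⟩ hne⟩
  · push Not at h0
    obtain ⟨S, hS, T, hT, hST⟩ := h0
    have cS := hm S hS
    have cT := hm T hT
    have k1 := Finset.card_sdiff_add_card_inter S T
    have k2 := Finset.card_sdiff_add_card_inter T S
    have k3 := Finset.card_union_add_card_inter S T
    rw [Finset.inter_comm T S] at k2
    have k4 : 1 ≤ (S \ T).card := by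
      by_contra hc
      have : S \ T = ∅ := Finset.card_eq_zero.1 (by omega)
      exact hST (Finset.eq_of_subset_of_card_le (Finset.sdiff_eq_empty_iff_subset.1 this) (by omega))
    have k5 := hF S hS T hT
    set I := S ∩ T with hI
    set W := S ∪ T with hW
    have hIW : I ⊆ W := fun x hx => Finset.mem_union_left _ (Finset.mem_inter.1 hx).1
    have sub : ∀ Z ∈ F, ∀ i ∈ I, i ∉ Z → Z = W.erase i := by
      intro Z hZ i hi hiZ
      symm
      have hi' := Finset.mem_inter.1 hi
      refine Finset.eq_of_subset_of_card_le ?_ ?_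
      · intro w hw
        rw [Finset.mem_erase] at hw
        by_contra hwZ
        rcases Finset.mem_union.1 hw.2 with h | h
        · exact hw.1 (two _ w i (hF S hS Z hZ) (Finset.mem_sdiff.2 ⟨h, hwZ⟩)
            (Finset.mem_sdiff.2 ⟨hi'.1, hiZ⟩))
        · exact hw.1 (two _ w i (hF T hT Z hZ) (Finset.mem_sdiff.2 ⟨h, hwZ⟩)
            (Finset.mem_sdiff.2 ⟨hi'.2, hiZ⟩))
      · rw [hm Z hZ, Finset.card_erase_of_mem (hIW hi)]
        omega
    by_cases hall : ∀ Y ∈ F, I ⊆ Y
    · refine ⟨I, fun Y hY => ?_⟩
      rw [Finset.sdiff_eq_empty_iff_subset.2 (hall Y hY), Finset.card_empty,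
        Finset.card_sdiff_of_subset (hall Y hY), hm Y hY]
      omega
    · push Not at hall
      obtain ⟨X, hX, hIX⟩ := hall
      obtain ⟨i, hi, hiX⟩ := Finset.not_subset.1 hIX
      have hXW := sub X hX i hi hiX
      refine ⟨W, fun Y hY => ?_⟩
      have hYW : Y ⊆ W := by
        by_cases hIY : I ⊆ Y
        · intro y hy
          by_contra hyW
          have h1 : y ∈ Y \ X := by
            rw [Finset.mem_sdiff]
            refine ⟨hy, fun hyX => hyW ?_⟩
            rw [hXW] at hyX
            exact Finset.mem_of_mem_erase hyX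
          have h2 : i ∈ Y \ X := Finset.mem_sdiff.2 ⟨hIY hi, hiX⟩
          have h3 := two _ y i (hF Y hY X hX) h1 h2
          exact hyW (h3 ▸ hIW hi)
        · obtain ⟨i', hi', hiY⟩ := Finset.not_subset.1 hIY
          rw [sub Y hY i' hi' hiY]
          exact Finset.erase_subset _ _
      rw [Finset.sdiff_eq_empty_iff_subset.2 hYW, Finset.card_empty,
        Finset.card_sdiff_of_subset hYW, hm Y hY]
      omega

/-- TARGET -/
theorem NS_lemma
    (h : ∀ b ∈ B, ∀ b' ∈ B, (∀ a ∈ A, E a b → E a b') ∨ (∀ a ∈ A, E a b' → E a b) ∨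
      ((A.filter (fun a => E a b ∧ ¬ E a b')).card ≤ 1 ∧
       (A.filter (fun a => E a b' ∧ ¬ E a b)).card ≤ 1)) : BLin 5 E A B := by
  let N : β → Finset α := fun b => A.filter (fun a => E a b)
  let d : β → ℕ := fun b => (N b).card
  let key : α → ℕ := fun a => (B.filter (fun b => ¬ E a b)).sup d
  set M := A.card with hM
  have hdM : ∀ b, d b ≤ M := fun b => Finset.card_le_card (Finset.filter_subset _ _)
  have hkM : ∀ a, key a ≤ M := fun a => Finset.sup_le fun b _ => hdM b
  have hkey_ge : ∀ a, ∀ b ∈ B, ¬ E a b → d b ≤ key a := fun a b hb hE =>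
    Finset.le_sup (f := d) (Finset.mem_filter.2 ⟨hb, hE⟩)
  have hkey_ex : ∀ a, 0 < key a → ∃ b ∈ B, ¬ E a b ∧ d b = key a := by
    intro a ha
    have hne : (B.filter (fun b => ¬ E a b)).Nonempty := by
      by_contra hc
      rw [Finset.not_nonempty_iff_eq_empty] at hc
      have : key a = 0 := by simp only [key, hc, Finset.sup_empty]; rfl
      omega
    obtain ⟨b, hb, hb'⟩ := Finset.exists_mem_eq_sup _ hne d
    rw [Finset.mem_filter] at hb
    exact ⟨b, hb.1, hb.2, hb'.symm⟩
  have hsd : ∀ b b', N b \ N b' = A.filter (fun a => E a b ∧ ¬ E a b') := by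
    intro b b'
    ext a
    simp only [N, Finset.mem_sdiff, Finset.mem_filter]
    tauto
  have later : ∀ a ∈ A, ∀ b ∈ B, d b < key a → ¬ E a b := by
    intro a ha b hb hlt hE
    obtain ⟨b', hb', hE', hd'⟩ := hkey_ex a (by omega)
    rcases h b hb b' hb' with h1 | h1 | ⟨h1, h2⟩
    · exact hE' (h1 a ha hE)
    · have : d b' ≤ d b := by
        refine Finset.card_le_card fun x hx => ?_
        simp only [N, Finset.mem_filter] at hx ⊢
        exact ⟨hx.1, h1 x hx.1 hx.2⟩
      omega
    · rw [← hsd] at h1 h2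
      have k1 : 1 ≤ (N b \ N b').card := by
        rw [Nat.one_le_iff_ne_zero, Ne, Finset.card_eq_zero]
        intro hc
        have : a ∈ N b \ N b' := by
          rw [hsd]
          exact Finset.mem_filter.2 ⟨ha, hE, hE'⟩
        rw [hc] at this
        exact absurd this (Finset.notMem_empty a)
      have k2 := Finset.card_sdiff_add_card_inter (N b) (N b')
      have k3 := Finset.card_sdiff_add_card_inter (N b') (N b)
      rw [Finset.inter_comm] at k3
      have k4 : (N b).card = d b := rfl
      have k5 : (N b').card = d b' := rfl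
      omega
  have res := BLin.lex (E := E) (A := A) (B := B) 1 4 (fun a => M - key a) (fun b => M - d b) ?_ ?_ ?_
  · exact res
  · intro n
    set An := A.filter (fun a => M - key a = n) with hAn
    set Bn := B.filter (fun b => M - d b = n) with hBn
    obtain ⟨U, hU⟩ := family_center (α := α) {S | ∃ b ∈ Bn, S = N b} (M - n) (by
      rintro S ⟨b, hb, rfl⟩
      rw [hBn, Finset.mem_filter] at hb
      have h1 := hdM b
      show d b = M - n
      omega) (by
      rintro S ⟨b, hb, rfl⟩ T ⟨b', hb', rfl⟩
      rw [hBn, Finset.mem_filter] at hb hb'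
      have h1 := hdM b
      have h2 := hdM b'
      have h3 : (N b).card = (N b').card := by
        show d b = d b'
        omega
      rcases h b hb.1 b' hb'.1 with h4 | h4 | ⟨h4, -⟩
      · have : N b ⊆ N b' := by
          intro x hx
          simp only [N, Finset.mem_filter] at hx ⊢
          exact ⟨hx.1, h4 x hx.1 hx.2⟩
        rw [Finset.sdiff_eq_empty_iff_subset.2 this]
        simp
      · have h5 : N b' ⊆ N b := by
          intro x hx
          simp only [N, Finset.mem_filter] at hx ⊢
          exact ⟨hx.1, h4 x hx.1 hx.2⟩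
        rw [Finset.eq_of_subset_of_card_le h5 h3.le]
        simp
      · rw [hsd]; exact h4)
    have hstar : BLin 2 (fun b a => (E a b ↔ ¬ (a ∈ U))) Bn An := by
      refine star_lemma fun b hb => ?_
      have h1 := hU (N b) ⟨b, hb, rfl⟩
      have h2 : An.filter (fun a => (E a b ↔ ¬ (a ∈ U))) ⊆ (N b \ U) ∪ (U \ N b) := by
        intro a ha
        rw [Finset.mem_filter, hAn, Finset.mem_filter] at ha
        rw [Finset.mem_union, Finset.mem_sdiff, Finset.mem_sdiff]
        simp only [N, Finset.mem_filter]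
        tauto
      have h3 := (Finset.card_le_card h2).trans ((Finset.card_union_le _ _).trans h1)
      refine le_trans (le_of_eq (congrArg Finset.card ?_)) h3
      ext a
      simp only [Finset.mem_filter]
    exact BLin.xor (fun a => a ∈ U) hstar.swap
  · intro n
    refine ⟨fun _ => 0, fun a ha a' ha' h1 h2 _ b hb h3 => ?_⟩
    have k1 := hkM a
    have k2 := hkM a'
    have k3 := hdM b
    have e1 := later a ha b hb (by omega)
    have e2 := later a' ha' b hb (by omega)
    exact ⟨fun h => absurd h e1, fun h => absurd h e2⟩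
  · intro n
    refine ⟨fun _ => 0, fun b hb b' hb' h1 h2 _ a ha h3 => ?_⟩
    have k1 := hkM a
    have k2 := hdM b
    have k3 := hdM b'
    have e1 : E a b := by
      by_contra hE
      have := hkey_ge a b hb hE
      omega
    have e2 : E a b' := by
      by_contra hE
      have := hkey_ge a b' hb' hE
      omega
    exact ⟨fun _ => e2, fun _ => e1⟩

end Pool.Agent.Helper856.Lcw.NSL
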