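import Pool.Agent.Helper856.Lcw.Base

open Classical SimpleGraph

namespace Pool.Agent.Helper856.Lcw.PathL

variable {α β : Type} {E E' : α → β → Prop} {A A' : Finset α} {B B' : Finset β} {k l : ℕ}

/-- crossing edges -/
noncomputable def CE {α β : Type} (E : α → β → Prop) (A : Finset α) (B : Finset β) (X : Finset α) (Y : Finset β) :
    Finset (α × β) :=
  (A ×ˢ B).filter (fun e => E e.1 e.2 ∧ ((e.1 ∈ X ∧ e.2 ∉ Y) ∨ (e.1 ∉ X ∧ e.2 ∈ Y)))

theorem mem_CE {α β : Type} {E : α → β → Prop} {A : Finset α} {B : Finset β} {X : Finset α} {Y : Finset β}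
    {e : α × β} : e ∈ CE E A B X Y ↔ (e.1 ∈ A ∧ e.2 ∈ B) ∧ E e.1 e.2 ∧ ((e.1 ∈ X ∧ e.2 ∉ Y) ∨ (e.1 ∉ X ∧ e.2 ∈ Y)) := by
  unfold CE
  rw [Finset.mem_filter, Finset.mem_product]

theorem CE_swap {α β : Type} (E : α → β → Prop) (A : Finset α) (B : Finset β) (X : Finset α) (Y : Finset β) :
    (CE (fun b a => E a b) B A Y X).card = (CE E A B X Y).card := by
  refine Finset.card_bij (fun e _ => (e.2, e.1)) ?_ ?_ ?_
  · intro e he
    rw [mem_CE] at he ⊢
    simp only at he ⊢
    tauto
  · rintro ⟨a, b⟩ _ ⟨c, d⟩ _ h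
    simp only [Prod.mk.injEq] at h ⊢
    tauto
  · rintro ⟨a, b⟩ h
    refine ⟨(b, a), ?_, rfl⟩
    rw [mem_CE] at h ⊢
    simp only at h ⊢
    tauto

/-- adding the right end of a crossing edge -/
theorem CE_add {α β : Type} {E : α → β → Prop} {A : Finset α} {B : Finset β} {X : Finset α} {Y : Finset β}
    (hB : ∀ b ∈ B, (A.filter (fun a => E a b)).card ≤ 2) (h2 : (CE E A B X Y).card ≤ 2)
    {a : α} {b : β} (hab : (a, b) ∈ CE E A B X Y) (ha : a ∈ X) :
    (CE E A B X (insert b Y)).card ≤ 2 := by
  have hab' := mem_CE.mp hab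
  simp only at hab'
  have hbB := hab'.1.2
  have hsub : CE E A B X (insert b Y) ⊆ (CE E A B X Y).erase (a, b) ∪
      ((A.filter (fun a => E a b)).erase a).image (fun x => (x, b)) := by
    rintro ⟨x, y⟩ h
    rw [mem_CE] at h
    simp only [Finset.mem_insert] at h
    rw [Finset.mem_union, Finset.mem_erase, mem_CE, Finset.mem_image]
    by_cases hy : y = b
    · right
      refine ⟨x, ?_, by rw [hy]⟩
      rw [Finset.mem_erase, Finset.mem_filter]
      rw [← hy]
      refine ⟨?_, h.1.1, h.2.1⟩
      rintro rfl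
      tauto
    · left
      refine ⟨?_, ?_⟩
      · intro h'
        simp only [Prod.mk.injEq] at h'
        exact hy h'.2
      · simp only
        tauto
  refine (Finset.card_le_card hsub).trans ((Finset.card_union_le _ _).trans ?_)
  have h3 : ((CE E A B X Y).erase (a, b)).card = (CE E A B X Y).card - 1 := Finset.card_erase_of_mem hab
  have h4 : ((A.filter (fun a => E a b)).erase a).card = (A.filter (fun a => E a b)).card - 1 :=
    Finset.card_erase_of_mem (Finset.mem_filter.mpr ⟨hab'.1.1, hab'.2.1⟩)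
  have h5 := Finset.card_image_le (s := (A.filter (fun a => E a b)).erase a) (f := fun x => (x, b))
  have h6 := hB b hbB
  have h7 : 0 < (CE E A B X Y).card := Finset.card_pos.mpr ⟨_, hab⟩
  omega

/-- adding any vertex when there is no crossing edge -/
theorem CE_add_empty {α β : Type} {E : α → β → Prop} {A : Finset α} {B : Finset β} {X : Finset α} {Y : Finset β}
    (hB : ∀ b ∈ B, (A.filter (fun a => E a b)).card ≤ 2) (h2 : CE E A B X Y = ∅) {b : β} (hb : b ∈ B) :
    (CE E A B X (insert b Y)).card ≤ 2 := by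
  have hsub : CE E A B X (insert b Y) ⊆ ((A.filter (fun a => E a b))).image (fun x => (x, b)) := by
    rintro ⟨x, y⟩ h
    rw [mem_CE] at h
    simp only [Finset.mem_insert] at h
    rw [Finset.mem_image]
    by_cases hy : y = b
    · refine ⟨x, ?_, by rw [hy]⟩
      rw [Finset.mem_filter, ← hy]
      exact ⟨h.1.1, h.2.1⟩
    · exfalso
      have : (x, y) ∈ CE E A B X Y := by
        rw [mem_CE]
        simp only
        tauto
      rw [h2] at this
      simp at this
  exact (Finset.card_le_card hsub).trans (Finset.card_image_le.trans (hB b hb))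

theorem CE_col {α β : Type} {E : α → β → Prop} {A : Finset α} {B : Finset β} {X : Finset α} {Y : Finset β}
    (hX : X ⊆ A) (h2 : (CE E A B X Y).card ≤ 2) :
    ∃ c : α → Fin 3, ∀ a ∈ X, ∀ a' ∈ X, c a = c a' → ∀ b ∈ B, b ∉ Y → (E a b ↔ E a' b) := by
  set S : Finset α := X.filter (fun a => ∃ b ∈ B, b ∉ Y ∧ E a b) with hS
  have hcard : S.card ≤ 2 := by
    have hsub : S ⊆ (CE E A B X Y).image Prod.fst := by
      intro a ha
      rw [hS, Finset.mem_filter] at ha
      obtain ⟨haX, b, hb, hbY, hE⟩ := ha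
      rw [Finset.mem_image]
      refine ⟨(a, b), ?_, rfl⟩
      rw [mem_CE]
      exact ⟨⟨hX haX, hb⟩, hE, Or.inl ⟨haX, hbY⟩⟩
    exact (Finset.card_le_card hsub).trans (Finset.card_image_le.trans h2)
  obtain ⟨f⟩ : Nonempty (S ↪ Fin 2) := Function.Embedding.nonempty_of_card_le (by simpa using hcard)
  refine ⟨fun a => if h : a ∈ S then Fin.castSucc (f ⟨a, h⟩) else Fin.last 2, ?_⟩
  intro a ha a' ha' hc b hb hbY
  by_cases h : a ∈ S <;> by_cases h' : a' ∈ S
  · simp only [h, h', dif_pos] at hc
    have := f.injective (Fin.castSucc_injective _ hc)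
    simp only [Subtype.mk.injEq] at this
    rw [this]
  · simp only [h, h', dif_pos, dif_neg, not_false_eq_true] at hc
    exact absurd hc (Fin.castSucc_ne_last _)
  · simp only [h, h', dif_pos, dif_neg, not_false_eq_true] at hc
    exact absurd hc.symm (Fin.castSucc_ne_last _)
  · have h1 : ¬ E a b := fun hE => h (by rw [hS, Finset.mem_filter]; exact ⟨ha, b, hb, hbY, hE⟩)
    have h1' : ¬ E a' b := fun hE => h' (by rw [hS, Finset.mem_filter]; exact ⟨ha', b, hb, hbY, hE⟩)
    tauto

/-- TARGET -/
theorem path_lemma (hA : ∀ a ∈ A, (B.filter (fun b => E a b)).card ≤ 2)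
    (hB : ∀ b ∈ B, (A.filter (fun a => E a b)).card ≤ 2) : BLin 3 E A B := by
  refine BLin.of_greedy (P := fun X Y => (CE E A B X Y).card ≤ 2) ?_ ?_ ?_
  · have : CE E A B ∅ ∅ = ∅ := by
      ext e
      rw [mem_CE]
      simp
    simp only [this]
    simp
  · intro X hX Y hY h2 hne
    by_cases hemp : CE E A B X Y = ∅
    · by_cases hXA : X = A
      · have hYB : Y ≠ B := by tauto
        right
        have : ∃ b ∈ B, b ∉ Y := by
          by_contra hcon
          push Not at hcon
          exact hYB (Finset.Subset.antisymm hY hcon)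
        obtain ⟨b, hb, hbY⟩ := this
        exact ⟨b, hb, hbY, CE_add_empty hB hemp hb⟩
      · left
        have : ∃ a ∈ A, a ∉ X := by
          by_contra hcon
          push Not at hcon
          exact hXA (Finset.Subset.antisymm hX hcon)
        obtain ⟨a, ha, haX⟩ := this
        refine ⟨a, ha, haX, ?_⟩
        rw [← CE_swap]
        refine CE_add_empty (E := fun b a => E a b) hA ?_ ha
        rw [← Finset.card_eq_zero, CE_swap, Finset.card_eq_zero]
        exact hemp
    · obtain ⟨⟨a, b⟩, he⟩ := Finset.nonempty_iff_ne_empty.mpr hemp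
      have he' := mem_CE.mp he
      simp only at he'
      rcases he'.2.2 with ⟨haX, hbY⟩ | ⟨haX, hbY⟩
      · right
        exact ⟨b, he'.1.2, hbY, CE_add hB h2 he haX⟩
      · left
        refine ⟨a, he'.1.1, haX, ?_⟩
        rw [← CE_swap]
        refine CE_add (E := fun b a => E a b) (a := b) (b := a) hA ?_ ?_ hbY
        · rw [CE_swap]
          exact h2
        · rw [mem_CE]
          simp only
          tauto
  · intro X hX Y hY h2

    refine ⟨CE_col hX h2, ?_⟩
    have := CE_col (E := fun b a => E a b) (A := B) (B := A) (X := Y) (Y := X) hY (by rw [CE_swap]; exact h2)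
    exact this

end Pool.Agent.Helper856.Lcw.PathL
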