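import Pool.Agent.Helper856.Lcw.Base
import Pool.Agent.Helper856.Lcw.PathL
import Pool.Agent.Helper856.Lcw.NSL

open Classical SimpleGraph

namespace Pool.Agent.Helper856.Lcw.S113Conn

open PathL NSL

variable {α β : Type} {E E' : α → β → Prop} {A A' : Finset α} {B B' : Finset β} {k l : ℕ}

theorem NoBad.Q (h : NoBad E A B) {u v : α} (hu : u ∈ A) (hv : v ∈ A) {x l1 l2 : β} (hx : x ∈ B)
    (hl1 : l1 ∈ B) (hl2 : l2 ∈ B) (hne : l1 ≠ l2) (hux : E u x) (hvx : E v x) (hu1 : E u l1)
    (hv1 : ¬ E v l1) (hu2 : E u l2) (hv2 : ¬ E v l2) : ∀ z ∈ B, E v z → E u z := by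
  intro z hz hvz
  by_contra huz
  exact h u v x l1 l2 z ⟨hu, hv, hx, hl1, hl2, hz, hne, hux, hvx, hu1, hv1, hu2, hv2, hvz, huz⟩

theorem NSc (h2 : NoBad (fun b a => E a b) B A) {c : α} (hcA : c ∈ A) (hA : A' ⊆ A) (hB : B' ⊆ B)
    (hcB : ∀ b ∈ B', E c b) : BLin 5 E A' B' := by
  apply NS_lemma
  intro b hb b' hb'
  by_cases g1 : ∀ a ∈ A', E a b → E a b'
  · exact Or.inl g1
  by_cases g2 : ∀ a ∈ A', E a b' → E a b
  · exact Or.inr (Or.inl g2)
  refine Or.inr (Or.inr ⟨?_, ?_⟩)
  · by_contra hcon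
    push Not at hcon
    obtain ⟨l1, hl1, l2, hl2, hne⟩ := Finset.one_lt_card.1 hcon
    rw [Finset.mem_filter] at hl1 hl2
    exact g2 fun a ha => (NoBad.Q h2) (hB hb) (hB hb') hcA (hA hl1.1) (hA hl2.1) hne (hcB b hb) (hcB b' hb')
      hl1.2.1 hl1.2.2 hl2.2.1 hl2.2.2 a (hA ha)
  · by_contra hcon
    push Not at hcon
    obtain ⟨l1, hl1, l2, hl2, hne⟩ := Finset.one_lt_card.1 hcon
    rw [Finset.mem_filter] at hl1 hl2
    exact g1 fun a ha => (NoBad.Q h2) (hB hb') (hB hb) hcA (hA hl1.1) (hA hl2.1) hne (hcB b' hb') (hcB b hb)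
      hl1.2.1 hl1.2.2 hl2.2.1 hl2.2.2 a (hA ha)

theorem S113_side (h1 : NoBad E A B) (h2 : NoBad (fun b a => E a b) B A) (hc : Conn E A B)
    {a0 : α} (ha0 : a0 ∈ A) (hdeg : 3 ≤ (B.filter (fun b => E a0 b)).card) : BLin 20 E A B := by
  obtain ⟨c, hcA, hcmax⟩ := Finset.exists_max_image A (fun a => (B.filter (fun b => E a b)).card)
    ⟨a0, ha0⟩
  have hd3 : 3 ≤ (B.filter (fun b => E c b)).card := hdeg.trans (hcmax a0 ha0)
  -- avoid two given elements inside `N(c)`
  have havoid : ∀ b b' : β, ∃ x ∈ B, E c x ∧ x ≠ b ∧ x ≠ b' := by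
    intro b b'
    have hlt : ({b, b'} : Finset β).card < (B.filter (fun b => E c b)).card :=
      lt_of_le_of_lt Finset.card_le_two (by omega)
    obtain ⟨x, hx, hx'⟩ := Finset.exists_mem_notMem_of_card_lt_card hlt
    rw [Finset.mem_filter] at hx
    simp only [Finset.mem_insert, Finset.mem_singleton, not_or] at hx'
    exact ⟨x, hx.1, hx.2, hx'.1, hx'.2⟩
  -- swaps
  have hswap : ∀ a ∈ A, (∃ x ∈ B, E c x ∧ E a x) → (∃ y ∈ B, ¬ E c y ∧ E a y) →
      ∃ b0 ∈ B, ∃ b1 ∈ B, E c b0 ∧ ¬ E a b0 ∧ ¬ E c b1 ∧ E a b1 ∧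
        ∀ b ∈ B, b ≠ b0 → b ≠ b1 → (E a b ↔ E c b) := by
    rintro a ha ⟨x, hx, hcx, hax⟩ ⟨y, hy, hcy, hay⟩
    -- |N(c) \ N(a)| ≤ 1
    have k1 : (B.filter (fun b => E c b ∧ ¬ E a b)).card ≤ 1 := by
      by_contra hcon
      push Not at hcon
      obtain ⟨l1, hl1, l2, hl2, hne⟩ := Finset.one_lt_card.1 hcon
      rw [Finset.mem_filter] at hl1 hl2
      exact hcy ((NoBad.Q h1) hcA ha hx hl1.1 hl2.1 hne hcx hax hl1.2.1 hl1.2.2 hl2.2.1 hl2.2.2 y hy hay)
    have k2 : (B.filter (fun b => E a b)).card ≤ (B.filter (fun b => E c b)).card := hcmax a ha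
    have e1 : (B.filter (fun b => E c b)).card = (B.filter (fun b => E c b ∧ E a b)).card +
        (B.filter (fun b => E c b ∧ ¬ E a b)).card := by
      rw [← Finset.filter_filter, ← Finset.filter_filter]
      exact (Finset.card_filter_add_card_filter_not _).symm
    have e2 : (B.filter (fun b => E a b)).card = (B.filter (fun b => E c b ∧ E a b)).card +
        (B.filter (fun b => ¬ E c b ∧ E a b)).card := by
      have := (Finset.card_filter_add_card_filter_not (s := B.filter (fun b => E a b)) (fun b => E c b)).symm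
      rw [Finset.filter_filter, Finset.filter_filter] at this
      rw [this]
      congr 2
      · congr 1; ext b; tauto
      · congr 1; ext b; tauto
    have k3 : 0 < (B.filter (fun b => ¬ E c b ∧ E a b)).card :=
      Finset.card_pos.2 ⟨y, by simp [hy, hcy, hay]⟩
    have k4 : (B.filter (fun b => ¬ E c b ∧ E a b)).card = 1 := by omega
    have k5 : (B.filter (fun b => E c b ∧ ¬ E a b)).card = 1 := by omega
    obtain ⟨b1, hb1⟩ := Finset.card_eq_one.1 k4
    obtain ⟨b0, hb0⟩ := Finset.card_eq_one.1 k5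
    have m1 : b1 ∈ B.filter (fun b => ¬ E c b ∧ E a b) := by rw [hb1]; exact Finset.mem_singleton_self _
    have m0 : b0 ∈ B.filter (fun b => E c b ∧ ¬ E a b) := by rw [hb0]; exact Finset.mem_singleton_self _
    rw [Finset.mem_filter] at m1 m0
    refine ⟨b0, m0.1, b1, m1.1, m0.2.1, m0.2.2, m1.2.1, m1.2.2, ?_⟩
    intro b hb hbne0 hbne1
    constructor
    · intro hab
      by_contra hcb
      have : b ∈ B.filter (fun b => ¬ E c b ∧ E a b) := by simp [hb, hcb, hab]
      rw [hb1, Finset.mem_singleton] at this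
      exact hbne1 this
    · intro hcb
      by_contra hab
      have : b ∈ B.filter (fun b => E c b ∧ ¬ E a b) := by simp [hb, hcb, hab]
      rw [hb0, Finset.mem_singleton] at this
      exact hbne0 this
  -- the swap predicate
  set SW : α → β → β → Prop := fun a b0 b1 => a ∈ A ∧ b0 ∈ B ∧ b1 ∈ B ∧ E c b0 ∧ ¬ E a b0 ∧
    ¬ E c b1 ∧ E a b1 ∧ ∀ b ∈ B, b ≠ b0 → b ≠ b1 → (E a b ↔ E c b) with hSW
  have hpair : ∀ a b0 b1 a' b0' b1', SW a b0 b1 → SW a' b0' b1' → b0 = b0' ∨ b1 = b1' := by
    rintro a b0 b1 a' b0' b1' ⟨ha, hb0, hb1, hc0, hna0, hnc1, ha1, hrest⟩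
      ⟨ha', hb0', hb1', hc0', hna0', hnc1', ha1', hrest'⟩
    by_contra hcon
    push Not at hcon
    obtain ⟨x, hx, hcx, hx0, hx0'⟩ := havoid b0 b0'
    have hx1 : x ≠ b1 := fun hh => hnc1 (hh ▸ hcx)
    have hx1' : x ≠ b1' := fun hh => hnc1' (hh ▸ hcx)
    have q1 : E a x := (hrest x hx hx0 hx1).2 hcx
    have q2 : E a' x := (hrest' x hx hx0' hx1').2 hcx
    have q3 : E a b0' := (hrest b0' hb0' hcon.1.symm (fun hh => hnc1 (hh ▸ hc0'))).2 hc0'
    have q4 : ¬ E a' b1 := fun hh =>
      hnc1 ((hrest' b1 hb1 (fun hh' => hnc1 (hh' ▸ hc0')) hcon.2).1 hh)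
    have q5 : b0' ≠ b1 := fun hh => hnc1 (hh ▸ hc0')
    have q6 := (NoBad.Q h1) ha ha' hx hb0' hb1 q5 q1 q2 q3 hna0' ha1 q4 b1' hb1' ha1'
    have q7 : ¬ E a b1' := fun hh =>
      hnc1' ((hrest b1' hb1' (fun hh' => hnc1' (hh' ▸ hc0)) hcon.2.symm).1 hh)
    exact q7 q6
  -- leaves
  have hleaf : ∀ s b0 b1, SW s b0 b1 → ∀ a ∈ A, (∀ x ∈ B, E c x → ¬ E a x) → E a b1 →
      ∀ b ∈ B, E a b → b = b1 := by
    rintro s b0 b1 ⟨hs, hb0, hb1, hc0, hna0, hnc1, ha1, hrest⟩ a ha hdis hab1 b hb hab
    obtain ⟨x, hx, hcx, hx0, -⟩ := havoid b0 b0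
    obtain ⟨y, hy, hcy, hy0, hyx⟩ := havoid b0 x
    have hx1 : x ≠ b1 := fun hh => hnc1 (hh ▸ hcx)
    have hy1 : y ≠ b1 := fun hh => hnc1 (hh ▸ hcy)
    have q1 : E s x := (hrest x hx hx0 hx1).2 hcx
    have q2 : E s y := (hrest y hy hy0 hy1).2 hcy
    have q3 := (NoBad.Q h1) hs ha hb1 hx hy hyx.symm ha1 hab1 q1 (hdis x hx hcx) q2 (hdis y hy hcy) b hb hab
    by_contra hne
    by_cases h0 : b = b0
    · subst h0; exact hna0 q3
    · exact hdis b hb ((hrest b hb h0 hne).1 q3) hab
  -- connectivity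
  have hclosed := hc (A.filter (fun a => ∃ b ∈ B, (E c b ∨ ∃ s b0, SW s b0 b) ∧ E a b))
    (Finset.filter_subset _ _) (B.filter (fun b => E c b ∨ ∃ s b0, SW s b0 b))
    (Finset.filter_subset _ _) (by
      intro a ha b hb hab
      simp only [Finset.mem_filter]
      constructor
      · rintro ⟨-, b', hb', hor, hab'⟩
        refine ⟨hb, ?_⟩
        by_cases hcb : E c b
        · exact Or.inl hcb
        right
        by_cases hint : ∃ x ∈ B, E c x ∧ E a x
        · obtain ⟨b0, hb0, b1, hb1, g1, g2, g3, g4, g5⟩ := hswap a ha hint ⟨b, hb, hcb, hab⟩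
          have : b = b1 := by
            by_contra hne
            by_cases h0 : b = b0
            · subst h0; exact g2 hab
            · exact hcb ((g5 b hb h0 hne).1 hab)
          subst this
          exact ⟨a, b0, ha, hb0, hb1, g1, g2, g3, g4, g5⟩
        · push Not at hint
          rcases hor with hor | ⟨s, b0, hs⟩
          · exact absurd hab' (hint b' hb' hor)
          · have := hleaf s b0 b' hs a ha hint hab' b hb hab
            subst this
            exact ⟨s, b0, hs⟩
      · rintro ⟨-, hor⟩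
        exact ⟨ha, b, hb, hor, hab⟩)
  have hne : (B.filter (fun b => E c b)).Nonempty := Finset.card_pos.1 (by omega)
  obtain ⟨x0, hx0'⟩ := hne
  rw [Finset.mem_filter] at hx0'
  obtain ⟨hx0, hcx0⟩ := hx0'
  have hcX : c ∈ A.filter (fun a => ∃ b ∈ B, (E c b ∨ ∃ s b0, SW s b0 b) ∧ E a b) :=
    Finset.mem_filter.2 ⟨hcA, x0, hx0, Or.inl hcx0, hcx0⟩
  rcases hclosed with ⟨hX, -⟩ | ⟨-, hY⟩
  · rw [hX] at hcX; exact absurd hcX (Finset.notMem_empty _)
  have hBall : ∀ b ∈ B, E c b ∨ ∃ s b0, SW s b0 b := by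
    intro b hb
    rw [← hY] at hb
    exact (Finset.mem_filter.1 hb).2
  clear hY hcX
  by_cases hno : ∃ s b0 b1, SW s b0 b1
  swap
  · -- no swaps
    refine (NSc h2 hcA (Finset.Subset.refl A) (Finset.Subset.refl B) ?_).mono_k (by norm_num)
    intro b hb
    rcases hBall b hb with h | ⟨s, b0, hs⟩
    · exact h
    · exact absurd ⟨s, b0, b, hs⟩ hno
  obtain ⟨s0, p0, p1, hs0⟩ := hno
  by_cases hall : ∀ s b0 b1, SW s b0 b1 → b1 = p1
  · -- all swaps have the same b1
    have hrest : BLin 5 (fun b a => E a b) (B \ {p1}) A := by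
      refine (NSc h2 hcA (Finset.Subset.refl A) Finset.sdiff_subset ?_).swap
      intro b hb
      rw [Finset.mem_sdiff, Finset.mem_singleton] at hb
      rcases hBall b hb.1 with h | ⟨s, b0, hs⟩
      · exact h
      · exact absurd (hall s b0 b hs) hb.2
    have := BLin.first (E := fun b a => E a b) (A := B) (B := A) (m := 1) {p1} (fun _ => 0) (by
      intro b hb b' hb' _ a _
      rw [Finset.mem_singleton] at hb hb'
      rw [hb, hb']) hrest
    exact this.swap.mono_k (by norm_num)
  · -- all swaps have the same b0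
    push Not at hall
    obtain ⟨s1, r0, r1, hs1, hr1⟩ := hall
    have hr0 : r0 = p0 := (hpair _ _ _ _ _ _ hs1 hs0).resolve_right hr1
    have hsame : ∀ s b0 b1, SW s b0 b1 → b0 = p0 := by
      intro s b0 b1 hs
      rcases hpair _ _ _ _ _ _ hs hs0 with h | h
      · exact h
      · rcases hpair _ _ _ _ _ _ hs hs1 with h' | h'
        · rw [h', hr0]
        · exact absurd (h'.symm.trans h) hr1
    have hlex : BLin (2 + 5 * 2) E A (B \ {p0}) := by
      refine BLin.lex 2 5 (fun a => if ∃ b ∈ B, ¬ E c b ∧ E a b then 0 else 1)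
        (fun b => if E c b then 1 else 0) ?_ ?_ ?_
      · intro n
        rcases Nat.eq_zero_or_pos n with rfl | hn
        · refine (star_lemma ?_).mono_k (by norm_num)
          intro a ha
          rw [Finset.mem_filter] at ha
          by_contra hcon
          push Not at hcon
          obtain ⟨l1, hl1, l2, hl2, hne⟩ := Finset.one_lt_card.1 hcon
          simp only [Finset.mem_filter, Finset.mem_sdiff, Finset.mem_singleton] at hl1 hl2
          have hl1c : ¬ E c l1 := by
            intro hh; have := hl1.1.2; rw [if_pos hh] at this; exact absurd this (by norm_num)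
          have hl2c : ¬ E c l2 := by
            intro hh; have := hl2.1.2; rw [if_pos hh] at this; exact absurd this (by norm_num)
          by_cases hint : ∃ x ∈ B, E c x ∧ E a x
          · obtain ⟨b0, hb0, b1, hb1, g1, g2, g3, g4, g5⟩ := hswap a ha.1 hint ⟨l1, hl1.1.1.1, hl1c, hl1.2⟩
            have key : ∀ l ∈ B, ¬ E c l → E a l → l = b1 := by
              intro l hl hcl hal
              by_contra hne'
              by_cases h0 : l = b0
              · subst h0; exact g2 hal
              · exact hcl ((g5 l hl h0 hne').1 hal)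
            exact hne ((key l1 hl1.1.1.1 hl1c hl1.2).trans (key l2 hl2.1.1.1 hl2c hl2.2).symm)
          · push Not at hint
            rcases hBall l1 hl1.1.1.1 with h | ⟨s, b0, hs⟩
            · exact hl1c h
            · exact hne (hleaf s b0 l1 hs a ha.1 hint hl1.2 l2 hl2.1.1.1 hl2.2).symm
        · refine NSc h2 hcA (Finset.filter_subset _ _) ((Finset.filter_subset _ _).trans Finset.sdiff_subset) ?_
          intro b hb
          rw [Finset.mem_filter] at hb
          by_contra hcb
          have := hb.2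
          rw [if_neg hcb] at this
          omega
      · intro n
        refine ⟨fun a => if ∃ b ∈ B, E c b ∧ E a b then 1 else 0, ?_⟩
        intro a ha a' ha' h3 h4 h5 b hb h6
        rw [Finset.mem_sdiff, Finset.mem_singleton] at hb
        have hcb : E c b := by
          by_contra hcb
          rw [if_neg hcb] at h6
          have : n = 0 := by omega
          subst this
          exact absurd h3 (Nat.not_lt_zero _)
        rw [if_pos hcb] at h6
        have hn : n ≤ 1 := h6
        have g3 : ∃ b ∈ B, ¬ E c b ∧ E a b := by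
          by_contra hh
          rw [if_neg hh] at h3
          omega
        have g4 : ∃ b ∈ B, ¬ E c b ∧ E a' b := by
          by_contra hh
          rw [if_neg hh] at h4
          omega
        have full : ∀ a ∈ A, (∃ b ∈ B, E c b ∧ E a b) → (∃ b ∈ B, ¬ E c b ∧ E a b) → E a b := by
          intro a ha q1 q2
          obtain ⟨b0, hb0, b1, hb1, g1, g2, g3, g4, g5⟩ := hswap a ha q1 q2
          have hb0p : b0 = p0 := hsame a b0 b1 ⟨ha, hb0, hb1, g1, g2, g3, g4, g5⟩
          exact (g5 b hb.1 (by rw [hb0p]; exact hb.2) (fun hh => g3 (hh ▸ hcb))).2 hcb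
        by_cases q : ∃ b ∈ B, E c b ∧ E a b
        · by_cases q' : ∃ b ∈ B, E c b ∧ E a' b
          · exact ⟨fun _ => full a' ha' q' g4, fun _ => full a ha q g3⟩
          · simp only [if_pos q, if_neg q'] at h5
            exact absurd h5 (by decide)
        · by_cases q' : ∃ b ∈ B, E c b ∧ E a' b
          · simp only [if_neg q, if_pos q'] at h5
            exact absurd h5 (by decide)
          · exact ⟨fun hh => absurd ⟨b, hb.1, hcb, hh⟩ q, fun hh => absurd ⟨b, hb.1, hcb, hh⟩ q'⟩
      · intro n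
        refine ⟨fun _ => 0, ?_⟩
        intro b hb b' hb' h3 h4 _ a ha h6
        rw [Finset.mem_sdiff, Finset.mem_singleton] at hb hb'
        have hn0 : n ≠ 0 := by omega
        have g : ¬ ∃ b ∈ B, ¬ E c b ∧ E a b := by
          intro hh
          rw [if_pos hh] at h6
          omega
        rw [if_neg g] at h6
        have hcb : ¬ E c b := by
          intro hh
          rw [if_pos hh] at h3
          omega
        have hcb' : ¬ E c b' := by
          intro hh
          rw [if_pos hh] at h4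
          omega
        exact ⟨fun hh => absurd ⟨b, hb.1, hcb, hh⟩ g, fun hh => absurd ⟨b', hb'.1, hcb', hh⟩ g⟩
    have := BLin.first (E := fun b a => E a b) (A := B) (B := A) (m := 1) {p0} (fun _ => 0) (by
      intro b hb b' hb' _ a _
      rw [Finset.mem_singleton] at hb hb'
      rw [hb, hb']) hlex.swap
    exact this.swap.mono_k (by norm_num)

/-- TARGET -/
theorem S113_conn (h1 : NoBad E A B) (h2 : NoBad (fun b a => E a b) B A) (hc : Conn E A B) :
    BLin 20 E A B := by
  by_cases hA : ∀ a ∈ A, (B.filter (fun b => E a b)).card ≤ 2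
  · by_cases hB : ∀ b ∈ B, (A.filter (fun a => E a b)).card ≤ 2
    · exact (path_lemma hA hB).mono_k (by norm_num)
    · push Not at hB
      obtain ⟨b, hb, hb3⟩ := hB
      refine (S113_side (E := fun b a => E a b) h2 h1 ?_ hb hb3).swap
      intro X hX Y hY hcl
      rcases hc Y hY X hX (fun a ha b hb hab => (hcl b hb a ha hab).symm) with h | h
      · exact Or.inl h.symm
      · exact Or.inr h.symm
  · push Not at hA
    obtain ⟨a, ha, ha3⟩ := hA
    exact S113_side h1 h2 hc ha ha3

end Pool.Agent.Helper856.Lcw.S113Conn
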