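import Pool.Agent.Helper856.Lcw.Base
import Pool.Agent.Helper856.Lcw.S113Conn

open Classical

namespace Pool.Agent.Helper856.Lcw

variable {α β : Type} {E E' : α → β → Prop} {A A' : Finset α} {B B' : Finset β} {k l : ℕ}

theorem NoBad.subset (h : NoBad E A B) (hA : A' ⊆ A) (hB : B' ⊆ B) : NoBad E A' B' := by
  intro c y x l1 l2 z hb
  obtain ⟨h1, h2, h3, h4, h5, h6, h7⟩ := hb
  exact h c y x l1 l2 z ⟨hA h1, hA h2, hB h3, hB h4, hB h5, hB h6, h7⟩

theorem S113_all (h1 : NoBad E A B) (h2 : NoBad (fun b a => E a b) B A) : BLin 21 E A B := by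
  refine BLin.of_components (k := 20) ?_
  intro A' hA' B' hB' _ hc
  exact S113Conn.S113_conn (NoBad.subset h1 hA' hB') (NoBad.subset h2 hB' hA') hc

end Pool.Agent.Helper856.Lcw
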