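import Pool.Agent.Helper856.Lcw.Base
import Pool.Agent.Helper856.Lcw.S113All

open Classical SimpleGraph

namespace Pool.Agent.Helper856.Lcw.DirectL

variable {α β : Type} {E E' : α → β → Prop} {A A' : Finset α} {B B' : Finset β} {k l : ℕ}

/-- (a): two vertices of `A0` have a common neighbour -/
theorem dl_common
    (c y : α) (l1 l2 : β) (hc : c ∈ A) (hy : y ∈ A)
    (hl1 : l1 ∈ B) (hl2 : l2 ∈ B) (hne : l1 ≠ l2)
    (h1 : E c l1 ∧ ¬ E y l1) (h2 : E c l2 ∧ ¬ E y l2)
    (hcov : ∀ b ∈ B, E c b ∨ E y b)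
    (hmin : ∀ c' y' x' l1' l2' z', Bad E A B c' y' x' l1' l2' z' →
      (B.filter (fun b => E c b ∧ E y b)).card ≤ (B.filter (fun b => E c' b ∧ E y' b)).card)
    (p p' : α) (hp : p ∈ A)
    (hP : ∀ b ∈ B, E c b → ¬ E y b → E p b)
    (hR : ∀ b ∈ B, E y b → ¬ E c b → E p' b)
    (hnP : ¬ ∀ b ∈ B, (E p b ↔ (E c b ∧ ¬ E y b)))
    (hnR : ¬ ∀ b ∈ B, (E p' b ↔ (E y b ∧ ¬ E c b))) : ∃ w ∈ B, E p w ∧ E p' w := by
  by_contra hno
  push Not at hno
  push Not at hnP hnR
  obtain ⟨b, hb, hb1⟩ := hnP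
  obtain ⟨b', hb', hb1'⟩ := hnR
  have hbE : E p b ∧ E c b ∧ E y b := by
    rcases hb1 with ⟨h3, h4⟩ | ⟨h3, h4⟩
    · by_cases hcb : E c b
      · exact ⟨h3, hcb, h4 hcb⟩
      · have hyb : E y b := (hcov b hb).resolve_left hcb
        exact absurd (hR b hb hyb hcb) (hno b hb h3)
    · exact absurd (hP b hb h4.1 h4.2) h3
  have hbE' : E p' b' ∧ E c b' ∧ E y b' := by
    rcases hb1' with ⟨h3, h4⟩ | ⟨h3, h4⟩
    · by_cases hyb : E y b'
      · exact ⟨h3, h4 hyb, hyb⟩
      · have hcb : E c b' := (hcov b' hb').resolve_right hyb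
        exact absurd h3 (hno b' hb' (hP b' hb' hcb hyb))
    · exact absurd (hR b' hb' h4.1 h4.2) h3
  have hpb' : ¬ E p b' := fun h => hno b' hb' h hbE'.1
  have hBad : Bad E A B p y b l1 l2 b' :=
    ⟨hp, hy, hb, hl1, hl2, hb', hne, hbE.1, hbE.2.2, hP l1 hl1 h1.1 h1.2, h1.2,
      hP l2 hl2 h2.1 h2.2, h2.2, hbE'.2.2, hpb'⟩
  have hle := hmin _ _ _ _ _ _ hBad
  have hlt : (B.filter (fun b => E p b ∧ E y b)).card <
      (B.filter (fun b => E c b ∧ E y b)).card := by
    apply Finset.card_lt_card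
    rw [Finset.ssubset_iff_of_subset]
    · refine ⟨b', ?_, ?_⟩
      · simp only [Finset.mem_filter]
        exact ⟨hb', hbE'.2⟩
      · simp only [Finset.mem_filter, not_and]
        intro _ h
        exact absurd h hpb'
    · intro w hw
      simp only [Finset.mem_filter] at hw ⊢
      refine ⟨hw.1, ?_, hw.2.2⟩
      by_contra hcw
      exact hno w hw.1 hw.2.1 (hR w hw.1 hw.2.2 hcw)
  omega

theorem dl_step1 (hA2 : BadCover E A B)
    (hB2 : BadCover (fun b a => E a b) B A)
    (c y : α) (x l1 l2 z : β) (hbad : Bad E A B c y x l1 l2 z)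
    (hmin : ∀ c' y' x' l1' l2' z', Bad E A B c' y' x' l1' l2' z' →
      (B.filter (fun b => E c b ∧ E y b)).card ≤ (B.filter (fun b => E c' b ∧ E y' b)).card)
    (A0 : Finset α) (hA0 : A0 ⊆ A)
    (h0 : ∀ p ∈ A0, (∀ b ∈ B, E c b → ¬ E y b → E p b) ∨ (∀ b ∈ B, E y b → ¬ E c b → E p b))
    (h0P : ∀ p ∈ A0, ¬ ∀ b ∈ B, (E p b ↔ (E c b ∧ ¬ E y b)))
    (h0R : ∀ p ∈ A0, ¬ ∀ b ∈ B, (E p b ↔ (E y b ∧ ¬ E c b))) : BLin 21 E A0 B := by
  have hcov := hA2 _ _ _ _ _ _ hbad
  obtain ⟨hc, hy, hx, hl1, hl2, hz, hne, hcx, hyx, hcl1, hyl1, hcl2, hyl2, hyz, hcz⟩ := hbad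
  have hcommon : ∀ p ∈ A0, ∀ p' ∈ A0, ∃ w ∈ B, E p w ∧ E p' w := by
    intro p hp p' hp'
    rcases h0 p hp with h | h <;> rcases h0 p' hp' with h' | h'
    · exact ⟨l1, hl1, h l1 hl1 hcl1 hyl1, h' l1 hl1 hcl1 hyl1⟩
    · exact dl_common c y l1 l2 hc hy hl1 hl2 hne ⟨hcl1, hyl1⟩ ⟨hcl2, hyl2⟩ hcov hmin
        p p' (hA0 hp) h h' (h0P p hp) (h0R p' hp')
    · obtain ⟨w, hw, h3, h4⟩ := dl_common c y l1 l2 hc hy hl1 hl2 hne ⟨hcl1, hyl1⟩ ⟨hcl2, hyl2⟩
        hcov hmin p' p (hA0 hp') h' h (h0P p' hp') (h0R p hp)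
      exact ⟨w, hw, h4, h3⟩
    · exact ⟨z, hz, h z hz hyz hcz, h' z hz hyz hcz⟩
  apply BLin.of_compl
  apply S113_all
  · rintro c' y' x' l1' l2' z' ⟨g1, g2, g3, g4, g5, g6, g7, g8, g9, g10, g11, g12, g13, g14, g15⟩
    simp only [not_not] at g8 g9 g10 g11 g12 g13 g14 g15
    obtain ⟨w, hw, h3, h4⟩ := hcommon c' g1 y' g2
    have hB' : Bad E A B y' c' w l1' l2' z' :=
      ⟨hA0 g2, hA0 g1, hw, g4, g5, g6, g7, h4, h3, g11, g10, g13, g12, g15, g14⟩
    rcases hA2 _ _ _ _ _ _ hB' x' g3 with h | h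
    · exact g9 h
    · exact g8 h
  · rintro l r p p1 p2 p3 ⟨g1, g2, g3, g4, g5, g6, g7, g8, g9, g10, g11, g12, g13, g14, g15⟩
    simp only [not_not] at g8 g9 g10 g11 g12 g13 g14 g15
    have hnc : ∀ w ∈ A, E w l → E w r → False := by
      intro w hw h3 h4
      have hB' : Bad (fun b a => E a b) B A r l w p1 p2 p3 :=
        ⟨g2, g1, hw, hA0 g4, hA0 g5, hA0 g6, g7, h4, h3, g11, g10, g13, g12, g15, g14⟩
      rcases hB2 _ _ _ _ _ _ hB' p (hA0 g3) with h | h
      · exact g9 h
      · exact g8 h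
    have k1 := hnc c hc
    have k2 := hnc y hy
    have k3 := hcov l g1
    have k4 := hcov r g2
    rcases h0 p g3 with h | h
    · have m1 := h l g1
      have m2 := h r g2
      tauto
    · have m1 := h l g1
      have m2 := h r g2
      tauto

/-- no bad pair if something is missed by both -/
theorem dl_NB (hA2 : BadCover E A B) {c' y' : α} (hc : c' ∈ A) (hy : y' ∈ A) {b : β} (hb : b ∈ B)
    (h1 : ¬ E c' b) (h2 : ¬ E y' b) {x a a' z : β} (hx : x ∈ B) (ha : a ∈ B) (ha' : a' ∈ B)
    (hz : z ∈ B) (e1 : E c' x) (e2 : E y' x) (e3 : E c' a) (e4 : ¬ E y' a) (e5 : E c' a')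
    (e6 : ¬ E y' a') (e7 : E y' z) (e8 : ¬ E c' z) : a = a' := by
  by_contra hne
  rcases hA2 _ _ _ _ _ _ ⟨hc, hy, hx, ha, ha', hz, hne, e1, e2, e3, e4, e5, e6, e7, e8⟩ b hb
    with h | h
  · exact h1 h
  · exact h2 h

/-- TARGET -/
theorem direct_lemma (hA1 : BadHit E A B) (hA2 : BadCover E A B)
    (hB2 : BadCover (fun b a => E a b) B A)
    (c y : α) (x l1 l2 z : β) (hbad : Bad E A B c y x l1 l2 z)
    (hmin : ∀ c' y' x' l1' l2' z', Bad E A B c' y' x' l1' l2' z' →
      (B.filter (fun b => E c b ∧ E y b)).card ≤ (B.filter (fun b => E c' b ∧ E y' b)).card)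
    (hR : 2 ≤ (B.filter (fun b => E y b ∧ ¬ E c b)).card ∨ ∃ d ∈ A, ∀ b ∈ B, E d b) :
    BLin 40 E A B := by
  have hcov := hA2 _ _ _ _ _ _ hbad
  obtain ⟨hc, hy, hx, hl1, hl2, hz, hne, hcx, hyx, hcl1, hyl1, hcl2, hyl2, hyz, hcz⟩ := id hbad
  set P := B.filter (fun b => E c b ∧ ¬ E y b) with hPdef
  set Q := B.filter (fun b => E c b ∧ E y b) with hQdef
  set R := B.filter (fun b => E y b ∧ ¬ E c b) with hRdef
  have mP : ∀ b, b ∈ P ↔ b ∈ B ∧ E c b ∧ ¬ E y b := fun b => by rw [hPdef, Finset.mem_filter]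
  have mQ : ∀ b, b ∈ Q ↔ b ∈ B ∧ E c b ∧ E y b := fun b => by rw [hQdef, Finset.mem_filter]
  have mR : ∀ b, b ∈ R ↔ b ∈ B ∧ E y b ∧ ¬ E c b := fun b => by rw [hRdef, Finset.mem_filter]
  let N : α → Finset β := fun p => B.filter (fun b => E p b)
  have mN : ∀ p b, b ∈ N p ↔ b ∈ B ∧ E p b := fun p b => by simp only [N, Finset.mem_filter]
  -- (C1)
  have C1 : ∀ p ∈ A, ∀ q ∈ Q, ¬ E p q → ∀ r ∈ R, ¬ E p r → ∀ a ∈ P, ¬ E p a → ∀ a' ∈ P, ¬ E p a' →
      a = a' := by
    intro p hp q hq hpq r hr hpr a ha hpa a' ha' hpa'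
    by_contra hne'
    rw [mQ] at hq
    rw [mR] at hr
    rw [mP] at ha ha'
    have hB' : Bad E A B c y q a a' r := ⟨hc, hy, hq.1, ha.1, ha'.1, hr.1, hne', hq.2.1, hq.2.2,
      ha.2.1, ha.2.2, ha'.2.1, ha'.2.2, hr.2.1, hr.2.2⟩
    rcases hA1 _ _ _ _ _ _ hB' p hp with h | h | h | h
    · exact hpq h
    · exact hpa h
    · exact hpa' h
    · exact hpr h
  set A0 := A.filter (fun p => ((∀ b ∈ B, E c b → ¬ E y b → E p b) ∨
    (∀ b ∈ B, E y b → ¬ E c b → E p b)) ∧ N p ≠ P ∧ N p ≠ R) with hA0def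
  have hA0A : A0 ⊆ A := Finset.filter_subset _ _
  have hstep1 : BLin 21 E A0 B := by
    apply dl_step1 hA2 hB2 c y x l1 l2 z hbad hmin A0 hA0A
    · intro p hp
      exact (Finset.mem_filter.mp hp).2.1
    · intro p hp hcon
      apply (Finset.mem_filter.mp hp).2.2.1
      ext b
      rw [mN, mP]
      constructor
      · rintro ⟨h1, h2⟩; exact ⟨h1, (hcon b h1).mp h2⟩
      · rintro ⟨h1, h2⟩; exact ⟨h1, (hcon b h1).mpr h2⟩
    · intro p hp hcon
      apply (Finset.mem_filter.mp hp).2.2.2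
      ext b
      rw [mN, mR]
      constructor
      · rintro ⟨h1, h2⟩; exact ⟨h1, (hcon b h1).mp h2⟩
      · rintro ⟨h1, h2⟩; exact ⟨h1, (hcon b h1).mpr h2⟩
  -- the few remaining neighbourhoods
  set L1 := P.filter (fun l => ∃ p ∈ A, N p = P.erase l) with hL1
  set L2 := P.filter (fun l => ∃ p ∈ A, N p = insert l Q) with hL2
  have cL1 : L1.card ≤ 2 := by
    by_contra hcon
    push Not at hcon
    obtain ⟨a1, h1, a2, h2, a3, h3, n12, n13, n23⟩ := Finset.two_lt_card.mp hcon
    rw [hL1, Finset.mem_filter] at h1 h2 h3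
    obtain ⟨m1, p1, hp1, e1⟩ := h1
    obtain ⟨m2, p2, hp2, e2⟩ := h2
    obtain ⟨m3, p3, hp3, e3⟩ := h3
    have k : ∀ p a, N p = P.erase a → ∀ b ∈ B, (E p b ↔ (b ≠ a ∧ b ∈ P)) := by
      intro p a he b hb
      rw [← Finset.mem_erase, ← he, mN]
      exact ⟨fun h => ⟨hb, h⟩, fun h => h.2⟩
    have k1 := k p1 a1 e1
    have k2 := k p2 a2 e2
    have k3 := k p3 a3 e3
    have b1 := ((mP a1).mp m1).1
    have b2 := ((mP a2).mp m2).1
    have b3 := ((mP a3).mp m3).1
    have hxP : x ∉ P := fun h => ((mP x).mp h).2.2 hyx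
    have hp23 : p2 ≠ p3 := by
      rintro rfl
      have := (k3 a2 b2).mpr ⟨n23, m2⟩
      exact ((k2 a2 b2).mp this).1 rfl
    have hB' : Bad (fun b a => E a b) B A a1 x c p2 p3 y :=
      ⟨b1, hx, hc, hp2, hp3, hy, hp23, ((mP a1).mp m1).2.1, hcx,
        (k2 a1 b1).mpr ⟨n12, m1⟩, fun h => hxP ((k2 x hx).mp h).2,
        (k3 a1 b1).mpr ⟨n13, m1⟩, fun h => hxP ((k3 x hx).mp h).2, hyx, ((mP a1).mp m1).2.2⟩
    rcases hB2 _ _ _ _ _ _ hB' p1 hp1 with h | h
    · exact ((k1 a1 b1).mp h).1 rfl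
    · exact hxP ((k1 x hx).mp h).2
  have cL2 : R.card = 1 → L2.card ≤ 1 := by
    intro hR1
    by_contra hcon
    push Not at hcon
    obtain ⟨a1, h1, a2, h2, n12⟩ := Finset.one_lt_card.mp hcon
    rw [hL2, Finset.mem_filter] at h1 h2
    obtain ⟨m1, p1, hp1, e1⟩ := h1
    obtain ⟨m2, p2, hp2, e2⟩ := h2
    obtain ⟨d, hd, hdd⟩ := hR.resolve_left (by omega)
    have k : ∀ p a, N p = insert a Q → ∀ b ∈ B, (E p b ↔ (b = a ∨ b ∈ Q)) := by
      intro p a he b hb
      rw [← Finset.mem_insert, ← he, mN]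
      exact ⟨fun h => ⟨hb, h⟩, fun h => h.2⟩
    have k1 := k p1 a1 e1
    have k2 := k p2 a2 e2
    have b1 := ((mP a1).mp m1).1
    have b2 := ((mP a2).mp m2).1
    have hzQ : z ∉ Q := fun h => hcz ((mQ z).mp h).2.1
    have hza : ∀ a ∈ P, z ≠ a := by
      rintro a ha rfl
      exact hcz ((mP _).mp ha).2.1
    have hPQ : ∀ a ∈ P, a ∉ Q := fun a ha h => ((mP a).mp ha).2.2 ((mQ a).mp h).2.2
    have hcp1 : c ≠ p1 := by
      rintro rfl
      rcases (k1 a2 b2).mp ((mP a2).mp m2).2.1 with h | h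
      · exact n12 h.symm
      · exact hPQ a2 m2 h
    have hB' : Bad (fun b a => E a b) B A a1 z d c p1 y :=
      ⟨b1, hz, hd, hc, hp1, hy, hcp1, hdd a1 b1, hdd z hz, ((mP a1).mp m1).2.1, hcz,
        (k1 a1 b1).mpr (Or.inl rfl), fun h => ((k1 z hz).mp h).elim (hza a1 m1) hzQ,
        hyz, ((mP a1).mp m1).2.2⟩
    rcases hB2 _ _ _ _ _ _ hB' p2 hp2 with h | h
    · rcases (k2 a1 b1).mp h with h' | h'
      · exact n12 h'
      · exact hPQ a1 m1 h'
    · exact ((k2 z hz).mp h).elim (hza a2 m2) hzQ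
  -- the list of neighbourhoods
  set U : Finset (Finset β) := ({P, R, Q} : Finset (Finset β)) ∪ L1.image (fun l => P.erase l) ∪
    (if R.card = 1 then L2.image (fun l => insert l Q) else ∅) ∪
    (if P.card = 2 ∧ R.card = 2 then (P ×ˢ R).image (fun lr => insert lr.1 (insert lr.2 Q))
      else ∅) with hU
  have hUcard : U.card ≤ 19 := by
    have u1 : ({P, R, Q} : Finset (Finset β)).card ≤ 3 := Finset.card_le_three
    have u2 : (L1.image (fun l => P.erase l)).card ≤ 2 := Finset.card_image_le.trans cL1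
    have u3 : (if R.card = 1 then L2.image (fun l => insert l Q) else ∅ :
        Finset (Finset β)).card ≤ 1 := by
      split_ifs with h
      · exact Finset.card_image_le.trans (cL2 h)
      · simp
    have u4 : (if P.card = 2 ∧ R.card = 2 then
        (P ×ˢ R).image (fun lr => insert lr.1 (insert lr.2 Q)) else ∅ :
        Finset (Finset β)).card ≤ 4 := by
      split_ifs with h
      · refine Finset.card_image_le.trans ?_
        rw [Finset.card_product, h.1, h.2]
      · simp
    have v1 := Finset.card_union_le (({P, R, Q} : Finset (Finset β)) ∪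
      L1.image (fun l => P.erase l) ∪
      (if R.card = 1 then L2.image (fun l => insert l Q) else ∅))
      (if P.card = 2 ∧ R.card = 2 then (P ×ˢ R).image (fun lr => insert lr.1 (insert lr.2 Q))
      else ∅)
    have v2 := Finset.card_union_le (({P, R, Q} : Finset (Finset β)) ∪
      L1.image (fun l => P.erase l))
      (if R.card = 1 then L2.image (fun l => insert l Q) else ∅)
    have v3 := Finset.card_union_le ({P, R, Q} : Finset (Finset β))
      (L1.image (fun l => P.erase l))
    rw [hU]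
    omega
  have hclass : ∀ p ∈ A \ A0, N p ∈ U := by
    intro p hp
    rw [Finset.mem_sdiff] at hp
    obtain ⟨hpA, hpn⟩ := hp
    rw [hU, Finset.mem_union, Finset.mem_union, Finset.mem_union]
    by_cases eP : N p = P
    · left; left; left; rw [eP]; simp
    by_cases eR : N p = R
    · left; left; left; rw [eR]; simp
    by_cases eQ : N p = Q
    · left; left; left; rw [eQ]; simp
    have hnot : ¬ ((∀ b ∈ B, E c b → ¬ E y b → E p b) ∨ (∀ b ∈ B, E y b → ¬ E c b → E p b)) := by
      intro h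
      exact hpn (Finset.mem_filter.mpr ⟨hpA, h, eP, eR⟩)
    push Not at hnot
    obtain ⟨⟨l, hlB, hlc, hly, hlp⟩, ⟨z', hzB, hzy, hzc, hzp⟩⟩ := hnot
    have hlP : l ∈ P := (mP l).mpr ⟨hlB, hlc, hly⟩
    have hzR : z' ∈ R := (mR z').mpr ⟨hzB, hzy, hzc⟩
    by_cases hX : ∀ b ∈ P, ¬ E p b → b = l
    · -- Case X
      have hNP : ∀ b ∈ P, b ≠ l → E p b := by
        intro b hb hbl
        by_contra h
        exact hbl (hX b hb h)
      -- another element of P
      obtain ⟨m, hmP, hml⟩ : ∃ m ∈ P, m ≠ l := by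
        by_cases h : l1 = l
        · exact ⟨l2, (mP l2).mpr ⟨hl2, hcl2, hyl2⟩, fun h' => hne (h.trans h'.symm)⟩
        · exact ⟨l1, (mP l1).mpr ⟨hl1, hcl1, hyl1⟩, h⟩
      have hmp := hNP m hmP hml
      obtain ⟨hmB, hmc, hmy⟩ := (mP m).mp hmP
      by_cases hint : ∃ w ∈ B, E p w ∧ E y w
      · obtain ⟨w, hwB, hwp, hwy⟩ := hint
        -- P = {l, m}
        have hPm : ∀ b ∈ P, b ≠ l → b = m := by
          intro b hb hbl
          obtain ⟨hbB, hbc, hby⟩ := (mP b).mp hb
          exact dl_NB hA2 hpA hy hlB hlp hly hwB hbB hmB hzB hwp hwy (hNP b hb hbl) hby hmp hmy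
            hzy hzp
        -- N(y) minus N(p) is {z'}
        have hyz' : ∀ b ∈ B, E y b → ¬ E p b → b = z' := by
          intro b hbB hby hbp
          exact dl_NB hA2 hy hpA hlB hly hlp hwB hbB hzB hmB hwy hwp hby hbp hzy hzp hmp hmy
        -- R minus z' has at most one element
        have hR1 : ∀ b ∈ R, ∀ b' ∈ R, b ≠ z' → b' ≠ z' → b = b' := by
          intro b hb b' hb' n1 n2
          obtain ⟨hbB, hby, hbc⟩ := (mR b).mp hb
          obtain ⟨hbB', hby', hbc'⟩ := (mR b').mp hb'
          have hbp : E p b := by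
            by_contra h; exact n1 (hyz' b hbB hby h)
          have hbp' : E p b' := by
            by_contra h; exact n2 (hyz' b' hbB' hby' h)
          exact dl_NB hA2 hpA hc hzB hzp hzc hmB hbB hbB' hlB hmp hmc hbp hbc hbp' hbc' hlc hlp
        have hmemN : ∀ b ∈ B, (E p b ↔ b = m ∨ b ∈ Q ∨ (b ∈ R ∧ b ≠ z')) := by
          intro b hbB
          constructor
          · intro hbp
            by_cases hbc : E c b
            · by_cases hby : E y b
              · exact Or.inr (Or.inl ((mQ b).mpr ⟨hbB, hbc, hby⟩))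
              · left
                apply hPm b ((mP b).mpr ⟨hbB, hbc, hby⟩)
                rintro rfl
                exact hlp hbp
            · have hby := (hcov b hbB).resolve_left hbc
              refine Or.inr (Or.inr ⟨(mR b).mpr ⟨hbB, hby, hbc⟩, ?_⟩)
              rintro rfl
              exact hzp hbp
          · rintro (rfl | hbQ | ⟨hbR, hbz⟩)
            · exact hmp
            · by_contra h
              have := hyz' b hbB ((mQ b).mp hbQ).2.2 h
              subst this
              exact hzc ((mQ b).mp hbQ).2.1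
            · by_contra h
              exact hbz (hyz' b hbB ((mR b).mp hbR).2.1 h)
        by_cases hRr : ∃ r ∈ R, r ≠ z'
        · obtain ⟨r, hrR, hrz⟩ := hRr
          have hPcard : P.card = 2 := by
            have : P = {l, m} := by
              ext b
              rw [Finset.mem_insert, Finset.mem_singleton]
              constructor
              · intro hb
                by_cases h : b = l
                · exact Or.inl h
                · exact Or.inr (hPm b hb h)
              · rintro (rfl | rfl)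
                · exact hlP
                · exact hmP
            rw [this]
            exact Finset.card_pair hml.symm
          have hRcard : R.card = 2 := by
            have : R = {z', r} := by
              ext b
              rw [Finset.mem_insert, Finset.mem_singleton]
              constructor
              · intro hb
                by_cases h : b = z'
                · exact Or.inl h
                · exact Or.inr (hR1 b hb r hrR h hrz)
              · rintro (rfl | rfl)
                · exact hzR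
                · exact hrR
            rw [this]
            exact Finset.card_pair hrz.symm
          right
          rw [if_pos ⟨hPcard, hRcard⟩, Finset.mem_image]
          refine ⟨(m, r), Finset.mem_product.mpr ⟨hmP, hrR⟩, ?_⟩
          ext b
          simp only [Finset.mem_insert]
          rw [mN]
          constructor
          · rintro (rfl | rfl | hbQ)
            · exact ⟨hmB, hmp⟩
            · have hbB := ((mR b).mp hrR).1
              exact ⟨hbB, (hmemN b hbB).mpr (Or.inr (Or.inr ⟨hrR, hrz⟩))⟩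
            · have hbB := ((mQ b).mp hbQ).1
              exact ⟨hbB, (hmemN b hbB).mpr (Or.inr (Or.inl hbQ))⟩
          · rintro ⟨hbB, hbp⟩
            rcases (hmemN b hbB).mp hbp with h | h | ⟨h1, h2⟩
            · exact Or.inl h
            · exact Or.inr (Or.inr h)
            · exact Or.inr (Or.inl (hR1 b h1 r hrR h2 hrz))
        · push Not at hRr
          have hRcard : R.card = 1 := by
            rw [Finset.card_eq_one]
            refine ⟨z', ?_⟩
            ext b
            rw [Finset.mem_singleton]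
            exact ⟨fun hb => hRr b hb, fun hb => hb ▸ hzR⟩
          left; right
          rw [if_pos hRcard, Finset.mem_image]
          have he : N p = insert m Q := by
            ext b
            rw [mN, Finset.mem_insert]
            constructor
            · rintro ⟨hbB, hbp⟩
              rcases (hmemN b hbB).mp hbp with h | h | ⟨h1, h2⟩
              · exact Or.inl h
              · exact Or.inr h
              · exact absurd (hRr b h1) h2
            · rintro (rfl | hbQ)
              · exact ⟨hmB, hmp⟩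
              · have hbB := ((mQ b).mp hbQ).1
                exact ⟨hbB, (hmemN b hbB).mpr (Or.inr (Or.inl hbQ))⟩
          exact ⟨m, Finset.mem_filter.mpr ⟨hmP, p, hpA, he⟩, he.symm⟩
      · push Not at hint
        left; left; right
        have he : N p = P.erase l := by
          ext b
          rw [mN, Finset.mem_erase]
          constructor
          · rintro ⟨hbB, hbp⟩
            have hby := hint b hbB hbp
            have hbc := (hcov b hbB).resolve_right hby
            refine ⟨?_, (mP b).mpr ⟨hbB, hbc, hby⟩⟩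
            rintro rfl
            exact hlp hbp
          · rintro ⟨h1, h2⟩
            exact ⟨((mP b).mp h2).1, hNP b h2 h1⟩
        rw [Finset.mem_image]
        exact ⟨l, Finset.mem_filter.mpr ⟨hlP, p, hpA, he⟩, he.symm⟩
    · -- Case Y
      push Not at hX
      obtain ⟨m, hmP, hmp, hml⟩ := hX
      obtain ⟨hmB, hmc, hmy⟩ := (mP m).mp hmP
      have hQN : ∀ q ∈ Q, E p q := by
        intro q hq
        by_contra h
        exact hml (C1 p hpA q hq h z' hzR hzp m hmP hmp l hlP hlp)
      have hxQ : x ∈ Q := (mQ x).mpr ⟨hx, hcx, hyx⟩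
      have hpx := hQN x hxQ
      have hRN : ∀ r ∈ R, ¬ E p r := by
        intro r hr hpr
        obtain ⟨hrB, hry, hrc⟩ := (mR r).mp hr
        exact hml (dl_NB hA2 hc hpA hzB hzc hzp hx hmB hlB hrB hcx hpx hmc hmp hlc hlp hpr hrc)
      have hPP : ∀ b ∈ P, ∀ b' ∈ P, E p b → E p b' → b = b' := by
        intro b hb b' hb' h1 h2
        obtain ⟨hbB, hbc, hby⟩ := (mP b).mp hb
        obtain ⟨hbB', hbc', hby'⟩ := (mP b').mp hb'
        exact dl_NB hA2 hpA hy hlB hlp hly hx hbB hbB' hzB hpx hyx h1 hby h2 hby' hzy hzp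
      by_cases hex : ∃ b ∈ P, E p b
      · obtain ⟨b, hb, hbp⟩ := hex
        obtain ⟨hbB, hbc, hby⟩ := (mP b).mp hb
        have hRcard : R.card = 1 := by
          rw [Finset.card_eq_one]
          refine ⟨z', ?_⟩
          ext r
          rw [Finset.mem_singleton]
          refine ⟨fun hr => ?_, fun hr => hr ▸ hzR⟩
          obtain ⟨hrB, hry, hrc⟩ := (mR r).mp hr
          exact dl_NB hA2 hy hpA hlB hly hlp hx hrB hzB hbB hyx hpx hry (hRN r hr) hzy hzp hbp hby
        left; right
        rw [if_pos hRcard, Finset.mem_image]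
        have he : N p = insert b Q := by
          ext w
          rw [mN, Finset.mem_insert]
          constructor
          · rintro ⟨hwB, hwp⟩
            by_cases hwc : E c w
            · by_cases hwy : E y w
              · exact Or.inr ((mQ w).mpr ⟨hwB, hwc, hwy⟩)
              · exact Or.inl (hPP w ((mP w).mpr ⟨hwB, hwc, hwy⟩) b hb hwp hbp)
            · have hwy := (hcov w hwB).resolve_left hwc
              exact absurd hwp (hRN w ((mR w).mpr ⟨hwB, hwy, hwc⟩))
          · rintro (rfl | hwQ)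
            · exact ⟨hbB, hbp⟩
            · exact ⟨((mQ w).mp hwQ).1, hQN w hwQ⟩
        exact ⟨b, Finset.mem_filter.mpr ⟨hb, p, hpA, he⟩, he.symm⟩
      · exfalso
        push Not at hex
        apply eQ
        ext w
        rw [mN]
        constructor
        · rintro ⟨hwB, hwp⟩
          by_cases hwc : E c w
          · by_cases hwy : E y w
            · exact (mQ w).mpr ⟨hwB, hwc, hwy⟩
            · exact absurd hwp (hex w ((mP w).mpr ⟨hwB, hwc, hwy⟩))
          · have hwy := (hcov w hwB).resolve_left hwc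
            exact absurd hwp (hRN w ((mR w).mpr ⟨hwB, hwy, hwc⟩))
        · intro hwQ
          exact ⟨((mQ w).mp hwQ).1, hQN w hwQ⟩
  -- colouring
  let γ : α → Fin 19 := fun p => if h : N p ∈ U then Fin.castLE hUcard (U.equivFin ⟨N p, h⟩) else 0
  have hγ : ∀ a ∈ A \ A0, ∀ a' ∈ A \ A0, γ a = γ a' → ∀ b ∈ B, (E a b ↔ E a' b) := by
    intro a ha a' ha' he b hb
    have h1 := hclass a ha
    have h2 := hclass a' ha'
    simp only [γ] at he
    rw [dif_pos h1, dif_pos h2] at he
    have h3 := U.equivFin.injective (Fin.castLE_injective _ he)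
    have h4 : N a = N a' := congrArg Subtype.val h3
    have h5 : b ∈ N a ↔ b ∈ N a' := by rw [h4]
    rw [mN, mN] at h5
    exact ⟨fun h => (h5.mp ⟨hb, h⟩).2, fun h => (h5.mpr ⟨hb, h⟩).2⟩
  have hfin := BLin.first (k := 21) (A := A) (A \ A0) γ hγ (by
    rw [Finset.sdiff_sdiff_eq_self hA0A]
    exact hstep1)
  exact hfin

end Pool.Agent.Helper856.Lcw.DirectL
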