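import Pool.Agent.Helper856.Lcw.Base
import Pool.Agent.Helper856.Lcw.S113All
import Pool.Agent.Helper856.Lcw.DirectL

open Classical SimpleGraph

namespace Pool.Agent.Helper856.Lcw

open DirectL

variable {α β : Type} {E E' : α → β → Prop} {A A' : Finset α} {B B' : Finset β} {k l : ℕ}

theorem Bad.mono (hA : A' ⊆ A) (hB : B' ⊆ B) {c y : α} {x l1 l2 z : β}
    (h : Bad E A' B' c y x l1 l2 z) : Bad E A B c y x l1 l2 z := by
  obtain ⟨h1, h2, h3, h4, h5, h6, h7⟩ := h
  exact ⟨hA h1, hA h2, hB h3, hB h4, hB h5, hB h6, h7⟩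

theorem BadHit.mono (h : BadHit E A B) (hA : A' ⊆ A) (hB : B' ⊆ B) : BadHit E A' B' :=
  fun c y x l1 l2 z hb p hp => h c y x l1 l2 z (hb.mono hA hB) p (hA hp)

theorem BadCover.mono (h : BadCover E A B) (hA : A' ⊆ A) (hB : B' ⊆ B) : BadCover E A' B' :=
  fun c y x l1 l2 z hb p hp => h c y x l1 l2 z (hb.mono hA hB) p (hB hp)

theorem exists_min_bad (h : ¬ NoBad E A B) : ∃ (c y : α) (x l1 l2 z : β),
    Bad E A B c y x l1 l2 z ∧ ∀ c' y' x' l1' l2' z', Bad E A B c' y' x' l1' l2' z' →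
      (B.filter (fun b => E c b ∧ E y b)).card ≤ (B.filter (fun b => E c' b ∧ E y' b)).card := by
  have h' : ∃ n : ℕ, ∃ (c y : α) (x l1 l2 z : β), Bad E A B c y x l1 l2 z ∧
      (B.filter (fun b => E c b ∧ E y b)).card = n := by
    simp only [NoBad, not_forall, not_not] at h
    obtain ⟨c, y, x, l1, l2, z, hb⟩ := h
    exact ⟨_, c, y, x, l1, l2, z, hb, rfl⟩
  obtain ⟨c, y, x, l1, l2, z, hb, hn⟩ := Nat.find_spec h'
  refine ⟨c, y, x, l1, l2, z, hb, fun c' y' x' l1' l2' z' hb' => ?_⟩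
  rw [hn]
  exact Nat.find_min' h' ⟨c', y', x', l1', l2', z', hb', rfl⟩

/-- if the set `R` has at most one element, `c` is adjacent to everything but `z` -/
theorem dom_of_R (hA2 : BadCover E A B) {c y : α} {x l1 l2 z : β}
    (hbad : Bad E A B c y x l1 l2 z)
    (hR : ¬ 2 ≤ (B.filter (fun b => E y b ∧ ¬ E c b)).card) :
    ∀ b ∈ B \ {z}, E c b := by
  intro b hb
  rw [Finset.mem_sdiff, Finset.mem_singleton] at hb
  by_contra hcb
  have hyb : E y b := (hA2 c y x l1 l2 z hbad b hb.1).resolve_left hcb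
  obtain ⟨h1, h2, h3, h4, h5, h6, h7, h8, h9, h10, h11, h12, h13, h14, h15⟩ := hbad
  apply hR
  have hsub : ({b, z} : Finset β) ⊆ B.filter (fun b => E y b ∧ ¬ E c b) := by
    intro w hw
    rw [Finset.mem_insert, Finset.mem_singleton] at hw
    rw [Finset.mem_filter]
    rcases hw with rfl | rfl
    · exact ⟨hb.1, hyb, hcb⟩
    · exact ⟨h6, h14, h15⟩
  calc 2 = ({b, z} : Finset β).card := (Finset.card_pair hb.2).symm
    _ ≤ _ := Finset.card_le_card hsub

theorem claim2 (hA1 : BadHit E A B) (hA2 : BadCover E A B)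
    (hB1 : BadHit (fun b a => E a b) B A) (hB2 : BadCover (fun b a => E a b) B A)
    (hd : ∃ d ∈ A, ∀ b ∈ B, E d b) (he : ∃ e ∈ B, ∀ a ∈ A, E a e) :
    BLin 40 E A B := by
  by_cases h1 : NoBad E A B
  · by_cases h2 : NoBad (fun b a => E a b) B A
    · exact (S113_all h1 h2).mono_k (by norm_num)
    · obtain ⟨c, y, x, l1, l2, z, hb, hmin⟩ := exists_min_bad h2
      have := direct_lemma (E := fun b a => E a b) (A := B) (B := A) hB1 hB2 hA2
        c y x l1 l2 z hb hmin (Or.inr he)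
      exact this.swap
  · obtain ⟨c, y, x, l1, l2, z, hb, hmin⟩ := exists_min_bad h1
    exact direct_lemma hA1 hA2 hB2 c y x l1 l2 z hb hmin (Or.inr hd)

theorem first_one (z : α) (h : BLin k E (A \ {z}) B) : BLin (k + 1) E A B := by
  refine BLin.first {z} (fun _ => (0 : Fin 1)) ?_ h
  intro a ha a' ha' _ b _
  rw [Finset.mem_singleton] at ha ha'
  rw [ha, ha']

theorem claim1 (hA1 : BadHit E A B) (hA2 : BadCover E A B)
    (hB1 : BadHit (fun b a => E a b) B A) (hB2 : BadCover (fun b a => E a b) B A)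
    (hd : ∃ d ∈ A, ∀ b ∈ B, E d b) :
    BLin 41 E A B := by
  by_cases h1 : NoBad E A B
  · by_cases h2 : NoBad (fun b a => E a b) B A
    · exact (S113_all h1 h2).mono_k (by norm_num)
    · obtain ⟨c, y, x, l1, l2, z, hb, hmin⟩ := exists_min_bad h2
      by_cases hR : 2 ≤ (A.filter (fun a => E a y ∧ ¬ E a c)).card
      · have := direct_lemma (E := fun b a => E a b) (A := B) (B := A) hB1 hB2 hA2
          c y x l1 l2 z hb hmin (Or.inl hR)
        exact this.swap.mono_k (by norm_num)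
      · have hdom := dom_of_R (E := fun b a => E a b) hB2 hb hR
        obtain ⟨d, hdA, hd⟩ := hd
        have hcB : c ∈ B := hb.1
        have hdz : d ≠ z := by
          rintro rfl
          obtain ⟨_, _, _, _, _, _, _, _, _, _, _, _, _, _, h15⟩ := hb
          exact h15 (hd c hcB)
        have hsub : A \ {z} ⊆ A := Finset.sdiff_subset
        refine first_one z (claim2 (hA1.mono hsub subset_rfl) (hA2.mono hsub subset_rfl)
          (hB1.mono subset_rfl hsub) (hB2.mono subset_rfl hsub) ⟨d, ?_, hd⟩ ⟨c, hcB, hdom⟩)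
        rw [Finset.mem_sdiff, Finset.mem_singleton]
        exact ⟨hdA, hdz⟩
  · obtain ⟨c, y, x, l1, l2, z, hb, hmin⟩ := exists_min_bad h1
    exact (direct_lemma hA1 hA2 hB2 c y x l1 l2 z hb hmin (Or.inr hd)).mono_k (by norm_num)

theorem main_left (hA1 : BadHit E A B) (hA2 : BadCover E A B)
    (hB1 : BadHit (fun b a => E a b) B A) (hB2 : BadCover (fun b a => E a b) B A)
    (h1 : ¬ NoBad E A B) : BLin 42 E A B := by
  obtain ⟨c, y, x, l1, l2, z, hb, hmin⟩ := exists_min_bad h1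
  by_cases hR : 2 ≤ (B.filter (fun b => E y b ∧ ¬ E c b)).card
  · exact (direct_lemma hA1 hA2 hB2 c y x l1 l2 z hb hmin (Or.inl hR)).mono_k (by norm_num)
  · have hdom := dom_of_R hA2 hb hR
    have hsub : B \ {z} ⊆ B := Finset.sdiff_subset
    have h41 : BLin 41 E A (B \ {z}) := claim1 (hA1.mono subset_rfl hsub)
      (hA2.mono subset_rfl hsub) (hB1.mono hsub subset_rfl) (hB2.mono hsub subset_rfl)
      ⟨c, hb.1, hdom⟩
    exact (first_one z h41.swap).swap

/-- TARGET -/
theorem P1S113_main (hA1 : BadHit E A B) (hA2 : BadCover E A B)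
    (hB1 : BadHit (fun b a => E a b) B A) (hB2 : BadCover (fun b a => E a b) B A) :
    BLin 50 E A B := by
  by_cases h1 : NoBad E A B
  · by_cases h2 : NoBad (fun b a => E a b) B A
    · exact (S113_all h1 h2).mono_k (by norm_num)
    · have := main_left (E := fun b a => E a b) (A := B) (B := A) hB1 hB2 hA1 hA2 h2
      exact this.swap.mono_k (by norm_num)
  · exact (main_left hA1 hA2 hB1 hB2 h1).mono_k (by norm_num)

end Pool.Agent.Helper856.Lcw
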