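import Mathlib

open Classical

namespace Pool.Agent.Helper856.Lcw

/-- The bipartite graph with sides `A`, `B` and cross adjacency `E` has an arrangement
(positions `p`, `q`; ties are allowed inside a side, not across) such that at every threshold
`t` the earlier vertices of each side fall into at most `k` classes with respect to their
later neighbours. -/
def BLin {α β : Type} (k : ℕ) (E : α → β → Prop) (A : Finset α) (B : Finset β) : Prop :=
  ∃ (p : α → ℕ) (q : β → ℕ), (∀ a ∈ A, ∀ b ∈ B, p a ≠ q b) ∧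
    ∀ t : ℕ,
      (∃ c : α → Fin k, ∀ a ∈ A, ∀ a' ∈ A, p a < t → p a' < t → c a = c a' →
        ∀ b ∈ B, t ≤ q b → (E a b ↔ E a' b)) ∧
      (∃ d : β → Fin k, ∀ b ∈ B, ∀ b' ∈ B, q b < t → q b' < t → d b = d b' →
        ∀ a ∈ A, t ≤ p a → (E a b ↔ E a b'))

/-- no nontrivial union of components: cut version of connectivity -/
def Conn {α β : Type} (E : α → β → Prop) (A : Finset α) (B : Finset β) : Prop :=
  ∀ X ⊆ A, ∀ Y ⊆ B, (∀ a ∈ A, ∀ b ∈ B, E a b → (a ∈ X ↔ b ∈ Y)) →
    (X = ∅ ∧ Y = ∅) ∨ (X = A ∧ Y = B)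

variable {α β : Type} {E E' : α → β → Prop} {A A' : Finset α} {B B' : Finset β} {k l : ℕ}

theorem BLin.swap (h : BLin k E A B) : BLin k (fun b a => E a b) B A := by
  obtain ⟨p, q, hpq, h⟩ := h
  exact ⟨q, p, fun b hb a ha => (hpq a ha b hb).symm, fun t => ⟨(h t).2, (h t).1⟩⟩

theorem BLin.congr (h : BLin k E A B) (hE : ∀ a ∈ A, ∀ b ∈ B, (E a b ↔ E' a b)) :
    BLin k E' A B := by
  obtain ⟨p, q, hpq, h⟩ := h
  refine ⟨p, q, hpq, fun t => ?_⟩
  obtain ⟨⟨c, hc⟩, ⟨d, hd⟩⟩ := h t
  refine ⟨⟨c, fun a ha a' ha' h1 h2 h3 b hb h4 => ?_⟩, ⟨d, fun b hb b' hb' h1 h2 h3 a ha h4 => ?_⟩⟩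
  · rw [← hE a ha b hb, ← hE a' ha' b hb]; exact hc a ha a' ha' h1 h2 h3 b hb h4
  · rw [← hE a ha b hb, ← hE a ha b' hb']; exact hd b hb b' hb' h1 h2 h3 a ha h4

theorem BLin.compl (h : BLin k E A B) : BLin k (fun a b => ¬ E a b) A B := by
  obtain ⟨p, q, hpq, h⟩ := h
  refine ⟨p, q, hpq, fun t => ?_⟩
  obtain ⟨⟨c, hc⟩, ⟨d, hd⟩⟩ := h t
  refine ⟨⟨c, fun a ha a' ha' h1 h2 h3 b hb h4 => ?_⟩, ⟨d, fun b hb b' hb' h1 h2 h3 a ha h4 => ?_⟩⟩
  · exact not_congr (hc a ha a' ha' h1 h2 h3 b hb h4)
  · exact not_congr (hd b hb b' hb' h1 h2 h3 a ha h4)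

theorem BLin.of_compl (h : BLin k (fun a b => ¬ E a b) A B) : BLin k E A B :=
  h.compl.congr (fun a _ b _ => by simp)

theorem BLin.mono_k (h : BLin k E A B) (hkl : k ≤ l) : BLin l E A B := by
  obtain ⟨p, q, hpq, h⟩ := h
  refine ⟨p, q, hpq, fun t => ?_⟩
  obtain ⟨⟨c, hc⟩, ⟨d, hd⟩⟩ := h t
  refine ⟨⟨fun a => Fin.castLE hkl (c a), fun a ha a' ha' h1 h2 h3 b hb h4 => ?_⟩,
    ⟨fun b => Fin.castLE hkl (d b), fun b hb b' hb' h1 h2 h3 a ha h4 => ?_⟩⟩
  · exact hc a ha a' ha' h1 h2 (Fin.castLE_injective hkl h3) b hb h4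
  · exact hd b hb b' hb' h1 h2 (Fin.castLE_injective hkl h3) a ha h4

theorem BLin.subset (h : BLin k E A B) (hA : A' ⊆ A) (hB : B' ⊆ B) : BLin k E A' B' := by
  obtain ⟨p, q, hpq, h⟩ := h
  refine ⟨p, q, fun a ha b hb => hpq a (hA ha) b (hB hb), fun t => ?_⟩
  obtain ⟨⟨c, hc⟩, ⟨d, hd⟩⟩ := h t
  exact ⟨⟨c, fun a ha a' ha' h1 h2 h3 b hb h4 => hc a (hA ha) a' (hA ha') h1 h2 h3 b (hB hb) h4⟩,
    ⟨d, fun b hb b' hb' h1 h2 h3 a ha h4 => hd b (hB hb) b' (hB hb') h1 h2 h3 a (hA ha) h4⟩⟩

/-- replace vertices by twins -/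
theorem BLin.of_reps (f : α → α) (g : β → β)
    (hf : ∀ a ∈ A, f a ∈ A') (hg : ∀ b ∈ B, g b ∈ B')
    (hE : ∀ a ∈ A, ∀ b ∈ B, (E a b ↔ E (f a) (g b)))
    (h : BLin k E A' B') : BLin k E A B := by
  obtain ⟨p, q, hpq, h⟩ := h
  refine ⟨fun a => p (f a), fun b => q (g b), fun a ha b hb => hpq _ (hf a ha) _ (hg b hb),
    fun t => ?_⟩
  obtain ⟨⟨c, hc⟩, ⟨d, hd⟩⟩ := h t
  refine ⟨⟨fun a => c (f a), fun a ha a' ha' h1 h2 h3 b hb h4 => ?_⟩,
    ⟨fun b => d (g b), fun b hb b' hb' h1 h2 h3 a ha h4 => ?_⟩⟩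
  · rw [hE a ha b hb, hE a' ha' b hb]
    exact hc _ (hf a ha) _ (hf a' ha') h1 h2 h3 _ (hg b hb) h4
  · rw [hE a ha b hb, hE a ha b' hb']
    exact hd _ (hg b hb) _ (hg b' hb') h1 h2 h3 _ (hf a ha) h4

/-- xor with a constant (side `A`) -/
theorem BLin.xor (U : α → Prop) (h : BLin k (fun a b => (E a b ↔ ¬ U a)) A B) :
    BLin (k * 2) E A B := by
  obtain ⟨p, q, hpq, h⟩ := h
  refine ⟨p, q, hpq, fun t => ?_⟩
  obtain ⟨⟨c, hc⟩, ⟨d, hd⟩⟩ := h t
  refine ⟨⟨fun a => finProdFinEquiv (c a, if U a then 0 else 1),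
    fun a ha a' ha' h1 h2 h3 b hb h4 => ?_⟩,
    ⟨fun b => finProdFinEquiv (d b, 0), fun b hb b' hb' h1 h2 h3 a ha h4 => ?_⟩⟩
  · have h5 := finProdFinEquiv.injective h3
    simp only [Prod.mk.injEq] at h5
    have h6 := hc a ha a' ha' h1 h2 h5.1 b hb h4
    have h7 : U a ↔ U a' := by
      have := h5.2
      by_cases u : U a <;> by_cases u' : U a' <;> simp_all
    simp only [h7] at h6
    by_cases u' : U a' <;> simp_all
    tauto
  · have h5 := finProdFinEquiv.injective h3
    simp only [Prod.mk.injEq, and_true] at h5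
    have h6 := hd b hb b' hb' h1 h2 h5 a ha h4
    by_cases u' : U a <;> simp_all
    tauto

/-- put the set `S ⊆ A` first -/
theorem BLin.first {m : ℕ} (S : Finset α) (γ : α → Fin m)
    (hγ : ∀ a ∈ S, ∀ a' ∈ S, γ a = γ a' → ∀ b ∈ B, (E a b ↔ E a' b))
    (h : BLin k E (A \ S) B) : BLin (k + m) E A B := by
  obtain ⟨p, q, hpq, h⟩ := h
  refine ⟨fun a => if a ∈ S then 0 else p a + 1, fun b => q b + 1, ?_, fun t => ?_⟩
  · intro a ha b hb
    by_cases hS : a ∈ S
    · simp [hS]
    · have := hpq a (by simp [ha, hS]) b hb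
      simp [hS, this]
  obtain ⟨⟨c, hc⟩, ⟨d, hd⟩⟩ := h (t - 1)
  refine ⟨⟨fun a => if a ∈ S then Fin.natAdd k (γ a) else Fin.castAdd m (c a),
    fun a ha a' ha' h1 h2 h3 b hb h4 => ?_⟩,
    ⟨fun b => Fin.castAdd m (d b), fun b hb b' hb' h1 h2 h3 a ha h4 => ?_⟩⟩
  · by_cases hS : a ∈ S <;> by_cases hS' : a' ∈ S
    · simp only [hS, hS', if_true] at h3
      exact hγ a hS a' hS' (Fin.natAdd_injective _ _ h3) b hb
    · exfalso
      simp only [hS, hS', if_true, if_false] at h3
      have := congrArg Fin.val h3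
      simp at this
      have := (c a').isLt
      omega
    · exfalso
      simp only [hS, hS', if_true, if_false] at h3
      have := congrArg Fin.val h3
      simp at this
      have := (c a).isLt
      omega
    · simp only [hS, hS', if_false] at h1 h2 h3
      have h3' := Fin.castAdd_injective _ _ h3
      have h4' : t ≤ q b + 1 := h4
      refine hc a (by simp [ha, hS]) a' (by simp [ha', hS']) (by omega) (by omega) h3' b hb (by omega)
  · have h3' := Fin.castAdd_injective _ _ h3
    by_cases hS : a ∈ S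
    · simp only [hS, if_true] at h4; omega
    · simp only [hS, if_false] at h4
      have h1' : q b + 1 < t := h1
      have h2' : q b' + 1 < t := h2
      exact hd b hb b' hb' (by omega) (by omega) h3' a (by simp [ha, hS]) (by omega)


theorem BLin.lex (κ K : ℕ) (iA : α → ℕ) (iB : β → ℕ)
    (hloc : ∀ n, BLin K E (A.filter (fun a => iA a = n)) (B.filter (fun b => iB b = n)))
    (hA : ∀ n, ∃ c : α → Fin κ, ∀ a ∈ A, ∀ a' ∈ A, iA a < n → iA a' < n → c a = c a' →
      ∀ b ∈ B, n ≤ iB b → (E a b ↔ E a' b))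
    (hB : ∀ n, ∃ d : β → Fin κ, ∀ b ∈ B, ∀ b' ∈ B, iB b < n → iB b' < n → d b = d b' →
      ∀ a ∈ A, n ≤ iA a → (E a b ↔ E a b')) :
    BLin (κ + K * κ) E A B := by
  choose p q hpq hcol using hloc
  obtain ⟨M, hMA, hMB⟩ : ∃ M, (∀ a ∈ A, p (iA a) a < M) ∧ (∀ b ∈ B, q (iB b) b < M) := by
    refine ⟨A.sup (fun a => p (iA a) a) + B.sup (fun b => q (iB b) b) + 1, ?_, ?_⟩
    · intro a ha
      have := Finset.le_sup (f := fun a => p (iA a) a) ha
      omega
    · intro b hb
      have := Finset.le_sup (f := fun b => q (iB b) b) hb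
      omega
  have key : ∀ x y r : ℕ, r < M → x * M + r < y * M → x < y := by
    intro x y r _ h
    by_contra hxy
    have := Nat.mul_le_mul_right M (not_lt.mp hxy)
    omega
  have key2 : ∀ x y r : ℕ, r < M → y * M ≤ x * M + r → y ≤ x := by
    intro x y r hr h
    by_contra hxy
    have := Nat.mul_le_mul_right M (Nat.succ_le_of_lt (not_le.mp hxy))
    rw [Nat.succ_mul] at this
    omega
  refine ⟨fun a => iA a * M + p (iA a) a, fun b => iB b * M + q (iB b) b, ?_, fun t => ?_⟩
  · intro a ha b hb h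
    have h1 := hMA a ha
    have h2 := hMB b hb
    simp only at h
    have h3 : iA a = iB b := le_antisymm (key2 _ _ _ h2 (by omega)) (key2 _ _ _ h1 (by omega))
    have h4 : p (iA a) a = q (iB b) b := by rw [h3] at h ⊢; omega
    rw [h3] at h4
    exact hpq (iB b) a (by simp [ha, h3]) b (by simp [hb]) h4
  · have hM : A = ∅ ∧ B = ∅ ∨ 0 < M := by
      rcases Nat.eq_zero_or_pos M with h | h
      · left
        constructor
        · rw [Finset.eq_empty_iff_forall_notMem]; intro a ha; have := hMA a ha; omega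
        · rw [Finset.eq_empty_iff_forall_notMem]; intro b hb; have := hMB b hb; omega
      · exact Or.inr h
    set n := t / M with hn
    set r := t % M with hr
    have ht : n * M + r = t := by rw [mul_comm]; exact Nat.div_add_mod t M
    obtain ⟨c1, hc1⟩ := hA n
    obtain ⟨c3, hc3⟩ := hA (n + 1)
    obtain ⟨d1, hd1⟩ := hB n
    obtain ⟨d3, hd3⟩ := hB (n + 1)
    obtain ⟨⟨c2, hc2⟩, ⟨d2, hd2⟩⟩ := hcol n r
    have eA : ∀ a ∈ A, iA a * M + p (iA a) a < t → iA a < n ∨ (iA a = n ∧ p n a < r) := by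
      intro a ha h
      have hr' : r < M := Nat.mod_lt _ (by have := hMA a ha; omega)
      have h1 : iA a ≤ n := key2 n (iA a) r hr' (by omega)
      rcases Nat.lt_or_eq_of_le h1 with h2 | h2
      · exact Or.inl h2
      · right
        refine ⟨h2, ?_⟩
        rw [h2] at h
        omega
    have eB : ∀ b ∈ B, iB b * M + q (iB b) b < t → iB b < n ∨ (iB b = n ∧ q n b < r) := by
      intro b hb h
      have hr' : r < M := Nat.mod_lt _ (by have := hMB b hb; omega)
      have h1 : iB b ≤ n := key2 n (iB b) r hr' (by omega)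
      rcases Nat.lt_or_eq_of_le h1 with h2 | h2
      · exact Or.inl h2
      · right
        refine ⟨h2, ?_⟩
        rw [h2] at h
        omega
    have lA : ∀ a ∈ A, t ≤ iA a * M + p (iA a) a → n + 1 ≤ iA a ∨ (iA a = n ∧ r ≤ p n a) := by
      intro a ha h
      have h1 : n ≤ iA a := key2 (iA a) n _ (hMA a ha) (by omega)
      rcases Nat.lt_or_eq_of_le h1 with h2 | h2
      · exact Or.inl h2
      · right
        refine ⟨h2.symm, ?_⟩
        rw [← h2] at h
        omega
    have lB : ∀ b ∈ B, t ≤ iB b * M + q (iB b) b → n + 1 ≤ iB b ∨ (iB b = n ∧ r ≤ q n b) := by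
      intro b hb h
      have h1 : n ≤ iB b := key2 (iB b) n _ (hMB b hb) (by omega)
      rcases Nat.lt_or_eq_of_le h1 with h2 | h2
      · exact Or.inl h2
      · right
        refine ⟨h2.symm, ?_⟩
        rw [← h2] at h
        omega
    refine ⟨⟨fun a => if iA a < n then Fin.castAdd _ (c1 a) else
        Fin.natAdd κ (finProdFinEquiv (c2 a, c3 a)), ?_⟩,
      ⟨fun b => if iB b < n then Fin.castAdd _ (d1 b) else
        Fin.natAdd κ (finProdFinEquiv (d2 b, d3 b)), ?_⟩⟩
    · intro a ha a' ha' h1 h2 h3 b hb h4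
      have h5 := lB b hb h4
      rcases eA a ha h1 with g | ⟨g, g'⟩ <;> rcases eA a' ha' h2 with g2 | ⟨g2, g2'⟩
      · simp only [g, g2, if_true] at h3
        exact hc1 a ha a' ha' g g2 (Fin.castAdd_injective _ _ h3) b hb (by omega)
      · exfalso
        simp only [g, g2, if_true, lt_irrefl, if_false] at h3
        have h6 := congrArg Fin.val h3
        simp only [Fin.val_castAdd, Fin.val_natAdd] at h6
        have := (c1 a).isLt
        omega
      · exfalso
        simp only [g, g2, if_true, lt_irrefl, if_false] at h3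
        have h6 := congrArg Fin.val h3
        simp only [Fin.val_castAdd, Fin.val_natAdd] at h6
        have := (c1 a').isLt
        omega
      · simp only [g, g2, lt_irrefl, if_false] at h3
        have h6 := finProdFinEquiv.injective (Fin.natAdd_injective _ _ h3)
        simp only [Prod.mk.injEq] at h6
        rcases h5 with h5 | ⟨h5, h5'⟩
        · exact hc3 a ha a' ha' (by omega) (by omega) h6.2 b hb h5
        · exact hc2 a (by simp [ha, g]) a' (by simp [ha', g2]) g' g2' h6.1 b (by simp [hb, h5]) h5'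
    · intro b hb b' hb' h1 h2 h3 a ha h4
      have h5 := lA a ha h4
      rcases eB b hb h1 with g | ⟨g, g'⟩ <;> rcases eB b' hb' h2 with g2 | ⟨g2, g2'⟩
      · simp only [g, g2, if_true] at h3
        exact hd1 b hb b' hb' g g2 (Fin.castAdd_injective _ _ h3) a ha (by omega)
      · exfalso
        simp only [g, g2, if_true, lt_irrefl, if_false] at h3
        have h6 := congrArg Fin.val h3
        simp only [Fin.val_castAdd, Fin.val_natAdd] at h6
        have := (d1 b).isLt
        omega
      · exfalso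
        simp only [g, g2, if_true, lt_irrefl, if_false] at h3
        have h6 := congrArg Fin.val h3
        simp only [Fin.val_castAdd, Fin.val_natAdd] at h6
        have := (d1 b').isLt
        omega
      · simp only [g, g2, lt_irrefl, if_false] at h3
        have h6 := finProdFinEquiv.injective (Fin.natAdd_injective _ _ h3)
        simp only [Prod.mk.injEq] at h6
        rcases h5 with h5 | ⟨h5, h5'⟩
        · exact hd3 b hb b' hb' (by omega) (by omega) h6.2 a ha h5
        · exact hd2 b (by simp [hb, g]) b' (by simp [hb', g2]) g' g2' h6.1 a (by simp [ha, h5]) h5'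

theorem BLin.of_greedy (P : Finset α → Finset β → Prop) (h0 : P ∅ ∅)
    (hstep : ∀ X ⊆ A, ∀ Y ⊆ B, P X Y → (X ≠ A ∨ Y ≠ B) →
      (∃ a ∈ A, a ∉ X ∧ P (insert a X) Y) ∨ (∃ b ∈ B, b ∉ Y ∧ P X (insert b Y)))
    (hcol : ∀ X ⊆ A, ∀ Y ⊆ B, P X Y →
      (∃ c : α → Fin k, ∀ a ∈ X, ∀ a' ∈ X, c a = c a' → ∀ b ∈ B, b ∉ Y → (E a b ↔ E a' b)) ∧
      (∃ d : β → Fin k, ∀ b ∈ Y, ∀ b' ∈ Y, d b = d b' → ∀ a ∈ A, a ∉ X → (E a b ↔ E a b'))) :
    BLin k E A B := by
  have main : ∀ m : ℕ, ∀ X ⊆ A, ∀ Y ⊆ B, P X Y → (A \ X).card + (B \ Y).card = m →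
      ∃ (p : α → ℕ) (q : β → ℕ), (∀ a ∈ A, a ∉ X → ∀ b ∈ B, b ∉ Y → p a ≠ q b) ∧
        ∀ t : ℕ,
        (∃ c : α → Fin k, ∀ a ∈ A, ∀ a' ∈ A, (a ∈ X ∨ p a < t) → (a' ∈ X ∨ p a' < t) →
          c a = c a' → ∀ b ∈ B, b ∉ Y → t ≤ q b → (E a b ↔ E a' b)) ∧
        (∃ d : β → Fin k, ∀ b ∈ B, ∀ b' ∈ B, (b ∈ Y ∨ q b < t) → (b' ∈ Y ∨ q b' < t) →
          d b = d b' → ∀ a ∈ A, a ∉ X → t ≤ p a → (E a b ↔ E a b')) := by
    intro m
    induction m with
    | zero =>
      intro X hX Y hY hP hm
      have h1 : A \ X = ∅ := by rw [← Finset.card_eq_zero]; omega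
      have h2 : B \ Y = ∅ := by rw [← Finset.card_eq_zero]; omega
      have h1' : ∀ a ∈ A, a ∈ X := fun a ha => by
        by_contra h
        have : a ∈ A \ X := by simp [ha, h]
        simp [h1] at this
      have h2' : ∀ b ∈ B, b ∈ Y := fun b hb => by
        by_contra h
        have : b ∈ B \ Y := by simp [hb, h]
        simp [h2] at this
      obtain ⟨⟨c, _⟩, ⟨d, _⟩⟩ := hcol X hX Y hY hP
      refine ⟨fun _ => 0, fun _ => 0, fun a ha ha' => absurd (h1' a ha) ha', fun t =>
        ⟨⟨c, fun a _ a' _ _ _ _ b hb hb' => absurd (h2' b hb) hb'⟩,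
         ⟨d, fun b _ b' _ _ _ _ a ha ha' => absurd (h1' a ha) ha'⟩⟩⟩
    | succ m ih =>
      intro X hX Y hY hP hm
      have hne : X ≠ A ∨ Y ≠ B := by
        by_contra h
        push Not at h
        obtain ⟨rfl, rfl⟩ := h
        simp at hm
      obtain ⟨hcA, hcB⟩ := hcol X hX Y hY hP
      rcases hstep X hX Y hY hP hne with ⟨a0, ha0, ha0X, hP'⟩ | ⟨b0, hb0, hb0Y, hP'⟩
      · have hX' : insert a0 X ⊆ A := Finset.insert_subset ha0 hX
        have hcard : (A \ insert a0 X).card + (B \ Y).card = m := by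
          have : (A \ X) = insert a0 (A \ insert a0 X) := by
            ext z; simp only [Finset.mem_sdiff, Finset.mem_insert]
            constructor
            · rintro ⟨h1, h2⟩; by_cases h : z = a0
              · exact Or.inl h
              · exact Or.inr ⟨h1, by tauto⟩
            · rintro (rfl | ⟨h1, h2⟩)
              · exact ⟨ha0, ha0X⟩
              · exact ⟨h1, by tauto⟩
          rw [this, Finset.card_insert_of_notMem (by simp)] at hm
          omega
        obtain ⟨p, q, hpq, hpq2⟩ := ih _ hX' Y hY hP' hcard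
        refine ⟨fun a => if a = a0 then 0 else p a + 1, fun b => q b + 1, ?_, ?_⟩
        · intro a ha haX b hb hbY
          by_cases h : a = a0
          · simp [h]
          · have := hpq a ha (by simp [h, haX]) b hb hbY
            simp [h, this]
        · intro t
          rcases t with _ | t
          · obtain ⟨c, hc⟩ := hcA
            obtain ⟨d, hd⟩ := hcB
            refine ⟨⟨c, fun a _ a' _ h1 h2 h3 b hb hbY _ => ?_⟩,
              ⟨d, fun b _ b' _ h1 h2 h3 a ha haX _ => ?_⟩⟩
            · simp only [not_lt_zero, or_false] at h1 h2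
              exact hc a h1 a' h2 h3 b hb hbY
            · simp only [not_lt_zero, or_false] at h1 h2
              exact hd b h1 b' h2 h3 a ha haX
          · obtain ⟨⟨c, hc⟩, ⟨d, hd⟩⟩ := hpq2 t
            refine ⟨⟨c, fun a ha a' ha' h1 h2 h3 b hb hbY h4 => ?_⟩,
              ⟨d, fun b hb b' hb' h1 h2 h3 a ha haX h4 => ?_⟩⟩
            · have conv : ∀ z, (z ∈ X ∨ (if z = a0 then 0 else p z + 1) < t + 1) →
                  (z ∈ insert a0 X ∨ p z < t) := by
                intro z hz
                by_cases h : z = a0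
                · left; simp [h]
                · rcases hz with hz | hz
                  · left; simp [hz]
                  · right; simp only [h, if_false] at hz; omega
              exact hc a ha a' ha' (conv a h1) (conv a' h2) h3 b hb hbY (by simpa using h4)
            · have hne : a ≠ a0 := by
                rintro rfl
                simp at h4
              simp only [hne, if_false] at h4
              beta_reduce at h1 h2
              exact hd b hb b' hb' (by rcases h1 with h1 | h1; exact Or.inl h1; right; omega)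
                (by rcases h2 with h2 | h2; exact Or.inl h2; right; omega) h3 a ha
                (by simp [hne, haX]) (by omega)
      · have hY' : insert b0 Y ⊆ B := Finset.insert_subset hb0 hY
        have hcard : (A \ X).card + (B \ insert b0 Y).card = m := by
          have : (B \ Y) = insert b0 (B \ insert b0 Y) := by
            ext z; simp only [Finset.mem_sdiff, Finset.mem_insert]
            constructor
            · rintro ⟨h1, h2⟩; by_cases h : z = b0
              · exact Or.inl h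
              · exact Or.inr ⟨h1, by tauto⟩
            · rintro (rfl | ⟨h1, h2⟩)
              · exact ⟨hb0, hb0Y⟩
              · exact ⟨h1, by tauto⟩
          rw [this, Finset.card_insert_of_notMem (by simp)] at hm
          omega
        obtain ⟨p, q, hpq, hpq2⟩ := ih X hX _ hY' hP' hcard
        refine ⟨fun a => p a + 1, fun b => if b = b0 then 0 else q b + 1, ?_, ?_⟩
        · intro a ha haX b hb hbY
          by_cases h : b = b0
          · simp [h]
          · have := hpq a ha haX b hb (by simp [h, hbY])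
            simp [h, this]
        · intro t
          rcases t with _ | t
          · obtain ⟨c, hc⟩ := hcA
            obtain ⟨d, hd⟩ := hcB
            refine ⟨⟨c, fun a _ a' _ h1 h2 h3 b hb hbY _ => ?_⟩,
              ⟨d, fun b _ b' _ h1 h2 h3 a ha haX _ => ?_⟩⟩
            · simp only [not_lt_zero, or_false] at h1 h2
              exact hc a h1 a' h2 h3 b hb hbY
            · simp only [not_lt_zero, or_false] at h1 h2
              exact hd b h1 b' h2 h3 a ha haX
          · obtain ⟨⟨c, hc⟩, ⟨d, hd⟩⟩ := hpq2 t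
            refine ⟨⟨c, fun a ha a' ha' h1 h2 h3 b hb hbY h4 => ?_⟩,
              ⟨d, fun b hb b' hb' h1 h2 h3 a ha haX h4 => ?_⟩⟩
            · have hne : b ≠ b0 := by
                rintro rfl
                simp at h4
              simp only [hne, if_false] at h4
              beta_reduce at h1 h2
              exact hc a ha a' ha' (by rcases h1 with h1 | h1; exact Or.inl h1; right; omega)
                (by rcases h2 with h2 | h2; exact Or.inl h2; right; omega) h3 b hb
                (by simp [hne, hbY]) (by omega)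
            · have conv : ∀ z, (z ∈ Y ∨ (if z = b0 then 0 else q z + 1) < t + 1) →
                  (z ∈ insert b0 Y ∨ q z < t) := by
                intro z hz
                by_cases h : z = b0
                · left; simp [h]
                · rcases hz with hz | hz
                  · left; simp [hz]
                  · right; simp only [h, if_false] at hz; omega
              exact hd b hb b' hb' (conv b h1) (conv b' h2) h3 a ha haX (by simpa using h4)
  obtain ⟨p, q, hpq, h⟩ := main _ ∅ (by simp) ∅ (by simp) h0 rfl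
  refine ⟨p, q, fun a ha b hb => hpq a ha (by simp) b hb (by simp), fun t => ?_⟩
  obtain ⟨⟨c, hc⟩, ⟨d, hd⟩⟩ := h t
  exact ⟨⟨c, fun a ha a' ha' h1 h2 h3 b hb h4 =>
      hc a ha a' ha' (Or.inr h1) (Or.inr h2) h3 b hb (by simp) h4⟩,
    ⟨d, fun b hb b' hb' h1 h2 h3 a ha h4 =>
      hd b hb b' hb' (Or.inr h1) (Or.inr h2) h3 a ha (by simp) h4⟩⟩

theorem exists_inj (B : Finset β) : ∃ e : β → ℕ, Set.InjOn e B := by
  refine ⟨fun b => if h : b ∈ B then (B.equivFin ⟨b, h⟩ : ℕ) else 0, ?_⟩
  intro x hx y hy hxy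
  have hx' : x ∈ B := hx
  have hy' : y ∈ B := hy
  simp only [hx', hy', dif_pos] at hxy
  have := B.equivFin.injective (Fin.ext hxy)
  simpa using this

theorem star_lemma (h : ∀ a ∈ A, (B.filter (fun b => E a b)).card ≤ 1) : BLin 2 E A B := by
  obtain ⟨e, he⟩ := exists_inj B
  have huniq : ∀ a ∈ A, ∀ b ∈ B, ∀ b' ∈ B, E a b → E a b' → b = b' := by
    intro a ha b hb b' hb' h1 h2
    exact Finset.card_le_one.mp (h a ha) b (by simp [hb, h1]) b' (by simp [hb', h2])
  refine ⟨fun a => if h : ∃ b ∈ B, E a b then 2 * e h.choose + 1 else 1, fun b => 2 * e b + 2,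
    ?_, fun t => ?_⟩
  · intro a ha b hb
    simp only
    split_ifs <;> omega
  have hp : ∀ a ∈ A, ∀ b ∈ B, E a b →
      (if h : ∃ b ∈ B, E a b then 2 * e h.choose + 1 else 1) = 2 * e b + 1 := by
    intro a ha b hb hab
    have hex : ∃ b ∈ B, E a b := ⟨b, hb, hab⟩
    rw [dif_pos hex]
    rw [huniq a ha _ hex.choose_spec.1 b hb hex.choose_spec.2 hab]
  refine ⟨⟨fun a => if ∃ b ∈ B, E a b ∧ t = 2 * e b + 2 then 1 else 0, ?_⟩, ⟨fun _ => 0, ?_⟩⟩
  · intro a ha a' ha' h1 h2 h3 b hb h4
    have hcase : ∀ z ∈ A, (if h : ∃ b ∈ B, E z b then 2 * e h.choose + 1 else 1) < t → E z b →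
        t = 2 * e b + 2 := by
      intro z hz hzt hzb
      rw [hp z hz b hb hzb] at hzt
      have : t ≤ 2 * e b + 2 := h4
      omega
    by_cases hx : ∃ b ∈ B, E a b ∧ t = 2 * e b + 2
    · have hx' : ∃ b ∈ B, E a' b ∧ t = 2 * e b + 2 := by
        by_contra hne
        simp [hx, hne] at h3
      obtain ⟨b1, hb1, hab1, ht1⟩ := hx
      obtain ⟨b2, hb2, hab2, ht2⟩ := hx'
      have h12 : b1 = b2 := he hb1 hb2 (by omega)
      subst h12
      constructor
      · intro hab
        have := huniq a ha b hb b1 hb1 hab hab1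
        rw [this]; exact hab2
      · intro hab
        have := huniq a' ha' b hb b1 hb1 hab hab2
        rw [this]; exact hab1
    · have hx' : ¬ ∃ b ∈ B, E a' b ∧ t = 2 * e b + 2 := by
        intro hne
        simp [hx, hne] at h3
      constructor
      · intro hab; exact absurd ⟨b, hb, hab, hcase a ha h1 hab⟩ hx
      · intro hab; exact absurd ⟨b, hb, hab, hcase a' ha' h2 hab⟩ hx'
  · intro b hb b' hb' h1 h2 h3 a ha h4
    have : ∀ z ∈ B, 2 * e z + 2 < t → ¬ E a z := by
      intro z hz hzt hE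
      have h5 : t ≤ (if h : ∃ b ∈ B, E a b then 2 * e h.choose + 1 else 1) := h4
      rw [hp a ha z hz hE] at h5
      omega
    exact iff_of_false (this b hb h1) (this b' hb' h2)

theorem chain_lemma
    (h : ∀ a ∈ A, ∀ a' ∈ A, (∀ b ∈ B, E a b → E a' b) ∨ (∀ b ∈ B, E a' b → E a b)) :
    BLin 1 E A B := by
  let dg : α → ℕ := fun a => (B.filter (fun b => E a b)).card
  let sp : β → ℕ := fun b => (A.filter (fun a => E a b)).sup (fun a => B.card - dg a)
  have hle : ∀ a, dg a ≤ B.card := fun a => Finset.card_filter_le _ _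
  have mono : ∀ a ∈ A, ∀ a' ∈ A, dg a' ≤ dg a → ∀ b ∈ B, E a' b → E a b := by
    intro a ha a' ha' hd b hb hE
    rcases h a ha a' ha' with h1 | h1
    · have hs : B.filter (fun b => E a b) ⊆ B.filter (fun b => E a' b) := by
        intro x hx
        simp only [Finset.mem_filter] at hx ⊢
        exact ⟨hx.1, h1 x hx.1 hx.2⟩
      have := Finset.eq_of_subset_of_card_le hs hd
      have hb' : b ∈ B.filter (fun b => E a' b) := by simp [hb, hE]
      rw [← this] at hb'
      exact (Finset.mem_filter.mp hb').2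
    · exact h1 b hb hE
  have C1 : ∀ a ∈ A, ∀ b ∈ B, 2 * (B.card - dg a) < 2 * sp b + 1 → E a b := by
    intro a ha b hb hlt
    by_cases hemp : (A.filter (fun a => E a b)).Nonempty
    · obtain ⟨a', ha', hsup⟩ := Finset.exists_mem_eq_sup _ hemp (fun a => B.card - dg a)
      simp only [Finset.mem_filter] at ha'
      have h1 : sp b = B.card - dg a' := hsup
      have := hle a
      have := hle a'
      exact mono a ha a' ha'.1 (by omega) b hb ha'.2
    · have h1 : sp b = 0 := by
        simp only [sp]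
        rw [Finset.not_nonempty_iff_eq_empty.mp hemp]; simp
      have h2 : dg a = B.card := by have := hle a; omega
      have h3 : B.filter (fun b => E a b) = B :=
        Finset.eq_of_subset_of_card_le (Finset.filter_subset _ _) (le_of_eq h2.symm)
      rw [← h3] at hb
      exact (Finset.mem_filter.mp hb).2
  have C2 : ∀ a ∈ A, ∀ b ∈ B, 2 * sp b + 1 < 2 * (B.card - dg a) → ¬ E a b := by
    intro a ha b hb hlt hE
    have : B.card - dg a ≤ sp b :=
      Finset.le_sup (f := fun a => B.card - dg a) (by simp [ha, hE])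
    omega
  refine ⟨fun a => 2 * (B.card - dg a), fun b => 2 * sp b + 1,
    fun a _ b _ => by beta_reduce; omega, fun t =>
    ⟨⟨fun _ => 0, fun a ha a' ha' h1 h2 _ b hb h4 => ?_⟩,
     ⟨fun _ => 0, fun b hb b' hb' h1 h2 _ a ha h4 => ?_⟩⟩⟩
  · have h4' : t ≤ 2 * sp b + 1 := h4
    beta_reduce at h1 h2
    exact iff_of_true (C1 a ha b hb (by omega)) (C1 a' ha' b hb (by omega))
  · have h1' : 2 * sp b + 1 < t := h1
    have h2' : 2 * sp b' + 1 < t := h2
    beta_reduce at h4
    exact iff_of_false (C2 a ha b hb (by omega)) (C2 a ha b' hb' (by omega))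

theorem conn_empty : Conn E (∅ : Finset α) (∅ : Finset β) := by
  intro X hX Y hY _
  left
  exact ⟨Finset.subset_empty.mp hX, Finset.subset_empty.mp hY⟩

theorem exists_components (E : α → β → Prop) : ∀ (n : ℕ) (A : Finset α) (B : Finset β),
    A.card + B.card = n → ∃ (iA : α → ℕ) (iB : β → ℕ),
      (∀ a ∈ A, ∀ b ∈ B, E a b → iA a = iB b) ∧
      ∀ m, Conn E (A.filter (fun a => iA a = m)) (B.filter (fun b => iB b = m)) := by
  intro n
  induction n using Nat.strong_induction_on with
  | _ n ih =>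
    intro A B hn
    by_cases hc : Conn E A B
    · refine ⟨fun _ => 0, fun _ => 0, fun _ _ _ _ _ => rfl, fun m => ?_⟩
      by_cases hm : m = 0
      · subst hm; simpa using hc
      · have h1 : A.filter (fun _ => 0 = m) = ∅ := by
          rw [Finset.filter_eq_empty_iff]; intro x _ h; exact hm h.symm
        have h2 : B.filter (fun _ => 0 = m) = ∅ := by
          rw [Finset.filter_eq_empty_iff]; intro x _ h; exact hm h.symm
        rw [h1, h2]; exact conn_empty
    · unfold Conn at hc
      push Not at hc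
      obtain ⟨X, hX, Y, hY, hcl, hne1, hne2⟩ := hc
      have hsumA := Finset.card_sdiff_add_card_eq_card hX
      have hsumB := Finset.card_sdiff_add_card_eq_card hY
      have hpos1 : 0 < X.card + Y.card := by
        rcases Nat.eq_zero_or_pos (X.card + Y.card) with h | h
        · exfalso
          have h1 : X = ∅ := by rw [← Finset.card_eq_zero]; omega
          have h2 : Y = ∅ := by rw [← Finset.card_eq_zero]; omega
          have h3 := hne1 h1
          rw [h2] at h3
          exact Finset.not_nonempty_empty h3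
        · exact h
      have hpos2 : 0 < (A \ X).card + (B \ Y).card := by
        rcases Nat.eq_zero_or_pos ((A \ X).card + (B \ Y).card) with h | h
        · exfalso
          have h1 : A \ X = ∅ := by rw [← Finset.card_eq_zero]; omega
          have h2 : B \ Y = ∅ := by rw [← Finset.card_eq_zero]; omega
          exact hne2 (Finset.Subset.antisymm hX (Finset.sdiff_eq_empty_iff_subset.mp h1))
            (Finset.Subset.antisymm hY (Finset.sdiff_eq_empty_iff_subset.mp h2))
        · exact h
      obtain ⟨iA1, iB1, h1, h1'⟩ := ih (X.card + Y.card) (by omega) X Y rfl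
      obtain ⟨iA2, iB2, h2, h2'⟩ := ih ((A \ X).card + (B \ Y).card) (by omega) (A \ X) (B \ Y) rfl
      refine ⟨fun a => if a ∈ X then 2 * iA1 a else 2 * iA2 a + 1,
        fun b => if b ∈ Y then 2 * iB1 b else 2 * iB2 b + 1, ?_, ?_⟩
      · intro a ha b hb hE
        have hiff := hcl a ha b hb hE
        by_cases haX : a ∈ X
        · have hbY := hiff.mp haX
          simp only [haX, hbY, if_true]
          rw [h1 a haX b hbY hE]
        · have hbY : b ∉ Y := fun h => haX (hiff.mpr h)
          simp only [haX, hbY, if_false]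
          rw [h2 a (by simp [ha, haX]) b (by simp [hb, hbY]) hE]
      · intro m
        rcases Nat.even_or_odd' m with ⟨j, rfl | rfl⟩
        · have e1 : A.filter (fun a => (if a ∈ X then 2 * iA1 a else 2 * iA2 a + 1) = 2 * j) =
              X.filter (fun a => iA1 a = j) := by
            ext z; simp only [Finset.mem_filter]
            by_cases hz : z ∈ X
            · simp [hz, hX hz]
            · simp only [hz, if_false, false_and, iff_false, not_and]; intro _; omega
          have e2 : B.filter (fun b => (if b ∈ Y then 2 * iB1 b else 2 * iB2 b + 1) = 2 * j) =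
              Y.filter (fun b => iB1 b = j) := by
            ext z; simp only [Finset.mem_filter]
            by_cases hz : z ∈ Y
            · simp [hz, hY hz]
            · simp only [hz, if_false, false_and, iff_false, not_and]; intro _; omega
          rw [e1, e2]; exact h1' j
        · have e1 : A.filter (fun a => (if a ∈ X then 2 * iA1 a else 2 * iA2 a + 1) = 2 * j + 1) =
              (A \ X).filter (fun a => iA2 a = j) := by
            ext z; simp only [Finset.mem_filter, Finset.mem_sdiff]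
            by_cases hz : z ∈ X
            · simp only [hz, if_true, not_true, and_false, false_and, iff_false, not_and]
              intro _; omega
            · simp [hz]
          have e2 : B.filter (fun b => (if b ∈ Y then 2 * iB1 b else 2 * iB2 b + 1) = 2 * j + 1) =
              (B \ Y).filter (fun b => iB2 b = j) := by
            ext z; simp only [Finset.mem_filter, Finset.mem_sdiff]
            by_cases hz : z ∈ Y
            · simp only [hz, if_true, not_true, and_false, false_and, iff_false, not_and]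
              intro _; omega
            · simp [hz]
          rw [e1, e2]; exact h2' j

theorem BLin.of_components
    (h : ∀ A' ⊆ A, ∀ B' ⊆ B, (∀ a ∈ A, ∀ b ∈ B, E a b → (a ∈ A' ↔ b ∈ B')) → Conn E A' B' →
      BLin k E A' B') : BLin (k + 1) E A B := by
  obtain ⟨iA, iB, h1, h2⟩ := exists_components E _ A B rfl
  have := BLin.lex (E := E) (A := A) (B := B) 1 k iA iB (fun n => ?_) (fun n => ?_) (fun n => ?_)
  · exact this.mono_k (by omega)
  · refine h _ (Finset.filter_subset _ _) _ (Finset.filter_subset _ _) ?_ (h2 n)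
    intro a ha b hb hE
    simp only [Finset.mem_filter, ha, hb, true_and, h1 a ha b hb hE]
  · refine ⟨fun _ => 0, fun a ha a' ha' g g' _ b hb hn => ?_⟩
    refine iff_of_false (fun hE => ?_) (fun hE => ?_)
    · have := h1 a ha b hb hE; omega
    · have := h1 a' ha' b hb hE; omega
  · refine ⟨fun _ => 0, fun b hb b' hb' g g' _ a ha hn => ?_⟩
    refine iff_of_false (fun hE => ?_) (fun hE => ?_)
    · have := h1 a ha b hb hE; omega
    · have := h1 a ha b' hb' hE; omega

theorem exists_twinfree (E : α → β → Prop) (A : Finset α) (B : Finset β) :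
    ∃ (f : α → α) (g : β → β) (A' : Finset α) (B' : Finset β), A' ⊆ A ∧ B' ⊆ B ∧
      (∀ a ∈ A, f a ∈ A') ∧ (∀ b ∈ B, g b ∈ B') ∧
      (∀ a ∈ A, ∀ b ∈ B, (E a b ↔ E (f a) b)) ∧ (∀ a ∈ A, ∀ b ∈ B, (E a b ↔ E a (g b))) ∧
      (∀ a ∈ A', ∀ a' ∈ A', (∀ b ∈ B', E a b ↔ E a' b) → a = a') ∧
      (∀ b ∈ B', ∀ b' ∈ B', (∀ a ∈ A', E a b ↔ E a b') → b = b') := by
  let T : α → Finset β := fun a => B.filter (fun b => E a b)
  let S : β → Finset α := fun b => A.filter (fun a => E a b)
  let F : Finset β → α → α := fun s a => if h : ∃ a' ∈ A, T a' = s then h.choose else a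
  let G : Finset α → β → β := fun s b => if h : ∃ b' ∈ B, S b' = s then h.choose else b
  have hF : ∀ a ∈ A, F (T a) a ∈ A ∧ T (F (T a) a) = T a := by
    intro a ha
    have hex : ∃ a' ∈ A, T a' = T a := ⟨a, ha, rfl⟩
    simp only [F]
    rw [dif_pos hex]
    exact hex.choose_spec
  have hG : ∀ b ∈ B, G (S b) b ∈ B ∧ S (G (S b) b) = S b := by
    intro b hb
    have hex : ∃ b' ∈ B, S b' = S b := ⟨b, hb, rfl⟩
    simp only [G]
    rw [dif_pos hex]
    exact hex.choose_spec
  have hFF : ∀ a ∈ A, ∀ a' ∈ A, T a = T a' → F (T a) a = F (T a') a' := by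
    intro a ha a' ha' h
    have hex : ∃ a'' ∈ A, T a'' = T a' := ⟨a', ha', rfl⟩
    simp only [F]
    rw [h, dif_pos hex, dif_pos hex]
  have hGG : ∀ b ∈ B, ∀ b' ∈ B, S b = S b' → G (S b) b = G (S b') b' := by
    intro b hb b' hb' h
    have hex : ∃ b'' ∈ B, S b'' = S b' := ⟨b', hb', rfl⟩
    simp only [G]
    rw [h, dif_pos hex, dif_pos hex]
  have tF : ∀ a ∈ A, ∀ b ∈ B, (E a b ↔ E (F (T a) a) b) := by
    intro a ha b hb
    have := (hF a ha).2
    have h2 : b ∈ T (F (T a) a) ↔ b ∈ T a := by rw [this]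
    simp only [T, Finset.mem_filter, hb, true_and] at h2
    exact h2.symm
  have tG : ∀ a ∈ A, ∀ b ∈ B, (E a b ↔ E a (G (S b) b)) := by
    intro a ha b hb
    have := (hG b hb).2
    have h2 : a ∈ S (G (S b) b) ↔ a ∈ S b := by rw [this]
    simp only [S, Finset.mem_filter, ha, true_and] at h2
    exact h2.symm
  refine ⟨fun a => F (T a) a, fun b => G (S b) b, A.image (fun a => F (T a) a),
    B.image (fun b => G (S b) b), ?_, ?_, ?_, ?_, tF, tG, ?_, ?_⟩
  · intro x hx
    obtain ⟨a, ha, rfl⟩ := Finset.mem_image.mp hx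
    exact (hF a ha).1
  · intro x hx
    obtain ⟨b, hb, rfl⟩ := Finset.mem_image.mp hx
    exact (hG b hb).1
  · intro a ha; exact Finset.mem_image.mpr ⟨a, ha, rfl⟩
  · intro b hb; exact Finset.mem_image.mpr ⟨b, hb, rfl⟩
  · intro x hx x' hx' h
    obtain ⟨a, ha, rfl⟩ := Finset.mem_image.mp hx
    obtain ⟨a', ha', rfl⟩ := Finset.mem_image.mp hx'
    refine hFF a ha a' ha' ?_
    ext b
    simp only [T, Finset.mem_filter]
    refine and_congr_right (fun hb => ?_)
    have h3 := h (G (S b) b) (Finset.mem_image.mpr ⟨b, hb, rfl⟩)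
    rw [tF a ha b hb, tF a' ha' b hb, tG _ (hF a ha).1 b hb, tG _ (hF a' ha').1 b hb]
    exact h3
  · intro x hx x' hx' h
    obtain ⟨b, hb, rfl⟩ := Finset.mem_image.mp hx
    obtain ⟨b', hb', rfl⟩ := Finset.mem_image.mp hx'
    refine hGG b hb b' hb' ?_
    ext a
    simp only [S, Finset.mem_filter]
    refine and_congr_right (fun ha => ?_)
    have h3 := h (F (T a) a) (Finset.mem_image.mpr ⟨a, ha, rfl⟩)
    rw [tG a ha b hb, tG a ha b' hb', tF a ha _ (hG b hb).1, tF a ha _ (hG b' hb').1]
    exact h3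

/-- no induced `S_{1,2,2}` with centre in `A` -/
def Lam {α β : Type} (E : α → β → Prop) (A : Finset α) (B : Finset β) : Prop :=
  ∀ c ∈ A, ∀ a1 ∈ A, ∀ a2 ∈ A, ∀ b1 ∈ B, ∀ b2 ∈ B, ∀ b3 ∈ B,
    E c b1 → E c b2 → E c b3 → E a1 b2 → E a2 b3 →
    ¬ E a1 b1 → ¬ E a1 b3 → ¬ E a2 b1 → ¬ E a2 b2 → False

/-- `(c, y)` is a bad pair witnessed by `x, l1, l2, z`: an induced `S_{1,1,3}` with centre `c` -/
def Bad {α β : Type} (E : α → β → Prop) (A : Finset α) (B : Finset β) (c y : α)
    (x l1 l2 z : β) : Prop :=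
  c ∈ A ∧ y ∈ A ∧ x ∈ B ∧ l1 ∈ B ∧ l2 ∈ B ∧ z ∈ B ∧ l1 ≠ l2 ∧ E c x ∧ E y x ∧
    E c l1 ∧ ¬ E y l1 ∧ E c l2 ∧ ¬ E y l2 ∧ E y z ∧ ¬ E c z

/-- no induced `S_{1,1,3}` with centre in `A` -/
def NoBad {α β : Type} (E : α → β → Prop) (A : Finset α) (B : Finset β) : Prop :=
  ∀ c y x l1 l2 z, ¬ Bad E A B c y x l1 l2 z

/-- no induced `P_1 + S_{1,1,3}` with centre in `A` and isolated vertex in `B` -/
def BadCover {α β : Type} (E : α → β → Prop) (A : Finset α) (B : Finset β) : Prop :=
  ∀ c y x l1 l2 z, Bad E A B c y x l1 l2 z → ∀ p ∈ B, E c p ∨ E y p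

/-- no induced `P_1 + S_{1,1,3}` with centre in `A` and isolated vertex in `A` -/
def BadHit {α β : Type} (E : α → β → Prop) (A : Finset α) (B : Finset β) : Prop :=
  ∀ c y x l1 l2 z, Bad E A B c y x l1 l2 z → ∀ p ∈ A, E p x ∨ E p l1 ∨ E p l2 ∨ E p z

/-- no induced `K_{1,3} + P_2` with centre in `A` -/
def Star {α β : Type} (E : α → β → Prop) (A : Finset α) (B : Finset β) : Prop :=
  ∀ v ∈ A, ∀ x ∈ A, (B.filter (fun b => E v b ∧ ¬ E x b)).card ≤ 2 ∨ ∀ b ∈ B, E x b → E v b

end Pool.Agent.Helper856.Lcw
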