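import Mathlib

open Classical SimpleGraph

namespace Pool.Agent.Helper856.Lcw

/-- Labelled graphs that can be built with labels `Fin k` by the four operations, where in every
disjoint union at least one of the two graphs has a single vertex. -/
inductive LinBuilt (k : ℕ) : ∀ V : Type, SimpleGraph V → (V → Fin k) → Prop
  | single (i : Fin k) : LinBuilt k Unit ⊥ (fun _ => i)
  | union (V W : Type) (G : SimpleGraph V) (H : SimpleGraph W) (l : V → Fin k) (m : W → Fin k) :
      (Nat.card V = 1 ∨ Nat.card W = 1) → LinBuilt k V G l → LinBuilt k W H m →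
      LinBuilt k (V ⊕ W) (G ⊕g H) (Sum.elim l m)
  | join (V : Type) (G : SimpleGraph V) (l : V → Fin k) (i j : Fin k) : i ≠ j →
      LinBuilt k V G l →
      LinBuilt k V (G ⊔ SimpleGraph.fromRel (fun u v => l u = i ∧ l v = j)) l
  | relabel (V : Type) (G : SimpleGraph V) (l : V → Fin k) (i j : Fin k) :
      LinBuilt k V G l → LinBuilt k V G (fun v => if l v = i then j else l v)

/-- `G` has linear clique-width at most `k`. -/
def LcwLE {V : Type} (G : SimpleGraph V) (k : ℕ) : Prop :=
  ∃ (W : Type) (G' : SimpleGraph W) (l : W → Fin k), LinBuilt k W G' l ∧ Nonempty (G ≃g G')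

/-- The linear clique-width: the least number of labels of a linear construction of `G`. -/
noncomputable def linearCliqueWidth {V : Type} (G : SimpleGraph V) : ℕ :=
  sInf {k | LcwLE G k}

/-- graph on `Fin n` with the listed edges -/
def gr (n : ℕ) (L : List (ℕ × ℕ)) : SimpleGraph (Fin n) :=
  SimpleGraph.fromRel (fun u v => (u.val, v.val) ∈ L)

/-- `K_{1,3} + 3 P_1`: claw with centre 0 and leaves 1, 2, 3; isolated vertices 4, 5, 6 -/
def K13_3P1 := gr 7 [(0,1),(0,2),(0,3)]
/-- `K_{1,3} + P_2`: claw with centre 0 and leaves 1, 2, 3; edge 45 -/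
def K13_P2 := gr 6 [(0,1),(0,2),(0,3),(4,5)]
/-- `P_1 + S_{1,1,3}`: centre 0, legs 0-1, 0-2 and 0-3-4-5; isolated vertex 6 -/
def P1_S113 := gr 7 [(0,1),(0,2),(0,3),(3,4),(4,5)]
/-- `S_{1,2,2}`: centre 0, legs 0-1, 0-2-3 and 0-4-5 -/
def S122 := gr 6 [(0,1),(0,2),(2,3),(0,4),(4,5)]

end Pool.Agent.Helper856.Lcw
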