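import Pool.Agent.Helper856.Lcw.GBase

open Classical SimpleGraph

namespace Pool.Agent.Helper856.Lcw.Classif

/-- certificates -/
inductive Ct
  | b (p a : ℕ)
  | g (p a : ℕ)
  | e
  | n (x y z : Ct)

def allB : ℕ → (ℕ → Bool) → Bool
  | 0, _ => true
  | n + 1, f => f n && allB n f

theorem allB_iff (n : ℕ) (f : ℕ → Bool) : allB n f = true ↔ ∀ i < n, f i = true := by
  induction n with
  | zero => simp [allB]
  | succ n ih =>
    simp only [allB, Bool.and_eq_true, ih]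
    constructor
    · rintro ⟨h1, h2⟩ i hi
      rcases Nat.lt_succ_iff_lt_or_eq.mp hi with h | h
      · exact h2 i h
      · rw [h]; exact h1
    · intro h
      exact ⟨h n (Nat.lt_succ_self n), fun i hi => h i (Nat.lt_succ_of_lt hi)⟩

def adjE (E : List (ℕ × ℕ)) (i j : ℕ) : Bool :=
  E.any fun p => (Nat.beq p.1 i && Nat.beq p.2 j) || (Nat.beq p.1 j && Nat.beq p.2 i)

theorem gr_adj {n : ℕ} (E : List (ℕ × ℕ)) (u v : Fin n) :
    (gr n E).Adj u v ↔ u ≠ v ∧ adjE E u v = true := by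
  unfold gr adjE
  rw [SimpleGraph.fromRel_adj, List.any_eq_true]
  refine and_congr_right fun _ => ?_
  constructor
  · rintro (h | h)
    · exact ⟨_, h, by simp⟩
    · exact ⟨_, h, by simp⟩
  · rintro ⟨⟨a, b⟩, h, h2⟩
    simp only [Bool.or_eq_true, Bool.and_eq_true, Nat.beq_eq] at h2
    rcases h2 with ⟨h3, h4⟩ | ⟨h3, h4⟩
    · left; rw [← h3, ← h4]; exact h
    · right; rw [← h3, ← h4]; exact h

def memX (m : ℕ) (s : ℕ → ℕ) (i : ℕ) : Bool := Nat.beq i m || (Nat.blt i m && !Nat.beq (s i) 0)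

def adjX (E : List (ℕ × ℕ)) (m : ℕ) (s : ℕ → ℕ) (i j : ℕ) : Bool :=
  bif Nat.beq i m then Nat.beq (s j) 2 else bif Nat.beq j m then Nat.beq (s i) 2 else adjE E i j

def dig (a i : ℕ) : ℕ := a / 10 ^ i % 10

def badOk (E : List (ℕ × ℕ)) (m : ℕ) (s : ℕ → ℕ) (P : ℕ × List (ℕ × ℕ)) (a : ℕ) : Bool :=
  allB P.1 fun i => memX m s (dig a i) &&
    allB i fun j => !Nat.beq (dig a i) (dig a j) &&
      (adjX E m s (dig a j) (dig a i) == adjE P.2 j i)

def goodOk (E : List (ℕ × ℕ)) (m : ℕ) (s : ℕ → ℕ) (G : ℕ × List (ℕ × ℕ)) (a : ℕ) : Bool :=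
  allB (m + 1) fun i => !memX m s i || (Nat.blt (dig a i) G.1 &&
    allB i fun j => !memX m s j || (!Nat.beq (dig a i) (dig a j) &&
      (adjX E m s j i == adjE G.2 (dig a j) (dig a i))))

def botOk (E : List (ℕ × ℕ)) (m : ℕ) (s : ℕ → ℕ) : Bool :=
  allB (m + 1) fun i => !memX m s i || allB i fun j => !memX m s j || !adjX E m s j i

def pats : List (ℕ × List (ℕ × ℕ)) :=
  [(3, [(0,1),(1,2),(0,2)]), (4, [(0,1),(1,2),(2,3),(0,3)]), (5, [(0,1),(1,2),(2,3),(3,4),(0,4)]),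
   (6, [(0,1),(1,2),(2,3),(3,4),(4,5),(0,5)]), (6, [(0,1),(1,2),(2,3),(3,4),(4,5)]),
   (5, [(0,1),(0,2),(0,3),(0,4)]), (6, [(0,1),(0,2),(0,3),(1,4),(1,5)]), (6, [(0,1),(2,3)]),
   (6, [(0,1),(1,2),(2,3)]), (6, [(0,1)]), (6, [(0,1),(2,3),(4,5)]), (6, [(0,1),(2,3),(3,4),(4,5)]),
   (6, [(0,1),(1,2),(3,4),(4,5)])]

def goods : List (ℕ × List (ℕ × ℕ)) :=
  [(7, [(0,1),(0,2),(0,3)]), (6, [(0,1),(0,2),(0,3),(4,5)]), (7, [(0,1),(0,2),(0,3),(3,4),(4,5)]),
   (6, [(0,1),(0,2),(2,3),(0,4),(4,5)])]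

def upd (s : ℕ → ℕ) (t c : ℕ) : ℕ → ℕ := fun i => bif Nat.beq i t then c else s i

def chk (E : List (ℕ × ℕ)) (m : ℕ) : ℕ → (ℕ → ℕ) → Ct → Bool
  | _, s, .b p a => match pats[p]? with
    | some P => badOk E m s P a
    | none => false
  | t, s, .g p a => Nat.beq t m && match goods[p]? with
    | some G => goodOk E m s G a
    | none => false
  | t, s, .e => Nat.beq t m && botOk E m s
  | t, s, .n x y z => Nat.blt t m && (chk E m (t + 1) (upd s t 0) x &&
      (chk E m (t + 1) (upd s t 1) y && chk E m (t + 1) (upd s t 2) z))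

section sound

variable {N : ℕ} (H : SimpleGraph (Fin N)) (E : List (ℕ × ℕ)) (m : ℕ) (σ : ℕ → ℕ) (χ : Fin N → ℕ)

theorem memX_iff (m : ℕ) (s : ℕ → ℕ) (i : ℕ) :
    memX m s i = true ↔ i = m ∨ (i < m ∧ s i ≠ 0) := by
  unfold memX
  rw [Bool.or_eq_true, Bool.and_eq_true, Nat.beq_eq]
  refine or_congr Iff.rfl (and_congr ?_ ?_)
  · rw [Nat.blt_eq]
  · rw [Bool.not_eq_true', Ne, ← Nat.beq_eq, Bool.not_eq_true]

theorem bad_sound (hinj : Function.Injective χ) (hmem : ∀ i, memX m σ i = true ↔ ∃ u, χ u = i)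
    (hadj : ∀ u v, u ≠ v → (H.Adj u v ↔ adjX E m σ (χ u) (χ v) = true))
    (s : ℕ → ℕ) (h1 : ∀ i, i < m → s i ≠ 0 → s i = σ i)
    (P : ℕ × List (ℕ × ℕ)) (a : ℕ) (h : badOk E m s P a = true) :
    (gr P.1 P.2).IsIndContained H := by
  unfold badOk at h
  rw [allB_iff] at h
  have hm : ∀ i, memX m s i = true → memX m σ i = true := by
    intro i hi
    rw [memX_iff] at hi ⊢
    rcases hi with hi | ⟨hi, hi2⟩
    · exact Or.inl hi
    · exact Or.inr ⟨hi, by rw [← h1 i hi hi2]; exact hi2⟩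
  have hA : ∀ i j, memX m s i = true → memX m s j = true → i ≠ j →
      adjX E m s i j = adjX E m σ i j := by
    intro i j hi hj hij
    rw [memX_iff] at hi hj
    unfold adjX
    by_cases e1 : i = m
    · subst e1
      rcases hj with hj | ⟨hj, hj2⟩
      · exact absurd hj.symm hij
      · simp [h1 j hj hj2]
    · by_cases e2 : j = m
      · subst e2
        rcases hi with hi | ⟨hi, hi2⟩
        · exact absurd hi hij
        · have b1 : Nat.beq i j = false := by rw [← Bool.not_eq_true, Nat.beq_eq]; exact e1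
          simp [h1 i hi hi2, b1]
      · have b1 : Nat.beq i m = false := by rw [← Bool.not_eq_true, Nat.beq_eq]; exact e1
        have b2 : Nat.beq j m = false := by rw [← Bool.not_eq_true, Nat.beq_eq]; exact e2
        simp [b1, b2]
  have hf : ∀ i : Fin P.1, ∃ u, χ u = dig a i := by
    intro i
    have h2 := h i i.2
    rw [Bool.and_eq_true] at h2
    exact (hmem _).mp (hm _ h2.1)
  choose f hf using hf
  have key : ∀ i j : Fin P.1, j < i → f i ≠ f j ∧ (H.Adj (f j) (f i) ↔ (gr P.1 P.2).Adj j i) := by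
    intro i j hji
    have h2 := h i i.2
    rw [Bool.and_eq_true, allB_iff] at h2
    have h3 := h2.2 j hji
    rw [Bool.and_eq_true] at h3
    have h4 : dig a i ≠ dig a j := by
      have := h3.1
      rw [Bool.not_eq_true'] at this
      intro h5
      rw [h5] at this
      simp at this
    have h5 := eq_of_beq h3.2
    have h6 : f i ≠ f j := by
      intro h6
      apply h4
      rw [← hf i, ← hf j, h6]
    refine ⟨h6, ?_⟩
    have h7 := h j j.2
    rw [Bool.and_eq_true] at h7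
    rw [hadj _ _ h6.symm, hf, hf, gr_adj, ← hA _ _ h7.1 h2.1 h4.symm, h5]
    constructor
    · intro h8
      exact ⟨ne_of_lt hji, h8⟩
    · exact fun h8 => h8.2
  refine ⟨⟨⟨f, ?_⟩, ?_⟩⟩
  · intro i j hij
    by_contra hne
    rcases lt_or_gt_of_ne hne with h2 | h2
    · exact (key j i h2).1 hij.symm
    · exact (key i j h2).1 hij
  · intro i j
    show H.Adj (f i) (f j) ↔ _
    rcases lt_trichotomy i j with h2 | h2 | h2
    · exact (key j i h2).2
    · subst h2; simp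
    · rw [SimpleGraph.adj_comm, SimpleGraph.adj_comm _ i j]
      exact (key i j h2).2

theorem good_sound (hinj : Function.Injective χ) (hmem : ∀ i, memX m σ i = true ↔ ∃ u, χ u = i)
    (hadj : ∀ u v, u ≠ v → (H.Adj u v ↔ adjX E m σ (χ u) (χ v) = true))
    (G : ℕ × List (ℕ × ℕ)) (a : ℕ) (h : goodOk E m σ G a = true) :
    H.IsIndContained (gr G.1 G.2) := by
  unfold goodOk at h
  rw [allB_iff] at h
  have hmu : ∀ u, memX m σ (χ u) = true := fun u => (hmem _).mpr ⟨u, rfl⟩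
  have hlt : ∀ u, χ u < m + 1 := by
    intro u
    have := (memX_iff _ _ _).mp (hmu u)
    omega
  have h1 : ∀ u, dig a (χ u) < G.1 := by
    intro u
    have h2 := h (χ u) (hlt u)
    rw [hmu u, Bool.not_true, Bool.false_or, Bool.and_eq_true, Nat.blt_eq] at h2
    exact h2.1
  have key : ∀ u v, χ v < χ u → dig a (χ u) ≠ dig a (χ v) ∧
      adjX E m σ (χ v) (χ u) = adjE G.2 (dig a (χ v)) (dig a (χ u)) := by
    intro u v huv
    have h2 := h (χ u) (hlt u)
    rw [hmu u, Bool.not_true, Bool.false_or, Bool.and_eq_true, allB_iff] at h2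
    have h3 := h2.2 (χ v) huv
    rw [hmu v, Bool.not_true, Bool.false_or, Bool.and_eq_true] at h3
    refine ⟨?_, eq_of_beq h3.2⟩
    have := h3.1
    rw [Bool.not_eq_true'] at this
    intro h5
    rw [h5] at this
    simp at this
  have key2 : ∀ u v, χ v < χ u → (H.Adj v u ↔
      (gr G.1 G.2).Adj ⟨dig a (χ v), h1 v⟩ ⟨dig a (χ u), h1 u⟩) := by
    intro u v huv
    have hne : v ≠ u := by rintro rfl; exact lt_irrefl _ huv
    rw [hadj _ _ hne, gr_adj, (key u v huv).2]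
    constructor
    · intro h8
      refine ⟨?_, h8⟩
      intro h9
      exact (key u v huv).1 (by simpa using (congrArg Fin.val h9).symm)
    · exact fun h8 => h8.2
  refine ⟨⟨⟨fun u => ⟨dig a (χ u), h1 u⟩, ?_⟩, ?_⟩⟩
  · intro u v huv
    have huv' : dig a (χ u) = dig a (χ v) := by simpa using congrArg Fin.val huv
    rcases lt_trichotomy (χ u) (χ v) with h2 | h2 | h2
    · exact absurd huv'.symm (key v u h2).1
    · exact hinj h2
    · exact absurd huv' (key u v h2).1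
  · intro u v
    show (gr G.1 G.2).Adj ⟨dig a (χ u), h1 u⟩ ⟨dig a (χ v), h1 v⟩ ↔ H.Adj u v
    rcases lt_trichotomy (χ u) (χ v) with h2 | h2 | h2
    · exact (key2 v u h2).symm
    · have := hinj h2
      subst this
      simp
    · rw [SimpleGraph.adj_comm, SimpleGraph.adj_comm H]
      exact (key2 u v h2).symm

theorem bot_sound (hinj : Function.Injective χ) (hmem : ∀ i, memX m σ i = true ↔ ∃ u, χ u = i)
    (hadj : ∀ u v, u ≠ v → (H.Adj u v ↔ adjX E m σ (χ u) (χ v) = true))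
    (h : botOk E m σ = true) : H = ⊥ := by
  unfold botOk at h
  rw [allB_iff] at h
  have hmu : ∀ u, memX m σ (χ u) = true := fun u => (hmem _).mpr ⟨u, rfl⟩
  have hlt : ∀ u, χ u < m + 1 := by
    intro u
    have := (memX_iff _ _ _).mp (hmu u)
    omega
  have key : ∀ u v, χ v < χ u → ¬ H.Adj v u := by
    intro u v huv
    have h2 := h (χ u) (hlt u)
    rw [hmu u, Bool.not_true, Bool.false_or, allB_iff] at h2
    have h3 := h2 (χ v) huv
    rw [hmu v, Bool.not_true, Bool.false_or, Bool.not_eq_true'] at h3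
    have hne : v ≠ u := by rintro rfl; exact lt_irrefl _ huv
    rw [hadj _ _ hne, h3]
    simp
  ext u v
  simp only [SimpleGraph.bot_adj, iff_false]
  intro huv
  rcases lt_trichotomy (χ u) (χ v) with h2 | h2 | h2
  · exact key v u h2 huv
  · have := hinj h2
    subst this
    exact H.irrefl huv
  · exact key u v h2 huv.symm

theorem chk_sound (hinj : Function.Injective χ) (hmem : ∀ i, memX m σ i = true ↔ ∃ u, χ u = i)
    (hadj : ∀ u v, u ≠ v → (H.Adj u v ↔ adjX E m σ (χ u) (χ v) = true))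
    (hσ : ∀ i, i < m → σ i = 0 ∨ σ i = 1 ∨ σ i = 2)
    (hp : ∀ P ∈ pats, ¬ (gr P.1 P.2).IsIndContained H) (ct : Ct) :
    ∀ (t : ℕ) (s : ℕ → ℕ), t ≤ m → (∀ i < t, s i = σ i) → (∀ i, t ≤ i → s i = 0) →
      chk E m t s ct = true → H = ⊥ ∨ ∃ G ∈ goods, H.IsIndContained (gr G.1 G.2) := by
  have full : ∀ s : ℕ → ℕ, (∀ i < m, s i = σ i) → ∀ i, memX m s i = memX m σ i := by
    intro s hs i
    rw [Bool.eq_iff_iff, memX_iff, memX_iff]
    refine or_congr Iff.rfl (and_congr_right fun hi => ?_)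
    rw [hs i hi]
  have fullA : ∀ s : ℕ → ℕ, (∀ i < m, s i = σ i) → (s m = 0) → ∀ i j, memX m s i = true →
      memX m s j = true → i ≠ j → adjX E m s i j = adjX E m σ i j := by
    intro s hs _ i j hi hj hij
    rw [memX_iff] at hi hj
    unfold adjX
    by_cases e1 : i = m
    · subst e1
      rcases hj with hj | ⟨hj, hj2⟩
      · exact absurd hj.symm hij
      · simp [hs j hj]
    · by_cases e2 : j = m
      · subst e2
        rcases hi with hi | ⟨hi, hi2⟩
        · exact absurd hi hij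
        · have b1 : Nat.beq i j = false := by rw [← Bool.not_eq_true, Nat.beq_eq]; exact e1
          simp [hs i hi, b1]
      · have b1 : Nat.beq i m = false := by rw [← Bool.not_eq_true, Nat.beq_eq]; exact e1
        have b2 : Nat.beq j m = false := by rw [← Bool.not_eq_true, Nat.beq_eq]; exact e2
        simp [b1, b2]
  induction ct with
  | b p a =>
    intro t s ht hs1 hs2 h
    simp only [chk] at h
    cases hP : pats[p]? with
    | none => rw [hP] at h; simp at h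
    | some P =>
      rw [hP] at h
      exfalso
      refine hp P (List.mem_of_getElem? hP) ?_
      refine bad_sound H E m σ χ hinj hmem hadj s ?_ P a h
      intro i hi hi2
      rcases lt_or_ge i t with h3 | h3
      · exact hs1 i h3
      · exact absurd (hs2 i h3) hi2
  | g p a =>
    intro t s ht hs1 hs2 h
    simp only [chk, Bool.and_eq_true, Nat.beq_eq] at h
    obtain ⟨h0, h⟩ := h
    subst h0
    cases hP : goods[p]? with
    | none => rw [hP] at h; simp at h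
    | some G =>
      rw [hP] at h
      right
      refine ⟨G, List.mem_of_getElem? hP, ?_⟩
      refine good_sound H E t s χ hinj (fun i => ?_) (fun u v huv => ?_) G a h
      · rw [full s hs1, hmem]
      · rw [hadj u v huv, fullA s hs1 (hs2 t le_rfl)]
        · rw [full s hs1, hmem]; exact ⟨u, rfl⟩
        · rw [full s hs1, hmem]; exact ⟨v, rfl⟩
        · exact fun h9 => huv (hinj h9)
  | e =>
    intro t s ht hs1 hs2 h
    simp only [chk, Bool.and_eq_true, Nat.beq_eq] at h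
    obtain ⟨h0, h⟩ := h
    subst h0
    left
    refine bot_sound H E t s χ hinj (fun i => ?_) (fun u v huv => ?_) h
    · rw [full s hs1, hmem]
    · rw [hadj u v huv, fullA s hs1 (hs2 t le_rfl)]
      · rw [full s hs1, hmem]; exact ⟨u, rfl⟩
      · rw [full s hs1, hmem]; exact ⟨v, rfl⟩
      · exact fun h9 => huv (hinj h9)
  | n x y z ihx ihy ihz =>
    intro t s ht hs1 hs2 h
    simp only [chk, Bool.and_eq_true, Nat.blt_eq] at h
    obtain ⟨h0, hx, hy, hz⟩ := h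
    have hu1 : ∀ c, σ t = c → ∀ i < t + 1, upd s t c i = σ i := by
      intro c hc i hi
      unfold upd
      by_cases hit : i = t
      · subst hit; simp [hc]
      · have b1 : Nat.beq i t = false := by rw [← Bool.not_eq_true, Nat.beq_eq]; exact hit
        rw [b1, cond_false]
        exact hs1 i (by omega)
    have hu2 : ∀ c, ∀ i, t + 1 ≤ i → upd s t c i = 0 := by
      intro c i hi
      unfold upd
      have b1 : Nat.beq i t = false := by rw [← Bool.not_eq_true, Nat.beq_eq]; omega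
      rw [b1, cond_false]
      exact hs2 i (by omega)
    rcases hσ t h0 with h3 | h3 | h3
    · exact ihx (t + 1) _ (by omega) (hu1 0 h3) (hu2 0) hx
    · exact ihy (t + 1) _ (by omega) (hu1 1 h3) (hu2 1) hy
    · exact ihz (t + 1) _ (by omega) (hu1 2 h3) (hu2 2) hz

end sound

def ct0 : Ct :=
  (.n (.n (.n (.n (.n (.n (.n .e .e (.g 0 10000000)) (.n .e .e (.g 0 10400000)) (.n (.g 0 10000000)
  (.g 0 14000000) (.g 0 2100000))) (.n (.n .e .e (.g 0 10040000)) (.n .e .e (.g 0 10540000)) (.n (.g 0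
  10040000) (.g 0 15040000) (.g 0 2140000))) (.n (.n (.g 0 10000000) (.g 0 14000000) (.g 0 2010000))
  (.n (.g 0 10400000) (.g 0 15400000) (.g 0 2410000)) (.n (.g 0 210000) (.g 0 4210000) (.g 0
  3210000)))) (.n (.n (.n .e .e (.g 0 10004000)) (.n .e .e (.g 0 10504000)) (.n (.g 0 10004000) (.g 0
  15004000) (.g 0 2104000))) (.n (.n .e .e (.g 0 10054000)) (.n .e .e (.g 0 10654000)) (.n (.g 0
  10054000) (.g 0 16054000) (.g 0 2154000))) (.n (.n (.g 0 10004000) (.g 0 15004000) (.g 0 2014000))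
  (.n (.g 0 10504000) (.g 0 16504000) (.g 0 2514000)) (.n (.g 0 214000) (.g 0 5214000) (.g 0
  3214000)))) (.n (.n (.n (.g 0 10000000) (.g 0 14000000) (.g 0 2001000)) (.n (.g 0 10400000) (.g 0
  15400000) (.g 0 2401000)) (.n (.g 0 201000) (.g 0 4201000) (.g 0 3201000))) (.n (.n (.g 0 10040000)
  (.g 0 15040000) (.g 0 2041000)) (.n (.g 0 10540000) (.g 0 16540000) (.g 0 2541000)) (.n (.g 0
  241000) (.g 0 5241000) (.g 0 3241000))) (.n (.n (.g 0 21000) (.g 0 4021000) (.g 0 3021000)) (.n (.g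
  0 421000) (.g 0 5421000) (.g 0 3421000)) (.n (.g 0 321000) (.g 0 4321000) (.b 5 65437))))) (.n (.n
  (.n (.n .e .e (.g 0 10000400)) (.n .e .e (.g 0 10500400)) (.n (.g 0 10000400) (.g 0 15000400) (.g 0
  2100400))) (.n (.n .e .e (.g 0 10050400)) (.n .e .e (.g 0 10650400)) (.n (.g 0 10050400) (.g 0
  16050400) (.g 0 2150400))) (.n (.n (.g 0 10000400) (.g 0 15000400) (.g 0 2010400)) (.n (.g 0
  10500400) (.g 0 16500400) (.g 0 2510400)) (.n (.g 0 210400) (.g 0 5210400) (.g 0 3210400)))) (.n (.n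
  (.n .e .e (.g 0 10005400)) (.n .e .e (.g 0 10605400)) (.n (.g 0 10005400) (.g 0 16005400) (.g 0
  2105400))) (.n (.n .e .e (.g 0 10065400)) (.n .e .e (.b 9 543276)) (.n (.g 0 10065400) (.b 9 643275)
  (.g 0 2165400))) (.n (.n (.g 0 10005400) (.g 0 16005400) (.g 0 2015400)) (.n (.g 0 10605400) (.b 9
  653274) (.g 0 2615400)) (.n (.g 0 215400) (.g 0 6215400) (.g 0 3215400)))) (.n (.n (.n (.g 0
  10000400) (.g 0 15000400) (.g 0 2001400)) (.n (.g 0 10500400) (.g 0 16500400) (.g 0 2501400)) (.n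
  (.g 0 201400) (.g 0 5201400) (.g 0 3201400))) (.n (.n (.g 0 10050400) (.g 0 16050400) (.g 0
  2051400)) (.n (.g 0 10650400) (.b 9 654273) (.g 0 2651400)) (.n (.g 0 251400) (.g 0 6251400) (.g 0
  3251400))) (.n (.n (.g 0 21400) (.g 0 5021400) (.g 0 3021400)) (.n (.g 0 521400) (.g 0 6521400) (.g
  0 3521400)) (.n (.g 0 321400) (.g 0 5321400) (.b 5 65437))))) (.n (.n (.n (.n (.g 0 10000000) (.g 0
  14000000) (.g 0 2000100)) (.n (.g 0 10400000) (.g 0 15400000) (.g 0 2400100)) (.n (.g 0 200100) (.g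
  0 4200100) (.g 0 3200100))) (.n (.n (.g 0 10040000) (.g 0 15040000) (.g 0 2040100)) (.n (.g 0
  10540000) (.g 0 16540000) (.g 0 2540100)) (.n (.g 0 240100) (.g 0 5240100) (.g 0 3240100))) (.n (.n
  (.g 0 20100) (.g 0 4020100) (.g 0 3020100)) (.n (.g 0 420100) (.g 0 5420100) (.g 0 3420100)) (.n (.g
  0 320100) (.g 0 4320100) (.b 5 65427)))) (.n (.n (.n (.g 0 10004000) (.g 0 15004000) (.g 0 2004100))
  (.n (.g 0 10504000) (.g 0 16504000) (.g 0 2504100)) (.n (.g 0 204100) (.g 0 5204100) (.g 0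
  3204100))) (.n (.n (.g 0 10054000) (.g 0 16054000) (.g 0 2054100)) (.n (.g 0 10654000) (.b 9 654372)
  (.g 0 2654100)) (.n (.g 0 254100) (.g 0 6254100) (.g 0 3254100))) (.n (.n (.g 0 24100) (.g 0
  5024100) (.g 0 3024100)) (.n (.g 0 524100) (.g 0 6524100) (.g 0 3524100)) (.n (.g 0 324100) (.g 0
  5324100) (.b 5 65427)))) (.n (.n (.n (.g 0 2100) (.g 0 4002100) (.g 0 3002100)) (.n (.g 0 402100)
  (.g 0 5402100) (.g 0 3402100)) (.n (.g 0 302100) (.g 0 4302100) (.b 5 65327))) (.n (.n (.g 0 42100)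
  (.g 0 5042100) (.g 0 3042100)) (.n (.g 0 542100) (.g 0 6542100) (.g 0 3542100)) (.n (.g 0 342100)
  (.g 0 5342100) (.b 5 65327))) (.n (.n (.g 0 32100) (.g 0 4032100) (.b 5 64327)) (.n (.g 0 432100)
  (.g 0 5432100) (.b 5 64327)) (.b 5 54327))))) (.n (.n (.n (.n (.n .e .e (.g 0 10000040)) (.n .e .e
  (.g 0 10500040)) (.n (.g 0 10000040) (.g 0 15000040) (.g 0 2100040))) (.n (.n .e .e (.g 0 10050040))
  (.n .e .e (.g 0 10650040)) (.n (.g 0 10050040) (.g 0 16050040) (.g 0 2150040))) (.n (.n (.g 0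
  10000040) (.g 0 15000040) (.g 0 2010040)) (.n (.g 0 10500040) (.g 0 16500040) (.g 0 2510040)) (.n
  (.g 0 210040) (.g 0 5210040) (.g 0 3210040)))) (.n (.n (.n .e .e (.g 0 10005040)) (.n .e .e (.g 0
  10605040)) (.n (.g 0 10005040) (.g 0 16005040) (.g 0 2105040))) (.n (.n .e .e (.g 0 10065040)) (.n
  .e .e (.b 9 543176)) (.n (.g 0 10065040) (.b 9 643175) (.g 0 2165040))) (.n (.n (.g 0 10005040) (.g
  0 16005040) (.g 0 2015040)) (.n (.g 0 10605040) (.b 9 653174) (.g 0 2615040)) (.n (.g 0 215040) (.g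
  0 6215040) (.g 0 3215040)))) (.n (.n (.n (.g 0 10000040) (.g 0 15000040) (.g 0 2001040)) (.n (.g 0
  10500040) (.g 0 16500040) (.g 0 2501040)) (.n (.g 0 201040) (.g 0 5201040) (.g 0 3201040))) (.n (.n
  (.g 0 10050040) (.g 0 16050040) (.g 0 2051040)) (.n (.g 0 10650040) (.b 9 654173) (.g 0 2651040))
  (.n (.g 0 251040) (.g 0 6251040) (.g 0 3251040))) (.n (.n (.g 0 21040) (.g 0 5021040) (.g 0
  3021040)) (.n (.g 0 521040) (.g 0 6521040) (.g 0 3521040)) (.n (.g 0 321040) (.g 0 5321040) (.b 5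
  65437))))) (.n (.n (.n (.n .e .e (.g 0 10000540)) (.n .e .e (.g 0 10600540)) (.n (.g 0 10000540) (.g
  0 16000540) (.g 0 2100540))) (.n (.n .e .e (.g 0 10060540)) (.n .e .e (.b 9 542176)) (.n (.g 0
  10060540) (.b 9 642175) (.g 0 2160540))) (.n (.n (.g 0 10000540) (.g 0 16000540) (.g 0 2010540)) (.n
  (.g 0 10600540) (.b 9 652174) (.g 0 2610540)) (.n (.g 0 210540) (.g 0 6210540) (.g 0 3210540)))) (.n
  (.n (.n .e .e (.g 0 10006540)) (.n .e .e (.b 9 532176)) (.n (.g 0 10006540) (.b 9 632175) (.g 0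
  2106540))) (.n (.n .e .e (.b 9 432176)) (.n .e .e (.b 9 432176)) (.b 9 432175)) (.n (.n (.g 0
  10006540) (.b 9 632174) (.g 0 2016540)) (.b 9 532174) (.n (.g 0 216540) (.b 9 632174) (.g 0
  3216540)))) (.n (.n (.n (.g 0 10000540) (.g 0 16000540) (.g 0 2001540)) (.n (.g 0 10600540) (.b 9
  652173) (.g 0 2601540)) (.n (.g 0 201540) (.g 0 6201540) (.g 0 3201540))) (.n (.n (.g 0 10060540)
  (.b 9 642173) (.g 0 2061540)) (.b 9 542173) (.n (.g 0 261540) (.b 9 642173) (.g 0 3261540))) (.n (.n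
  (.g 0 21540) (.g 0 6021540) (.g 0 3021540)) (.n (.g 0 621540) (.b 9 652173) (.g 0 3621540)) (.n (.g
  0 321540) (.g 0 6321540) (.b 5 65437))))) (.n (.n (.n (.n (.g 0 10000040) (.g 0 15000040) (.g 0
  2000140)) (.n (.g 0 10500040) (.g 0 16500040) (.g 0 2500140)) (.n (.g 0 200140) (.g 0 5200140) (.g 0
  3200140))) (.n (.n (.g 0 10050040) (.g 0 16050040) (.g 0 2050140)) (.n (.g 0 10650040) (.b 9 654172)
  (.g 0 2650140)) (.n (.g 0 250140) (.g 0 6250140) (.g 0 3250140))) (.n (.n (.g 0 20140) (.g 0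
  5020140) (.g 0 3020140)) (.n (.g 0 520140) (.g 0 6520140) (.g 0 3520140)) (.n (.g 0 320140) (.g 0
  5320140) (.b 5 65427)))) (.n (.n (.n (.g 0 10005040) (.g 0 16005040) (.g 0 2005140)) (.n (.g 0
  10605040) (.b 9 653172) (.g 0 2605140)) (.n (.g 0 205140) (.g 0 6205140) (.g 0 3205140))) (.n (.n
  (.g 0 10065040) (.b 9 643172) (.g 0 2065140)) (.b 9 543172) (.n (.g 0 265140) (.b 9 643172) (.g 0
  3265140))) (.n (.n (.g 0 25140) (.g 0 6025140) (.g 0 3025140)) (.n (.g 0 625140) (.b 9 653172) (.g 0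
  3625140)) (.n (.g 0 325140) (.g 0 6325140) (.b 5 65427)))) (.n (.n (.n (.g 0 2140) (.g 0 5002140)
  (.g 0 3002140)) (.n (.g 0 502140) (.g 0 6502140) (.g 0 3502140)) (.n (.g 0 302140) (.g 0 5302140)
  (.b 5 65327))) (.n (.n (.g 0 52140) (.g 0 6052140) (.g 0 3052140)) (.n (.g 0 652140) (.b 9 654172)
  (.g 0 3652140)) (.n (.g 0 352140) (.g 0 6352140) (.b 5 65327))) (.n (.n (.g 0 32140) (.g 0 5032140)
  (.b 5 64327)) (.n (.g 0 532140) (.g 0 6532140) (.b 5 64327)) (.b 5 54327))))) (.n (.n (.n (.n (.n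
  (.g 0 10000000) (.g 0 14000000) (.g 0 2000010)) (.n (.g 0 10400000) (.g 0 15400000) (.g 0 2400010))
  (.n (.g 0 200010) (.g 0 4200010) (.g 0 3200010))) (.n (.n (.g 0 10040000) (.g 0 15040000) (.g 0
  2040010)) (.n (.g 0 10540000) (.g 0 16540000) (.g 0 2540010)) (.n (.g 0 240010) (.g 0 5240010) (.g 0
  3240010))) (.n (.n (.g 0 20010) (.g 0 4020010) (.g 0 3020010)) (.n (.g 0 420010) (.g 0 5420010) (.g
  0 3420010)) (.n (.g 0 320010) (.g 0 4320010) (.b 5 65417)))) (.n (.n (.n (.g 0 10004000) (.g 0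
  15004000) (.g 0 2004010)) (.n (.g 0 10504000) (.g 0 16504000) (.g 0 2504010)) (.n (.g 0 204010) (.g
  0 5204010) (.g 0 3204010))) (.n (.n (.g 0 10054000) (.g 0 16054000) (.g 0 2054010)) (.n (.g 0
  10654000) (.b 9 654371) (.g 0 2654010)) (.n (.g 0 254010) (.g 0 6254010) (.g 0 3254010))) (.n (.n
  (.g 0 24010) (.g 0 5024010) (.g 0 3024010)) (.n (.g 0 524010) (.g 0 6524010) (.g 0 3524010)) (.n (.g
  0 324010) (.g 0 5324010) (.b 5 65417)))) (.n (.n (.n (.g 0 2010) (.g 0 4002010) (.g 0 3002010)) (.n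
  (.g 0 402010) (.g 0 5402010) (.g 0 3402010)) (.n (.g 0 302010) (.g 0 4302010) (.b 5 65317))) (.n (.n
  (.g 0 42010) (.g 0 5042010) (.g 0 3042010)) (.n (.g 0 542010) (.g 0 6542010) (.g 0 3542010)) (.n (.g
  0 342010) (.g 0 5342010) (.b 5 65317))) (.n (.n (.g 0 32010) (.g 0 4032010) (.b 5 64317)) (.n (.g 0
  432010) (.g 0 5432010) (.b 5 64317)) (.b 5 54317)))) (.n (.n (.n (.n (.g 0 10000400) (.g 0 15000400)
  (.g 0 2000410)) (.n (.g 0 10500400) (.g 0 16500400) (.g 0 2500410)) (.n (.g 0 200410) (.g 0 5200410)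
  (.g 0 3200410))) (.n (.n (.g 0 10050400) (.g 0 16050400) (.g 0 2050410)) (.n (.g 0 10650400) (.b 9
  654271) (.g 0 2650410)) (.n (.g 0 250410) (.g 0 6250410) (.g 0 3250410))) (.n (.n (.g 0 20410) (.g 0
  5020410) (.g 0 3020410)) (.n (.g 0 520410) (.g 0 6520410) (.g 0 3520410)) (.n (.g 0 320410) (.g 0
  5320410) (.b 5 65417)))) (.n (.n (.n (.g 0 10005400) (.g 0 16005400) (.g 0 2005410)) (.n (.g 0
  10605400) (.b 9 653271) (.g 0 2605410)) (.n (.g 0 205410) (.g 0 6205410) (.g 0 3205410))) (.n (.n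
  (.g 0 10065400) (.b 9 643271) (.g 0 2065410)) (.b 9 543271) (.n (.g 0 265410) (.b 9 643271) (.g 0
  3265410))) (.n (.n (.g 0 25410) (.g 0 6025410) (.g 0 3025410)) (.n (.g 0 625410) (.b 9 653271) (.g 0
  3625410)) (.n (.g 0 325410) (.g 0 6325410) (.b 5 65417)))) (.n (.n (.n (.g 0 2410) (.g 0 5002410)
  (.g 0 3002410)) (.n (.g 0 502410) (.g 0 6502410) (.g 0 3502410)) (.n (.g 0 302410) (.g 0 5302410)
  (.b 5 65317))) (.n (.n (.g 0 52410) (.g 0 6052410) (.g 0 3052410)) (.n (.g 0 652410) (.b 9 654271)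
  (.g 0 3652410)) (.n (.g 0 352410) (.g 0 6352410) (.b 5 65317))) (.n (.n (.g 0 32410) (.g 0 5032410)
  (.b 5 64317)) (.n (.g 0 532410) (.g 0 6532410) (.b 5 64317)) (.b 5 54317)))) (.n (.n (.n (.n (.g 0
  210) (.g 0 4000210) (.g 0 3000210)) (.n (.g 0 400210) (.g 0 5400210) (.g 0 3400210)) (.n (.g 0
  300210) (.g 0 4300210) (.b 5 65217))) (.n (.n (.g 0 40210) (.g 0 5040210) (.g 0 3040210)) (.n (.g 0
  540210) (.g 0 6540210) (.g 0 3540210)) (.n (.g 0 340210) (.g 0 5340210) (.b 5 65217))) (.n (.n (.g 0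
  30210) (.g 0 4030210) (.b 5 64217)) (.n (.g 0 430210) (.g 0 5430210) (.b 5 64217)) (.b 5 54217)))
  (.n (.n (.n (.g 0 4210) (.g 0 5004210) (.g 0 3004210)) (.n (.g 0 504210) (.g 0 6504210) (.g 0
  3504210)) (.n (.g 0 304210) (.g 0 5304210) (.b 5 65217))) (.n (.n (.g 0 54210) (.g 0 6054210) (.g 0
  3054210)) (.n (.g 0 654210) (.b 9 654371) (.g 0 3654210)) (.n (.g 0 354210) (.g 0 6354210) (.b 5
  65217))) (.n (.n (.g 0 34210) (.g 0 5034210) (.b 5 64217)) (.n (.g 0 534210) (.g 0 6534210) (.b 5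
  64217)) (.b 5 54217))) (.n (.n (.n (.g 0 3210) (.g 0 4003210) (.b 5 63217)) (.n (.g 0 403210) (.g 0
  5403210) (.b 5 63217)) (.b 5 53217)) (.n (.n (.g 0 43210) (.g 0 5043210) (.b 5 63217)) (.n (.g 0
  543210) (.g 0 6543210) (.b 5 63217)) (.b 5 53217)) (.b 5 43217))))) (.n (.n (.n (.n (.n (.n .e .e
  (.g 0 10000004)) (.n .e .e (.g 0 10500004)) (.n (.g 0 10000004) (.g 0 15000004) (.g 0 2100004))) (.n
  (.n .e .e (.g 0 10050004)) (.n .e .e (.g 0 10650004)) (.n (.g 0 10050004) (.g 0 16050004) (.g 0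
  2150004))) (.n (.n (.g 0 10000004) (.g 0 15000004) (.g 0 2010004)) (.n (.g 0 10500004) (.g 0
  16500004) (.g 0 2510004)) (.n (.g 0 210004) (.g 0 5210004) (.g 0 3210004)))) (.n (.n (.n (.g 0
  40001000) (.g 0 54001000) (.g 1 54001000)) (.n (.g 0 50401000) (.g 0 65401000) (.g 2 54601000)) (.n
  (.g 1 50401000) (.g 2 56401000) (.g 1 2105004))) (.n (.n (.g 0 50041000) (.g 0 65041000) (.g 2
  54061000)) (.n (.g 0 60541000) (.b 9 765430) (.b 7 547630)) (.n (.g 2 50461000) (.b 7 647530) (.g 2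
  2165004))) (.n (.n (.g 1 50041000) (.g 2 56041000) (.g 1 2015004)) (.n (.g 2 50641000) (.b 7 657430)
  (.g 2 2615004)) (.n (.g 1 215004) (.g 2 6215004) (.g 1 3215004)))) (.n (.n (.n (.g 0 20000001) (.g 0
  24000001) (.g 2 45003000)) (.n (.g 0 20400001) (.g 0 25400001) (.g 2 45603000)) (.n (.g 2 40503000)
  (.g 2 46503000) (.g 2 2103004))) (.n (.n (.g 0 20040001) (.g 0 25040001) (.g 2 45063000)) (.n (.g 0
  20540001) (.g 0 26540001) (.b 8 546730)) (.n (.g 2 40563000) (.b 8 645730) (.g 2 2163004))) (.n (.n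
  (.g 2 40053000) (.g 2 46053000) (.g 2 2013004)) (.n (.g 2 40653000) (.b 8 654730) (.g 2 2613004))
  (.n (.g 2 213004) (.g 2 6213004) (.b 5 65437))))) (.n (.n (.n (.n (.g 0 40000100) (.g 0 54000100)
  (.g 1 54000100)) (.n (.g 0 50400100) (.g 0 65400100) (.g 2 54600100)) (.n (.g 1 50400100) (.g 2
  56400100) (.g 1 2100504))) (.n (.n (.g 0 50040100) (.g 0 65040100) (.g 2 54060100)) (.n (.g 0
  60540100) (.b 9 765420) (.b 7 547620)) (.n (.g 2 50460100) (.b 7 647520) (.g 2 2160504))) (.n (.n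
  (.g 1 50040100) (.g 2 56040100) (.g 1 2010504)) (.n (.g 2 50640100) (.b 7 657420) (.g 2 2610504))
  (.n (.g 1 210504) (.g 2 6210504) (.g 1 3210504)))) (.n (.n (.n (.g 0 40002100) (.g 0 54002100) (.g 1
  54002100)) (.n (.g 0 50402100) (.g 0 65402100) (.g 2 54602100)) (.n (.g 1 50402100) (.g 2 56402100)
  (.b 12 675302))) (.n (.n (.g 0 50042100) (.g 0 65042100) (.g 2 54062100)) (.n (.g 0 60542100) (.b 9
  765420) (.b 7 547620)) (.n (.g 2 50462100) (.b 7 647520) (.b 12 675302))) (.n (.n (.g 1 50042100)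
  (.g 2 56042100) (.b 12 674302)) (.n (.g 2 50642100) (.b 7 657420) (.b 12 674302)) (.b 12 574302)))
  (.n (.n (.n (.g 2 40003100) (.g 2 46003100) (.g 2 45003100)) (.n (.g 2 40603100) (.b 8 657302) (.g 2
  45603100)) (.n (.g 2 40503100) (.g 2 46503100) (.g 2 2103504))) (.n (.n (.g 2 40063100) (.b 8
  647302) (.g 2 45063100)) (.b 8 547302) (.n (.g 2 40563100) (.b 7 647520) (.g 2 2163504))) (.n (.n
  (.g 2 40053100) (.g 2 46053100) (.g 2 2013504)) (.n (.g 2 40653100) (.b 7 657420) (.g 2 2613504))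
  (.n (.g 2 213504) (.g 2 6213504) (.b 5 65437))))) (.n (.n (.n (.n (.g 0 20000001) (.g 0 24000001)
  (.g 2 45000300)) (.n (.g 0 20400001) (.g 0 25400001) (.g 2 45600300)) (.n (.g 2 40500300) (.g 2
  46500300) (.g 2 2100304))) (.n (.n (.g 0 20040001) (.g 0 25040001) (.g 2 45060300)) (.n (.g 0
  20540001) (.g 0 26540001) (.b 8 546720)) (.n (.g 2 40560300) (.b 8 645720) (.g 2 2160304))) (.n (.n
  (.g 2 40050300) (.g 2 46050300) (.g 2 2010304)) (.n (.g 2 40650300) (.b 8 654720) (.g 2 2610304))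
  (.n (.g 2 210304) (.g 2 6210304) (.b 5 65427)))) (.n (.n (.n (.g 2 40001300) (.g 2 46001300) (.g 2
  45001300)) (.n (.g 2 40601300) (.b 8 657203) (.g 2 45601300)) (.n (.g 2 40501300) (.g 2 46501300)
  (.g 2 2105304))) (.n (.n (.g 2 40061300) (.b 8 647203) (.g 2 45061300)) (.b 8 547203) (.n (.g 2
  40561300) (.b 7 647530) (.g 2 2165304))) (.n (.n (.g 2 40051300) (.g 2 46051300) (.g 2 2015304)) (.n
  (.g 2 40651300) (.b 7 657430) (.g 2 2615304)) (.n (.g 2 215304) (.g 2 6215304) (.b 5 65427)))) (.b 1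
  3720))) (.n (.n (.n (.n (.n (.g 0 40000010) (.g 0 54000010) (.g 1 54000010)) (.n (.g 0 50400010) (.g
  0 65400010) (.g 2 54600010)) (.n (.g 1 50400010) (.g 2 56400010) (.g 1 2100054))) (.n (.n (.g 0
  50040010) (.g 0 65040010) (.g 2 54060010)) (.n (.g 0 60540010) (.b 9 765410) (.b 7 547610)) (.n (.g
  2 50460010) (.b 7 647510) (.g 2 2160054))) (.n (.n (.g 1 50040010) (.g 2 56040010) (.g 1 2010054))
  (.n (.g 2 50640010) (.b 7 657410) (.g 2 2610054)) (.n (.g 1 210054) (.g 2 6210054) (.g 1 3210054))))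
  (.n (.n (.n (.g 0 40002010) (.g 0 54002010) (.g 1 54002010)) (.n (.g 0 50402010) (.g 0 65402010) (.g
  2 54602010)) (.n (.g 1 50402010) (.g 2 56402010) (.b 12 675301))) (.n (.n (.g 0 50042010) (.g 0
  65042010) (.g 2 54062010)) (.n (.g 0 60542010) (.b 9 765410) (.b 7 547610)) (.n (.g 2 50462010) (.b
  7 647510) (.b 12 675301))) (.n (.n (.g 1 50042010) (.g 2 56042010) (.b 12 674301)) (.n (.g 2
  50642010) (.b 7 657410) (.b 12 674301)) (.b 12 574301))) (.n (.n (.n (.g 2 40003010) (.g 2 46003010)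
  (.g 2 45003010)) (.n (.g 2 40603010) (.b 8 657301) (.g 2 45603010)) (.n (.g 2 40503010) (.g 2
  46503010) (.g 2 2103054))) (.n (.n (.g 2 40063010) (.b 8 647301) (.g 2 45063010)) (.b 8 547301) (.n
  (.g 2 40563010) (.b 7 647510) (.g 2 2163054))) (.n (.n (.g 2 40053010) (.g 2 46053010) (.g 2
  2013054)) (.n (.g 2 40653010) (.b 7 657410) (.g 2 2613054)) (.n (.g 2 213054) (.g 2 6213054) (.b 5
  65437))))) (.n (.n (.n (.n (.g 0 40000210) (.g 0 54000210) (.g 1 54000210)) (.n (.g 0 50400210) (.g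
  0 65400210) (.g 2 54600210)) (.n (.g 1 50400210) (.g 2 56400210) (.b 12 675201))) (.n (.n (.g 0
  50040210) (.g 0 65040210) (.g 2 54060210)) (.n (.g 0 60540210) (.b 9 765410) (.b 7 547610)) (.n (.g
  2 50460210) (.b 7 647510) (.b 12 675201))) (.n (.n (.g 1 50040210) (.g 2 56040210) (.b 12 674201))
  (.n (.g 2 50640210) (.b 7 657410) (.b 12 674201)) (.b 12 574201))) (.n (.n (.n (.g 0 40003210) (.g 0
  54003210) (.g 1 54003210)) (.n (.g 0 50403210) (.g 0 65403210) (.b 9 532176)) (.n (.g 1 50403210)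
  (.b 9 632175) (.b 12 675201))) (.n (.n (.g 0 50043210) (.g 0 65043210) (.b 9 432176)) (.n (.g 0
  60543210) (.b 9 765410) (.b 7 547610)) (.b 9 432175)) (.n (.n (.g 1 50043210) (.b 9 632174) (.b 12
  674201)) (.b 9 532174) (.b 12 574201))) (.n (.n (.n (.g 2 40003210) (.g 2 46003210) (.g 2 45003210))
  (.n (.g 2 40603210) (.b 8 657301) (.g 2 45603210)) (.n (.g 2 40503210) (.g 2 46503210) (.b 12
  675201))) (.n (.n (.g 2 40063210) (.b 8 647301) (.g 2 45063210)) (.b 8 547301) (.n (.g 2 40563210)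
  (.b 7 647510) (.b 12 675201))) (.n (.n (.g 2 40053210) (.g 2 46053210) (.b 12 674201)) (.n (.g 2
  40653210) (.b 7 657410) (.b 12 674201)) (.b 12 574201)))) (.n (.n (.n (.n (.g 2 40000310) (.g 2
  46000310) (.g 2 45000310)) (.n (.g 2 40600310) (.b 8 657201) (.g 2 45600310)) (.n (.g 2 40500310)
  (.g 2 46500310) (.g 2 2100354))) (.n (.n (.g 2 40060310) (.b 8 647201) (.g 2 45060310)) (.b 8
  547201) (.n (.g 2 40560310) (.b 7 647510) (.g 2 2160354))) (.n (.n (.g 2 40050310) (.g 2 46050310)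
  (.g 2 2010354)) (.n (.g 2 40650310) (.b 7 657410) (.g 2 2610354)) (.n (.g 2 210354) (.g 2 6210354)
  (.b 5 65427)))) (.n (.n (.n (.g 2 40002310) (.g 2 46002310) (.g 2 45002310)) (.n (.g 2 40602310) (.b
  8 657201) (.g 2 45602310)) (.n (.g 2 40502310) (.g 2 46502310) (.b 12 675301))) (.n (.n (.g 2
  40062310) (.b 8 647201) (.g 2 45062310)) (.b 8 547201) (.n (.g 2 40562310) (.b 7 647510) (.b 12
  675301))) (.n (.n (.g 2 40052310) (.g 2 46052310) (.b 12 674301)) (.n (.g 2 40652310) (.b 7 657410)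
  (.b 12 674301)) (.b 12 574301))) (.b 1 3720))) (.n (.n (.n (.n (.n (.g 0 20000001) (.g 0 24000001)
  (.g 2 45000030)) (.n (.g 0 20400001) (.g 0 25400001) (.g 2 45600030)) (.n (.g 2 40500030) (.g 2
  46500030) (.g 2 2100034))) (.n (.n (.g 0 20040001) (.g 0 25040001) (.g 2 45060030)) (.n (.g 0
  20540001) (.g 0 26540001) (.b 8 546710)) (.n (.g 2 40560030) (.b 8 645710) (.g 2 2160034))) (.n (.n
  (.g 2 40050030) (.g 2 46050030) (.g 2 2010034)) (.n (.g 2 40650030) (.b 8 654710) (.g 2 2610034))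
  (.n (.g 2 210034) (.g 2 6210034) (.b 5 65417)))) (.n (.n (.n (.g 2 40001030) (.g 2 46001030) (.g 2
  45001030)) (.n (.g 2 40601030) (.b 8 657103) (.g 2 45601030)) (.n (.g 2 40501030) (.g 2 46501030)
  (.g 2 2105034))) (.n (.n (.g 2 40061030) (.b 8 647103) (.g 2 45061030)) (.b 8 547103) (.n (.g 2
  40561030) (.b 7 647530) (.g 2 2165034))) (.n (.n (.g 2 40051030) (.g 2 46051030) (.g 2 2015034)) (.n
  (.g 2 40651030) (.b 7 657430) (.g 2 2615034)) (.n (.g 2 215034) (.g 2 6215034) (.b 5 65417)))) (.b 1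
  3710)) (.n (.n (.n (.n (.g 2 40000130) (.g 2 46000130) (.g 2 45000130)) (.n (.g 2 40600130) (.b 8
  657102) (.g 2 45600130)) (.n (.g 2 40500130) (.g 2 46500130) (.g 2 2100534))) (.n (.n (.g 2
  40060130) (.b 8 647102) (.g 2 45060130)) (.b 8 547102) (.n (.g 2 40560130) (.b 7 647520) (.g 2
  2160534))) (.n (.n (.g 2 40050130) (.g 2 46050130) (.g 2 2010534)) (.n (.g 2 40650130) (.b 7 657420)
  (.g 2 2610534)) (.n (.g 2 210534) (.g 2 6210534) (.b 5 65417)))) (.n (.n (.n (.g 2 40002130) (.g 2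
  46002130) (.g 2 45002130)) (.n (.g 2 40602130) (.b 8 657102) (.g 2 45602130)) (.n (.g 2 40502130)
  (.g 2 46502130) (.b 12 675302))) (.n (.n (.g 2 40062130) (.b 8 647102) (.g 2 45062130)) (.b 8
  547102) (.n (.g 2 40562130) (.b 7 647520) (.b 12 675302))) (.n (.n (.g 2 40052130) (.g 2 46052130)
  (.b 12 674302)) (.n (.g 2 40652130) (.b 7 657420) (.b 12 674302)) (.b 12 574302))) (.b 1 3710)) (.b
  1 2710))) (.n (.n (.n (.n (.n (.n (.g 0 10000000) (.g 0 14000000) (.g 0 2000001)) (.n (.g 0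
  10400000) (.g 0 15400000) (.g 0 2400001)) (.n (.g 0 200001) (.g 0 4200001) (.g 0 3200001))) (.n (.n
  (.g 0 10040000) (.g 0 15040000) (.g 0 2040001)) (.n (.g 0 10540000) (.g 0 16540000) (.g 0 2540001))
  (.n (.g 0 240001) (.g 0 5240001) (.g 0 3240001))) (.n (.n (.g 0 20001) (.g 0 4020001) (.g 0
  3020001)) (.n (.g 0 420001) (.g 0 5420001) (.g 0 3420001)) (.n (.g 0 320001) (.g 0 4320001) (.b 5
  65407)))) (.n (.n (.n (.g 0 20001000) (.g 0 24001000) (.g 2 34001000)) (.n (.g 0 20401000) (.g 0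
  25401000) (.g 2 34601000)) (.n (.g 2 30401000) (.g 2 36401000) (.g 2 2104003))) (.n (.n (.g 0
  20041000) (.g 0 25041000) (.g 2 34061000)) (.n (.g 0 20541000) (.g 0 26541000) (.b 8 546703)) (.n
  (.g 2 30461000) (.b 8 645703) (.g 2 2164003))) (.n (.n (.g 2 30041000) (.g 2 36041000) (.g 2
  2014003)) (.n (.g 2 30641000) (.b 8 654703) (.g 2 2614003)) (.n (.g 2 214003) (.g 2 6214003) (.b 5
  65407)))) (.b 0 730)) (.n (.n (.n (.n (.g 0 20000100) (.g 0 24000100) (.g 2 34000100)) (.n (.g 0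
  20400100) (.g 0 25400100) (.g 2 34600100)) (.n (.g 2 30400100) (.g 2 36400100) (.g 2 2100403))) (.n
  (.n (.g 0 20040100) (.g 0 25040100) (.g 2 34060100)) (.n (.g 0 20540100) (.g 0 26540100) (.b 8
  546702)) (.n (.g 2 30460100) (.b 8 645702) (.g 2 2160403))) (.n (.n (.g 2 30040100) (.g 2 36040100)
  (.g 2 2010403)) (.n (.g 2 30640100) (.b 8 654702) (.g 2 2610403)) (.n (.g 2 210403) (.g 2 6210403)
  (.b 5 65407)))) (.n (.n (.n (.g 0 30002100) (.g 0 34002100) (.g 2 34002100)) (.n (.g 0 30402100) (.g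
  0 35402100) (.g 2 34602100)) (.n (.g 2 30402100) (.g 2 36402100) (.b 6 653270))) (.n (.n (.g 0
  30042100) (.g 0 35042100) (.g 2 34062100)) (.n (.g 0 30542100) (.g 0 36542100) (.b 8 546702)) (.n
  (.g 2 30462100) (.b 8 645702) (.b 6 653270))) (.n (.n (.g 2 30042100) (.g 2 36042100) (.b 6 643270))
  (.n (.g 2 30642100) (.b 8 654702) (.b 6 643270)) (.b 6 543270))) (.b 0 730)) (.b 0 720)) (.n (.n (.n
  (.n (.n (.g 0 20000010) (.g 0 24000010) (.g 2 34000010)) (.n (.g 0 20400010) (.g 0 25400010) (.g 2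
  34600010)) (.n (.g 2 30400010) (.g 2 36400010) (.g 2 2100043))) (.n (.n (.g 0 20040010) (.g 0
  25040010) (.g 2 34060010)) (.n (.g 0 20540010) (.g 0 26540010) (.b 8 546701)) (.n (.g 2 30460010)
  (.b 8 645701) (.g 2 2160043))) (.n (.n (.g 2 30040010) (.g 2 36040010) (.g 2 2010043)) (.n (.g 2
  30640010) (.b 8 654701) (.g 2 2610043)) (.n (.g 2 210043) (.g 2 6210043) (.b 5 65407)))) (.n (.n (.n
  (.g 0 30002010) (.g 0 34002010) (.g 2 34002010)) (.n (.g 0 30402010) (.g 0 35402010) (.g 2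
  34602010)) (.n (.g 2 30402010) (.g 2 36402010) (.b 6 653170))) (.n (.n (.g 0 30042010) (.g 0
  35042010) (.g 2 34062010)) (.n (.g 0 30542010) (.g 0 36542010) (.b 8 546701)) (.n (.g 2 30462010)
  (.b 8 645701) (.b 6 653170))) (.n (.n (.g 2 30042010) (.g 2 36042010) (.b 6 643170)) (.n (.g 2
  30642010) (.b 8 654701) (.b 6 643170)) (.b 6 543170))) (.b 0 730)) (.n (.n (.n (.n (.g 0 30000210)
  (.g 0 34000210) (.g 2 34000210)) (.n (.g 0 30400210) (.g 0 35400210) (.g 2 34600210)) (.n (.g 2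
  30400210) (.g 2 36400210) (.b 6 652170))) (.n (.n (.g 0 30040210) (.g 0 35040210) (.g 2 34060210))
  (.n (.g 0 30540210) (.g 0 36540210) (.b 8 546701)) (.n (.g 2 30460210) (.b 8 645701) (.b 6 652170)))
  (.n (.n (.g 2 30040210) (.g 2 36040210) (.b 6 642170)) (.n (.g 2 30640210) (.b 8 654701) (.b 6
  642170)) (.b 6 542170))) (.b 5 73210) (.b 0 730)) (.b 0 720)) (.b 0 710)))

theorem ok0 : chk [(0,1),(0,2),(0,3)] 7 0 (fun _ => 0) ct0 = true := by
  decide +kernel

def ct1 : Ct :=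
  (.n (.n (.n (.n (.n (.n .e .e (.g 0 1000000)) (.n .e (.g 0 4100000) (.g 0 2010000)) (.n (.g 0
  1000000) (.g 0 2100000) (.b 0 654))) (.n (.n .e .e (.g 0 1004000)) (.n .e (.g 0 5104000) (.g 0
  2014000)) (.n (.g 0 1004000) (.g 0 2104000) (.b 0 654))) (.n (.n (.g 0 1000000) (.g 0 1400000) (.g 0
  201000)) (.n (.g 0 1040000) (.g 1 1540000) (.g 2 3450000)) (.n (.g 0 21000) (.g 2 3540000) (.b 0
  654)))) (.n (.n (.n .e .e (.g 0 1000400)) (.n .e (.g 0 5100400) (.g 0 2010400)) (.n (.g 0 1000400)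
  (.g 0 2100400) (.b 0 654))) (.n (.n .e .e (.g 0 1005400)) (.n .e (.g 0 6105400) (.g 0 2015400)) (.n
  (.g 0 1005400) (.g 0 2105400) (.b 0 654))) (.n (.n (.g 0 1000400) (.g 0 1500400) (.g 0 201400)) (.n
  (.g 0 1050400) (.g 2 1540600) (.g 2 3450600)) (.n (.g 0 21400) (.g 2 3540600) (.b 0 654)))) (.n (.n
  (.n (.g 0 1000000) (.g 0 1400000) (.g 0 200100)) (.n (.g 0 1040000) (.g 1 1540000) (.g 2 3450000))
  (.n (.g 0 20100) (.g 2 3540000) (.b 0 654))) (.n (.n (.g 0 1004000) (.g 0 1504000) (.g 0 204100))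
  (.n (.g 0 1054000) (.g 2 1546000) (.g 2 3456000)) (.n (.g 0 24100) (.g 2 3546000) (.b 0 654))) (.n
  (.n (.g 0 2100) (.g 0 402100) (.g 0 302100)) (.n (.g 0 42100) (.g 1 542100) (.g 2 342100)) (.n (.g 0
  32100) (.g 2 432100) (.b 0 654))))) (.n (.n (.n (.n .e .e (.g 0 1000040)) (.n .e (.g 0 5100040) (.g
  0 2010040)) (.n (.g 0 1000040) (.g 0 2100040) (.b 0 654))) (.n (.n .e .e (.g 0 1005040)) (.n .e (.g
  0 6105040) (.g 0 2015040)) (.n (.g 0 1005040) (.g 0 2105040) (.b 0 654))) (.n (.n (.g 0 1000040) (.g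
  0 1500040) (.g 0 201040)) (.n (.g 0 1050040) (.g 2 1540060) (.g 2 3450060)) (.n (.g 0 21040) (.g 2
  3540060) (.b 0 654)))) (.n (.n (.n .e .e (.g 0 1000540)) (.n .e (.g 0 6100540) (.g 0 2010540)) (.n
  (.g 0 1000540) (.g 0 2100540) (.b 0 654))) (.n (.n .e .e (.g 0 1006540)) (.n .e (.b 9 632154) (.g 0
  2016540)) (.n (.g 0 1006540) (.g 0 2106540) (.b 0 654))) (.n (.n (.g 0 1000540) (.g 0 1600540) (.g 0
  201540)) (.n (.g 0 1060540) (.b 7 215463) (.b 8 214563)) (.n (.g 0 21540) (.b 8 215463) (.b 0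
  654)))) (.n (.n (.n (.g 0 1000040) (.g 0 1500040) (.g 0 200140)) (.n (.g 0 1050040) (.g 2 1540060)
  (.g 2 3450060)) (.n (.g 0 20140) (.g 2 3540060) (.b 0 654))) (.n (.n (.g 0 1005040) (.g 0 1605040)
  (.g 0 205140)) (.n (.g 0 1065040) (.b 7 315462) (.b 8 314562)) (.n (.g 0 25140) (.b 8 315462) (.b 0
  654))) (.n (.n (.g 0 2140) (.g 0 502140) (.g 0 302140)) (.n (.g 0 52140) (.g 2 542160) (.g 2
  342160)) (.n (.g 0 32140) (.g 2 432160) (.b 0 654))))) (.n (.n (.n (.n (.g 0 1000000) (.g 0 1400000)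
  (.g 0 200010)) (.n (.g 0 1040000) (.g 1 1540000) (.g 2 3450000)) (.n (.g 0 20010) (.g 2 3540000) (.b
  0 654))) (.n (.n (.g 0 1004000) (.g 0 1504000) (.g 0 204010)) (.n (.g 0 1054000) (.g 2 1546000) (.g
  2 3456000)) (.n (.g 0 24010) (.g 2 3546000) (.b 0 654))) (.n (.n (.g 0 2010) (.g 0 402010) (.g 0
  302010)) (.n (.g 0 42010) (.g 1 542010) (.g 2 342010)) (.n (.g 0 32010) (.g 2 432010) (.b 0 654))))
  (.n (.n (.n (.g 0 1000400) (.g 0 1500400) (.g 0 200410)) (.n (.g 0 1050400) (.g 2 1540600) (.g 2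
  3450600)) (.n (.g 0 20410) (.g 2 3540600) (.b 0 654))) (.n (.n (.g 0 1005400) (.g 0 1605400) (.g 0
  205410)) (.n (.g 0 1065400) (.b 7 325461) (.b 8 324561)) (.n (.g 0 25410) (.b 8 325461) (.b 0 654)))
  (.n (.n (.g 0 2410) (.g 0 502410) (.g 0 302410)) (.n (.g 0 52410) (.g 2 542610) (.g 2 342610)) (.n
  (.g 0 32410) (.g 2 432610) (.b 0 654)))) (.n (.n (.n (.g 0 210) (.g 0 400210) (.g 0 300210)) (.n (.g
  0 40210) (.g 1 540210) (.g 2 340210)) (.n (.g 0 30210) (.g 2 430210) (.b 0 654))) (.n (.n (.g 0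
  4210) (.g 0 504210) (.g 0 304210)) (.n (.g 0 54210) (.g 2 546210) (.g 2 346210)) (.n (.g 0 34210)
  (.g 2 436210) (.b 0 654))) (.n (.n (.g 0 3210) (.g 0 403210) (.b 5 53216)) (.n (.g 0 43210) (.g 1
  543210) (.b 5 53216)) (.b 5 43216))))) (.n (.n (.n (.n (.n .e .e (.g 0 1000004)) (.n .e (.g 0
  5100004) (.g 0 2010004)) (.n (.g 0 1000004) (.g 0 2100004) (.b 0 654))) (.n (.n (.g 0 4001000) (.g 0
  5401000) (.g 1 5401000)) (.n (.g 0 5041000) (.g 2 6541000) (.g 1 2015004)) (.n (.g 1 5041000) (.g 1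
  2105004) (.b 0 654))) (.n (.n (.g 0 2000001) (.g 0 2400001) (.g 2 4503000)) (.n (.g 0 2040001) (.g 1
  2540001) (.g 2 3450001)) (.n (.g 2 4053000) (.g 2 3540001) (.b 0 654)))) (.n (.n (.n (.g 0 4000100)
  (.g 0 5400100) (.g 1 5400100)) (.n (.g 0 5040100) (.g 2 6540100) (.g 1 2010504)) (.n (.g 1 5040100)
  (.g 1 2100504) (.b 0 654))) (.n (.n (.g 0 4002100) (.g 0 5402100) (.g 1 5402100)) (.n (.g 0 5042100)
  (.g 2 6542100) (.b 12 654302)) (.n (.g 1 5042100) (.b 12 645302) (.b 0 654))) (.n (.n (.g 2 4003100)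
  (.g 2 4603100) (.g 2 4503100)) (.n (.g 2 4063100) (.b 11 630254) (.b 4 456302)) (.n (.g 2 4053100)
  (.b 4 546302) (.b 0 654)))) (.n (.n (.n (.g 0 2000001) (.g 0 2400001) (.g 2 4500300)) (.n (.g 0
  2040001) (.g 1 2540001) (.g 2 3450001)) (.n (.g 2 4050300) (.g 2 3540001) (.b 0 654))) (.n (.n (.g 2
  4001300) (.g 2 4601300) (.g 2 4501300)) (.n (.g 2 4061300) (.b 11 620354) (.b 4 456203)) (.n (.g 2
  4051300) (.b 4 546203) (.b 0 654))) (.b 1 3620))) (.n (.n (.n (.n (.g 0 4000010) (.g 0 5400010) (.g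
  1 5400010)) (.n (.g 0 5040010) (.g 2 6540010) (.g 1 2010054)) (.n (.g 1 5040010) (.g 1 2100054) (.b
  0 654))) (.n (.n (.g 0 4002010) (.g 0 5402010) (.g 1 5402010)) (.n (.g 0 5042010) (.g 2 6542010) (.b
  12 654301)) (.n (.g 1 5042010) (.b 12 645301) (.b 0 654))) (.n (.n (.g 2 4003010) (.g 2 4603010) (.g
  2 4503010)) (.n (.g 2 4063010) (.b 11 630154) (.b 4 456301)) (.n (.g 2 4053010) (.b 4 546301) (.b 0
  654)))) (.n (.n (.n (.g 0 4000210) (.g 0 5400210) (.g 1 5400210)) (.n (.g 0 5040210) (.g 2 6540210)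
  (.b 12 654201)) (.n (.g 1 5040210) (.b 12 645201) (.b 0 654))) (.n (.n (.g 0 4003210) (.g 0 5403210)
  (.g 1 5403210)) (.n (.g 0 5043210) (.b 9 632154) (.b 12 654201)) (.n (.g 1 5043210) (.b 12 645201)
  (.b 0 654))) (.n (.n (.g 2 4003210) (.g 2 4603210) (.g 2 4503210)) (.n (.g 2 4063210) (.b 7 215463)
  (.b 4 456301)) (.n (.g 2 4053210) (.b 4 546301) (.b 0 654)))) (.n (.n (.n (.g 2 4000310) (.g 2
  4600310) (.g 2 4500310)) (.n (.g 2 4060310) (.b 11 620154) (.b 4 456201)) (.n (.g 2 4050310) (.b 4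
  546201) (.b 0 654))) (.n (.n (.g 2 4002310) (.g 2 4602310) (.g 2 4502310)) (.n (.g 2 4062310) (.b 7
  315462) (.b 4 456201)) (.n (.g 2 4052310) (.b 4 546201) (.b 0 654))) (.b 1 3620))) (.n (.n (.n (.n
  (.g 0 2000001) (.g 0 2400001) (.g 2 4500030)) (.n (.g 0 2040001) (.g 1 2540001) (.g 2 3450001)) (.n
  (.g 2 4050030) (.g 2 3540001) (.b 0 654))) (.n (.n (.g 2 4001030) (.g 2 4601030) (.g 2 4501030)) (.n
  (.g 2 4061030) (.b 11 610354) (.b 4 456103)) (.n (.g 2 4051030) (.b 4 546103) (.b 0 654))) (.b 1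
  3610)) (.n (.n (.n (.g 2 4000130) (.g 2 4600130) (.g 2 4500130)) (.n (.g 2 4060130) (.b 11 610254)
  (.b 4 456102)) (.n (.g 2 4050130) (.b 4 546102) (.b 0 654))) (.n (.n (.g 2 4002130) (.g 2 4602130)
  (.g 2 4502130)) (.n (.g 2 4062130) (.b 7 325461) (.b 4 456102)) (.n (.g 2 4052130) (.b 4 546102) (.b
  0 654))) (.b 1 3610)) (.b 1 2610))) (.n (.n (.n (.n (.n (.g 0 1000000) (.g 0 1400000) (.g 0 200001))
  (.n (.g 0 1040000) (.g 1 1540000) (.g 2 3450000)) (.n (.g 0 20001) (.g 2 3540000) (.b 0 654))) (.n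
  (.n (.g 0 2001000) (.g 0 2401000) (.g 2 3401000)) (.n (.g 0 2041000) (.g 1 2541000) (.g 2 3451000))
  (.n (.g 2 3041000) (.g 2 3541000) (.b 0 654))) (.b 0 630)) (.n (.n (.n (.g 0 2000100) (.g 0 2400100)
  (.g 2 3400100)) (.n (.g 0 2040100) (.g 1 2540100) (.g 2 3450100)) (.n (.g 2 3040100) (.g 2 3540100)
  (.b 0 654))) (.n (.n (.g 0 3002100) (.g 0 3402100) (.g 2 3402100)) (.n (.g 0 3042100) (.g 1 3542100)
  (.g 2 3452100)) (.n (.g 2 3042100) (.g 2 3542100) (.b 0 654))) (.b 0 630)) (.b 0 620)) (.n (.n (.n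
  (.n (.g 0 2000010) (.g 0 2400010) (.g 2 3400010)) (.n (.g 0 2040010) (.g 1 2540010) (.g 2 3450010))
  (.n (.g 2 3040010) (.g 2 3540010) (.b 0 654))) (.n (.n (.g 0 3002010) (.g 0 3402010) (.g 2 3402010))
  (.n (.g 0 3042010) (.g 1 3542010) (.g 2 3452010)) (.n (.g 2 3042010) (.g 2 3542010) (.b 0 654))) (.b
  0 630)) (.n (.n (.n (.g 0 3000210) (.g 0 3400210) (.g 2 3400210)) (.n (.g 0 3040210) (.g 1 3540210)
  (.g 2 3450210)) (.n (.g 2 3040210) (.g 2 3540210) (.b 0 654))) (.b 5 63210) (.b 0 630)) (.b 0 620))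
  (.b 0 610)))

theorem ok1 : chk [(0,1),(0,2),(0,3),(4,5)] 6 0 (fun _ => 0) ct1 = true := by
  decide +kernel

def ct2 : Ct :=
  (.n (.n (.n (.n (.n (.n (.n .e .e (.g 0 10000000)) (.n .e .e (.g 0 10400000)) (.n (.g 0 10000000)
  (.g 0 14000000) (.g 0 2100000))) (.n (.n .e .e (.g 0 10040000)) (.n (.g 0 40100000) (.g 0 54100000)
  (.g 1 54100000)) (.n (.g 0 20010000) (.g 0 24010000) (.g 2 45300000))) (.n (.n (.g 0 10000000) (.g 0
  14000000) (.g 0 2010000)) (.n (.g 0 20100000) (.g 0 24100000) (.g 2 34100000)) (.b 0 754))) (.n (.n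
  (.n .e .e (.g 0 10004000)) (.n .e .e (.g 0 10504000)) (.n (.g 0 10004000) (.g 0 15004000) (.g 0
  2104000))) (.n (.n (.g 0 40010000) (.g 0 54010000) (.g 1 54010000)) (.n (.g 0 40201000) (.g 0
  54201000) (.g 1 54201000)) (.n (.g 2 50430000) (.g 2 56430000) (.g 2 45301000))) (.n (.n (.g 0
  20001000) (.g 0 24001000) (.g 2 45030000)) (.n (.g 0 30201000) (.g 0 34201000) (.g 2 34201000)) (.b
  0 754))) (.n (.n (.n (.g 0 10000000) (.g 0 14000000) (.g 0 2001000)) (.n (.g 0 10400000) (.g 0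
  15400000) (.g 0 2401000)) (.n (.g 0 201000) (.g 0 4201000) (.g 0 3201000))) (.n (.n (.g 0 20010000)
  (.g 0 24010000) (.g 2 34010000)) (.n (.g 2 10430000) (.g 2 16430000) (.g 2 45103000)) (.b 1 7543))
  (.b 0 743))) (.n (.n (.n (.n .e .e (.g 0 10000400)) (.n .e .e (.g 0 10500400)) (.n (.g 0 10000400)
  (.g 0 15000400) (.g 0 2100400))) (.n (.n .e .e (.g 0 10050400)) (.n (.g 0 50100400) (.g 0 65100400)
  (.g 2 54100600)) (.n (.g 0 20010400) (.g 0 25010400) (.g 2 45300600))) (.n (.n (.g 0 10000400) (.g 0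
  15000400) (.g 0 2010400)) (.n (.g 0 20100400) (.g 0 25100400) (.g 2 34100600)) (.b 0 754))) (.n (.n
  (.n .e .e (.g 0 10005400)) (.n .e .e (.g 0 10605400)) (.n (.g 0 10005400) (.g 0 16005400) (.g 0
  2105400))) (.n (.n (.g 0 50010400) (.g 0 65010400) (.g 2 54010600)) (.n (.g 0 50201400) (.g 0
  65201400) (.g 2 54201600)) (.n (.g 2 50430600) (.b 8 627543) (.g 2 45301600))) (.n (.n (.g 0
  20001400) (.g 0 25001400) (.g 2 45030600)) (.n (.g 0 30201400) (.g 0 35201400) (.g 2 34201600)) (.b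
  0 754))) (.n (.n (.n (.g 0 10000400) (.g 0 15000400) (.g 0 2001400)) (.n (.g 0 10500400) (.g 0
  16500400) (.g 0 2501400)) (.n (.g 0 201400) (.g 0 5201400) (.g 0 3201400))) (.n (.n (.g 0 20010400)
  (.g 0 25010400) (.g 2 34010600)) (.n (.g 2 10430600) (.b 8 627345) (.g 2 45103600)) (.b 1 7543)) (.b
  0 743))) (.n (.n (.n (.n (.g 0 10000000) (.g 0 14000000) (.g 0 2000100)) (.n (.g 0 10400000) (.g 0
  15400000) (.g 0 2400100)) (.n (.g 0 200100) (.g 0 4200100) (.g 0 3200100))) (.n (.n (.g 0 10040000)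
  (.g 0 15040000) (.g 0 2040100)) (.n (.g 1 10540000) (.g 2 16540000) (.g 1 2540100)) (.n (.g 2
  30450000) (.g 2 36450000) (.g 2 2340100))) (.n (.n (.g 0 20100) (.g 0 4020100) (.g 0 3020100)) (.n
  (.g 2 30540000) (.g 2 36540000) (.g 2 2430100)) (.b 0 754))) (.n (.n (.n (.g 0 10004000) (.g 0
  15004000) (.g 0 2004100)) (.n (.g 0 10504000) (.g 0 16504000) (.g 0 2504100)) (.n (.g 0 204100) (.g
  0 5204100) (.g 0 3204100))) (.n (.n (.g 1 10054000) (.g 2 16054000) (.g 1 2054100)) (.n (.g 1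
  50201400) (.g 2 56201400) (.b 12 543672)) (.n (.g 2 345100) (.g 2 6345100) (.g 2 2345100))) (.n (.n
  (.g 2 30045000) (.g 2 36045000) (.g 2 2034100)) (.n (.g 2 30201400) (.g 2 36201400) (.b 6 625374))
  (.b 0 754))) (.n (.n (.n (.g 0 2100) (.g 0 4002100) (.g 0 3002100)) (.n (.g 0 402100) (.g 0 5402100)
  (.g 0 3402100)) (.n (.g 0 302100) (.g 0 4302100) (.b 5 65327))) (.n (.n (.g 2 30054000) (.g 2
  36054000) (.g 2 2043100)) (.n (.g 2 543100) (.g 2 6543100) (.g 2 2543100)) (.b 1 7543)) (.b 0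
  743)))) (.n (.n (.n (.n (.n .e .e (.g 0 10000040)) (.n .e .e (.g 0 10500040)) (.n (.g 0 10000040)
  (.g 0 15000040) (.g 0 2100040))) (.n (.n .e .e (.g 0 10050040)) (.n (.g 0 50100040) (.g 0 65100040)
  (.g 2 54100060)) (.n (.g 0 20010040) (.g 0 25010040) (.g 2 45300060))) (.n (.n (.g 0 10000040) (.g 0
  15000040) (.g 0 2010040)) (.n (.g 0 20100040) (.g 0 25100040) (.g 2 34100060)) (.b 0 754))) (.n (.n
  (.n .e .e (.g 0 10005040)) (.n .e .e (.g 0 10605040)) (.n (.g 0 10005040) (.g 0 16005040) (.g 0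
  2105040))) (.n (.n (.g 0 50010040) (.g 0 65010040) (.g 2 54010060)) (.n (.g 0 50201040) (.g 0
  65201040) (.g 2 54201060)) (.n (.g 2 50430060) (.b 8 617543) (.g 2 45301060))) (.n (.n (.g 0
  20001040) (.g 0 25001040) (.g 2 45030060)) (.n (.g 0 30201040) (.g 0 35201040) (.g 2 34201060)) (.b
  0 754))) (.n (.n (.n (.g 0 10000040) (.g 0 15000040) (.g 0 2001040)) (.n (.g 0 10500040) (.g 0
  16500040) (.g 0 2501040)) (.n (.g 0 201040) (.g 0 5201040) (.g 0 3201040))) (.n (.n (.g 0 20010040)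
  (.g 0 25010040) (.g 2 34010060)) (.n (.g 2 10430060) (.b 8 617345) (.g 2 45103060)) (.b 1 7543)) (.b
  0 743))) (.n (.n (.n (.n .e .e (.g 0 10000540)) (.n .e .e (.g 0 10600540)) (.n (.g 0 10000540) (.g 0
  16000540) (.g 0 2100540))) (.n (.n .e .e (.g 0 10060540)) (.n (.g 0 60100540) (.b 9 762154) (.b 7
  217654)) (.n (.g 0 20010540) (.g 0 26010540) (.b 8 216754))) (.n (.n (.g 0 10000540) (.g 0 16000540)
  (.g 0 2010540)) (.n (.g 0 20100540) (.g 0 26100540) (.b 8 216745)) (.b 0 754))) (.n (.n (.n .e .e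
  (.g 0 10006540)) (.n .e .e (.b 9 532176)) (.n (.g 0 10006540) (.b 9 632175) (.g 0 2106540))) (.n (.n
  (.g 0 60010540) (.b 9 762143) (.b 7 217643)) (.n (.g 0 60201540) (.b 9 762143) (.b 7 217643)) (.b 8
  217543)) (.n (.n (.g 0 20001540) (.g 0 26001540) (.b 8 216743)) (.n (.g 0 30201540) (.g 0 36201540)
  (.b 8 216743)) (.b 0 754))) (.n (.n (.n (.g 0 10000540) (.g 0 16000540) (.g 0 2001540)) (.n (.g 0
  10600540) (.b 9 652173) (.g 0 2601540)) (.n (.g 0 201540) (.g 0 6201540) (.g 0 3201540))) (.n (.n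
  (.g 0 20010540) (.g 0 26010540) (.b 8 216734)) (.b 8 217345) (.b 1 7543)) (.b 0 743))) (.n (.n (.n
  (.n (.g 0 10000040) (.g 0 15000040) (.g 0 2000140)) (.n (.g 0 10500040) (.g 0 16500040) (.g 0
  2500140)) (.n (.g 0 200140) (.g 0 5200140) (.g 0 3200140))) (.n (.n (.g 0 10050040) (.g 0 16050040)
  (.g 0 2050140)) (.n (.g 2 10540060) (.b 7 615472) (.g 2 2540160)) (.n (.g 2 30450060) (.b 8 614572)
  (.g 2 2340160))) (.n (.n (.g 0 20140) (.g 0 5020140) (.g 0 3020140)) (.n (.g 2 30540060) (.b 8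
  615472) (.g 2 2430160)) (.b 0 754))) (.n (.n (.n (.g 0 10005040) (.g 0 16005040) (.g 0 2005140)) (.n
  (.g 0 10605040) (.b 9 653172) (.g 0 2605140)) (.n (.g 0 205140) (.g 0 6205140) (.g 0 3205140))) (.n
  (.n (.g 2 10054060) (.b 7 614372) (.g 2 2054160)) (.n (.g 2 50201460) (.b 7 614372) (.b 12 543672))
  (.n (.g 2 345160) (.b 7 614372) (.g 2 2345160))) (.n (.n (.g 2 30045060) (.b 8 613472) (.g 2
  2034160)) (.n (.g 2 30201460) (.b 8 613472) (.b 6 625374)) (.b 0 754))) (.n (.n (.n (.g 0 2140) (.g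
  0 5002140) (.g 0 3002140)) (.n (.g 0 502140) (.g 0 6502140) (.g 0 3502140)) (.n (.g 0 302140) (.g 0
  5302140) (.b 5 65327))) (.n (.n (.g 2 30054060) (.b 8 614372) (.g 2 2043160)) (.n (.g 2 543160) (.b
  7 615472) (.g 2 2543160)) (.b 1 7543)) (.b 0 743)))) (.n (.n (.n (.n (.n (.g 0 10000000) (.g 0
  14000000) (.g 0 2000010)) (.n (.g 0 10400000) (.g 0 15400000) (.g 0 2400010)) (.n (.g 0 200010) (.g
  0 4200010) (.g 0 3200010))) (.n (.n (.g 0 10040000) (.g 0 15040000) (.g 0 2040010)) (.n (.g 1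
  10540000) (.g 2 16540000) (.g 1 2540010)) (.n (.g 2 30450000) (.g 2 36450000) (.g 2 2340010))) (.n
  (.n (.g 0 20010) (.g 0 4020010) (.g 0 3020010)) (.n (.g 2 30540000) (.g 2 36540000) (.g 2 2430010))
  (.b 0 754))) (.n (.n (.n (.g 0 10004000) (.g 0 15004000) (.g 0 2004010)) (.n (.g 0 10504000) (.g 0
  16504000) (.g 0 2504010)) (.n (.g 0 204010) (.g 0 5204010) (.g 0 3204010))) (.n (.n (.g 1 10054000)
  (.g 2 16054000) (.g 1 2054010)) (.n (.g 1 50201040) (.g 2 56201040) (.b 12 543671)) (.n (.g 2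
  345010) (.g 2 6345010) (.g 2 2345010))) (.n (.n (.g 2 30045000) (.g 2 36045000) (.g 2 2034010)) (.n
  (.g 2 30201040) (.g 2 36201040) (.b 6 615374)) (.b 0 754))) (.n (.n (.n (.g 0 2010) (.g 0 4002010)
  (.g 0 3002010)) (.n (.g 0 402010) (.g 0 5402010) (.g 0 3402010)) (.n (.g 0 302010) (.g 0 4302010)
  (.b 5 65317))) (.n (.n (.g 2 30054000) (.g 2 36054000) (.g 2 2043010)) (.n (.g 2 543010) (.g 2
  6543010) (.g 2 2543010)) (.b 1 7543)) (.b 0 743))) (.n (.n (.n (.n (.g 0 10000400) (.g 0 15000400)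
  (.g 0 2000410)) (.n (.g 0 10500400) (.g 0 16500400) (.g 0 2500410)) (.n (.g 0 200410) (.g 0 5200410)
  (.g 0 3200410))) (.n (.n (.g 0 10050400) (.g 0 16050400) (.g 0 2050410)) (.n (.g 2 10540600) (.b 7
  625471) (.g 2 2540610)) (.n (.g 2 30450600) (.b 8 624571) (.g 2 2340610))) (.n (.n (.g 0 20410) (.g
  0 5020410) (.g 0 3020410)) (.n (.g 2 30540600) (.b 8 625471) (.g 2 2430610)) (.b 0 754))) (.n (.n
  (.n (.g 0 10005400) (.g 0 16005400) (.g 0 2005410)) (.n (.g 0 10605400) (.b 9 653271) (.g 0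
  2605410)) (.n (.g 0 205410) (.g 0 6205410) (.g 0 3205410))) (.n (.n (.g 2 10054600) (.b 7 624371)
  (.g 2 2054610)) (.n (.g 2 50201640) (.b 7 624371) (.b 12 543671)) (.n (.g 2 345610) (.b 7 624371)
  (.g 2 2345610))) (.n (.n (.g 2 30045600) (.b 8 623471) (.g 2 2034610)) (.n (.g 2 30201640) (.b 8
  623471) (.b 6 615374)) (.b 0 754))) (.n (.n (.n (.g 0 2410) (.g 0 5002410) (.g 0 3002410)) (.n (.g 0
  502410) (.g 0 6502410) (.g 0 3502410)) (.n (.g 0 302410) (.g 0 5302410) (.b 5 65317))) (.n (.n (.g 2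
  30054600) (.b 8 624371) (.g 2 2043610)) (.n (.g 2 543610) (.b 7 625471) (.g 2 2543610)) (.b 1 7543))
  (.b 0 743))) (.n (.n (.n (.n (.g 0 210) (.g 0 4000210) (.g 0 3000210)) (.n (.g 0 400210) (.g 0
  5400210) (.g 0 3400210)) (.n (.g 0 300210) (.g 0 4300210) (.b 5 65217))) (.n (.n (.g 0 40210) (.g 0
  5040210) (.g 0 3040210)) (.n (.g 1 540210) (.g 2 6540210) (.g 1 3540210)) (.n (.g 2 340210) (.g 2
  6340210) (.b 5 65217))) (.n (.n (.g 0 30210) (.g 0 4030210) (.b 5 64217)) (.n (.g 2 430210) (.g 2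
  6430210) (.b 5 64217)) (.b 0 754))) (.n (.n (.n (.g 0 4210) (.g 0 5004210) (.g 0 3004210)) (.n (.g 0
  504210) (.g 0 6504210) (.g 0 3504210)) (.n (.g 0 304210) (.g 0 5304210) (.b 5 65217))) (.n (.n (.g 1
  54210) (.g 2 6054210) (.g 1 3054210)) (.b 12 543271) (.n (.g 2 345210) (.g 2 6345210) (.b 5 65217)))
  (.n (.n (.g 2 34210) (.g 2 6034210) (.b 5 64217)) (.b 6 215374) (.b 0 754))) (.n (.n (.n (.g 0 3210)
  (.g 0 4003210) (.b 5 63217)) (.n (.g 0 403210) (.g 0 5403210) (.b 5 63217)) (.b 5 53217)) (.n (.n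
  (.g 2 43210) (.g 2 6043210) (.b 5 63217)) (.n (.g 2 543210) (.g 2 6543210) (.b 5 63217)) (.b 1
  7543)) (.b 0 743))))) (.n (.n (.n (.n (.n (.n .e .e (.g 0 10000004)) (.n .e .e (.g 0 10500004)) (.n
  (.g 0 10000004) (.g 0 15000004) (.g 0 2100004))) (.n (.n .e .e (.g 0 10050004)) (.n (.g 0 50100004)
  (.g 0 65100004) (.g 2 54100006)) (.n (.g 0 20010004) (.g 0 25010004) (.g 2 45300006))) (.n (.n (.g 0
  10000004) (.g 0 15000004) (.g 0 2010004)) (.n (.g 0 20100004) (.g 0 25100004) (.g 2 34100006)) (.b 0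
  754))) (.n (.n (.n (.g 0 40001000) (.g 0 54001000) (.g 1 54001000)) (.n (.g 0 50401000) (.g 0
  65401000) (.g 2 54601000)) (.n (.g 1 50401000) (.g 2 56401000) (.g 1 2105004))) (.n (.n (.g 0
  40020001) (.g 0 54020001) (.g 1 54020001)) (.n (.g 2 60543000) (.b 8 765430) (.b 11 543076)) (.n (.g
  2 50430001) (.g 2 56430001) (.b 4 675430))) (.n (.n (.g 2 50043000) (.g 2 56043000) (.g 2 45030001))
  (.n (.g 2 20103004) (.g 2 26103004) (.g 3 45102003)) (.b 0 754))) (.n (.n (.n (.g 0 20000001) (.g 0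
  24000001) (.g 2 45003000)) (.n (.g 0 20400001) (.g 0 25400001) (.g 2 45603000)) (.n (.g 2 40503000)
  (.g 2 46503000) (.g 2 2103004))) (.n (.n (.g 0 30020001) (.g 0 34020001) (.g 2 34020001)) (.n (.g 2
  20430001) (.g 2 26430001) (.g 3 45320001)) (.b 1 7543)) (.b 0 743))) (.n (.n (.n (.n (.g 0 40000100)
  (.g 0 54000100) (.g 1 54000100)) (.n (.g 0 50400100) (.g 0 65400100) (.g 2 54600100)) (.n (.g 1
  50400100) (.g 2 56400100) (.g 1 2100504))) (.n (.n (.g 0 50040100) (.g 0 65040100) (.g 2 54060100))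
  (.n (.g 2 60540100) (.b 7 765420) (.b 10 765420)) (.n (.g 1 20010504) (.g 2 26010504) (.b 11
  675420))) (.n (.n (.g 1 50040100) (.g 2 56040100) (.g 1 2010504)) (.n (.g 1 20100504) (.g 2
  26100504) (.b 11 674520)) (.b 0 754))) (.n (.n (.n (.g 0 40002100) (.g 0 54002100) (.g 1 54002100))
  (.n (.g 0 50402100) (.g 0 65402100) (.g 2 54602100)) (.n (.g 1 50402100) (.g 2 56402100) (.b 12
  675302))) (.n (.n (.g 2 60043100) (.b 8 764302) (.b 11 430276)) (.n (.g 2 60543100) (.b 7 765420)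
  (.b 10 765420)) (.b 4 754302)) (.n (.n (.g 2 50043100) (.g 2 56043100) (.b 4 674302)) (.n (.g 2
  20103504) (.g 2 26103504) (.b 4 674302)) (.b 0 754))) (.n (.n (.n (.g 2 40003100) (.g 2 46003100)
  (.g 2 45003100)) (.n (.g 2 40603100) (.b 8 657302) (.g 2 45603100)) (.n (.g 2 40503100) (.g 2
  46503100) (.g 2 2103504))) (.n (.n (.g 2 20010403) (.g 2 26010403) (.g 3 45010302)) (.n (.g 3
  10540302) (.b 7 765420) (.b 10 765420)) (.b 1 7543)) (.b 0 743))) (.n (.n (.n (.n (.g 0 20000001)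
  (.g 0 24000001) (.g 2 45000300)) (.n (.g 0 20400001) (.g 0 25400001) (.g 2 45600300)) (.n (.g 2
  40500300) (.g 2 46500300) (.g 2 2100304))) (.n (.n (.g 0 20040001) (.g 0 25040001) (.g 2 45060300))
  (.n (.g 1 20540001) (.g 2 26540001) (.b 11 672054)) (.n (.g 2 30450001) (.g 2 36450001) (.g 3
  1450203))) (.n (.n (.g 2 40050300) (.g 2 46050300) (.g 2 2010304)) (.n (.g 2 30540001) (.g 2
  36540001) (.g 3 1540203)) (.b 0 754))) (.n (.n (.n (.g 2 40001300) (.g 2 46001300) (.g 2 45001300))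
  (.n (.g 2 40601300) (.b 8 657203) (.g 2 45601300)) (.n (.g 2 40501300) (.g 2 46501300) (.g 2
  2105304))) (.n (.n (.g 2 10054003) (.g 2 16054003) (.b 4 672034)) (.b 4 720345) (.b 3 345720)) (.b 2
  34720)) (.b 1 3720))) (.n (.n (.n (.n (.n (.g 0 40000010) (.g 0 54000010) (.g 1 54000010)) (.n (.g 0
  50400010) (.g 0 65400010) (.g 2 54600010)) (.n (.g 1 50400010) (.g 2 56400010) (.g 1 2100054))) (.n
  (.n (.g 0 50040010) (.g 0 65040010) (.g 2 54060010)) (.n (.g 2 60540010) (.b 7 765410) (.b 10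
  765410)) (.n (.g 1 20010054) (.g 2 26010054) (.b 11 675410))) (.n (.n (.g 1 50040010) (.g 2
  56040010) (.g 1 2010054)) (.n (.g 1 20100054) (.g 2 26100054) (.b 11 674510)) (.b 0 754))) (.n (.n
  (.n (.g 0 40002010) (.g 0 54002010) (.g 1 54002010)) (.n (.g 0 50402010) (.g 0 65402010) (.g 2
  54602010)) (.n (.g 1 50402010) (.g 2 56402010) (.b 12 675301))) (.n (.n (.g 2 60043010) (.b 8
  764301) (.b 11 430176)) (.n (.g 2 60543010) (.b 7 765410) (.b 10 765410)) (.b 4 754301)) (.n (.n (.g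
  2 50043010) (.g 2 56043010) (.b 4 674301)) (.n (.g 2 20103054) (.g 2 26103054) (.b 4 674301)) (.b 0
  754))) (.n (.n (.n (.g 2 40003010) (.g 2 46003010) (.g 2 45003010)) (.n (.g 2 40603010) (.b 8
  657301) (.g 2 45603010)) (.n (.g 2 40503010) (.g 2 46503010) (.g 2 2103054))) (.n (.n (.g 2
  20010043) (.g 2 26010043) (.g 3 45010032)) (.n (.g 3 10540032) (.b 7 765410) (.b 10 765410)) (.b 1
  7543)) (.b 0 743))) (.n (.n (.n (.n (.g 0 40000210) (.g 0 54000210) (.g 1 54000210)) (.n (.g 0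
  50400210) (.g 0 65400210) (.g 2 54600210)) (.n (.g 1 50400210) (.g 2 56400210) (.b 12 675201))) (.n
  (.n (.g 0 50040210) (.g 0 65040210) (.g 2 54060210)) (.n (.g 2 60540210) (.b 7 765410) (.b 7
  217654)) (.b 12 754201)) (.n (.n (.g 1 50040210) (.g 2 56040210) (.b 12 674201)) (.b 12 745201) (.b
  0 754))) (.n (.n (.n (.g 0 40003210) (.g 0 54003210) (.g 1 54003210)) (.n (.g 0 50403210) (.g 0
  65403210) (.b 9 532176)) (.n (.g 1 50403210) (.b 9 632175) (.b 12 675201))) (.n (.n (.g 2 60043210)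
  (.b 8 764301) (.b 7 217643)) (.n (.g 2 60543210) (.b 7 765410) (.b 7 217643)) (.b 4 754301)) (.n (.n
  (.g 2 50043210) (.g 2 56043210) (.b 4 674301)) (.b 12 745201) (.b 0 754))) (.n (.n (.n (.g 2
  40003210) (.g 2 46003210) (.g 2 45003210)) (.n (.g 2 40603210) (.b 8 657301) (.g 2 45603210)) (.n
  (.g 2 40503210) (.g 2 46503210) (.b 12 675201))) (.b 6 742130) (.b 0 743))) (.n (.n (.n (.n (.g 2
  40000310) (.g 2 46000310) (.g 2 45000310)) (.n (.g 2 40600310) (.b 8 657201) (.g 2 45600310)) (.n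
  (.g 2 40500310) (.g 2 46500310) (.g 2 2100354))) (.n (.n (.g 2 40060310) (.b 8 647201) (.g 2
  45060310)) (.b 11 720154) (.b 4 457201)) (.n (.n (.g 2 40050310) (.g 2 46050310) (.g 2 2010354)) (.b
  4 547201) (.b 0 754))) (.n (.n (.n (.g 2 40002310) (.g 2 46002310) (.g 2 45002310)) (.n (.g 2
  40602310) (.b 8 657201) (.g 2 45602310)) (.n (.g 2 40502310) (.g 2 46502310) (.b 12 675301))) (.n
  (.n (.g 3 30054210) (.b 7 614372) (.b 4 672034)) (.b 4 720345) (.b 3 345720)) (.b 2 34720)) (.b 1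
  3720))) (.n (.n (.n (.n (.n (.g 0 20000001) (.g 0 24000001) (.g 2 45000030)) (.n (.g 0 20400001) (.g
  0 25400001) (.g 2 45600030)) (.n (.g 2 40500030) (.g 2 46500030) (.g 2 2100034))) (.n (.n (.g 0
  20040001) (.g 0 25040001) (.g 2 45060030)) (.n (.g 1 20540001) (.g 2 26540001) (.b 11 671054)) (.n
  (.g 2 30450001) (.g 2 36450001) (.g 3 1450023))) (.n (.n (.g 2 40050030) (.g 2 46050030) (.g 2
  2010034)) (.n (.g 2 30540001) (.g 2 36540001) (.g 3 1540023)) (.b 0 754))) (.n (.n (.n (.g 2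
  40001030) (.g 2 46001030) (.g 2 45001030)) (.n (.g 2 40601030) (.b 8 657103) (.g 2 45601030)) (.n
  (.g 2 40501030) (.g 2 46501030) (.g 2 2105034))) (.n (.n (.g 2 10054003) (.g 2 16054003) (.b 4
  671034)) (.b 4 710345) (.b 3 345710)) (.b 2 34710)) (.b 1 3710)) (.n (.n (.n (.n (.g 2 40000130) (.g
  2 46000130) (.g 2 45000130)) (.n (.g 2 40600130) (.b 8 657102) (.g 2 45600130)) (.n (.g 2 40500130)
  (.g 2 46500130) (.g 2 2100534))) (.n (.n (.g 2 40060130) (.b 8 647102) (.g 2 45060130)) (.b 11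
  710254) (.b 4 457102)) (.n (.n (.g 2 40050130) (.g 2 46050130) (.g 2 2010534)) (.b 4 547102) (.b 0
  754))) (.n (.n (.n (.g 2 40002130) (.g 2 46002130) (.g 2 45002130)) (.n (.g 2 40602130) (.b 8
  657102) (.g 2 45602130)) (.n (.g 2 40502130) (.g 2 46502130) (.b 12 675302))) (.n (.n (.g 3
  30054120) (.b 7 624371) (.b 4 671034)) (.b 4 710345) (.b 3 345710)) (.b 2 34710)) (.b 1 3710)) (.b 1
  2710))) (.n (.n (.n (.n (.n (.n (.g 0 10000000) (.g 0 14000000) (.g 0 2000001)) (.n (.g 0 10400000)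
  (.g 0 15400000) (.g 0 2400001)) (.n (.g 0 200001) (.g 0 4200001) (.g 0 3200001))) (.n (.n (.g 0
  10040000) (.g 0 15040000) (.g 0 2040001)) (.n (.g 1 10540000) (.g 2 16540000) (.g 1 2540001)) (.n
  (.g 2 30450000) (.g 2 36450000) (.g 2 2340001))) (.n (.n (.g 0 20001) (.g 0 4020001) (.g 0 3020001))
  (.n (.g 2 30540000) (.g 2 36540000) (.g 2 2430001)) (.b 0 754))) (.n (.n (.n (.g 0 20001000) (.g 0
  24001000) (.g 2 34001000)) (.n (.g 0 20401000) (.g 0 25401000) (.g 2 34601000)) (.n (.g 2 30401000)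
  (.g 2 36401000) (.g 2 2104003))) (.n (.n (.g 2 10043000) (.g 2 16043000) (.g 2 45010003)) (.n (.g 2
  10543000) (.g 2 16543000) (.b 4 670345)) (.b 2 75430)) (.b 1 7430)) (.b 0 730)) (.n (.n (.n (.n (.g
  0 20000100) (.g 0 24000100) (.g 2 34000100)) (.n (.g 0 20400100) (.g 0 25400100) (.g 2 34600100))
  (.n (.g 2 30400100) (.g 2 36400100) (.g 2 2100403))) (.n (.n (.g 0 20040100) (.g 0 25040100) (.g 2
  34060100)) (.n (.g 1 20540100) (.g 2 26540100) (.b 11 670254)) (.n (.g 2 30450100) (.g 2 36450100)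
  (.g 3 1450302))) (.n (.n (.g 2 30040100) (.g 2 36040100) (.g 2 2010403)) (.n (.g 2 30540100) (.g 2
  36540100) (.g 3 1540302)) (.b 0 754))) (.n (.n (.n (.g 0 30002100) (.g 0 34002100) (.g 2 34002100))
  (.n (.g 0 30402100) (.g 0 35402100) (.g 2 34602100)) (.n (.g 2 30402100) (.g 2 36402100) (.b 6
  653270))) (.n (.n (.g 2 20043100) (.g 2 26043100) (.g 3 45032100)) (.n (.g 2 20543100) (.g 2
  26543100) (.b 4 670345)) (.b 2 75430)) (.b 1 7430)) (.b 0 730)) (.b 0 720)) (.n (.n (.n (.n (.n (.g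
  0 20000010) (.g 0 24000010) (.g 2 34000010)) (.n (.g 0 20400010) (.g 0 25400010) (.g 2 34600010))
  (.n (.g 2 30400010) (.g 2 36400010) (.g 2 2100043))) (.n (.n (.g 0 20040010) (.g 0 25040010) (.g 2
  34060010)) (.n (.g 1 20540010) (.g 2 26540010) (.b 11 670154)) (.n (.g 2 30450010) (.g 2 36450010)
  (.g 3 1450032))) (.n (.n (.g 2 30040010) (.g 2 36040010) (.g 2 2010043)) (.n (.g 2 30540010) (.g 2
  36540010) (.g 3 1540032)) (.b 0 754))) (.n (.n (.n (.g 0 30002010) (.g 0 34002010) (.g 2 34002010))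
  (.n (.g 0 30402010) (.g 0 35402010) (.g 2 34602010)) (.n (.g 2 30402010) (.g 2 36402010) (.b 6
  653170))) (.n (.n (.g 2 20043010) (.g 2 26043010) (.g 3 45032010)) (.n (.g 2 20543010) (.g 2
  26543010) (.b 4 670345)) (.b 2 75430)) (.b 1 7430)) (.b 0 730)) (.n (.n (.n (.n (.g 0 30000210) (.g
  0 34000210) (.g 2 34000210)) (.n (.g 0 30400210) (.g 0 35400210) (.g 2 34600210)) (.n (.g 2
  30400210) (.g 2 36400210) (.b 6 652170))) (.n (.n (.g 0 30040210) (.g 0 35040210) (.g 2 34060210))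
  (.n (.g 1 30540210) (.b 9 762154) (.b 7 217654)) (.n (.g 2 30450210) (.g 2 36450210) (.b 6 652170)))
  (.n (.n (.g 2 30040210) (.g 2 36040210) (.b 6 642170)) (.n (.g 2 30540210) (.g 2 36540210) (.b 6
  642170)) (.b 0 754))) (.b 5 73210) (.b 0 730)) (.b 0 720)) (.b 0 710)))

theorem ok2 : chk [(0,1),(0,2),(0,3),(3,4),(4,5)] 7 0 (fun _ => 0) ct2 = true := by
  decide +kernel

def ct3 : Ct :=
  (.n (.n (.n (.n (.n (.n .e .e (.g 0 1000000)) (.n .e (.g 0 4100000) (.g 0 2010000)) (.n (.g 0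
  1000000) (.g 0 2100000) (.b 0 654))) (.n (.n .e .e (.g 0 1004000)) (.n .e (.g 0 5104000) (.g 0
  2014000)) (.n (.g 0 1004000) (.g 0 2104000) (.b 0 654))) (.n (.n (.g 0 1000000) (.g 0 1400000) (.g 0
  201000)) (.n (.g 0 1040000) (.g 1 1540000) (.g 2 3450000)) (.n (.g 0 21000) (.g 2 3540000) (.b 0
  654)))) (.n (.n (.n .e .e (.g 0 1000400)) (.n .e (.g 0 5100400) (.g 0 2010400)) (.n (.g 0 1000400)
  (.g 0 2100400) (.b 0 654))) (.n (.n (.g 0 4001000) (.g 0 5401000) (.g 1 5401000)) (.n (.g 0 5041000)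
  (.g 2 6541000) (.g 1 2015400)) (.n (.g 1 5041000) (.g 1 2105400) (.b 0 654))) (.n (.n (.g 0 2000100)
  (.g 0 2400100) (.g 2 4503000)) (.n (.g 0 2040100) (.g 1 2540100) (.g 2 3450100)) (.n (.g 2 4053000)
  (.g 2 3540100) (.b 0 654)))) (.n (.n (.n (.g 0 1000000) (.g 0 1400000) (.g 0 200100)) (.n (.g 0
  1040000) (.g 1 1540000) (.g 2 3450000)) (.n (.g 0 20100) (.g 2 3540000) (.b 0 654))) (.n (.n (.g 0
  2001000) (.g 0 2401000) (.g 2 3401000)) (.n (.g 0 2041000) (.g 1 2541000) (.g 2 3451000)) (.n (.g 2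
  3041000) (.g 2 3541000) (.b 0 654))) (.b 0 632))) (.n (.n (.n (.n .e .e (.g 0 1000040)) (.n .e (.g 0
  5100040) (.g 0 2010040)) (.n (.g 0 1000040) (.g 0 2100040) (.b 0 654))) (.n (.n .e .e (.g 0
  1005040)) (.n .e (.g 0 6105040) (.g 0 2015040)) (.n (.g 0 1005040) (.g 0 2105040) (.b 0 654))) (.n
  (.n (.g 0 1000040) (.g 0 1500040) (.g 0 201040)) (.n (.g 0 1050040) (.g 2 1540060) (.g 2 3450060))
  (.n (.g 0 21040) (.g 2 3540060) (.b 0 654)))) (.n (.n (.n .e .e (.g 0 1000540)) (.n .e (.g 0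
  6100540) (.g 0 2010540)) (.n (.g 0 1000540) (.g 0 2100540) (.b 0 654))) (.n (.n (.g 0 5001040) (.g 0
  6501040) (.g 2 5401060)) (.n (.g 0 6051040) (.b 7 615432) (.g 2 2015460)) (.n (.g 2 5041060) (.g 2
  2105460) (.b 0 654))) (.n (.n (.g 0 2000140) (.g 0 2500140) (.g 2 4503060)) (.n (.g 0 2050140) (.g 2
  2540160) (.g 2 3450160)) (.n (.g 2 4053060) (.g 2 3540160) (.b 0 654)))) (.n (.n (.n (.g 0 1000040)
  (.g 0 1500040) (.g 0 200140)) (.n (.g 0 1050040) (.g 2 1540060) (.g 2 3450060)) (.n (.g 0 20140) (.g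
  2 3540060) (.b 0 654))) (.n (.n (.g 0 2001040) (.g 0 2501040) (.g 2 3401060)) (.n (.g 0 2051040) (.g
  2 2541060) (.g 2 3451060)) (.n (.g 2 3041060) (.g 2 3541060) (.b 0 654))) (.b 0 632))) (.n (.n (.n
  (.n (.g 0 1000000) (.g 0 1400000) (.g 0 200010)) (.n (.g 0 1040000) (.g 1 1540000) (.g 2 3450000))
  (.n (.g 0 20010) (.g 2 3540000) (.b 0 654))) (.n (.n (.g 0 1004000) (.g 0 1504000) (.g 0 204010))
  (.n (.g 0 1054000) (.g 2 1546000) (.g 2 3456000)) (.n (.g 0 24010) (.g 2 3546000) (.b 0 654))) (.n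
  (.n (.g 0 2010) (.g 0 402010) (.g 0 302010)) (.n (.g 0 42010) (.g 1 542010) (.g 2 342010)) (.n (.g 0
  32010) (.g 2 432010) (.b 0 654)))) (.n (.n (.n (.g 0 1000400) (.g 0 1500400) (.g 0 200410)) (.n (.g
  0 1050400) (.g 2 1540600) (.g 2 3450600)) (.n (.g 0 20410) (.g 2 3540600) (.b 0 654))) (.n (.n (.g 1
  1005400) (.g 2 1605400) (.g 1 205410)) (.n (.g 2 1065400) (.b 10 543261) (.b 11 456132)) (.n (.g 1
  25410) (.b 11 546132) (.b 0 654))) (.n (.n (.g 2 3004500) (.g 2 3604500) (.g 2 203410)) (.n (.g 2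
  3064500) (.b 11 236154) (.g 3 452310)) (.n (.g 2 23410) (.g 3 542310) (.b 0 654)))) (.n (.n (.n (.g
  0 210) (.g 0 400210) (.g 0 300210)) (.n (.g 0 40210) (.g 1 540210) (.g 2 340210)) (.n (.g 0 30210)
  (.g 2 430210) (.b 0 654))) (.n (.n (.g 2 3005400) (.g 2 3605400) (.g 2 204310)) (.n (.g 2 3065400)
  (.b 11 326154) (.g 3 453210)) (.n (.g 2 24310) (.g 3 543210) (.b 0 654))) (.b 0 632)))) (.n (.n (.n
  (.n (.n .e .e (.g 0 1000004)) (.n (.g 0 4010000) (.g 0 4200001) (.g 2 5430000)) (.n (.g 0 2000001)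
  (.g 0 3200001) (.b 0 654))) (.n (.n .e .e (.g 0 1005004)) (.n (.g 0 5014000) (.g 0 5204001) (.g 2
  5436000)) (.n (.g 0 2004001) (.g 0 3204001) (.b 0 654))) (.n (.n (.g 0 1000004) (.g 0 1500004) (.g 0
  201004)) (.n (.g 1 5014000) (.g 1 5204001) (.g 2 4305001)) (.n (.g 2 4035000) (.g 2 3204001) (.b 0
  654)))) (.n (.n (.n (.g 0 4000100) (.g 0 5400100) (.g 1 5400100)) (.n (.g 0 4020100) (.g 2 6430100)
  (.g 2 5430100)) (.n (.g 2 4030100) (.g 2 2100403) (.b 0 654))) (.n (.n (.g 0 4002001) (.g 0 5402001)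
  (.g 1 5402001)) (.n (.g 2 6014300) (.g 2 6541003) (.b 4 654023)) (.n (.g 2 5041003) (.g 2 2105403)
  (.b 0 654))) (.n (.n (.g 2 5004300) (.g 2 5604300) (.g 2 4503001)) (.n (.g 2 5014300) (.b 4 632045)
  (.b 3 456320)) (.b 2 46320))) (.n (.n (.n (.g 0 2000001) (.g 0 2400001) (.g 2 4500300)) (.n (.g 2
  4010300) (.g 2 1540003) (.b 2 45620)) (.b 1 4620)) (.n (.n (.g 0 3002001) (.g 0 3402001) (.g 2
  3402001)) (.n (.g 2 2041003) (.g 2 2541003) (.b 2 45620)) (.b 1 4620)) (.b 0 632))) (.n (.n (.n (.n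
  (.g 0 4000010) (.g 0 5400010) (.g 1 5400010)) (.n (.g 0 4020010) (.g 2 6430010) (.g 2 5430010)) (.n
  (.g 2 4030010) (.g 2 2100043) (.b 0 654))) (.n (.n (.g 0 5004010) (.g 0 6504010) (.g 2 5406010)) (.n
  (.g 0 5024010) (.b 8 635401) (.g 2 5436010)) (.n (.g 2 4036010) (.g 2 2106043) (.b 0 654))) (.n (.n
  (.g 1 5004010) (.g 2 5604010) (.g 1 201054)) (.n (.g 1 5024010) (.b 11 540163) (.b 4 365401)) (.n
  (.g 2 4035010) (.g 3 4105032) (.b 0 654)))) (.n (.n (.n (.g 0 4000210) (.g 0 5400210) (.g 1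
  5400210)) (.n (.g 0 4030210) (.g 2 6430210) (.g 2 5430210)) (.n (.g 2 4030210) (.b 6 652140) (.b 0
  654))) (.n (.n (.g 2 6004310) (.b 8 653201) (.b 11 320165)) (.n (.g 2 6024310) (.b 7 615432) (.b 4
  654023)) (.n (.g 3 5043210) (.b 6 652140) (.b 0 654))) (.n (.n (.g 2 5004310) (.g 2 5604310) (.b 4
  563201)) (.n (.g 2 5024310) (.b 4 632045) (.b 3 456320)) (.b 2 46320))) (.n (.n (.n (.g 2 4000310)
  (.g 2 4600310) (.g 2 4500310)) (.n (.g 2 4020310) (.g 3 3540210) (.b 2 45620)) (.b 1 4620)) (.n (.n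
  (.g 2 2001043) (.g 2 2601043) (.g 3 4501032)) (.b 6 634120) (.b 1 4620)) (.b 0 632))) (.n (.n (.n
  (.n (.g 0 2000001) (.g 0 2400001) (.g 2 4500030)) (.n (.g 2 4010030) (.g 2 1540003) (.b 2 45610))
  (.b 1 4610)) (.n (.n (.g 0 2004001) (.g 0 2504001) (.g 2 4506030)) (.n (.g 2 4016030) (.g 2 1546003)
  (.b 2 45610)) (.b 1 4610)) (.n (.n (.g 2 4005030) (.g 2 4605030) (.g 2 201034)) (.n (.g 2 4015030)
  (.b 4 540163) (.b 2 45610)) (.b 1 4610))) (.n (.n (.n (.g 2 4000130) (.g 2 4600130) (.g 2 4500130))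
  (.n (.g 2 4020130) (.g 3 3540120) (.b 2 45610)) (.b 1 4610)) (.n (.n (.g 2 1005403) (.g 2 1605403)
  (.b 4 561023)) (.n (.g 3 3015420) (.b 10 543261) (.b 2 45610)) (.b 1 4610)) (.b 2 23610)) (.b 1
  2610))) (.n (.n (.n (.n (.n (.g 0 1000000) (.g 0 1400000) (.g 0 200001)) (.n (.g 0 2010000) (.g 2
  1430000) (.b 1 6540)) (.b 0 640)) (.n (.n (.g 0 1004000) (.g 0 1504000) (.g 0 204001)) (.n (.g 0
  2014000) (.g 2 1436000) (.b 1 6540)) (.b 0 640)) (.n (.n (.g 0 2001) (.g 0 402001) (.g 0 302001))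
  (.n (.g 2 3014000) (.g 2 541003) (.b 1 6540)) (.b 0 640))) (.n (.n (.n (.g 0 2000100) (.g 0 2400100)
  (.g 2 3400100)) (.n (.g 0 3020100) (.g 2 2430100) (.b 1 6540)) (.b 0 640)) (.n (.n (.g 2 1004300)
  (.g 2 1604300) (.g 2 4501003)) (.n (.g 2 2014300) (.g 3 1543200) (.b 1 6540)) (.b 0 640)) (.b 1
  6320)) (.b 0 620)) (.n (.n (.n (.n (.g 0 2000010) (.g 0 2400010) (.g 2 3400010)) (.n (.g 0 3020010)
  (.g 2 2430010) (.b 1 6540)) (.b 0 640)) (.n (.n (.g 0 2004010) (.g 0 2504010) (.g 2 3406010)) (.n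
  (.g 0 3024010) (.g 2 2436010) (.b 1 6540)) (.b 0 640)) (.n (.n (.g 2 3004010) (.g 2 3604010) (.g 2
  201043)) (.n (.g 2 3024010) (.g 3 2543010) (.b 1 6540)) (.b 0 640))) (.n (.n (.n (.g 0 3000210) (.g
  0 3400210) (.g 2 3400210)) (.b 5 64210) (.b 0 640)) (.n (.n (.g 2 2004310) (.g 2 2604310) (.g 3
  4503210)) (.b 5 64210) (.b 0 640)) (.b 1 6320)) (.b 0 620)) (.b 0 610)))

theorem ok3 : chk [(0,1),(0,2),(2,3),(0,4),(4,5)] 6 0 (fun _ => 0) ct3 = true := by
  decide +kernel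


theorem step_ext {n : ℕ} (H : SimpleGraph (Fin (n + 1))) (m : ℕ) (E : List (ℕ × ℕ)) (ct : Ct)
    (hct : chk E m 0 (fun _ => 0) ct = true)
    (hp : ∀ P ∈ pats, ¬ (gr P.1 P.2).IsIndContained H)
    (hH : (H.comap Fin.castSucc).IsIndContained (gr m E)) :
    H = ⊥ ∨ ∃ G ∈ goods, H.IsIndContained (gr G.1 G.2) := by
  obtain ⟨φ⟩ := hH
  let σ : ℕ → ℕ := fun i => if h : ∃ u : Fin n, (φ u : ℕ) = i then
    (if H.Adj (Fin.castSucc h.choose) (Fin.last n) then 2 else 1) else 0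
  let χ : Fin (n + 1) → ℕ := fun u => Fin.lastCases (motive := fun _ => ℕ) m (fun u => (φ u : ℕ)) u
  have χl : χ (Fin.last n) = m := by simp [χ]
  have χc : ∀ u : Fin n, χ (Fin.castSucc u) = (φ u : ℕ) := by intro u; simp [χ]
  have hφi : ∀ u v : Fin n, (φ u : ℕ) = (φ v : ℕ) → u = v := by
    intro u v h
    exact φ.injective (Fin.ext h)
  have hσu : ∀ u : Fin n, σ (φ u) = if H.Adj (Fin.castSucc u) (Fin.last n) then 2 else 1 := by
    intro u
    have h : ∃ v : Fin n, (φ v : ℕ) = (φ u : ℕ) := ⟨u, rfl⟩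
    have h2 : h.choose = u := hφi _ _ h.choose_spec
    show (if h : ∃ v : Fin n, (φ v : ℕ) = (φ u : ℕ) then
      (if H.Adj (Fin.castSucc h.choose) (Fin.last n) then 2 else 1) else 0) = _
    rw [dif_pos h, h2]
  have hσ0 : ∀ i, (¬ ∃ u : Fin n, (φ u : ℕ) = i) → σ i = 0 := by
    intro i hi
    show (if h : ∃ v : Fin n, (φ v : ℕ) = i then
      (if H.Adj (Fin.castSucc h.choose) (Fin.last n) then 2 else 1) else 0) = _
    rw [dif_neg hi]
  refine chk_sound H E m σ χ ?_ ?_ ?_ ?_ hp ct 0 (fun _ => 0) (Nat.zero_le _) (by simp) (by simp) hct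
  · intro u v huv
    induction u using Fin.lastCases with
    | last =>
      induction v using Fin.lastCases with
      | last => rfl
      | cast v =>
        rw [χl, χc] at huv
        have := (φ v).2
        omega
    | cast u =>
      induction v using Fin.lastCases with
      | last =>
        rw [χl, χc] at huv
        have := (φ u).2
        omega
      | cast v =>
        rw [χc, χc] at huv
        rw [hφi _ _ huv]
  · intro i
    rw [memX_iff]
    constructor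
    · rintro (h | ⟨h, h2⟩)
      · exact ⟨Fin.last n, by rw [χl, h]⟩
      · by_contra hcon
        apply h2
        apply hσ0
        rintro ⟨u, hu⟩
        exact hcon ⟨Fin.castSucc u, by rw [χc, hu]⟩
    · rintro ⟨u, hu⟩
      induction u using Fin.lastCases with
      | last => left; rw [← hu, χl]
      | cast u =>
        right
        rw [χc] at hu
        rw [← hu]
        refine ⟨(φ u).2, ?_⟩
        rw [hσu]
        split_ifs <;> simp
  · intro u v huv
    induction u using Fin.lastCases with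
    | last =>
      induction v using Fin.lastCases with
      | last => exact absurd rfl huv
      | cast v =>
        rw [χl, χc]
        have b1 : Nat.beq m m = true := by simp
        unfold adjX
        rw [b1, cond_true, hσu, SimpleGraph.adj_comm]
        split_ifs with h
        · simp [h]
        · simp [h]
    | cast u =>
      induction v using Fin.lastCases with
      | last =>
        rw [χl, χc]
        have b1 : Nat.beq m m = true := by simp
        have b2 : Nat.beq (φ u : ℕ) m = false := by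
          rw [← Bool.not_eq_true, Nat.beq_eq]
          exact ne_of_lt (φ u).2
        unfold adjX
        rw [b2, cond_false, b1, cond_true, hσu]
        split_ifs with h
        · simp [h]
        · simp [h]
      | cast v =>
        rw [χc, χc]
        have b1 : Nat.beq (φ v : ℕ) m = false := by
          rw [← Bool.not_eq_true, Nat.beq_eq]
          exact ne_of_lt (φ v).2
        have b2 : Nat.beq (φ u : ℕ) m = false := by
          rw [← Bool.not_eq_true, Nat.beq_eq]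
          exact ne_of_lt (φ u).2
        unfold adjX
        rw [b2, cond_false, b1, cond_false]
        have h1 : (gr m E).Adj (φ u) (φ v) ↔ (H.comap Fin.castSucc).Adj u v := φ.map_rel_iff
        rw [gr_adj] at h1
        rw [SimpleGraph.comap_adj] at h1
        have hne : φ u ≠ φ v := by
          intro h2
          apply huv
          rw [φ.injective h2]
        rw [← h1]
        exact ⟨fun h => h.2, fun h => ⟨hne, h⟩⟩
  · intro i _
    by_cases h : ∃ u : Fin n, (φ u : ℕ) = i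
    · obtain ⟨u, rfl⟩ := h
      rw [hσu]
      split_ifs <;> simp
    · left; exact hσ0 i h

theorem four {α : Type} [Fintype α] (p : α → Prop) [DecidablePred p]
    (h : 4 ≤ (Finset.univ.filter p).card) :
    ∃ e : Fin 4 → α, Function.Injective e ∧ ∀ i, p (e i) := by
  have h1 : Nonempty (Fin 4 ↪ {x // x ∈ Finset.univ.filter p}) := by
    apply Function.Embedding.nonempty_of_card_le
    rw [Fintype.card_fin, Fintype.card_coe]
    exact h
  obtain ⟨e⟩ := h1
  refine ⟨fun i => (e i).1, ?_, ?_⟩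
  · intro i j hij
    exact e.injective (Subtype.ext hij)
  · intro i
    exact (Finset.mem_filter.mp (e i).2).2

theorem ind_case {n : ℕ} (H : SimpleGraph (Fin (n + 1)))
    (hp : ∀ P ∈ pats, ¬ (gr P.1 P.2).IsIndContained H)
    (hH : H.comap Fin.castSucc = ⊥) :
    H = ⊥ ∨ ∃ G ∈ goods, H.IsIndContained (gr G.1 G.2) := by
  have hno : ∀ u v : Fin n, ¬ H.Adj (Fin.castSucc u) (Fin.castSucc v) := by
    intro u v h
    have : (H.comap Fin.castSucc).Adj u v := h
    rw [hH] at this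
    exact this
  rcases Nat.lt_or_ge n 7 with hn | hn
  · refine step_ext H 7 [(0,1),(0,2),(0,3)] ct0 ok0 hp ?_
    rw [hH]
    refine ⟨⟨⟨fun u => ⟨u.1 + 1, by omega⟩, ?_⟩, ?_⟩⟩
    · intro u v huv
      have := congrArg Fin.val huv
      simp only at this
      apply Fin.ext
      omega
    · intro u v
      show (gr 7 [(0,1),(0,2),(0,3)]).Adj _ _ ↔ _
      rw [gr_adj]
      simp [adjE, Nat.beq_eq]
  · by_cases h0 : ∃ w : Fin n, H.Adj (Fin.last n) (Fin.castSucc w)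
    · exfalso
      obtain ⟨w, hw⟩ := h0
      by_cases h4 : 4 ≤ (Finset.univ.filter fun u : Fin n => H.Adj (Fin.last n) (Fin.castSucc u)).card
      · obtain ⟨e, he, hee⟩ := four _ h4
        refine hp (5, [(0,1),(0,2),(0,3),(0,4)]) (by simp [pats]) ?_
        let f : Fin 5 → Fin (n + 1) := Fin.cons (Fin.last n) fun i => Fin.castSucc (e i)
        refine ⟨⟨⟨f, ?_⟩, ?_⟩⟩
        · intro i j hij
          induction i using Fin.cases with
          | zero =>
            induction j using Fin.cases with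
            | zero => rfl
            | succ j => 
              simp only [f, Fin.cons_zero, Fin.cons_succ] at hij
              exact absurd hij.symm (Fin.castSucc_lt_last _).ne
          | succ i =>
            induction j using Fin.cases with
            | zero =>
              simp only [f, Fin.cons_zero, Fin.cons_succ] at hij
              exact absurd hij (Fin.castSucc_lt_last _).ne
            | succ j =>
              simp only [f, Fin.cons_succ] at hij
              rw [he (Fin.castSucc_injective n hij)]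
        · intro i j
          show H.Adj (f i) (f j) ↔ _
          induction i using Fin.cases with
          | zero =>
            induction j using Fin.cases with
            | zero => simp
            | succ j =>
              simp only [f, Fin.cons_zero, Fin.cons_succ]
              simp only [hee j, true_iff]
              rw [gr_adj]
              fin_cases j <;> decide
          | succ i =>
            induction j using Fin.cases with
            | zero =>
              simp only [f, Fin.cons_zero, Fin.cons_succ]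
              rw [SimpleGraph.adj_comm]
              simp only [hee i, true_iff]
              rw [gr_adj]
              fin_cases i <;> decide
            | succ j =>
              simp only [f, Fin.cons_succ]
              simp only [hno, false_iff]
              rw [gr_adj]
              fin_cases i <;> fin_cases j <;> decide
      · have h5 : 4 ≤ (Finset.univ.filter fun u : Fin n => ¬ H.Adj (Fin.last n) (Fin.castSucc u)).card := by
          have := Finset.card_filter_add_card_filter_not (s := (Finset.univ : Finset (Fin n)))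
            (fun u : Fin n => H.Adj (Fin.last n) (Fin.castSucc u))
          rw [Finset.card_univ, Fintype.card_fin] at this
          omega
        obtain ⟨e, he, hee⟩ := four _ h5
        refine hp (6, [(0,1)]) (by simp [pats]) ?_
        let f : Fin 6 → Fin (n + 1) :=
          Fin.cons (Fin.last n) (Fin.cons (Fin.castSucc w) fun i => Fin.castSucc (e i))
        have f0 : f 0 = Fin.last n := rfl
        have f1 : f 1 = Fin.castSucc w := rfl
        have f2 : ∀ i : Fin 4, f i.succ.succ = Fin.castSucc (e i) := fun i => rfl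
        have hwe : ∀ i, e i ≠ w := by
          intro i h
          exact hee i (by rw [h]; exact hw)
        have hcl : ∀ u : Fin n, Fin.castSucc u ≠ Fin.last n := fun u => (Fin.castSucc_lt_last _).ne
        have hci : ∀ u v : Fin n, Fin.castSucc u = Fin.castSucc v ↔ u = v :=
          fun u v => ⟨fun h => Fin.castSucc_injective n h, fun h => by rw [h]⟩
        have cases6 : ∀ i : Fin 6, i = 0 ∨ i = 1 ∨ ∃ j : Fin 4, i = j.succ.succ := by
          intro i
          induction i using Fin.cases with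
          | zero => left; rfl
          | succ i =>
            right
            induction i using Fin.cases with
            | zero => left; rfl
            | succ i => right; exact ⟨i, rfl⟩
        refine ⟨⟨⟨f, ?_⟩, ?_⟩⟩
        · intro i j hij
          rcases cases6 i with rfl | rfl | ⟨i, rfl⟩ <;> rcases cases6 j with rfl | rfl | ⟨j, rfl⟩
          · rfl
          · rw [f0, f1] at hij; exact absurd hij.symm (hcl _)
          · rw [f0, f2] at hij; exact absurd hij.symm (hcl _)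
          · rw [f0, f1] at hij; exact absurd hij (hcl _)
          · rfl
          · rw [f1, f2, hci] at hij; exact absurd hij.symm (hwe _)
          · rw [f0, f2] at hij; exact absurd hij (hcl _)
          · rw [f1, f2, hci] at hij; exact absurd hij (hwe _)
          · rw [f2, f2, hci] at hij; rw [he hij]
        · intro i j
          show H.Adj (f i) (f j) ↔ (gr 6 [(0,1)]).Adj i j
          rw [gr_adj]
          rcases cases6 i with rfl | rfl | ⟨i, rfl⟩ <;> rcases cases6 j with rfl | rfl | ⟨j, rfl⟩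
          · simp
          · rw [f0, f1]; simp only [hw, true_iff]; decide
          · rw [f0, f2]; simp only [hee, false_iff]; fin_cases j <;> decide
          · rw [f0, f1, SimpleGraph.adj_comm]; simp only [hw, true_iff]; decide
          · simp
          · rw [f1, f2]; simp only [hno, false_iff]; fin_cases j <;> decide
          · rw [f0, f2, SimpleGraph.adj_comm]; simp only [hee, false_iff]; fin_cases i <;> decide
          · rw [f1, f2]; simp only [hno, false_iff]; fin_cases i <;> decide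
          · rw [f2, f2]; simp only [hno, false_iff]; fin_cases i <;> fin_cases j <;> decide
    · left
      push Not at h0
      ext u v
      simp only [SimpleGraph.bot_adj, iff_false]
      induction u using Fin.lastCases with
      | last =>
        induction v using Fin.lastCases with
        | last => exact H.irrefl
        | cast v => exact h0 v
      | cast u =>
        induction v using Fin.lastCases with
        | last => rw [SimpleGraph.adj_comm]; exact h0 u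
        | cast v => exact hno u v

theorem main_cl : ∀ {n : ℕ} (H : SimpleGraph (Fin n))
    (_ : ∀ P ∈ pats, ¬ (gr P.1 P.2).IsIndContained H),
    H = ⊥ ∨ ∃ G ∈ goods, H.IsIndContained (gr G.1 G.2) := by
  intro n
  induction n with
  | zero =>
    intro H _
    left
    exact Subsingleton.elim _ _
  | succ n ih =>
    intro H hp
    have hemb : (H.comap Fin.castSucc).IsIndContained H :=
      ⟨SimpleGraph.Embedding.comap ⟨Fin.castSucc, Fin.castSucc_injective n⟩ H⟩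
    have hp' : ∀ P ∈ pats, ¬ (gr P.1 P.2).IsIndContained (H.comap Fin.castSucc) :=
      fun P hP hc => hp P hP (hc.trans hemb)
    rcases ih _ hp' with h | ⟨G, hG, h⟩
    · exact ind_case H hp h
    · simp only [goods, List.mem_cons, List.not_mem_nil, or_false] at hG
      rcases hG with rfl | rfl | rfl | rfl
      · exact step_ext H _ _ ct0 ok0 hp h
      · exact step_ext H _ _ ct1 ok1 hp h
      · exact step_ext H _ _ ct2 ok2 hp h
      · exact step_ext H _ _ ct3 ok3 hp h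

theorem classification {n : ℕ} (H : SimpleGraph (Fin n))
    (h1 : ¬ C3.IsIndContained H) (h2 : ¬ C4.IsIndContained H) (h3 : ¬ C5.IsIndContained H)
    (h4 : ¬ C6.IsIndContained H) (h5 : ¬ P6.IsIndContained H) (h6 : ¬ K14.IsIndContained H)
    (h7 : ¬ DS.IsIndContained H) (h8 : ¬ F2P1_2P2.IsIndContained H)
    (h9 : ¬ F2P1_P4.IsIndContained H) (h10 : ¬ F4P1_P2.IsIndContained H)
    (h11 : ¬ F3P2.IsIndContained H) (h12 : ¬ FP2_P4.IsIndContained H)
    (h13 : ¬ F2P3.IsIndContained H) :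
    H = ⊥ ∨ H.IsIndContained K13_3P1 ∨ H.IsIndContained K13_P2 ∨ H.IsIndContained P1_S113 ∨
      H.IsIndContained S122 := by
  have hp : ∀ P ∈ pats, ¬ (gr P.1 P.2).IsIndContained H := by
    intro P hP
    simp only [pats, List.mem_cons, List.not_mem_nil, or_false] at hP
    rcases hP with rfl | rfl | rfl | rfl | rfl | rfl | rfl | rfl | rfl | rfl | rfl | rfl | rfl
    · exact h1
    · exact h2
    · exact h3
    · exact h4
    · exact h5
    · exact h6
    · exact h7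
    · exact h8
    · exact h9
    · exact h10
    · exact h11
    · exact h12
    · exact h13
  rcases main_cl H hp with h | ⟨G, hG, h⟩
  · exact Or.inl h
  · right
    simp only [goods, List.mem_cons, List.not_mem_nil, or_false] at hG
    rcases hG with rfl | rfl | rfl | rfl
    · exact Or.inl h
    · exact Or.inr (Or.inl h)
    · exact Or.inr (Or.inr (Or.inl h))
    · exact Or.inr (Or.inr (Or.inr h))

end Pool.Agent.Helper856.Lcw.Classif
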