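import Pool.Agent.Helper856.Lcw.GBase

open Classical SimpleGraph

namespace Pool.Agent.Helper856.Lcw.GA

theorem exists_bound {V : Type} [Finite V] (p : V → ℕ) : ∃ M, ∀ v, p v < M := by
  have : Fintype V := Fintype.ofFinite V
  refine ⟨Finset.univ.sup p + 1, fun v => ?_⟩
  have := Finset.le_sup (f := p) (Finset.mem_univ v)
  omega

theorem strong {k : ℕ} {V : Type} {G : SimpleGraph V} {l : V → Fin k} (h : LinBuilt k V G l) :
    Finite V ∧ ∃ p : V → ℕ, Function.Injective p ∧ ∀ t : ℕ, ∃ c : V → Fin k,
      ∀ u v, p u < t → p v < t → c u = c v →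
        (∀ w, t ≤ p w → (G.Adj u w ↔ G.Adj v w)) ∧ l u = l v := by
  induction h with
  | single i =>
    refine ⟨inferInstance, fun _ => 0, fun _ _ _ => rfl, fun t => ⟨fun _ => i, ?_⟩⟩
    intro u v _ _ _
    exact ⟨fun w _ => Iff.rfl, rfl⟩
  | union V W G H l m hcard hG hH ihG ihH =>
    obtain ⟨finV, p, hp, hpc⟩ := ihG
    obtain ⟨finW, q, hq, hqc⟩ := ihH
    refine ⟨inferInstance, ?_⟩
    rcases hcard with h1 | h1
    · -- V has one vertex, put it last
      have hsub : Subsingleton V := (Nat.card_eq_one_iff_unique.1 h1).1
      obtain ⟨M, hM⟩ := exists_bound q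
      refine ⟨Sum.elim (fun _ => M) q, ?_, ?_⟩
      · rintro (a | a) (b | b) hab
        · rw [Subsingleton.elim a b]
        · have : M = q b := hab
          have := hM b
          omega
        · have : q a = M := hab
          have := hM a
          omega
        · have : q a = q b := hab
          rw [hq this]
      · intro t
        by_cases ht : t ≤ M
        · obtain ⟨c, hc⟩ := hqc t
          refine ⟨Sum.elim l c, ?_⟩
          rintro (u | u) (v | v) hu hv hcc
          · have : M < t := hu
            omega
          · have : M < t := hu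
            omega
          · have : M < t := hv
            omega
          · obtain ⟨a1, a2⟩ := hc u v hu hv hcc
            refine ⟨?_, a2⟩
            rintro (w | w) hw
            · exact Iff.rfl
            · exact a1 w hw
        · refine ⟨Sum.elim l m, ?_⟩
          intro u v hu hv hcc
          refine ⟨?_, hcc⟩
          rintro (w | w) hw
          · have : t ≤ M := hw
            omega
          · have : t ≤ q w := hw
            have := hM w
            omega
    · have hsub : Subsingleton W := (Nat.card_eq_one_iff_unique.1 h1).1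
      obtain ⟨M, hM⟩ := exists_bound p
      refine ⟨Sum.elim p (fun _ => M), ?_, ?_⟩
      · rintro (a | a) (b | b) hab
        · have : p a = p b := hab
          rw [hp this]
        · have : p a = M := hab
          have := hM a
          omega
        · have : M = p b := hab
          have := hM b
          omega
        · rw [Subsingleton.elim a b]
      · intro t
        by_cases ht : t ≤ M
        · obtain ⟨c, hc⟩ := hpc t
          refine ⟨Sum.elim c m, ?_⟩
          rintro (u | u) (v | v) hu hv hcc
          · obtain ⟨a1, a2⟩ := hc u v hu hv hcc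
            refine ⟨?_, a2⟩
            rintro (w | w) hw
            · exact a1 w hw
            · exact Iff.rfl
          · have : M < t := hv
            omega
          · have : M < t := hu
            omega
          · have : M < t := hu
            omega
        · refine ⟨Sum.elim l m, ?_⟩
          intro u v hu hv hcc
          refine ⟨?_, hcc⟩
          rintro (w | w) hw
          · have : t ≤ p w := hw
            have := hM w
            omega
          · have : t ≤ M := hw
            omega
  | join V G l i j hij hG ih =>
    obtain ⟨finV, p, hp, hpc⟩ := ih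
    refine ⟨finV, p, hp, fun t => ?_⟩
    obtain ⟨c, hc⟩ := hpc t
    refine ⟨c, fun u v hu hv hcc => ?_⟩
    obtain ⟨a1, a2⟩ := hc u v hu hv hcc
    refine ⟨fun w hw => ?_, a2⟩
    have huw : u ≠ w := by
      intro h; rw [h] at hu; omega
    have hvw : v ≠ w := by
      intro h; rw [h] at hv; omega
    rw [SimpleGraph.sup_adj, SimpleGraph.sup_adj, SimpleGraph.fromRel_adj,
      SimpleGraph.fromRel_adj, a1 w hw, a2]
    simp only [ne_eq, huw, hvw, not_false_eq_true, true_and]
  | relabel V G l i j hG ih =>
    obtain ⟨finV, p, hp, hpc⟩ := ih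
    refine ⟨finV, p, hp, fun t => ?_⟩
    obtain ⟨c, hc⟩ := hpc t
    refine ⟨c, fun u v hu hv hcc => ?_⟩
    obtain ⟨a1, a2⟩ := hc u v hu hv hcc
    refine ⟨a1, ?_⟩
    simp only [a2]

theorem GLin_of_lcwLE {V : Type} [Finite V] (G : SimpleGraph V) (k : ℕ) (h : LcwLE G k) :
    GLin k G := by
  obtain ⟨W, G', l, hb, ⟨e⟩⟩ := h
  obtain ⟨-, p, hp, hpc⟩ := strong hb
  refine ⟨fun v => p (e v), fun a b hab => e.injective (hp hab), fun t => ?_⟩
  obtain ⟨c, hc⟩ := hpc t
  refine ⟨fun v => c (e v), fun u v hu hv hcc w hw => ?_⟩
  have := (hc (e u) (e v) hu hv hcc).1 (e w) hw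
  rw [← e.map_adj_iff (v := u) (w := w), ← e.map_adj_iff (v := v) (w := w)]
  exact this

end Pool.Agent.Helper856.Lcw.GA
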