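import Pool.Agent.Helper856.Lcw.Base
import Pool.Agent.Helper856.Lcw.PathL

open Classical SimpleGraph

namespace Pool.Agent.Helper856.Lcw.K13L

open PathL

variable {α β : Type} {E E' : α → β → Prop} {A A' : Finset α} {B B' : Finset β} {k l : ℕ}

theorem dd_inj (S : Finset α) {m : ℕ} (hm : 0 < m) (hS : S.card ≤ m) :
    ∃ γ : α → Fin m, ∀ a ∈ S, ∀ a' ∈ S, γ a = γ a' → a = a' := by
  refine ⟨fun a => if h : a ∈ S then Fin.castLE hS (S.equivFin ⟨a, h⟩) else ⟨0, hm⟩, ?_⟩
  intro a ha a' ha' h
  simp only [ha, ha', dif_pos] at h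
  have h1 := Fin.castLE_injective hS h
  have h2 := S.equivFin.injective h1
  exact congrArg Subtype.val h2

theorem dd_empty : BLin 1 E ∅ B := by
  refine ⟨fun _ => 0, fun _ => 1, by simp, fun t => ⟨⟨fun _ => 0, by simp⟩, ⟨fun _ => 0, by simp⟩⟩⟩

theorem dd_small {m : ℕ} (hm : 0 < m) (S : Finset α) (hS : S.card ≤ m)
    (h : BLin k E (A \ S) B) : BLin (k + m) E A B := by
  obtain ⟨γ, hγ⟩ := dd_inj S hm hS
  exact BLin.first S γ (fun a ha a' ha' h' b _ => by rw [hγ a ha a' ha' h']) h

theorem dd_small' {m : ℕ} (hm : 0 < m) (S : Finset β) (hS : S.card ≤ m)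
    (h : BLin k E A (B \ S)) : BLin (k + m) E A B :=
  (dd_small hm S hS h.swap).swap

theorem dd_count (X : Finset α) (Y : Finset β) (hX : X ⊆ A) (hY : Y ⊆ B)
    (h1 : ∀ a ∈ X, (B.filter (fun b => E a b)).card ≤ 2)
    (h2 : ∀ b ∈ Y, (A.filter (fun a => ¬ E a b)).card ≤ 2) : X.card ≤ 4 ∨ Y.card ≤ 4 := by
  have e1 : ((X ×ˢ Y).filter (fun p => E p.1 p.2)).card ≤ 2 * X.card := by
    rw [Finset.card_filter, Finset.sum_product]
    calc ∑ x ∈ X, ∑ y ∈ Y, (if E x y then 1 else 0) ≤ ∑ x ∈ X, 2 := by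
          apply Finset.sum_le_sum
          intro x hx
          rw [← Finset.card_filter]
          refine le_trans (Finset.card_le_card ?_) (h1 x hx)
          exact Finset.filter_subset_filter _ hY
      _ = 2 * X.card := by simp [mul_comm]
  have e2 : ((X ×ˢ Y).filter (fun p => ¬ E p.1 p.2)).card ≤ 2 * Y.card := by
    rw [Finset.card_filter, Finset.sum_product_right]
    calc ∑ y ∈ Y, ∑ x ∈ X, (if ¬ E x y then 1 else 0) ≤ ∑ y ∈ Y, 2 := by
          apply Finset.sum_le_sum
          intro y hy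
          rw [← Finset.card_filter]
          refine le_trans (Finset.card_le_card ?_) (h2 y hy)
          exact Finset.filter_subset_filter _ hX
      _ = 2 * Y.card := by simp [mul_comm]
  have e3 := Finset.card_filter_add_card_filter_not (s := X ×ˢ Y) (fun p => E p.1 p.2)
  rw [Finset.card_product] at e3
  by_contra hcon
  push Not at hcon
  obtain ⟨hx, hy⟩ := hcon
  have hx' : 5 ≤ X.card := hx
  have hy' : 5 ≤ Y.card := hy
  nlinarith

/-- TARGET -/
theorem K13_3P1_lemma
    (hA : ∀ a ∈ A, (B.filter (fun b => E a b)).card ≤ 2 ∨ (B.filter (fun b => ¬ E a b)).card ≤ 2)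
    (hB : ∀ b ∈ B, (A.filter (fun a => E a b)).card ≤ 2 ∨ (A.filter (fun a => ¬ E a b)).card ≤ 2) :
    BLin 20 E A B := by
  set Al : Finset α := A.filter (fun a => (B.filter (fun b => E a b)).card ≤ 2) with hAl
  set Bl : Finset β := B.filter (fun b => (A.filter (fun a => E a b)).card ≤ 2) with hBl
  set Ah : Finset α := A.filter (fun a => ¬ (B.filter (fun b => E a b)).card ≤ 2) with hAh
  set Bh : Finset β := B.filter (fun b => ¬ (A.filter (fun a => E a b)).card ≤ 2) with hBh
  have hAl1 : ∀ a ∈ Al, (B.filter (fun b => E a b)).card ≤ 2 := fun a ha =>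
    (Finset.mem_filter.1 ha).2
  have hBl1 : ∀ b ∈ Bl, (A.filter (fun a => E a b)).card ≤ 2 := fun b hb =>
    (Finset.mem_filter.1 hb).2
  have hAh1 : ∀ a ∈ Ah, (B.filter (fun b => ¬ E a b)).card ≤ 2 := fun a ha =>
    (hA a (Finset.mem_filter.1 ha).1).resolve_left (Finset.mem_filter.1 ha).2
  have hBh1 : ∀ b ∈ Bh, (A.filter (fun a => ¬ E a b)).card ≤ 2 := fun b hb =>
    (hB b (Finset.mem_filter.1 hb).1).resolve_left (Finset.mem_filter.1 hb).2
  have hAs : A \ Al = Ah := by
    ext a; simp [hAl, hAh]; tauto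
  have hAs' : A \ Ah = Al := by
    ext a; simp [hAl, hAh]; tauto
  have hBs : B \ Bl = Bh := by
    ext a; simp [hBl, hBh]; tauto
  have hBs' : B \ Bh = Bl := by
    ext a; simp [hBl, hBh]; tauto
  have hcA : Al.card + Ah.card = A.card := Finset.card_filter_add_card_filter_not _
  have hcB : Bl.card + Bh.card = B.card := Finset.card_filter_add_card_filter_not _
  have c1 : Al.card ≤ 4 ∨ Bh.card ≤ 4 :=
    dd_count Al Bh (Finset.filter_subset _ _) (Finset.filter_subset _ _) hAl1 hBh1
  have c2 : Bl.card ≤ 4 ∨ Ah.card ≤ 4 :=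
    dd_count (E := fun b a => E a b) Bl Ah (Finset.filter_subset _ _) (Finset.filter_subset _ _)
      hBl1 hAh1
  rcases c1 with c1 | c1 <;> rcases c2 with c2 | c2
  · -- Al, Bl small
    have h0 : BLin 3 E (A \ Al) (B \ Bl) := by
      rw [hAs, hBs]
      apply BLin.of_compl
      apply path_lemma
      · intro a ha
        refine le_trans (Finset.card_le_card ?_) (hAh1 a ha)
        intro x hx
        have hx1 := (@Finset.mem_filter _ _ (_) _ _).1 hx
        exact (@Finset.mem_filter _ _ (_) _ _).2 ⟨(@Finset.mem_filter _ _ (_) _ _).1 hx1.1 |>.1, hx1.2⟩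
      · intro b hb
        refine le_trans (Finset.card_le_card ?_) (hBh1 b hb)
        intro x hx
        have hx1 := (@Finset.mem_filter _ _ (_) _ _).1 hx
        exact (@Finset.mem_filter _ _ (_) _ _).2 ⟨(@Finset.mem_filter _ _ (_) _ _).1 hx1.1 |>.1, hx1.2⟩
    exact (dd_small (by norm_num) Al c1 (dd_small' (by norm_num) Bl c2 h0)).mono_k (by norm_num)
  · -- Al, Ah small
    have h0 : BLin 1 E (A \ A) B := by
      rw [Finset.sdiff_self]; exact dd_empty
    exact (dd_small (m := 8) (by norm_num) A (by omega) h0).mono_k (by norm_num)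
  · -- Bh, Bl small
    have h0 : BLin 1 (fun b a => E a b) (B \ B) A := by
      rw [Finset.sdiff_self]; exact dd_empty
    exact ((dd_small (m := 8) (by norm_num) B (by omega) h0).mono_k (by norm_num)).swap
  · -- Bh, Ah small
    have h0 : BLin 3 E (A \ Ah) (B \ Bh) := by
      rw [hAs', hBs']
      apply path_lemma
      · intro a ha
        exact le_trans (Finset.card_le_card (Finset.filter_subset_filter _
          (Finset.filter_subset _ _))) (hAl1 a ha)
      · intro b hb
        exact le_trans (Finset.card_le_card (Finset.filter_subset_filter _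
          (Finset.filter_subset _ _))) (hBl1 b hb)
    exact (dd_small (by norm_num) Ah c2 (dd_small' (by norm_num) Bh c1 h0)).mono_k (by norm_num)

end Pool.Agent.Helper856.Lcw.K13L
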