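import Pool.Agent.Helper856.Lcw.Base
import Pool.Agent.Helper856.Lcw.PathL

open Classical SimpleGraph

namespace Pool.Agent.Helper856.Lcw.CountL

open PathL

variable {α β : Type} {E E' : α → β → Prop} {A A' : Finset α} {B B' : Finset β} {k l : ℕ}

theorem exists_inj {γ : Type} (S : Finset γ) {m : ℕ} (hm : 0 < m) (h : S.card ≤ m) :
    ∃ c : γ → Fin m, ∀ a ∈ S, ∀ a' ∈ S, c a = c a' → a = a' := by
  refine ⟨fun a => if ha : a ∈ S then Fin.castLE h (S.equivFin ⟨a, ha⟩) else ⟨0, hm⟩, ?_⟩
  intro a ha a' ha' heq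
  simp only [ha, ha', dif_pos] at heq
  have := S.equivFin.injective (Fin.castLE_injective h heq)
  exact congrArg Subtype.val this

theorem triv (k : ℕ) (hk : 0 < k) (A : Finset α) (hA : A = ∅) (B : Finset β) : BLin k E A B := by
  subst hA
  refine ⟨fun _ => 1, fun _ => 0, by simp, fun t => ⟨⟨fun _ => ⟨0, hk⟩, by simp⟩,
    ⟨fun _ => ⟨0, hk⟩, by simp⟩⟩⟩

/-- pairwise differences have size at most two -/
def Two {α β : Type} (E : α → β → Prop) (A : Finset α) (B : Finset β) : Prop :=
  ∀ b ∈ B, ∀ b' ∈ B, (A.filter (fun a => E a b ∧ ¬ E a b')).card ≤ 2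

theorem low_two (hn : 0 < B.card)
    (hB : Two E A B) :
    ∀ b ∈ B, (A.filter (fun a => 6 * (B.filter (fun b => E a b)).card ≤ B.card ∧ E a b)).card ≤ 2 := by
  intro b hb
  by_contra hcon
  push Not at hcon
  obtain ⟨a1, h1, a2, h2, a3, h3, h12, h13, h23⟩ := Finset.two_lt_card.1 hcon
  simp only [Finset.mem_filter] at h1 h2 h3
  have hU : (B.filter (fun b => E a1 b) ∪ B.filter (fun b => E a2 b) ∪
      B.filter (fun b => E a3 b)).card < B.card := by
    have u1 := Finset.card_union_le (B.filter (fun b => E a1 b) ∪ B.filter (fun b => E a2 b))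
      (B.filter (fun b => E a3 b))
    have u2 := Finset.card_union_le (B.filter (fun b => E a1 b)) (B.filter (fun b => E a2 b))
    have := h1.2.1; have := h2.2.1; have := h3.2.1
    omega
  obtain ⟨b', hb', hnb⟩ := Finset.exists_mem_notMem_of_card_lt_card hU
  simp only [Finset.mem_union, Finset.mem_filter, not_or, not_and] at hnb
  have n1 := hnb.1.1 hb'
  have n2 := hnb.1.2 hb'
  have n3 := hnb.2 hb'
  have := hB b hb b' hb'
  have h3c : 2 < (A.filter (fun a => E a b ∧ ¬ E a b')).card := by
    refine Finset.two_lt_card.2 ⟨a1, ?_, a2, ?_, a3, ?_, h12, h13, h23⟩ <;>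
      simp only [Finset.mem_filter]
    · exact ⟨h1.1, h1.2.2, n1⟩
    · exact ⟨h2.1, h2.2.2, n2⟩
    · exact ⟨h3.1, h3.2.2, n3⟩
  omega

theorem low_thick (hn : 0 < B.card)
    (hB : Two E A B)
    (hA : Star E A B) :
    (A.filter (fun a => 6 * (B.filter (fun b => E a b)).card ≤ B.card ∧
      3 ≤ (B.filter (fun b => E a b)).card)).card ≤ 6 := by
  set LT := A.filter (fun a => 6 * (B.filter (fun b => E a b)).card ≤ B.card ∧
      3 ≤ (B.filter (fun b => E a b)).card) with hLT
  rcases LT.eq_empty_or_nonempty with he | hne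
  · rw [he]; simp
  obtain ⟨a0, ha0, hmin⟩ := Finset.exists_min_image LT (fun a => (B.filter (fun b => E a b)).card) hne
  have ha0' := ha0
  rw [hLT, Finset.mem_filter] at ha0'
  obtain ⟨ha0A, hlow0, hF3⟩ := ha0'
  set F := (B.filter (fun b => E a0 b)).card with hF
  have key : ∀ a' ∈ LT, F - 2 ≤ (B.filter (fun b => E a0 b ∧ E a' b)).card := by
    intro a' ha'
    have hm := hmin a' ha'
    rw [hLT, Finset.mem_filter] at ha'
    have hsplit : (B.filter (fun b => E a0 b ∧ E a' b)).card +
        (B.filter (fun b => E a0 b ∧ ¬ E a' b)).card = F := by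
      rw [hF, ← Finset.card_filter_add_card_filter_not (s := B.filter (fun b => E a0 b))
        (fun b => E a' b), Finset.filter_filter, Finset.filter_filter]
    rcases hA a0 ha0A a' ha'.1 with h | h
    · omega
    · have hsub : B.filter (fun b => E a' b) ⊆ B.filter (fun b => E a0 b) := by
        intro b hb
        rw [Finset.mem_filter] at hb ⊢
        exact ⟨hb.1, h b hb.1 hb.2⟩
      have heq := Finset.eq_of_subset_of_card_le hsub hm
      have : B.filter (fun b => E a0 b ∧ E a' b) = B.filter (fun b => E a0 b) := by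
        ext b
        simp only [Finset.mem_filter]
        constructor
        · rintro ⟨h1, h2, _⟩; exact ⟨h1, h2⟩
        · rintro ⟨h1, h2⟩
          refine ⟨h1, h2, ?_⟩
          have : b ∈ B.filter (fun b => E a' b) := by rw [heq, Finset.mem_filter]; exact ⟨h1, h2⟩
          exact (Finset.mem_filter.1 this).2
      rw [this]; omega
  have hdc : ∑ a' ∈ LT, (B.filter (fun b => E a0 b ∧ E a' b)).card =
      ∑ b ∈ B.filter (fun b => E a0 b), (LT.filter (fun a' => E a' b)).card := by
    simp only [Finset.card_filter]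
    rw [Finset.sum_comm, Finset.sum_filter]
    refine Finset.sum_congr rfl fun b _ => ?_
    by_cases h : E a0 b
    · simp [h]
    · simp [h]
  have hle : ∑ b ∈ B.filter (fun b => E a0 b), (LT.filter (fun a' => E a' b)).card ≤
      ∑ b ∈ B.filter (fun b => E a0 b), 2 := by
    refine Finset.sum_le_sum fun b hb => ?_
    rw [Finset.mem_filter] at hb
    refine le_trans (Finset.card_le_card ?_) (low_two hn hB b hb.1)
    intro a ha
    rw [Finset.mem_filter, hLT, Finset.mem_filter] at ha
    rw [Finset.mem_filter]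
    exact ⟨ha.1.1, ha.1.2.1, ha.2⟩
  have hge : LT.card * (F - 2) ≤ ∑ a' ∈ LT, (B.filter (fun b => E a0 b ∧ E a' b)).card := by
    have := Finset.card_nsmul_le_sum LT _ (F - 2) key
    simpa using this
  rw [Finset.sum_const, smul_eq_mul, ← hF] at hle
  rw [hdc] at hge
  have hfin : LT.card * (F - 2) ≤ F * 2 := hge.trans hle
  by_contra hcon
  push Not at hcon
  obtain ⟨G, hG⟩ : ∃ G, F = G + 2 := ⟨F - 2, by omega⟩
  rw [hG] at hfin hF3
  have h7 : 7 * (G + 2 - 2) ≤ LT.card * (G + 2 - 2) := Nat.mul_le_mul_right _ hcon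
  omega

theorem mid_bound (hn : 0 < B.card)
    (hB : Two E A B) :
    (A.filter (fun a => B.card < 6 * (B.filter (fun b => E a b)).card ∧
      6 * (B.filter (fun b => E a b)).card < 5 * B.card)).card ≤ 14 := by
  set M := A.filter (fun a => B.card < 6 * (B.filter (fun b => E a b)).card ∧
      6 * (B.filter (fun b => E a b)).card < 5 * B.card) with hM
  have h1 : ∑ a ∈ A, (B.filter (fun b => E a b)).card * (B.filter (fun b => ¬ E a b)).card ≤
      2 * (B.card * B.card) := by
    have e : ∀ a, (B.filter (fun b => E a b)).card * (B.filter (fun b => ¬ E a b)).card =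
        ∑ b ∈ B, ∑ b' ∈ B, (if E a b ∧ ¬ E a b' then 1 else 0) := by
      intro a
      rw [Finset.card_filter, Finset.card_filter, Finset.sum_mul_sum]
      refine Finset.sum_congr rfl fun b _ => Finset.sum_congr rfl fun b' _ => ?_
      by_cases h : E a b <;> by_cases h' : E a b' <;> simp [h, h']
    simp_rw [e]
    rw [Finset.sum_comm]
    have e2 : ∀ b ∈ B, ∑ a ∈ A, ∑ b' ∈ B, (if E a b ∧ ¬ E a b' then 1 else 0) ≤ 2 * B.card := by
      intro b hb
      rw [Finset.sum_comm]
      have : ∀ b' ∈ B, ∑ a ∈ A, (if E a b ∧ ¬ E a b' then 1 else 0) ≤ 2 := by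
        intro b' hb'
        rw [← Finset.card_filter]
        exact hB b hb b' hb'
      refine (Finset.sum_le_sum this).trans ?_
      rw [Finset.sum_const, smul_eq_mul]; omega
    refine (Finset.sum_le_sum e2).trans ?_
    rw [Finset.sum_const, smul_eq_mul]
    apply le_of_eq; ring
  have h2 : ∑ a ∈ M, 5 * (B.card * B.card) ≤
      ∑ a ∈ M, 36 * ((B.filter (fun b => E a b)).card * (B.filter (fun b => ¬ E a b)).card) := by
    refine Finset.sum_le_sum fun a ha => ?_
    rw [hM, Finset.mem_filter] at ha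
    obtain ⟨_, ha1, ha2⟩ := ha
    have hs := Finset.card_filter_add_card_filter_not (s := B) (fun b => E a b)
    set f := (B.filter (fun b => E a b)).card
    set f' := (B.filter (fun b => ¬ E a b)).card
    rw [← hs] at ha1 ha2 ⊢
    have a1 : f' < 5 * f := by omega
    have a2 : f < 5 * f' := by omega
    nlinarith
  have h3 : ∑ a ∈ M, 36 * ((B.filter (fun b => E a b)).card * (B.filter (fun b => ¬ E a b)).card) ≤
      36 * (2 * (B.card * B.card)) := by
    rw [← Finset.mul_sum]
    apply Nat.mul_le_mul_left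
    refine le_trans (Finset.sum_le_sum_of_subset ?_) h1
    rw [hM]; exact Finset.filter_subset _ _
  rw [Finset.sum_const, smul_eq_mul] at h2
  have h4 := h2.trans h3
  by_contra hcon
  push Not at hcon
  have hpos : 0 < B.card * B.card := Nat.mul_pos hn hn
  have h5 : 15 * (5 * (B.card * B.card)) ≤ M.card * (5 * (B.card * B.card)) :=
    Nat.mul_le_mul_right _ hcon
  omega

/-- if a thin high vertex misses some `b'`, then few `b` see two thin low vertices -/
theorem few_two (hn : 12 ≤ B.card)
    (hB : Two E A B)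
    {h : α} (hh : h ∈ A) (hthin : (B.filter (fun b => ¬ E h b)).card ≤ 2) {b' : β} (hb' : b' ∈ B)
    (hmiss : ¬ E h b') :
    (B.filter (fun b => 2 ≤ (A.filter (fun a => (B.filter (fun b => E a b)).card ≤ 2 ∧
      E a b)).card)).card ≤ 6 := by
  have hl := low_two (A := A) (by omega) hB b' hb'
  set Q := A.filter (fun a => (B.filter (fun b => E a b)).card ≤ 2 ∧ E a b') with hQ
  have hQ2 : Q.card ≤ 2 := by
    refine le_trans (Finset.card_le_card ?_) hl
    intro a ha
    rw [hQ, Finset.mem_filter] at ha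
    rw [Finset.mem_filter]
    exact ⟨ha.1, by omega, ha.2.2⟩
  have hsub : (B.filter (fun b => 2 ≤ (A.filter (fun a => (B.filter (fun b => E a b)).card ≤ 2 ∧
      E a b)).card)) ⊆ B.filter (fun b => ¬ E h b) ∪ Q.biUnion (fun a => B.filter (fun b => E a b)) := by
    intro b hb
    rw [Finset.mem_filter] at hb
    obtain ⟨hbB, hb2⟩ := hb
    obtain ⟨a1, h1, a2, h2, h12⟩ := Finset.one_lt_card.1 hb2
    rw [Finset.mem_filter] at h1 h2
    by_contra hcon
    simp only [Finset.mem_union, Finset.mem_filter, Finset.mem_biUnion, not_or, not_and, not_exists,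
      not_not] at hcon
    have c0 := hcon.1 hbB
    have c1 : ¬ E a1 b' := fun hc => hcon.2 a1 (by
      rw [hQ, Finset.mem_filter]; exact ⟨h1.1, h1.2.1, hc⟩) hbB h1.2.2
    have c2 : ¬ E a2 b' := fun hc => hcon.2 a2 (by
      rw [hQ, Finset.mem_filter]; exact ⟨h2.1, h2.2.1, hc⟩) hbB h2.2.2
    have hs := Finset.card_filter_add_card_filter_not (s := B) (fun b => E h b)
    have hne1 : h ≠ a1 := by
      rintro rfl; have := h1.2.1; omega
    have hne2 : h ≠ a2 := by
      rintro rfl; have := h2.2.1; omega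
    have := hB b hbB b' hb'
    have h3c : 2 < (A.filter (fun a => E a b ∧ ¬ E a b')).card := by
      refine Finset.two_lt_card.2 ⟨h, ?_, a1, ?_, a2, ?_, hne1, hne2, h12⟩ <;>
        simp only [Finset.mem_filter]
      · exact ⟨hh, c0, hmiss⟩
      · exact ⟨h1.1, h1.2.2, c1⟩
      · exact ⟨h2.1, h2.2.2, c2⟩
    omega
  refine (Finset.card_le_card hsub).trans ((Finset.card_union_le _ _).trans ?_)
  have hbi : (Q.biUnion (fun a => B.filter (fun b => E a b))).card ≤ Q.card * 2 := by
    refine Finset.card_biUnion_le_card_mul _ _ _ fun a ha => ?_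
    rw [hQ, Finset.mem_filter] at ha
    exact ha.2.1
  omega

/-- TARGET -/
theorem counting_lemma
    (hB : ∀ b ∈ B, ∀ b' ∈ B, (A.filter (fun a => E a b ∧ ¬ E a b')).card ≤ 2)
    (hA : Star E A B) : BLin 60 E A B := by
  by_cases hn : B.card ≤ 12
  · obtain ⟨γ, hγ⟩ := exists_inj B (m := 12) (by norm_num) hn
    have h1 : BLin (1 + 12) (fun b a => E a b) B A := by
      refine BLin.first B γ (fun b hb b' hb' h a _ => ?_) (triv 1 one_pos _ (by simp) _)
      rw [hγ b hb b' hb' h]
    exact h1.swap.mono_k (by norm_num)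
  push Not at hn
  have hn12 : 12 ≤ B.card := by omega
  have hn0 : 0 < B.card := by omega
  -- the complementary relation
  have hB' : Two (fun a b => ¬ E a b) A B := by
    intro b hb b' hb'
    refine le_trans (Finset.card_le_card ?_) (hB b' hb' b hb)
    intro a ha
    simp only [Finset.mem_filter, not_not] at ha ⊢
    exact ⟨ha.1, ha.2.2, ha.2.1⟩
  have hA' : Star (fun a b => ¬ E a b) A B := by
    intro v hv x hx
    rcases hA x hx v hv with h | h
    · left
      refine le_trans (Finset.card_le_card ?_) h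
      intro b hb
      simp only [Finset.mem_filter, not_not] at hb ⊢
      exact ⟨hb.1, hb.2.2, hb.2.1⟩
    · right
      intro b hb h1 h2
      exact h1 (h b hb h2)
  have t1 := mid_bound hn0 hB
  have t2 := low_thick hn0 hB hA
  have t3 := low_thick hn0 hB' hA'
  have l1 := low_two hn0 hB
  have l2 : ∀ b ∈ B, (A.filter (fun a => 6 * (B.filter (fun b => ¬ E a b)).card ≤ B.card ∧
      ¬ E a b)).card ≤ 2 := by
    intro b hb
    convert low_two hn0 hB' b hb
  set M := A.filter (fun a => B.card < 6 * (B.filter (fun b => E a b)).card ∧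
      6 * (B.filter (fun b => E a b)).card < 5 * B.card) with hM
  set LT := A.filter (fun a => 6 * (B.filter (fun b => E a b)).card ≤ B.card ∧
      3 ≤ (B.filter (fun b => E a b)).card) with hLT
  set HT := A.filter (fun a => 6 * (B.filter (fun b => ¬ E a b)).card ≤ B.card ∧
      3 ≤ (B.filter (fun b => ¬ E a b)).card) with hHT
  have t3' : HT.card ≤ 6 := by rw [hHT]; convert t3
  have hS : (M ∪ LT ∪ HT).card ≤ 26 := by
    have u1 := Finset.card_union_le (M ∪ LT) HT
    have u2 := Finset.card_union_le M LT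
    omega
  -- exceptional set
  set X1 := B.filter (fun b => 2 ≤ (A.filter (fun a => (B.filter (fun b => E a b)).card ≤ 2 ∧
      E a b)).card ∧ ∃ b' ∈ B, ∃ h ∈ A, (B.filter (fun b => ¬ E h b)).card ≤ 2 ∧ ¬ E h b') with hX1
  set X2 := B.filter (fun b => 2 ≤ (A.filter (fun a => (B.filter (fun b => ¬ E a b)).card ≤ 2 ∧
      ¬ E a b)).card ∧ ∃ b' ∈ B, ∃ h ∈ A, (B.filter (fun b => E h b)).card ≤ 2 ∧ E h b') with hX2
  have x1 : X1.card ≤ 6 := by
    by_cases hex : ∃ b' ∈ B, ∃ h ∈ A, (B.filter (fun b => ¬ E h b)).card ≤ 2 ∧ ¬ E h b'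
    · obtain ⟨b', hb', h, hh, hth, hm⟩ := hex
      refine le_trans (Finset.card_le_card ?_) (few_two hn12 hB hh hth hb' hm)
      intro b hb
      rw [hX1, Finset.mem_filter] at hb
      rw [Finset.mem_filter]
      exact ⟨hb.1, hb.2.1⟩
    · have : X1 = ∅ := by
        rw [hX1, Finset.filter_eq_empty_iff]
        intro b _ hb
        exact hex hb.2
      rw [this]; simp
  have x2 : X2.card ≤ 6 := by
    by_cases hex : ∃ b' ∈ B, ∃ h ∈ A, (B.filter (fun b => E h b)).card ≤ 2 ∧ E h b'
    · obtain ⟨b', hb', h, hh, hth, hm⟩ := hex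
      have := few_two (E := fun a b => ¬ E a b) hn12 hB' hh (by simpa using hth) hb'
        (by simpa using hm)
      refine le_trans (Finset.card_le_card ?_) this
      intro b hb
      rw [hX2, Finset.mem_filter] at hb
      rw [Finset.mem_filter]
      refine ⟨hb.1, ?_⟩
      convert hb.2.1
    · have : X2 = ∅ := by
        rw [hX2, Finset.filter_eq_empty_iff]
        intro b _ hb
        exact hex hb.2
      rw [this]; simp
  have hX : (X1 ∪ X2).card ≤ 12 := by
    have := Finset.card_union_le X1 X2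
    omega
  have hthin : ∀ a ∈ A \ (M ∪ LT ∪ HT), (B.filter (fun b => E a b)).card ≤ 2 ∨
      (B.filter (fun b => ¬ E a b)).card ≤ 2 := by
    intro a ha
    simp only [Finset.mem_sdiff, Finset.mem_union, not_or, hM, hLT, hHT, Finset.mem_filter,
      not_and] at ha
    obtain ⟨haA, ⟨h1, h2⟩, h3⟩ := ha
    have h1 := h1 haA
    have h2 := h2 haA
    have h3 := h3 haA
    have hs := Finset.card_filter_add_card_filter_not (s := B) (fun b => E a b)
    by_contra hcon
    push Not at hcon
    by_cases c1 : 6 * (B.filter (fun b => E a b)).card ≤ B.card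
    · exact h2 c1 (by omega)
    · have := h1 (by omega)
      exact h3 (by omega) (by omega)
  -- the path lemma
  have hpath : BLin 3 (fun a b => (E a b ↔ ¬ ((B.filter (fun b => ¬ E a b)).card ≤ 2)))
      (A \ (M ∪ LT ∪ HT)) (B \ (X1 ∪ X2)) := by
    refine path_lemma ?_ ?_
    · intro a ha
      have hs := Finset.card_filter_add_card_filter_not (s := B) (fun b => E a b)
      by_cases hU : (B.filter (fun b => ¬ E a b)).card ≤ 2
      · refine le_trans (Finset.card_le_card ?_) hU
        intro b hb
        simp only [hU, not_true_eq_false, iff_false, Finset.mem_filter, Finset.mem_sdiff] at hb ⊢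
        exact ⟨hb.1.1, hb.2⟩
      · have h2 := (hthin a ha).resolve_right hU
        refine le_trans (Finset.card_le_card ?_) h2
        intro b hb
        simp only [hU, not_false_eq_true, iff_true, Finset.mem_filter, Finset.mem_sdiff] at hb ⊢
        exact ⟨hb.1.1, hb.2⟩
    · intro b hb
      rw [Finset.mem_sdiff, Finset.mem_union, not_or] at hb
      obtain ⟨hbB, hb1, hb2⟩ := hb
      have hsub : ((A \ (M ∪ LT ∪ HT)).filter (fun a => (E a b ↔
          ¬ ((B.filter (fun b => ¬ E a b)).card ≤ 2)))) ⊆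
          A.filter (fun a => (B.filter (fun b => E a b)).card ≤ 2 ∧ E a b) ∪
          A.filter (fun a => (B.filter (fun b => ¬ E a b)).card ≤ 2 ∧ ¬ E a b) := by
        intro a ha
        rw [Finset.mem_filter] at ha
        obtain ⟨ha1, ha2⟩ := ha
        have haA := (Finset.mem_sdiff.1 ha1).1
        rw [Finset.mem_union, Finset.mem_filter, Finset.mem_filter]
        by_cases hU : (B.filter (fun b => ¬ E a b)).card ≤ 2
        · right
          exact ⟨haA, hU, fun h => (ha2.1 h) hU⟩
        · left
          exact ⟨haA, (hthin a ha1).resolve_right hU, ha2.2 hU⟩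
      suffices hsuf : (A.filter (fun a => (B.filter (fun b => E a b)).card ≤ 2 ∧ E a b)).card +
          (A.filter (fun a => (B.filter (fun b => ¬ E a b)).card ≤ 2 ∧ ¬ E a b)).card ≤ 2 by
        have hf := (Finset.card_le_card hsub).trans ((Finset.card_union_le _ _).trans hsuf)
        refine le_trans (le_of_eq ?_) hf
        congr
      have g1 : (A.filter (fun a => (B.filter (fun b => E a b)).card ≤ 2 ∧ E a b)).card ≤ 2 := by
        refine le_trans (Finset.card_le_card ?_) (l1 b hbB)
        intro a ha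
        rw [Finset.mem_filter] at ha ⊢
        exact ⟨ha.1, by omega, ha.2.2⟩
      have g2 : (A.filter (fun a => (B.filter (fun b => ¬ E a b)).card ≤ 2 ∧ ¬ E a b)).card ≤ 2 := by
        refine le_trans (Finset.card_le_card ?_) (l2 b hbB)
        intro a ha
        have ha := Finset.mem_filter.1 ha
        exact Finset.mem_filter.2 ⟨ha.1, by have := ha.2.1; omega, ha.2.2⟩
      by_contra hcon
      push Not at hcon
      -- both are positive, one is 2
      have p1 : 0 < (A.filter (fun a => (B.filter (fun b => E a b)).card ≤ 2 ∧ E a b)).card := by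
        omega
      have p2 : 0 < (A.filter (fun a => (B.filter (fun b => ¬ E a b)).card ≤ 2 ∧ ¬ E a b)).card := by
        omega
      obtain ⟨u, hu⟩ := Finset.card_pos.1 p1
      obtain ⟨v, hv⟩ := Finset.card_pos.1 p2
      rw [Finset.mem_filter] at hu hv
      by_cases h2 : 2 ≤ (A.filter (fun a => (B.filter (fun b => E a b)).card ≤ 2 ∧ E a b)).card
      · apply hb1
        rw [hX1, Finset.mem_filter]
        exact ⟨hbB, h2, b, hbB, v, hv.1, hv.2.1, hv.2.2⟩
      · apply hb2
        rw [hX2, Finset.mem_filter]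
        exact ⟨hbB, by omega, b, hbB, u, hu.1, hu.2.1, hu.2.2⟩
  have h6 := BLin.xor (fun a => (B.filter (fun b => ¬ E a b)).card ≤ 2) hpath
  obtain ⟨γ, hγ⟩ := exists_inj (M ∪ LT ∪ HT) (m := 26) (by norm_num) hS
  have h32 : BLin (3 * 2 + 26) E A (B \ (X1 ∪ X2)) :=
    BLin.first (M ∪ LT ∪ HT) γ (fun a ha a' ha' h b _ => by rw [hγ a ha a' ha' h]) h6
  obtain ⟨δ, hδ⟩ := exists_inj (X1 ∪ X2) (m := 12) (by norm_num) hX
  have h44 : BLin (3 * 2 + 26 + 12) (fun b a => E a b) B A :=
    BLin.first (X1 ∪ X2) δ (fun b hb b' hb' h a _ => by rw [hδ b hb b' hb' h]) h32.swap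
  exact h44.swap.mono_k (by norm_num)

end Pool.Agent.Helper856.Lcw.CountL
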