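import Pool.Agent.Helper856.Lcw.Base

open Classical SimpleGraph

namespace Pool.Agent.Helper856.Lcw.Four

variable {α β : Type} {E E' : α → β → Prop} {A A' : Finset α} {B B' : Finset β} {k l : ℕ}

/-- neighbourhood in `A` -/
noncomputable def Nb (E : α → β → Prop) (A : Finset α) (b : β) : Finset α := A.filter (fun a => E a b)

/-- the vertices of `B` with exactly `m` neighbours -/
noncomputable def Fl (E : α → β → Prop) (A : Finset α) (B : Finset β) (m : ℕ) : Finset β :=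
  B.filter (fun b => (Nb E A b).card = m)

theorem mem_Fl {m : ℕ} {b : β} : b ∈ Fl E A B m ↔ b ∈ B ∧ (Nb E A b).card = m := by
  unfold Fl; simp

theorem fl_sub (h2 : Star (fun b a => E a b) B A) {b b' : β} (hb : b ∈ B) (hb' : b' ∈ B)
    (h : (Nb E A b).card + 2 ≤ (Nb E A b').card) : Nb E A b ⊆ Nb E A b' := by
  rcases h2 b' hb' b hb with h3 | h3
  · have e1 : (A.filter (fun a => E a b' ∧ ¬ E a b)) = Nb E A b' \ Nb E A b := by
      ext a
      unfold Nb
      simp only [Finset.mem_filter, Finset.mem_sdiff]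
      tauto
    have e2 : (Nb E A b' \ Nb E A b).card ≤ 2 := by rw [← e1]; exact h3
    have e3 := Finset.card_sdiff_add_card_inter (Nb E A b') (Nb E A b)
    have e4 := Finset.card_sdiff_add_card_inter (Nb E A b) (Nb E A b')
    rw [Finset.inter_comm] at e4
    have e5 : (Nb E A b \ Nb E A b').card = 0 := by omega
    rw [Finset.card_eq_zero, Finset.sdiff_eq_empty_iff_subset] at e5
    exact e5
  · intro a ha
    unfold Nb at ha ⊢
    rw [Finset.mem_filter] at ha ⊢
    exact ⟨ha.1, h3 a ha.1 ha.2⟩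

theorem nb_inj (tB : ∀ b ∈ B, ∀ b' ∈ B, (∀ a ∈ A, E a b ↔ E a b') → b = b') {b b' : β}
    (hb : b ∈ B) (hb' : b' ∈ B) (h : Nb E A b = Nb E A b') : b = b' := by
  apply tB b hb b' hb'
  intro a ha
  have : a ∈ Nb E A b ↔ a ∈ Nb E A b' := by rw [h]
  unfold Nb at this
  simpa [ha] using this

theorem fl_main (h2 : Star (fun b a => E a b) B A)
    (tB : ∀ b ∈ B, ∀ b' ∈ B, (∀ a ∈ A, E a b ↔ E a b') → b = b') (j : ℕ)
    (hj0 : 2 ≤ (Fl E A B j).card) (hj2 : 2 ≤ (Fl E A B (j + 2)).card) :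
    ((Fl E A B j).biUnion (Nb E A)).card = j + 1 ∧
    (∀ b' ∈ Fl E A B (j + 2), (Fl E A B j).biUnion (Nb E A) ⊆ Nb E A b') ∧
    ∀ b1 ∈ Fl E A B (j + 2), ∀ b2 ∈ Fl E A B (j + 2), b1 ≠ b2 →
      Nb E A b1 ∩ Nb E A b2 = (Fl E A B j).biUnion (Nb E A) := by
  set W := (Fl E A B j).biUnion (Nb E A) with hW
  have hsub : ∀ b' ∈ Fl E A B (j + 2), W ⊆ Nb E A b' := by
    intro b' hb' a ha
    obtain ⟨b, hb, hab⟩ := Finset.mem_biUnion.1 ha
    rw [mem_Fl] at hb hb'
    exact fl_sub h2 hb.1 hb'.1 (by omega) hab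
  have hlow : j + 1 ≤ W.card := by
    obtain ⟨b1, hb1, b2, hb2, hne⟩ := Finset.one_lt_card.1 (by omega : 1 < (Fl E A B j).card)
    have hu : Nb E A b1 ∪ Nb E A b2 ⊆ W := by
      apply Finset.union_subset
      · exact Finset.subset_biUnion_of_mem _ hb1
      · exact Finset.subset_biUnion_of_mem _ hb2
    rw [mem_Fl] at hb1 hb2
    by_contra hcon
    have hc := Finset.card_le_card hu
    have h3 : (Nb E A b1 ∪ Nb E A b2).card ≤ (Nb E A b1).card := by omega
    have h4 : Nb E A b1 = Nb E A b1 ∪ Nb E A b2 :=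
      Finset.eq_of_subset_of_card_le Finset.subset_union_left h3
    have h5 : (Nb E A b1 ∪ Nb E A b2).card ≤ (Nb E A b2).card := by omega
    have h6 : Nb E A b2 = Nb E A b1 ∪ Nb E A b2 :=
      Finset.eq_of_subset_of_card_le Finset.subset_union_right h5
    exact hne (nb_inj tB hb1.1 hb2.1 (h4.trans h6.symm))
  have hint : ∀ b1 ∈ Fl E A B (j + 2), ∀ b2 ∈ Fl E A B (j + 2), b1 ≠ b2 →
      Nb E A b1 ∩ Nb E A b2 = W ∧ W.card = j + 1 := by
    intro b1 hb1 b2 hb2 hne
    have hs : W ⊆ Nb E A b1 ∩ Nb E A b2 := Finset.subset_inter (hsub b1 hb1) (hsub b2 hb2)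
    rw [mem_Fl] at hb1 hb2
    have hc : (Nb E A b1 ∩ Nb E A b2).card ≤ j + 1 := by
      by_contra hcon
      have h3 : (Nb E A b1).card ≤ (Nb E A b1 ∩ Nb E A b2).card := by omega
      have h4 := Finset.eq_of_subset_of_card_le (Finset.inter_subset_left) h3
      have h5 : (Nb E A b2).card ≤ (Nb E A b1 ∩ Nb E A b2).card := by omega
      have h6 := Finset.eq_of_subset_of_card_le (Finset.inter_subset_right) h5
      exact hne (nb_inj tB hb1.1 hb2.1 (h4.symm.trans h6))
    have h7 : W = Nb E A b1 ∩ Nb E A b2 := Finset.eq_of_subset_of_card_le hs (by omega)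
    refine ⟨h7.symm, ?_⟩
    have := Finset.card_le_card hs
    omega
  refine ⟨?_, hsub, fun b1 hb1 b2 hb2 hne => (hint b1 hb1 b2 hb2 hne).1⟩
  obtain ⟨b1, hb1, b2, hb2, hne⟩ := Finset.one_lt_card.1 (by omega : 1 < (Fl E A B (j + 2)).card)
  exact (hint b1 hb1 b2 hb2 hne).2

theorem four_level (h1 : Star E A B) (h2 : Star (fun b a => E a b) B A)
    (tB : ∀ b ∈ B, ∀ b' ∈ B, (∀ a ∈ A, E a b ↔ E a b') → b = b') (j : ℕ)
    (hj0 : 2 ≤ (B.filter (fun b => (A.filter (fun a => E a b)).card = j)).card)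
    (hj1 : 2 ≤ (B.filter (fun b => (A.filter (fun a => E a b)).card = j + 1)).card)
    (hj2 : 4 ≤ (B.filter (fun b => (A.filter (fun a => E a b)).card = j + 2)).card)
    (hj3 : 2 ≤ (B.filter (fun b => (A.filter (fun a => E a b)).card = j + 3)).card) : False := by
  change 2 ≤ (Fl E A B j).card at hj0
  change 2 ≤ (Fl E A B (j + 1)).card at hj1
  change 4 ≤ (Fl E A B (j + 2)).card at hj2
  change 2 ≤ (Fl E A B (j + 3)).card at hj3
  obtain ⟨cW, sW, iW⟩ := fl_main h2 tB j hj0 (by omega)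
  obtain ⟨cW1, sW1, iW1⟩ := fl_main h2 tB (j + 1) hj1 hj3
  set W := (Fl E A B j).biUnion (Nb E A) with hW
  set W1 := (Fl E A B (j + 1)).biUnion (Nb E A) with hW1
  have hWW1 : W ⊆ W1 := by
    obtain ⟨b1, hb1, b2, hb2, hne⟩ := Finset.one_lt_card.1 (by omega : 1 < (Fl E A B (j + 3)).card)
    rw [← iW1 b1 hb1 b2 hb2 hne]
    rw [mem_Fl] at hb1 hb2
    intro a ha
    obtain ⟨b, hb, hab⟩ := Finset.mem_biUnion.1 ha
    rw [mem_Fl] at hb
    exact Finset.mem_inter.2 ⟨fl_sub h2 hb.1 hb1.1 (by omega) hab, fl_sub h2 hb.1 hb2.1 (by omega) hab⟩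
  obtain ⟨c0, hc0, hc0W⟩ : ∃ c0 ∈ W1, c0 ∉ W := by
    by_contra hcon
    push Not at hcon
    have := Finset.card_le_card (show W1 ⊆ W from hcon)
    omega
  obtain ⟨bs, hbs, hc0bs⟩ := Finset.mem_biUnion.1 hc0
  rw [mem_Fl] at hbs
  have hc0A : c0 ∈ A ∧ E c0 bs := by
    unfold Nb at hc0bs; exact Finset.mem_filter.1 hc0bs
  -- at most one b' in F_{j+2} contains c0
  have hcount : 3 ≤ ((Fl E A B (j + 2)).filter (fun b => c0 ∉ Nb E A b)).card := by
    have h3 := Finset.card_filter_add_card_filter_not (s := Fl E A B (j + 2)) (fun b => c0 ∉ Nb E A b)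
    have h4 : ((Fl E A B (j + 2)).filter (fun b => ¬ c0 ∉ Nb E A b)).card ≤ 1 := by
      rw [Finset.card_le_one]
      intro b1 hb1 b2 hb2
      rw [Finset.mem_filter, not_not] at hb1 hb2
      by_contra hne
      have := iW b1 hb1.1 b2 hb2.1 hne
      exact hc0W (this ▸ Finset.mem_inter.2 ⟨hb1.2, hb2.2⟩)
    omega
  have hWbs : W ⊆ Nb E A bs := by
    intro v hv
    have hvA : v ∈ A := by
      obtain ⟨b, hb, hvb⟩ := Finset.mem_biUnion.1 hv
      unfold Nb at hvb
      exact (Finset.mem_filter.1 hvb).1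
    rcases h1 v hvA c0 hc0A.1 with h3 | h3
    · exfalso
      have h4 : (Fl E A B (j + 2)).filter (fun b => c0 ∉ Nb E A b) ⊆
          B.filter (fun b => E v b ∧ ¬ E c0 b) := by
        intro b hb
        rw [Finset.mem_filter] at hb ⊢
        have hvb := sW b hb.1 hv
        have hbB := (mem_Fl.1 hb.1).1
        refine ⟨hbB, ?_, ?_⟩
        · unfold Nb at hvb; exact (Finset.mem_filter.1 hvb).2
        · intro hc
          apply hb.2
          unfold Nb
          exact Finset.mem_filter.2 ⟨hc0A.1, hc⟩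
      have := Finset.card_le_card h4
      omega
    · unfold Nb
      exact Finset.mem_filter.2 ⟨hvA, h3 bs hbs.1 hc0A.2⟩
  have h5 : insert c0 W ⊆ Nb E A bs := Finset.insert_subset hc0bs hWbs
  have h6 := Finset.card_le_card h5
  rw [Finset.card_insert_of_notMem hc0W] at h6
  omega

end Pool.Agent.Helper856.Lcw.Four
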