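import Pool.Agent.Helper856.Lcw.Base
import Pool.Agent.Helper856.Lcw.CountL
import Pool.Agent.Helper856.Lcw.Four

open Classical SimpleGraph

namespace Pool.Agent.Helper856.Lcw.Layers

open CountL Four

variable {α β : Type} {E E' : α → β → Prop} {A A' : Finset α} {B B' : Finset β} {k l : ℕ}

theorem aux_inj_fin {γ : Type} (T : Finset γ) (h : T.card ≤ 7) :
    ∃ e : γ → Fin 8, (∀ x ∈ T, ∀ y, e x = e y → x = y) := by
  refine ⟨fun x => if hx : x ∈ T then ⟨(T.equivFin ⟨x, hx⟩).val, by
    have := (T.equivFin ⟨x, hx⟩).isLt; omega⟩ else 7, ?_⟩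
  intro x hx y hxy
  by_cases hy : y ∈ T
  · simp only [hx, hy, dif_pos, Fin.mk.injEq] at hxy
    have h1 := Fin.ext hxy
    have h2 := T.equivFin.injective h1
    exact congrArg Subtype.val h2
  · simp only [hx, hy, dif_pos, dif_neg, not_false_eq_true] at hxy
    have h1 := congrArg Fin.val hxy
    simp only at h1
    have h2 := (T.equivFin ⟨x, hx⟩).isLt
    have h3 : ((7 : Fin 8) : ℕ) = 7 := rfl
    omega

theorem aux_inj_fin' {γ : Type} (T : Finset γ) (h : T.card ≤ 8) :
    ∃ e : γ → Fin 8, (∀ x ∈ T, ∀ y ∈ T, e x = e y → x = y) := by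
  refine ⟨fun x => if hx : x ∈ T then ⟨(T.equivFin ⟨x, hx⟩).val, by
    have := (T.equivFin ⟨x, hx⟩).isLt; omega⟩ else 7, ?_⟩
  intro x hx y hy hxy
  simp only [hx, hy, dif_pos, Fin.mk.injEq] at hxy
  have h1 := Fin.ext hxy
  have h2 := T.equivFin.injective h1
  exact congrArg Subtype.val h2

/-- TARGET -/
theorem K13P2_twinfree (h1 : Star E A B) (h2 : Star (fun b a => E a b) B A)
    (tB : ∀ b ∈ B, ∀ b' ∈ B, (∀ a ∈ A, E a b ↔ E a b') → b = b') : BLin 488 E A B := by
  obtain ⟨deg, hdeg⟩ : ∃ deg : β → ℕ, ∀ b, deg b = (A.filter (fun a => E a b)).card :=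
    ⟨_, fun _ => rfl⟩
  obtain ⟨N, hN⟩ : ∃ N, N = A.card + 1 := ⟨_, rfl⟩
  have hdN : ∀ b, deg b < N := by
    intro b
    rw [hdeg, hN]
    exact Nat.lt_succ_of_le (Finset.card_filter_le _ _)
  let small : ℕ → Prop := fun m => (B.filter (fun b => deg b = m)).card ≤ 3
  have hsN : ∀ m, N ≤ m → small m := by
    intro m hm
    have : B.filter (fun b => deg b = m) = ∅ := by
      rw [Finset.filter_eq_empty_iff]
      intro b _ hb
      have := hdN b
      omega
    show (B.filter (fun b => deg b = m)).card ≤ 3
    rw [this]; simp
  obtain ⟨u, hu1, hu2, hu3⟩ : ∃ u : ℕ → ℕ, (∀ i, i ≤ u i) ∧ (∀ i, small (u i)) ∧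
      (∀ i m, i ≤ m → small m → u i ≤ m) := by
    have hex : ∀ i, ∃ m, i ≤ m ∧ small m := fun i => ⟨max i N, le_max_left _ _,
      hsN _ (le_max_right _ _)⟩
    exact ⟨fun i => Nat.find (hex i), fun i => (Nat.find_spec (hex i)).1,
      fun i => (Nat.find_spec (hex i)).2, fun i m h1 h2 => Nat.find_min' (hex i) ⟨h1, h2⟩⟩
  have huN : ∀ i, i ≤ N → u i ≤ N := fun i hi => hu3 i N hi (hsN N le_rfl)
  -- K3
  have K3 : ∀ b ∈ B, ∀ b' ∈ B, deg b ≤ deg b' + 2 →
      (A.filter (fun a => E a b ∧ ¬ E a b')).card ≤ 2 := by
    intro b hb b' hb' hle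
    rcases h2 b hb b' hb' with h | h
    · exact h
    · have hs : A.filter (fun a => E a b') ⊆ A.filter (fun a => E a b) := by
        intro a ha
        rw [Finset.mem_filter] at ha ⊢
        exact ⟨ha.1, h a ha.1 ha.2⟩
      have he : A.filter (fun a => E a b ∧ ¬ E a b') =
          A.filter (fun a => E a b) \ A.filter (fun a => E a b') := by
        ext a
        simp only [Finset.mem_filter, Finset.mem_sdiff]
        tauto
      rw [he, Finset.card_sdiff_of_subset hs, ← hdeg, ← hdeg]
      omega
  -- containment
  have KC : ∀ b ∈ B, ∀ b' ∈ B, deg b + 2 ≤ deg b' → ∀ a ∈ A, E a b → E a b' := by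
    intro b hb b' hb' hle
    rcases h2 b' hb' b hb with h | h
    · have e1 : (A.filter (fun a => E a b' ∧ ¬ E a b)).card + (A.filter (fun a => E a b' ∧ E a b)).card
          = deg b' := by
        rw [hdeg, ← Finset.card_union_of_disjoint]
        · congr 1
          ext a
          simp only [Finset.mem_union, Finset.mem_filter]
          tauto
        · rw [Finset.disjoint_left]
          intro a h3 h4
          rw [Finset.mem_filter] at h3 h4
          exact h3.2.2 h4.2.2
      have e2 : (A.filter (fun a => E a b ∧ ¬ E a b')).card + (A.filter (fun a => E a b' ∧ E a b)).card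
          = deg b := by
        rw [hdeg, ← Finset.card_union_of_disjoint]
        · congr 1
          ext a
          simp only [Finset.mem_union, Finset.mem_filter]
          tauto
        · rw [Finset.disjoint_left]
          intro a h3 h4
          rw [Finset.mem_filter] at h3 h4
          exact h3.2.2 h4.2.1
      have h' : (A.filter (fun a => E a b' ∧ ¬ E a b)).card ≤ 2 := h
      have e3 : (A.filter (fun a => E a b ∧ ¬ E a b')).card = 0 := by omega
      rw [Finset.card_eq_zero, Finset.filter_eq_empty_iff] at e3
      intro a ha hab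
      by_contra hn
      exact e3 ha ⟨hab, hn⟩
    · exact h
  -- key
  obtain ⟨key, K0, K1, K2⟩ : ∃ key : α → ℕ, (∀ a, key a < N) ∧
      (∀ a ∈ A, ∀ b ∈ B, key a < deg b → E a b) ∧
      (∀ a ∈ A, ∀ b ∈ B, deg b + 2 ≤ key a → ¬ E a b) := by
    refine ⟨fun a => (B.filter (fun b => ¬ E a b)).sup deg, ?_, ?_, ?_⟩
    · intro a
      have : (B.filter (fun b => ¬ E a b)).sup deg ≤ A.card := by
        apply Finset.sup_le
        intro b _
        have := hdN b
        omega
      show (B.filter (fun b => ¬ E a b)).sup deg < N
      omega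
    · intro a _ b hb hlt
      by_contra hn
      have : deg b ≤ (B.filter (fun b => ¬ E a b)).sup deg :=
        Finset.le_sup (Finset.mem_filter.2 ⟨hb, hn⟩)
      exact absurd hlt (not_lt.2 this)
    · intro a ha b hb hle hab
      have hne : (B.filter (fun b => ¬ E a b)).Nonempty := by
        rw [Finset.nonempty_iff_ne_empty]
        intro he
        simp only [he, Finset.sup_empty] at hle
        have : (⊥ : ℕ) = 0 := rfl
        omega
      obtain ⟨b', hb', he⟩ := Finset.exists_mem_eq_sup _ hne deg
      rw [Finset.mem_filter] at hb'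
      have hle' : deg b + 2 ≤ deg b' := he ▸ hle
      exact hb'.2 (KC b hb b' hb'.1 hle' a ha hab)
  have huk : ∀ a, u (key a) ≤ N := fun a => huN _ (K0 a).le
  have hud : ∀ b, u (deg b) ≤ N := fun b => huN _ (hdN b).le
  let iA : α → ℕ := fun a => 2 * (N - u (key a)) + 1
  let iB : β → ℕ := fun b => if small (deg b) then 2 * (N - deg b) else 2 * (N - u (deg b)) + 1
  have hiBs : ∀ b, small (deg b) → iB b = 2 * (N - deg b) := fun b h => if_pos h
  have hiBb : ∀ b, ¬ small (deg b) → iB b = 2 * (N - u (deg b)) + 1 := fun b h => if_neg h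
  -- four levels
  have hfour : ∀ b, ¬ small (deg b) → u (deg b) ≤ deg b + 3 ∧ deg b < u (deg b) := by
    intro b hb
    have hlt : deg b < u (deg b) := by
      rcases lt_or_eq_of_le (hu1 (deg b)) with h | h
      · exact h
      · exact absurd (h ▸ hu2 (deg b)) hb
    refine ⟨?_, hlt⟩
    by_contra hn
    push Not at hn
    have hbig : ∀ m, deg b ≤ m → m < u (deg b) →
        4 ≤ (B.filter (fun b => (A.filter (fun a => E a b)).card = m)).card := by
      intro m hm1 hm2
      have : ¬ small m := fun hs => absurd (hu3 _ _ hm1 hs) (not_le.2 hm2)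
      have h3 : ¬ (B.filter (fun b => deg b = m)).card ≤ 3 := this
      simp only [hdeg] at h3
      omega
    have g0 := hbig (deg b) le_rfl (by omega)
    have g1 := hbig (deg b + 1) (by omega) (by omega)
    have g2 := hbig (deg b + 2) (by omega) (by omega)
    have g3 := hbig (deg b + 3) (by omega) (by omega)
    exact four_level h1 h2 tB (deg b) (by omega) (by omega) (by omega) (by omega)
  have key488 : (488 : ℕ) = 8 + 60 * 8 := by norm_num
  rw [key488]
  refine BLin.lex 8 60 iA iB ?_ ?_ ?_
  · intro n
    apply counting_lemma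
    · intro b hb b' hb'
      rw [Finset.mem_filter] at hb hb'
      have hcl : deg b ≤ deg b' + 2 := by
        by_cases hs : small (deg b) <;> by_cases hs' : small (deg b')
        · have e1 := hiBs b hs
          have e2 := hiBs b' hs'
          have := hdN b
          have := hdN b'
          omega
        · have e1 := hiBs b hs
          have e2 := hiBb b' hs'
          omega
        · have e1 := hiBb b hs
          have e2 := hiBs b' hs'
          omega
        · have e1 := hiBb b hs
          have e2 := hiBb b' hs'
          have := hfour b hs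
          have := hfour b' hs'
          have := hud b
          have := hud b'
          omega
      refine le_trans (Finset.card_le_card ?_) (K3 b hb.1 b' hb'.1 hcl)
      intro a ha
      rw [Finset.mem_filter, Finset.mem_filter] at ha
      rw [Finset.mem_filter]
      exact ⟨ha.1.1, ha.2⟩
    · intro v hv x hx
      rw [Finset.mem_filter] at hv hx
      rcases h1 v hv.1 x hx.1 with h | h
      · left
        refine le_trans (Finset.card_le_card ?_) h
        intro b hb
        rw [Finset.mem_filter, Finset.mem_filter] at hb
        rw [Finset.mem_filter]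
        exact ⟨hb.1.1, hb.2⟩
      · right
        intro b hb
        rw [Finset.mem_filter] at hb
        exact h b hb.1
  · intro n
    -- claim
    have claim : ∀ a ∈ A, ∀ b ∈ B, iA a < n → n ≤ iB b → E a b →
        small (Nat.findGreatest small (N - n / 2)) ∧ deg b = Nat.findGreatest small (N - n / 2) := by
      intro a ha b hb h3 h4 hab
      have h3' : 2 * (N - u (key a)) + 1 < n := h3
      have hk := huk a
      have hd := hdN b
      have hs : small (deg b) := by
        by_contra hs
        rw [hiBb b hs] at h4
        have hlt : u (deg b) < u (key a) := by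
          have := hud b
          omega
        have h5 : u (deg b) < key a := by
          by_contra h6
          have := hu3 (key a) (u (deg b)) (not_lt.1 h6) (hu2 _)
          omega
        have h6 := (hfour b hs).2
        exact K2 a ha b hb (by omega) hab
      rw [hiBs b hs] at h4
      have h5 : deg b < u (key a) := by omega
      have h6 : deg b < key a := by
        by_contra h7
        have := hu3 (key a) (deg b) (not_lt.1 h7) hs
        omega
      have h7 : key a = deg b + 1 := by
        by_contra h8
        exact K2 a ha b hb (by omega) hab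
      have h8 : deg b ≤ N - n / 2 := by omega
      have h9 : small (Nat.findGreatest small (N - n / 2)) := Nat.findGreatest_spec h8 hs
      refine ⟨h9, ?_⟩
      have h10 : deg b ≤ Nat.findGreatest small (N - n / 2) := Nat.le_findGreatest h8 hs
      have h11 : Nat.findGreatest small (N - n / 2) ≤ N - n / 2 := Nat.findGreatest_le _
      by_contra h12
      have h13 := hu3 (key a) _ (by omega : key a ≤ Nat.findGreatest small (N - n / 2)) h9
      omega
    by_cases hs : small (Nat.findGreatest small (N - n / 2))
    · obtain ⟨m0, hm0⟩ : ∃ m0, m0 = Nat.findGreatest small (N - n / 2) := ⟨_, rfl⟩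
      rw [← hm0] at claim hs
      have hcard : (B.filter (fun b => deg b = m0)).powerset.card ≤ 8 := by
        rw [Finset.card_powerset]
        have : (B.filter (fun b => deg b = m0)).card ≤ 3 := hs
        calc 2 ^ (B.filter (fun b => deg b = m0)).card ≤ 2 ^ 3 := Nat.pow_le_pow_right (by norm_num) this
          _ = 8 := by norm_num
      obtain ⟨e, he⟩ := aux_inj_fin' _ hcard
      refine ⟨fun a => e ((B.filter (fun b => deg b = m0)).filter (fun b => E a b)), ?_⟩
      intro a ha a' ha' h3 h4 h5 b hb h6
      have h7 := he _ (Finset.mem_powerset.2 (Finset.filter_subset _ _)) _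
        (Finset.mem_powerset.2 (Finset.filter_subset _ _)) h5
      constructor
      · intro hab
        have h8 := (claim a ha b hb h3 h6 hab).2
        have h9 : b ∈ (B.filter (fun b => deg b = m0)).filter (fun b => E a b) := by
          rw [Finset.mem_filter, Finset.mem_filter]; exact ⟨⟨hb, h8⟩, hab⟩
        rw [h7, Finset.mem_filter] at h9
        exact h9.2
      · intro hab
        have h8 := (claim a' ha' b hb h4 h6 hab).2
        have h9 : b ∈ (B.filter (fun b => deg b = m0)).filter (fun b => E a' b) := by
          rw [Finset.mem_filter, Finset.mem_filter]; exact ⟨⟨hb, h8⟩, hab⟩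
        rw [← h7, Finset.mem_filter] at h9
        exact h9.2
    · refine ⟨fun _ => 0, ?_⟩
      intro a ha a' ha' h3 h4 _ b hb h6
      constructor
      · intro hab
        exact absurd (claim a ha b hb h3 h6 hab).1 hs
      · intro hab
        exact absurd (claim a' ha' b hb h4 h6 hab).1 hs
  · intro n
    have claim : ∀ a ∈ A, ∀ b ∈ B, iB b < n → n ≤ iA a → ¬ E a b →
        small (N - (n - 1) / 2) ∧ deg b = N - (n - 1) / 2 := by
      intro a ha b hb h3 h4 hab
      have h4' : n ≤ 2 * (N - u (key a)) + 1 := h4
      have hk := huk a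
      have hd := hdN b
      have hs : small (deg b) := by
        by_contra hs
        rw [hiBb b hs] at h3
        have hlt : u (key a) < u (deg b) := by
          have := hud b
          omega
        have h5 : u (key a) < deg b := by
          by_contra h6
          have := hu3 (deg b) (u (key a)) (not_lt.1 h6) (hu2 _)
          omega
        have h6 := hu1 (key a)
        exact hab (K1 a ha b hb (by omega))
      rw [hiBs b hs] at h3
      have h5 : u (key a) ≤ deg b := by omega
      have h6 := hu1 (key a)
      have h7 : key a = deg b := by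
        by_contra h8
        exact hab (K1 a ha b hb (by omega))
      have h8 : n = 2 * (N - deg b) + 1 := by omega
      have h9 : deg b = N - (n - 1) / 2 := by omega
      exact ⟨h9 ▸ hs, h9⟩
    by_cases hs : small (N - (n - 1) / 2)
    · obtain ⟨m0, hm0⟩ : ∃ m0, m0 = N - (n - 1) / 2 := ⟨_, rfl⟩
      rw [← hm0] at claim hs
      have hcard : (B.filter (fun b => deg b = m0)).card ≤ 7 := by
        have : (B.filter (fun b => deg b = m0)).card ≤ 3 := hs
        omega
      obtain ⟨e, he⟩ := aux_inj_fin _ hcard
      refine ⟨e, ?_⟩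
      intro b hb b' hb' h3 h4 h5 a ha h6
      by_cases hm : b ∈ B.filter (fun b => deg b = m0)
      · rw [he b hm b' h5]
      · by_cases hm' : b' ∈ B.filter (fun b => deg b = m0)
        · rw [he b' hm' b h5.symm]
        · have g1 : E a b := by
            by_contra hn
            exact hm (Finset.mem_filter.2 ⟨hb, (claim a ha b hb h3 h6 hn).2⟩)
          have g2 : E a b' := by
            by_contra hn
            exact hm' (Finset.mem_filter.2 ⟨hb', (claim a ha b' hb' h4 h6 hn).2⟩)
          exact ⟨fun _ => g2, fun _ => g1⟩
    · refine ⟨fun _ => 0, ?_⟩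
      intro b hb b' hb' h3 h4 _ a ha h6
      have g1 : E a b := by
        by_contra hn
        exact hs (claim a ha b hb h3 h6 hn).1
      have g2 : E a b' := by
        by_contra hn
        exact hs (claim a ha b' hb' h4 h6 hn).1
      exact ⟨fun _ => g2, fun _ => g1⟩

end Pool.Agent.Helper856.Lcw.Layers
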