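import Pool.Agent.Helper856.Lcw.Base

open Classical SimpleGraph

namespace Pool.Agent.Helper856.Lcw.S122Chain

variable {α β : Type} {E E' : α → β → Prop} {A A' : Finset α} {B B' : Finset β} {k l : ℕ}

theorem Conn.swap_not (h : Conn (fun a b => ¬ E a b) A' B') :
    Conn (fun b a => ¬ E a b) B' A' := by
  intro X hX Y hY hXY
  rcases h Y hY X hX (fun a ha b hb hE => (hXY b hb a ha hE).symm) with ⟨h1, h2⟩ | ⟨h1, h2⟩
  · exact Or.inl ⟨h2, h1⟩
  · exact Or.inr ⟨h2, h1⟩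

theorem S122_chain_aux {α β : Type} {E : α → β → Prop} {A A' : Finset α} {B B' : Finset β}
    (h1 : Lam E A B) (h2 : Lam (fun b a => E a b) B A)
    (hneA : ∀ a ∈ A, ∃ b ∈ B, E a b)
    (hA' : A' ⊆ A) (hB' : B' ⊆ B)
    (hcl : ∀ a ∈ A, ∀ b ∈ B, ¬ E a b → (a ∈ A' ↔ b ∈ B'))
    (hconn : Conn (fun a b => ¬ E a b) A' B') (hprop : ∃ c ∈ A, c ∉ A') :
    ∀ a ∈ A', ∀ a' ∈ A', (∀ b ∈ B', E a b → E a' b) ∨ (∀ b ∈ B', E a' b → E a b) := by
  obtain ⟨c, hcA, hcA'⟩ := hprop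
  have hc : ∀ b ∈ B', E c b := by
    intro b hb
    by_contra hE
    exact hcA' ((hcl c hcA b (hB' hb) hE).2 hb)
  -- nestedness of intersecting sets
  have L : ∀ a ∈ A', ∀ a' ∈ A', (∃ b ∈ B', ¬ E a b ∧ ¬ E a' b) →
      (∀ b ∈ B', ¬ E a b → ¬ E a' b) ∨ (∀ b ∈ B', ¬ E a' b → ¬ E a b) := by
    rintro a ha a' ha' ⟨b1, hb1, h11, h12⟩
    by_contra hcon
    push Not at hcon
    obtain ⟨⟨b3, hb3, h31, h32⟩, b2, hb2, h21, h22⟩ := hcon
    exact h1 c hcA a (hA' ha) a' (hA' ha') b1 (hB' hb1) b2 (hB' hb2) b3 (hB' hb3)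
      (hc b1 hb1) (hc b2 hb2) (hc b3 hb3) h22 h32 h11 h31 h12 h21
  -- a common neighbour
  have com : ∀ a ∈ A', ∀ a' ∈ A', ∀ a'' ∈ A', (∀ b ∈ B', ¬ E a b → ¬ E a' b) →
      (∀ b ∈ B', ¬ E a'' b → ¬ E a' b) → ∃ c' ∈ B, E a c' ∧ E a' c' ∧ E a'' c' := by
    intro a ha a' ha' a'' ha'' hs hs'
    by_cases hBB : B' = B
    · obtain ⟨b0, hb0, hE⟩ := hneA a' (hA' ha')
      have hb0' : b0 ∈ B' := by rw [hBB]; exact hb0
      refine ⟨b0, hb0, ?_, hE, ?_⟩
      · by_contra h; exact hs b0 hb0' h hE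
      · by_contra h; exact hs' b0 hb0' h hE
    · obtain ⟨c', hc'B, hc'B'⟩ : ∃ c' ∈ B, c' ∉ B' := by
        by_contra hcon
        push Not at hcon
        exact hBB (Finset.Subset.antisymm hB' hcon)
      have : ∀ x ∈ A', E x c' := by
        intro x hx
        by_contra hE
        exact hc'B' ((hcl x (hA' hx) c' hc'B hE).1 hx)
      exact ⟨c', hc'B, this a ha, this a' ha', this a'' ha''⟩
  -- transitivity of meeting
  have T : ∀ a ∈ A', ∀ a' ∈ A', ∀ a'' ∈ A', (∀ b ∈ B', ¬ E a b → ¬ E a' b) →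
      (∀ b ∈ B', ¬ E a'' b → ¬ E a' b) → (∃ b ∈ B', ¬ E a b) → (∃ b ∈ B', ¬ E a'' b) →
      ∃ b ∈ B', ¬ E a b ∧ ¬ E a'' b := by
    rintro a ha a' ha' a'' ha'' hs hs' ⟨b, hb, hab⟩ ⟨b'', hb'', hab''⟩
    by_contra hcon
    push Not at hcon
    obtain ⟨c', hc', e1, e2, e3⟩ := com a ha a' ha' a'' ha'' hs hs'
    have e4 : E a'' b := hcon b hb hab
    have e5 : E a b'' := by
      by_contra h
      exact hab'' (hcon b'' hb'' h)
    exact h2 c' hc' b (hB' hb) b'' (hB' hb'') a' (hA' ha') a'' (hA' ha'') a (hA' ha)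
      e2 e3 e1 e4 e5 (hs b hb hab) hab (hs' b'' hb'' hab'') hab''
  have trans : ∀ a ∈ A', ∀ a' ∈ A', ∀ a'' ∈ A', (∃ b ∈ B', ¬ E a b ∧ ¬ E a' b) →
      (∃ b ∈ B', ¬ E a' b ∧ ¬ E a'' b) → ∃ b ∈ B', ¬ E a b ∧ ¬ E a'' b := by
    intro a ha a' ha' a'' ha'' hI hI'
    have n1 := L a ha a' ha' hI
    have n2 := L a' ha' a'' ha'' hI'
    obtain ⟨b, hb, hb1, hb2⟩ := hI
    obtain ⟨d, hd, hd1, hd2⟩ := hI'
    rcases n1 with n1 | n1
    · rcases n2 with n2 | n2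
      · exact ⟨b, hb, hb1, n2 b hb hb2⟩
      · exact T a ha a' ha' a'' ha'' n1 n2 ⟨b, hb, hb1⟩ ⟨d, hd, hd2⟩
    · rcases n2 with n2 | n2
      · exact ⟨b, hb, hb1, n2 b hb hb2⟩
      · exact ⟨d, hd, n1 d hd hd1, hd2⟩
  intro a ha a' ha'
  by_cases hDa : ∃ b ∈ B', ¬ E a b
  · by_cases hDa' : ∃ b ∈ B', ¬ E a' b
    · -- both nonempty: they meet
      have hmeet : ∃ b ∈ B', ¬ E a' b ∧ ¬ E a b := by
        have hX := hconn (A'.filter (fun x => ∃ b ∈ B', ¬ E x b ∧ ¬ E a b))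
          (Finset.filter_subset _ _)
          (B'.filter (fun b => ∃ x ∈ A', (∃ b ∈ B', ¬ E x b ∧ ¬ E a b) ∧ ¬ E x b))
          (Finset.filter_subset _ _) ?_
        · obtain ⟨b, hb, hab⟩ := hDa
          rcases hX with ⟨h3, _⟩ | ⟨h3, _⟩
          · exfalso
            have : a ∈ A'.filter (fun x => ∃ b ∈ B', ¬ E x b ∧ ¬ E a b) := by
              rw [Finset.mem_filter]
              exact ⟨ha, b, hb, hab, hab⟩
            rw [h3] at this
            simp at this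
          · have : a' ∈ A'.filter (fun x => ∃ b ∈ B', ¬ E x b ∧ ¬ E a b) := by
              rw [h3]; exact ha'
            rw [Finset.mem_filter] at this
            exact this.2
        · intro x hx b hb hE
          rw [Finset.mem_filter, Finset.mem_filter]
          constructor
          · rintro ⟨_, h3⟩
            exact ⟨hb, x, hx, h3, hE⟩
          · rintro ⟨_, y, hy, h3, h4⟩
            exact ⟨hx, trans x hx y hy a ha ⟨b, hb, hE, h4⟩ h3⟩
      rcases L a' ha' a ha hmeet with h3 | h3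
      · left
        intro b hb hE
        by_contra h
        exact h3 b hb h hE
      · right
        intro b hb hE
        by_contra h
        exact h3 b hb h hE
    · left
      push Not at hDa'
      exact fun b hb _ => hDa' b hb
  · right
    push Not at hDa
    exact fun b hb _ => hDa b hb

theorem S122_chain (h1 : Lam E A B) (h2 : Lam (fun b a => E a b) B A)
    (hneA : ∀ a ∈ A, ∃ b ∈ B, E a b) (hneB : ∀ b ∈ B, ∃ a ∈ A, E a b)
    (hA' : A' ⊆ A) (hB' : B' ⊆ B)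
    (hcl : ∀ a ∈ A, ∀ b ∈ B, ¬ E a b → (a ∈ A' ↔ b ∈ B'))
    (hconn : Conn (fun a b => ¬ E a b) A' B') (hprop : A' ≠ A ∨ B' ≠ B) :
    ∀ a ∈ A', ∀ a' ∈ A', (∀ b ∈ B', E a b → E a' b) ∨ (∀ b ∈ B', E a' b → E a b) := by
  by_cases hc : ∃ c ∈ A, c ∉ A'
  · exact S122_chain_aux h1 h2 hneA hA' hB' hcl hconn hc
  · push Not at hc
    have hAA : A' = A := Finset.Subset.antisymm hA' hc
    have hBB : B' ≠ B := by
      rcases hprop with h | h
      · exact absurd hAA h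
      · exact h
    have hc' : ∃ c' ∈ B, c' ∉ B' := by
      by_contra hcon
      push Not at hcon
      exact hBB (Finset.Subset.antisymm hB' hcon)
    have key := S122_chain_aux (E := fun b a => E a b) h2 h1 hneB hB' hA'
      (fun b hb a ha hE => (hcl a ha b hb hE).symm) (Conn.swap_not hconn) hc'
    intro a ha a' ha'
    by_contra hcon
    push Not at hcon
    obtain ⟨⟨b1, hb1, e1, e2⟩, b2, hb2, e3, e4⟩ := hcon
    rcases key b1 hb1 b2 hb2 with h | h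
    · exact e4 (h a ha e1)
    · exact e2 (h a' ha' e3)

end Pool.Agent.Helper856.Lcw.S122Chain
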