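import Pool.Agent.Helper856.Lcw.Base

open Classical SimpleGraph

namespace Pool.Agent.Helper856.Lcw.S122Core

variable {α β : Type} {E E' : α → β → Prop} {A A' : Finset α} {B B' : Finset β} {k l : ℕ}

theorem S122_core (h1 : Lam E A B) (h2 : Lam (fun b a => E a b) B A) (hc : Conn E A B)
    (hcc : Conn (fun a b => ¬ E a b) A B)
    (tA : ∀ a ∈ A, ∀ a' ∈ A, (∀ b ∈ B, E a b ↔ E a' b) → a = a')
    (tB : ∀ b ∈ B, ∀ b' ∈ B, (∀ a ∈ A, E a b ↔ E a b') → b = b') :
    ∀ a ∈ A, (B.filter (fun b => E a b)).card ≤ 2 := by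
  by_contra hcon
  push Not at hcon
  obtain ⟨v, hv, hv3⟩ := hcon
  obtain ⟨c, hcA, hmax⟩ := Finset.exists_max_image A
    (fun a => (B.filter (fun b => E a b)).card) ⟨v, hv⟩
  have hc3 : 2 < (B.filter (fun b => E c b)).card := lt_of_lt_of_le hv3 (hmax v hv)
  -- distinguishing vertices
  have tB' : ∀ b ∈ B, ∀ b' ∈ B, b ≠ b' → ∃ x ∈ A, (E x b ∧ ¬ E x b') ∨ (E x b' ∧ ¬ E x b) := by
    intro b hb b' hb' hne
    by_contra hx
    push Not at hx
    refine hne (tB b hb b' hb' fun a ha => ?_)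
    have := hx a ha
    tauto
  -- three different elements of B0
  obtain ⟨u1, u2, u3, hu1, hu2, hu3, hu12, hu13, hu23⟩ := Finset.two_lt_card_iff.1 hc3
  simp only [Finset.mem_filter] at hu1 hu2 hu3
  -- (L2)
  have L2 : ∀ a ∈ A, a ≠ c → ∃ b ∈ B, E c b ∧ ¬ E a b := by
    intro a ha hne
    by_contra hx
    push Not at hx
    have hsub : B.filter (fun b => E c b) ⊆ B.filter (fun b => E a b) := by
      intro b hb
      simp only [Finset.mem_filter] at hb ⊢
      exact ⟨hb.1, hx b hb.1 hb.2⟩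
    have heq := Finset.eq_of_subset_of_card_le hsub (hmax a ha)
    refine hne (tA a ha c hcA fun b hb => ?_)
    have : b ∈ B.filter (fun b => E c b) ↔ b ∈ B.filter (fun b => E a b) := by rw [heq]
    simp only [Finset.mem_filter, hb, true_and] at this
    exact this.symm
  -- B1 nonempty
  have hB1 : ∃ b ∈ B, ¬ E c b := by
    by_contra hx
    push Not at hx
    rcases hcc {c} (by simpa using hcA) ∅ (by simp) (by
      intro a ha b hb hab
      constructor
      · intro h
        rw [Finset.mem_singleton] at h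
        subst h
        exact absurd (hx b hb) hab
      · intro h; simp at h) with h | h
    · simp at h
    · rw [← h.2] at hu1; simp at hu1
  -- predicates
  set D : α → β → Prop := fun a b => b ∈ B ∧ E c b ∧ ¬ E a b with hD
  set S : α → Prop := fun a => a ∈ A ∧ (∃ b, D a b) ∧ (∃ b ∈ B, E c b ∧ E a b) with hS
  set Z : α → Prop := fun a => a ∈ A ∧ ∀ b ∈ B, E c b → ¬ E a b with hZ
  set R : α → α → Prop := fun a a' => ∃ b, D a b ∧ D a' b with hR
  have tri : ∀ a ∈ A, a = c ∨ S a ∨ Z a := by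
    intro a ha
    by_cases h : a = c
    · exact Or.inl h
    · right
      by_cases h' : ∃ b ∈ B, E c b ∧ E a b
      · left
        obtain ⟨b, hb, hb'⟩ := L2 a ha h
        exact ⟨ha, ⟨b, hb, hb'⟩, h'⟩
      · right
        push Not at h'
        exact ⟨ha, h'⟩
  have Rsymm : ∀ a a', R a a' → R a' a := fun a a' ⟨b, h, h'⟩ => ⟨b, h', h⟩
  -- (Lam1)
  have Lam1 : ∀ a ∈ A, ∀ a' ∈ A, R a a' → (∀ b, D a b → D a' b) ∨ (∀ b, D a' b → D a b) := by
    intro a ha a' ha' ⟨b, hb, hb'⟩
    by_contra hx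
    push Not at hx
    obtain ⟨⟨r, hr, hr'⟩, ⟨s, hs, hs'⟩⟩ := hx
    simp only [hD] at hb hb' hr hr' hs hs'
    have e1 : E a' r := by by_contra h; exact hr' ⟨hr.1, hr.2.1, h⟩
    have e2 : E a s := by by_contra h; exact hs' ⟨hs.1, hs.2.1, h⟩
    exact h1 c hcA a' ha' a ha b hb.1 r hr.1 s hs.1 hb.2.1 hr.2.1 hs.2.1 e1 e2 hb'.2.2 hs.2.2
      hb.2.2 hr.2.2
  -- (Br)
  have Br : ∀ a a' a'', S a → S a' → S a'' → (∀ b, D a b → D a' b) → (∀ b, D a'' b → D a' b) →
      R a a'' := by
    intro a a' a'' sa sa' sa'' i1 i2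
    by_contra hx
    obtain ⟨b, hb⟩ := sa.2.1
    obtain ⟨b'', hb''⟩ := sa''.2.1
    obtain ⟨b0, hb0, hcb0, ha'b0⟩ := sa'.2.2
    have e1 : E a b0 := by
      by_contra h
      exact (i1 b0 ⟨hb0, hcb0, h⟩).2.2 ha'b0
    have e2 : E a'' b0 := by
      by_contra h
      exact (i2 b0 ⟨hb0, hcb0, h⟩).2.2 ha'b0
    have e3 : E a'' b := by
      by_contra h
      exact hx ⟨b, hb, hb.1, hb.2.1, h⟩
    have e4 : E a b'' := by
      by_contra h
      exact hx ⟨b'', ⟨hb''.1, hb''.2.1, h⟩, hb''⟩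
    exact h2 b0 hb0 b hb.1 b'' hb''.1 a' sa'.1 a'' sa''.1 a sa.1 ha'b0 e2 e1 e3 e4
      (i1 b hb).2.2 hb.2.2 (i2 b'' hb'').2.2 hb''.2.2
  have Rtrans : ∀ a a' a'', S a → S a' → S a'' → R a a' → R a' a'' → R a a'' := by
    intro a a' a'' sa sa' sa'' r r'
    rcases Lam1 a sa.1 a' sa'.1 r with i | i
    · rcases Lam1 a' sa'.1 a'' sa''.1 r' with j | j
      · obtain ⟨b, hb⟩ := sa.2.1
        exact ⟨b, hb, j b (i b hb)⟩
      · exact Br a a' a'' sa sa' sa'' i j
    · obtain ⟨b, hb, hb'⟩ := r'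
      exact ⟨b, i b hb, hb'⟩
  -- a common point outside both
  have out : ∀ a a', S a → S a' → R a a' → ∃ b ∈ B, E c b ∧ E a b ∧ E a' b := by
    intro a a' sa sa' r
    rcases Lam1 a sa.1 a' sa'.1 r with i | i
    · obtain ⟨b, hb, hcb, hab⟩ := sa'.2.2
      refine ⟨b, hb, hcb, ?_, hab⟩
      by_contra h
      exact (i b ⟨hb, hcb, h⟩).2.2 hab
    · obtain ⟨b, hb, hcb, hab⟩ := sa.2.2
      refine ⟨b, hb, hcb, hab, ?_⟩
      by_contra h
      exact (i b ⟨hb, hcb, h⟩).2.2 hab
  -- (F5)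
  have F5 : ∀ x x', S x → S x' → R x x' → ∀ y ∈ B, ¬ E c y → E x y → E x' y := by
    intro x x' sx sx' r y hy hcy hxy
    by_contra hx'y
    obtain ⟨b0, hb0, hcb0, hxb0, hx'b0⟩ := out x x' sx sx' r
    obtain ⟨b', hb', hb''⟩ := r
    exact h2 b0 hb0 b' hb'.1 y hy x' sx'.1 c hcA x sx.1 hx'b0 hcb0 hxb0 hb'.2.1 hxy
      hb''.2.2 hb'.2.2 hx'y hcy
  -- (F3)
  have F3 : ∀ a a', S a → S a' → ¬ R a a' → ∀ b ∈ B, ¬ E c b → E a b → E a' b →
      ∀ y ∈ B, ¬ E c y → E a y → E a' y := by
    intro a a' sa sa' nr b hb hcb hab ha'b y hy hcy hay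
    by_contra ha'y
    obtain ⟨r', hr'⟩ := sa'.2.1
    have e1 : E a r' := by
      by_contra h
      exact nr ⟨r', ⟨hr'.1, hr'.2.1, h⟩, hr'⟩
    exact h1 a sa.1 a' sa'.1 c hcA y hy b hb r' hr'.1 hay hab e1 ha'b hr'.2.1 ha'y hr'.2.2 hcy hcb
  -- (E)
  have EE : ∀ a a', S a → S a' → ¬ R a a' → ∀ b ∈ B, E a b → E a' b → ∀ e, Z e → ¬ E e b := by
    intro a a' sa sa' nr b hb hab ha'b e ze heb
    obtain ⟨r, hr⟩ := sa.2.1
    obtain ⟨r', hr'⟩ := sa'.2.1
    have e1 : E a r' := by
      by_contra h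
      exact nr ⟨r', ⟨hr'.1, hr'.2.1, h⟩, hr'⟩
    have e2 : E a' r := by
      by_contra h
      exact nr ⟨r, hr, hr.1, hr.2.1, h⟩
    exact h2 b hb r' hr'.1 r hr.1 e ze.1 a sa.1 a' sa'.1 heb hab ha'b e1 e2
      (ze.2 r' hr'.1 hr'.2.1) hr'.2.2 (ze.2 r hr.1 hr.2.1) hr.2.2
  -- (F6)
  have F6 : ∀ e a, Z e → S a → ∀ y ∈ B, ∀ y' ∈ B, ¬ E c y → ¬ E c y' → E a y → E a y' →
      E e y → E e y' := by
    intro e a ze sa y hy y' hy' hcy hcy' hay hay' hey
    by_contra hey'
    obtain ⟨r, hr, hcr, har⟩ := sa.2.2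
    exact h1 a sa.1 e ze.1 c hcA y' hy' y hy r hr hay' hay har hey hcr hey' (ze.2 r hr hcr)
      hcy' hcy
  -- (One)
  have One0 : ∀ a, S a → ∀ y ∈ B, ∀ y' ∈ B, ¬ E c y → ¬ E c y' → E a y → E a y' →
      ∀ x ∈ A, E x y → E x y' := by
    intro a sa y hy y' hy' hcy hcy' hay hay' x hx hxy
    rcases tri x hx with h | h | h
    · subst h; exact absurd hxy hcy
    · by_cases r : R a x
      · exact F5 a x sa h r y' hy' hcy' hay'
      · exact F3 a x sa h r y hy hcy hay hxy y' hy' hcy' hay'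
    · exact F6 x a h sa y hy y' hy' hcy hcy' hay hay' hxy
  have One : ∀ a, S a → ∀ y ∈ B, ∀ y' ∈ B, ¬ E c y → ¬ E c y' → E a y → E a y' → y = y' := by
    intro a sa y hy y' hy' hcy hcy' hay hay'
    exact tB y hy y' hy' fun x hx =>
      ⟨One0 a sa y hy y' hy' hcy hcy' hay hay' x hx, One0 a sa y' hy' y hy hcy' hcy hay' hay x hx⟩
  -- (F7)
  have F7a : ∀ a a', S a → S a' → ∀ y ∈ B, ∀ y' ∈ B, ¬ E c y → ¬ E c y' → E a y → E a' y' →
      y ≠ y' → ∀ b ∈ B, E c b → E a b → ¬ E a' b := by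
    intro a a' sa sa' y hy y' hy' hcy hcy' hay ha'y' hne b hb hcb hab ha'b
    have n1 : ¬ E a y' := fun h => hne (One a sa y hy y' hy' hcy hcy' hay h)
    have n2 : ¬ E a' y := fun h => hne (One a' sa' y hy y' hy' hcy hcy' h ha'y')
    exact h2 b hb y hy y' hy' c hcA a sa.1 a' sa'.1 hcb hab ha'b hay ha'y' hcy n2 hcy' n1
  have F7b : ∀ a a', S a → S a' → ∀ y ∈ B, ∀ y' ∈ B, ¬ E c y → ¬ E c y' → E a y → E a' y' →
      y ≠ y' → ∀ r1 r2, D a r1 → D a r2 → r1 = r2 := by
    intro a a' sa sa' y hy y' hy' hcy hcy' hay ha'y' hne r1 r2 hr1 hr2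
    by_contra hr
    have nr : ¬ R a a' := fun r =>
      hne (One a' sa' y hy y' hy' hcy hcy' (F5 a a' sa sa' r y hy hcy hay) ha'y')
    have key : ∀ r1 r2, D a r1 → D a r2 → ∀ x ∈ A, E x r1 → ¬ E x r2 → False := by
      intro r1 r2 hr1 hr2 x hx hx1 hx2
      have sx : S x := ⟨hx, ⟨r2, hr2.1, hr2.2.1, hx2⟩, ⟨r1, hr1.1, hr1.2.1, hx1⟩⟩
      have rx : R a x := ⟨r2, hr2, hr2.1, hr2.2.1, hx2⟩
      have hxy := F5 a x sa sx rx y hy hcy hay
      have := F7a x a' sx sa' y hy y' hy' hcy hcy' hxy ha'y' hne r1 hr1.1 hr1.2.1 hx1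
      exact nr ⟨r1, hr1, hr1.1, hr1.2.1, this⟩
    obtain ⟨x, hx, h | h⟩ := tB' r1 hr1.1 r2 hr2.1 hr
    · exact key r1 r2 hr1 hr2 x hx h.1 h.2
    · exact key r2 r1 hr2 hr1 x hx h.1 h.2
  have F7 : ∀ a a', S a → S a' → ∀ y ∈ B, ∀ y' ∈ B, ¬ E c y → ¬ E c y' → E a y → E a' y' →
      y = y' := by
    intro a a' sa sa' y hy y' hy' hcy hcy' hay ha'y'
    by_contra hne
    have k1 := F7a a a' sa sa' y hy y' hy' hcy hcy' hay ha'y' hne
    have k2 := F7b a a' sa sa' y hy y' hy' hcy hcy' hay ha'y' hne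
    have k3 := F7b a' a sa' sa y' hy' y hy hcy' hcy ha'y' hay (Ne.symm hne)
    have cov : ∀ b, b ∈ B → E c b → D a b ∨ D a' b := by
      intro b hb hcb
      by_cases h : E a b
      · exact Or.inr ⟨hb, hcb, k1 b hb hcb h⟩
      · exact Or.inl ⟨hb, hcb, h⟩
    rcases cov u1 hu1.1 hu1.2 with p1 | p1 <;> rcases cov u2 hu2.1 hu2.2 with p2 | p2 <;>
      rcases cov u3 hu3.1 hu3.2 with p3 | p3
    · exact hu12 (k2 _ _ p1 p2)
    · exact hu12 (k2 _ _ p1 p2)
    · exact hu13 (k2 _ _ p1 p3)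
    · exact hu23 (k3 _ _ p2 p3)
    · exact hu23 (k2 _ _ p2 p3)
    · exact hu13 (k3 _ _ p1 p3)
    · exact hu12 (k3 _ _ p1 p2)
    · exact hu12 (k3 _ _ p1 p2)
  -- some `a0 ∈ A*` has a neighbour in B1
  have ex : ∃ a, S a ∧ ∃ y ∈ B, ¬ E c y ∧ E a y := by
    by_contra hx
    push Not at hx
    rcases hc (A.filter (fun a => a = c ∨ S a)) (Finset.filter_subset _ _)
      (B.filter (fun b => E c b)) (Finset.filter_subset _ _) (by
        intro a ha b hb hab
        simp only [Finset.mem_filter, ha, hb, true_and]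
        constructor
        · rintro (h | h)
          · rw [← h]; exact hab
          · by_contra hcb
            exact hx a h b hb hcb hab
        · intro hcb
          rcases tri a ha with h | h | h
          · exact Or.inl h
          · exact Or.inr h
          · exact absurd hab (h.2 b hb hcb)) with h | h
    · have : c ∈ A.filter (fun a => a = c ∨ S a) := by simp [hcA]
      rw [h.1] at this
      simp at this
    · obtain ⟨b, hb, hcb⟩ := hB1
      have : b ∈ B.filter (fun b => E c b) := by rw [h.2]; exact hb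
      simp only [Finset.mem_filter] at this
      exact hcb this.2
  obtain ⟨a0, sa0, y, hy, hcy, ha0y⟩ := ex
  have NS : ∀ a, S a → ∀ b ∈ B, E a b → E c b ∨ b = y := by
    intro a sa b hb hab
    by_cases h : E c b
    · exact Or.inl h
    · exact Or.inr (F7 a a0 sa sa0 b hb y hy h hcy hab ha0y)
  -- there is e ∈ A0 adjacent to y
  have exe : ∃ e, Z e ∧ E e y := by
    by_contra hx
    push Not at hx
    have hall : (∀ a ∈ A, a = c ∨ S a) ∧ (∀ b ∈ B, E c b ∨ b = y) := by
      rcases hc (A.filter (fun a => a = c ∨ S a)) (Finset.filter_subset _ _)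
        (B.filter (fun b => E c b ∨ b = y)) (Finset.filter_subset _ _) (by
          intro a ha b hb hab
          simp only [Finset.mem_filter, ha, hb, true_and]
          constructor
          · rintro (h | h)
            · rw [← h]; exact Or.inl hab
            · exact NS a h b hb hab
          · intro hcb
            rcases tri a ha with h | h | h
            · exact Or.inl h
            · exact Or.inr h
            · exfalso
              rcases hcb with hcb | hcb
              · exact h.2 b hb hcb hab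
              · subst hcb; exact hx a h hab) with h | h
      · have : c ∈ A.filter (fun a => a = c ∨ S a) := by simp [hcA]
        rw [h.1] at this
        simp at this
      · constructor
        · intro a ha
          have : a ∈ A.filter (fun a => a = c ∨ S a) := by rw [h.1]; exact ha
          simp only [Finset.mem_filter] at this
          exact this.2
        · intro b hb
          have : b ∈ B.filter (fun b => E c b ∨ b = y) := by rw [h.2]; exact hb
          simp only [Finset.mem_filter] at this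
          exact this.2
    rcases hcc (A.filter (fun a => S a ∧ R a a0)) (Finset.filter_subset _ _)
      (B.filter (fun b => ∃ a, (S a ∧ R a a0) ∧ D a b)) (Finset.filter_subset _ _) (by
        intro a ha b hb hab
        simp only [Finset.mem_filter, ha, hb, true_and]
        constructor
        · intro h
          refine ⟨a, h, hb, ?_, hab⟩
          rcases hall.2 b hb with h' | h'
          · exact h'
          · exfalso
            rw [h'] at hab
            exact hab (F5 a0 a sa0 h.1 (Rsymm _ _ h.2) y hy hcy ha0y)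
        · rintro ⟨a', ⟨sa', ra'⟩, hDa'⟩
          have sa : S a := by
            rcases hall.1 a ha with h | h
            · exfalso
              subst h
              exact hab hDa'.2.1
            · exact h
          refine ⟨sa, Rtrans a a' a0 sa sa' sa0 ⟨b, ⟨hb, hDa'.2.1, hab⟩, hDa'⟩ ra'⟩) with h | h
    · have : a0 ∈ A.filter (fun a => S a ∧ R a a0) := by
        obtain ⟨b, hb⟩ := sa0.2.1
        simp only [Finset.mem_filter]
        exact ⟨sa0.1, sa0, b, hb, hb⟩
      rw [h.1] at this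
      simp at this
    · have : c ∈ A.filter (fun a => S a ∧ R a a0) := by rw [h.1]; exact hcA
      simp only [Finset.mem_filter] at this
      obtain ⟨b, hb⟩ := this.2.1.2.1
      exact hb.2.2 hb.2.1
  obtain ⟨e, ze, hey⟩ := exe
  have RA : ∀ a a', S a → S a' → E a y → E a' y → R a a' := by
    intro a a' sa sa' hay ha'y
    by_contra nr
    exact EE a a' sa sa' nr y hy hay ha'y e ze hey
  by_cases hb1 : ∃ a a' b, S a ∧ S a' ∧ E a y ∧ E a' y ∧ D a' b ∧ E a b
  · -- (β1)
    obtain ⟨a, a', b, sa, sa', hay, ha'y, hb, hab⟩ := hb1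
    have Ne : ∀ e, Z e → E e y → ∀ z ∈ B, E e z → z = y := by
      intro e ze hey z hz hez
      by_contra hzy
      have hcz : ¬ E c z := fun h => ze.2 z hz h hez
      have n1 : ∀ x, S x → ¬ E x z := by
        intro x sx hxz
        rcases NS x sx z hz hxz with h | h
        · exact hcz h
        · exact hzy h
      exact h2 y hy b hb.1 z hz a' sa'.1 a sa.1 e ze.1 ha'y hay hey hab hez hb.2.2
        (ze.2 b hb.1 hb.2.1) (n1 a' sa') (n1 a sa)
    have hall : (∀ a ∈ A, a = c ∨ S a ∨ (Z a ∧ E a y)) ∧ (∀ b ∈ B, E c b ∨ b = y) := by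
      rcases hc (A.filter (fun a => a = c ∨ S a ∨ (Z a ∧ E a y))) (Finset.filter_subset _ _)
        (B.filter (fun b => E c b ∨ b = y)) (Finset.filter_subset _ _) (by
          intro a ha b hb hab
          simp only [Finset.mem_filter, ha, hb, true_and]
          constructor
          · rintro (h | h | h)
            · rw [← h]; exact Or.inl hab
            · exact NS a h b hb hab
            · exact Or.inr (Ne a h.1 h.2 b hb hab)
          · intro hcb
            rcases tri a ha with h | h | h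
            · exact Or.inl h
            · exact Or.inr (Or.inl h)
            · rcases hcb with hcb | hcb
              · exact absurd hab (h.2 b hb hcb)
              · subst hcb; exact Or.inr (Or.inr ⟨h, hab⟩)) with h | h
      · have : c ∈ A.filter (fun a => a = c ∨ S a ∨ (Z a ∧ E a y)) := by simp [hcA]
        rw [h.1] at this
        simp at this
      · constructor
        · intro a ha
          have : a ∈ A.filter (fun a => a = c ∨ S a ∨ (Z a ∧ E a y)) := by rw [h.1]; exact ha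
          simp only [Finset.mem_filter] at this
          exact this.2
        · intro b hb
          have : b ∈ B.filter (fun b => E c b ∨ b = y) := by rw [h.2]; exact hb
          simp only [Finset.mem_filter] at this
          exact this.2
    have hx2 : ∃ x, S x ∧ ¬ E x y := by
      by_contra hx
      push Not at hx
      rcases hcc {c} (by simpa using hcA) {y} (by simpa using hy) (by
        intro a ha b hb hab
        simp only [Finset.mem_singleton]
        constructor
        · intro h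
          rw [h] at hab
          rcases hall.2 b hb with h' | h'
          · exact absurd h' hab
          · exact h'
        · intro h
          rw [h] at hab
          rcases hall.1 a ha with h' | h' | h'
          · exact h'
          · exact absurd (hx a h') hab
          · exact absurd h'.2 hab) with h | h
      · simp at h
      · have : a0 ∈ ({c} : Finset α) := by rw [h.1]; exact sa0.1
        simp only [Finset.mem_singleton] at this
        rw [this] at ha0y
        exact hcy ha0y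
    obtain ⟨x, sx, hxy⟩ := hx2
    obtain ⟨r, hr⟩ := sx.2.1
    have nr : ∀ a, S a → E a y → ¬ R a x := fun a sa hay r =>
      hxy (F5 a x sa sx r y hy hcy hay)
    have e1 : E a r := by
      by_contra h
      exact nr a sa hay ⟨r, ⟨hr.1, hr.2.1, h⟩, hr⟩
    have e2 : E x b := by
      by_contra h
      exact nr a' sa' ha'y ⟨b, hb, hb.1, hb.2.1, h⟩
    exact h1 a sa.1 e ze.1 x sx.1 r hr.1 y hy b hb.1 e1 hay hab hey e2
      (ze.2 r hr.1 hr.2.1) (ze.2 b hb.1 hb.2.1) hr.2.2 hxy
  · -- (β2)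
    push Not at hb1
    have hD' : ∀ a a', S a → S a' → E a y → E a' y → ∀ b ∈ B, E c b → E a b → E a' b := by
      intro a a' sa sa' hay ha'y b hb hcb hab
      by_contra h
      exact hb1 a a' b sa sa' hay ha'y ⟨hb, hcb, h⟩ hab
    have uniq : ∀ a, S a → E a y → a = a0 := by
      intro a sa hay
      refine tA a sa.1 a0 sa0.1 fun b hb => ?_
      constructor
      · intro h
        rcases NS a sa b hb h with h' | h'
        · exact hD' a a0 sa sa0 hay ha0y b hb h' h
        · rw [h']; exact ha0y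
      · intro h
        rcases NS a0 sa0 b hb h with h' | h'
        · exact hD' a0 a sa0 sa ha0y hay b hb h' h
        · rw [h']; exact hay
    have D1' : ∀ b1 b2, D a0 b1 → D a0 b2 → ∀ x ∈ A, E x b1 → ¬ E x b2 → False := by
      intro b1 b2 d1 d2 x hx e1 e2
      have sx : S x := ⟨hx, ⟨b2, d2.1, d2.2.1, e2⟩, ⟨b1, d1.1, d1.2.1, e1⟩⟩
      have hxy := F5 a0 x sa0 sx ⟨b2, d2, d2.1, d2.2.1, e2⟩ y hy hcy ha0y
      have := uniq x sx hxy
      rw [this] at e1
      exact d1.2.2 e1
    have D1 : ∀ b1 b2, D a0 b1 → D a0 b2 → b1 = b2 := by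
      intro b1 b2 d1 d2
      by_contra hne
      obtain ⟨x, hx, h | h⟩ := tB' b1 d1.1 b2 d2.1 hne
      · exact D1' b1 b2 d1 d2 x hx h.1 h.2
      · exact D1' b2 b1 d2 d1 x hx h.1 h.2
    have D2' : ∀ r r', r ∈ B → r' ∈ B → E c r → E c r' → E a0 r → E a0 r' → ∀ x ∈ A, E x r →
        ¬ E x r' → False := by
      intro r r' hr hr' hcr hcr' har har' x hx hxr hxr'
      have sx : S x := ⟨hx, ⟨r', hr', hcr', hxr'⟩, ⟨r, hr, hcr, hxr⟩⟩
      have hxy : ¬ E x y := by
        intro h
        rw [uniq x sx h] at hxr'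
        exact hxr' har'
      exact h1 a0 sa0.1 e ze.1 x sx.1 r' hr' y hy r hr har' ha0y har hey hxr
        (ze.2 r' hr' hcr') (ze.2 r hr hcr) hxr' hxy
    have D2 : ∀ r r', r ∈ B → r' ∈ B → E c r → E c r' → E a0 r → E a0 r' → r = r' := by
      intro r r' hr hr' hcr hcr' har har'
      by_contra hne
      obtain ⟨x, hx, h | h⟩ := tB' r hr r' hr' hne
      · exact D2' r r' hr hr' hcr hcr' har har' x hx h.1 h.2
      · exact D2' r' r hr' hr hcr' hcr har' har x hx h.1 h.2
    by_cases p1 : E a0 u1 <;> by_cases p2 : E a0 u2 <;> by_cases p3 : E a0 u3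
    · exact hu12 (D2 _ _ hu1.1 hu2.1 hu1.2 hu2.2 p1 p2)
    · exact hu12 (D2 _ _ hu1.1 hu2.1 hu1.2 hu2.2 p1 p2)
    · exact hu13 (D2 _ _ hu1.1 hu3.1 hu1.2 hu3.2 p1 p3)
    · exact hu23 (D1 _ _ ⟨hu2.1, hu2.2, p2⟩ ⟨hu3.1, hu3.2, p3⟩)
    · exact hu23 (D2 _ _ hu2.1 hu3.1 hu2.2 hu3.2 p2 p3)
    · exact hu13 (D1 _ _ ⟨hu1.1, hu1.2, p1⟩ ⟨hu3.1, hu3.2, p3⟩)
    · exact hu12 (D1 _ _ ⟨hu1.1, hu1.2, p1⟩ ⟨hu2.1, hu2.2, p2⟩)
    · exact hu12 (D1 _ _ ⟨hu1.1, hu1.2, p1⟩ ⟨hu2.1, hu2.2, p2⟩)

end Pool.Agent.Helper856.Lcw.S122Core
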