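import Pool.Agent.Helper856.Lcw.Base
import Pool.Agent.Helper856.Lcw.PathL
import Pool.Agent.Helper856.Lcw.S122Core
import Pool.Agent.Helper856.Lcw.S122Chain

open Classical

namespace Pool.Agent.Helper856.Lcw

variable {α β : Type} {E E' : α → β → Prop} {A A' : Finset α} {B B' : Finset β} {k l : ℕ}

theorem Lam.subset (h : Lam E A B) (hA : A' ⊆ A) (hB : B' ⊆ B) : Lam E A' B' :=
  fun c hc a1 h1 a2 h2 b1 g1 b2 g2 b3 g3 =>
    h c (hA hc) a1 (hA h1) a2 (hA h2) b1 (hB g1) b2 (hB g2) b3 (hB g3)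

theorem Conn.swap (h : Conn E A B) : Conn (fun b a => E a b) B A := by
  intro Y hY X hX hcl
  rcases h X hX Y hY (fun a ha b hb hE => (hcl b hb a ha hE).symm) with h | h
  · exact Or.inl ⟨h.2, h.1⟩
  · exact Or.inr ⟨h.2, h.1⟩

/-- connectivity passes to representatives -/
theorem Conn.reps (h : Conn E A B) (f : α → α) (g : β → β) (hA' : A' ⊆ A) (hB' : B' ⊆ B)
    (hf : ∀ a ∈ A, f a ∈ A') (hg : ∀ b ∈ B, g b ∈ B')
    (hE : ∀ a ∈ A, ∀ b ∈ B, (E a b ↔ E (f a) (g b)))
    (hfA : ∀ a ∈ A', f a = a) (hgB : ∀ b ∈ B', g b = b) : Conn E A' B' := by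
  intro X hX Y hY hcl
  have := h (A.filter (fun a => f a ∈ X)) (Finset.filter_subset _ _)
    (B.filter (fun b => g b ∈ Y)) (Finset.filter_subset _ _) (by
      intro a ha b hb hab
      simp only [Finset.mem_filter, ha, hb, true_and]
      exact hcl _ (hf a ha) _ (hg b hb) ((hE a ha b hb).mp hab))
  rcases this with ⟨h1, h2⟩ | ⟨h1, h2⟩
  · left
    constructor
    · rw [Finset.eq_empty_iff_forall_notMem]
      intro x hx
      have : x ∈ A.filter (fun a => f a ∈ X) := by
        simp only [Finset.mem_filter, hfA x (hX hx)]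
        exact ⟨hA' (hX hx), hx⟩
      rw [h1] at this
      simp at this
    · rw [Finset.eq_empty_iff_forall_notMem]
      intro x hx
      have : x ∈ B.filter (fun b => g b ∈ Y) := by
        simp only [Finset.mem_filter, hgB x (hY hx)]
        exact ⟨hB' (hY hx), hx⟩
      rw [h2] at this
      simp at this
  · right
    constructor
    · refine Finset.Subset.antisymm hX (fun x hx => ?_)
      have hxA := hA' hx
      rw [← h1] at hxA
      have := (Finset.mem_filter.mp hxA).2
      rwa [hfA x hx] at this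
    · refine Finset.Subset.antisymm hY (fun x hx => ?_)
      have hxB := hB' hx
      rw [← h2] at hxB
      have := (Finset.mem_filter.mp hxB).2
      rwa [hgB x hx] at this

theorem BLin.of_empty_right (h : B = ∅) : BLin 1 E A B := by
  subst h
  refine ⟨fun _ => 0, fun _ => 0, fun a _ b hb => by simp at hb, fun t =>
    ⟨⟨fun _ => 0, fun a _ a' _ _ _ _ b hb => by simp at hb⟩,
     ⟨fun _ => 0, fun b hb => by simp at hb⟩⟩⟩

theorem BLin.of_empty_left (h : A = ∅) : BLin 1 E A B := by
  subst h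
  refine ⟨fun _ => 0, fun _ => 0, fun a ha => by simp at ha, fun t =>
    ⟨⟨fun _ => 0, fun a ha => by simp at ha⟩,
     ⟨fun _ => 0, fun b _ b' _ _ _ _ a ha => by simp at ha⟩⟩⟩

/-- co-connected and connected case -/
theorem S122_cc (h1 : Lam E A B) (h2 : Lam (fun b a => E a b) B A) (hc : Conn E A B)
    (hcc : Conn (fun a b => ¬ E a b) A B) : BLin 3 E A B := by
  obtain ⟨f, g, A', B', hA', hB', hf, hg, hEf, hEg, tA, tB⟩ := exists_twinfree E A B
  have hE : ∀ a ∈ A, ∀ b ∈ B, (E a b ↔ E (f a) (g b)) := fun a ha b hb =>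
    (hEf a ha b hb).trans (hEg (f a) (hA' (hf a ha)) b hb)
  have hfA : ∀ a ∈ A', f a = a := fun a ha =>
    tA _ (hf a (hA' ha)) _ ha (fun b hb => (hEf a (hA' ha) b (hB' hb)).symm)
  have hgB : ∀ b ∈ B', g b = b := fun b hb =>
    tB _ (hg b (hB' hb)) _ hb (fun a ha => (hEg a (hA' ha) b (hB' hb)).symm)
  have hE' : ∀ a ∈ A, ∀ b ∈ B, (¬ E a b ↔ ¬ E (f a) (g b)) := fun a ha b hb =>
    not_congr (hE a ha b hb)
  have c1 : Conn E A' B' := Conn.reps hc f g hA' hB' hf hg hE hfA hgB
  have c2 : Conn (fun a b => ¬ E a b) A' B' :=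
    Conn.reps (E := fun a b => ¬ E a b) hcc f g hA' hB' hf hg hE' hfA hgB
  have dA := S122Core.S122_core (Lam.subset h1 hA' hB') (Lam.subset h2 hB' hA') c1 c2 tA tB
  have dB := S122Core.S122_core (E := fun b a => E a b) (A := B') (B := A')
    (Lam.subset h2 hB' hA') (Lam.subset h1 hA' hB') (Conn.swap c1)
    (Conn.swap (E := fun a b => ¬ E a b) c2) tB tA
  exact BLin.of_reps f g hf hg hE (PathL.path_lemma dA dB)

theorem S122_conn (h1 : Lam E A B) (h2 : Lam (fun b a => E a b) B A) (hc : Conn E A B) :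
    BLin 4 E A B := by
  by_cases hneA : ∀ a ∈ A, ∃ b ∈ B, E a b
  swap
  · push Not at hneA
    obtain ⟨a, ha, hno⟩ := hneA
    rcases hc {a} (by simpa using ha) ∅ (by simp) (by
      intro x hx b hb hE
      simp only [Finset.mem_singleton, Finset.notMem_empty, iff_false]
      rintro rfl
      exact hno b hb hE) with h | h
    · exact absurd h.1 (by simp)
    · exact (BLin.of_empty_right h.2.symm).mono_k (by omega)
  by_cases hneB : ∀ b ∈ B, ∃ a ∈ A, E a b
  swap
  · push Not at hneB
    obtain ⟨b, hb, hno⟩ := hneB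
    rcases hc ∅ (by simp) {b} (by simpa using hb) (by
      intro a ha x hx hE
      simp only [Finset.mem_singleton, Finset.notMem_empty, false_iff]
      rintro rfl
      exact hno a ha hE) with h | h
    · exact absurd h.2 (by simp)
    · exact (BLin.of_empty_left h.1.symm).mono_k (by omega)
  apply BLin.of_compl
  refine BLin.of_components (k := 3) ?_
  intro A' hA' B' hB' hcl hconn
  by_cases hprop : A' ≠ A ∨ B' ≠ B
  · have := S122Chain.S122_chain h1 h2 hneA hneB hA' hB' hcl hconn hprop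
    exact (BLin.compl (chain_lemma this)).mono_k (by omega)
  · push Not at hprop
    obtain ⟨rfl, rfl⟩ := hprop
    exact BLin.compl (S122_cc h1 h2 hc hconn)

theorem S122_main (h1 : Lam E A B) (h2 : Lam (fun b a => E a b) B A) : BLin 5 E A B := by
  refine BLin.of_components (k := 4) ?_
  intro A' hA' B' hB' _ hc
  exact S122_conn (Lam.subset h1 hA' hB') (Lam.subset h2 hB' hA') hc

end Pool.Agent.Helper856.Lcw
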