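import Pool.Agent.Helper856.Lcw.GBase

open Classical SimpleGraph

namespace Pool.Agent.Helper856.Lcw.FamGrid

/-- vertices of the grid graph -/
inductive GV (m : ℕ)
  | a (i j : Fin m)
  | b (i j : Fin m)
  | al (i : Fin m)
  | be (j : Fin m)

namespace GV

/-- side -/
def side {m : ℕ} : GV m → Bool
  | a _ _ => true
  | al _ => true
  | b _ _ => false
  | be _ => false

/-- the relation from side true to side false -/
def R {m : ℕ} : GV m → GV m → Prop
  | a i j, b i' j' => i = i' ∧ j = j'
  | a _ j, be l => j ≤ l
  | al l, b i _ => i ≤ l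
  | al _, be _ => True
  | _, _ => False

/-- chain part of the relation -/
def RC {m : ℕ} : GV m → GV m → Prop
  | a _ j, be l => j ≤ l
  | al l, b i _ => i ≤ l
  | al _, be _ => True
  | _, _ => False

lemma R_side {m : ℕ} {u v : GV m} (h : R u v) : side u = true ∧ side v = false := by
  cases u <;> cases v <;> simp [R, side] at h ⊢

lemma RC_R {m : ℕ} {u v : GV m} (h : RC u v) : R u v := by
  cases u <;> cases v <;> simp [R, RC] at h ⊢ <;> exact h

/-- the graph -/
def G (m : ℕ) : SimpleGraph (GV m) where
  Adj u v := R u v ∨ R v u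
  symm := ⟨fun _ _ h => h.symm⟩
  loopless := ⟨fun u h => by
    rcases h with h | h <;> (have := R_side h; simp_all)⟩

lemma adj_iff {m : ℕ} (u v : GV m) : (G m).Adj u v ↔ R u v ∨ R v u := Iff.rfl

instance finite (m : ℕ) : Finite (GV m) := by
  apply Finite.of_injective (β := (Fin m × Fin m) ⊕ (Fin m × Fin m) ⊕ Fin m ⊕ Fin m)
    (fun v => match v with
      | a i j => Sum.inl (i, j)
      | b i j => Sum.inr (Sum.inl (i, j))
      | al i => Sum.inr (Sum.inr (Sum.inl i))
      | be j => Sum.inr (Sum.inr (Sum.inr j)))
  intro u v h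
  cases u <;> cases v <;> simp_all

lemma chain {m : ℕ} {u v u' v' : GV m} (h : RC u v) (h' : RC u' v') : R u v' ∨ R u' v := by
  cases u with
  | a i j =>
    cases v with
    | be l =>
      cases u' with
      | a i' j' =>
        cases v' with
        | be l' =>
          simp only [RC, R] at h h' ⊢
          rcases le_total l l' with h1 | h1
          · left; exact h.trans h1
          · right; exact h'.trans h1
        | _ => exact absurd h' (by simp [RC])
      | al l' => right; simp [R]
      | _ => cases v' <;> exact absurd h' (by simp [RC])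
    | _ => exact absurd h (by simp [RC])
  | al l =>
    cases v' with
    | be l' => left; simp [R]
    | b i' j' =>
      cases v with
      | be l'' =>
        cases u' with
        | al l1 => right; simp [R]
        | _ => exact absurd h' (by simp [RC])
      | b i j =>
        cases u' with
        | al l1 =>
          simp only [RC, R] at h h' ⊢
          rcases le_total l l1 with h1 | h1
          · right; exact h.trans h1
          · left; exact h'.trans h1
        | _ => exact absurd h' (by simp [RC])
      | _ => exact absurd h (by simp [RC])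
    | _ => cases u' <;> exact absurd h' (by simp [RC])
  | _ => cases v <;> exact absurd h (by simp [RC])

/-- in a path `x - c - y` one of the two edges is a chain edge -/
lemma pick_true {m : ℕ} {c x y : GV m} (hxy : x ≠ y) (hx : R c x) (hy : R c y) :
    ∃ z, (z = x ∨ z = y) ∧ RC c z := by
  cases c with
  | a i j =>
    cases x with
    | b i' j' =>
      cases y with
      | b i'' j'' =>
        exfalso
        simp only [R] at hx hy
        apply hxy
        rw [← hx.1, ← hx.2, ← hy.1, ← hy.2]
      | be l => exact ⟨_, Or.inr rfl, hy⟩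
      | _ => exact absurd hy (by simp [R])
    | be l => exact ⟨_, Or.inl rfl, hx⟩
    | _ => exact absurd hx (by simp [R])
  | al l =>
    refine ⟨x, Or.inl rfl, ?_⟩
    cases x <;> simp [R, RC] at hx ⊢ <;> exact hx
  | _ => cases x <;> exact absurd hx (by simp [R])

lemma pick_false {m : ℕ} {c x y : GV m} (hxy : x ≠ y) (hx : R x c) (hy : R y c) :
    ∃ z, (z = x ∨ z = y) ∧ RC z c := by
  cases c with
  | b i j =>
    cases x with
    | a i' j' =>
      cases y with
      | a i'' j'' =>
        exfalso
        simp only [R] at hx hy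
        apply hxy
        rw [hx.1, hx.2, hy.1, hy.2]
      | al l => exact ⟨_, Or.inr rfl, hy⟩
      | _ => exact absurd hy (by simp [R])
    | al l => exact ⟨_, Or.inl rfl, hx⟩
    | _ => exact absurd hx (by simp [R])
  | be l =>
    refine ⟨x, Or.inl rfl, ?_⟩
    cases x <;> simp [R, RC] at hx ⊢ <;> exact hx
  | _ => cases x <;> exact absurd hx (by simp [R])

lemma pick {m : ℕ} {c x y : GV m} (hxy : x ≠ y) (hx : (G m).Adj c x) (hy : (G m).Adj c y) :
    ∃ z, (z = x ∨ z = y) ∧ ((side c = true ∧ RC c z) ∨ (side c = false ∧ RC z c)) := by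
  rw [adj_iff] at hx hy
  cases hs : side c with
  | true =>
    have hx' : R c x := by
      rcases hx with h | h
      · exact h
      · have := (R_side h).2; rw [hs] at this; exact absurd this (by simp)
    have hy' : R c y := by
      rcases hy with h | h
      · exact h
      · have := (R_side h).2; rw [hs] at this; exact absurd this (by simp)
    obtain ⟨z, hz, h⟩ := pick_true hxy hx' hy'
    exact ⟨z, hz, Or.inl ⟨rfl, h⟩⟩
  | false =>
    have hx' : R x c := by
      rcases hx with h | h
      · have := (R_side h).1; rw [hs] at this; exact absurd this (by simp)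
      · exact h
    have hy' : R y c := by
      rcases hy with h | h
      · have := (R_side h).1; rw [hs] at this; exact absurd this (by simp)
      · exact h
    obtain ⟨z, hz, h⟩ := pick_false hxy hx' hy'
    exact ⟨z, hz, Or.inr ⟨rfl, h⟩⟩

end GV

open GV in
theorem exists_grid (k : ℕ) : ∃ (V : Type) (_ : Finite V) (G : SimpleGraph V) (s : V → Bool),
    (∀ u v, G.Adj u v → s u ≠ s v) ∧
    (∀ x c y x' c' y' : V, x ≠ y → x' ≠ y' → G.Adj c x → G.Adj c y → G.Adj c' x' → G.Adj c' y' →
      (G.Adj x c' ∨ G.Adj y c' ∨ G.Adj c x' ∨ G.Adj c y' ∨ G.Adj c c' ∨ G.Adj x x' ∨ G.Adj x y' ∨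
        G.Adj y x' ∨ G.Adj y y' ∨ x = x' ∨ x = y' ∨ y = x' ∨ y = y' ∨ c = c' ∨ c = x' ∨ c = y' ∨
        c' = x ∨ c' = y)) ∧
    ¬ GLin k G := by
  obtain ⟨m, hm⟩ : ∃ m : ℕ, m = 4 * k + 4 := ⟨_, rfl⟩
  refine ⟨GV m, inferInstance, GV.G m, side, ?_, ?_, ?_⟩
  · intro u v h
    rcases h with h | h
    · rw [(R_side h).1, (R_side h).2]; simp
    · rw [(R_side h).1, (R_side h).2]; simp
  · intro x c y x' c' y' hxy hxy' hcx hcy hcx' hcy'
    obtain ⟨z, hz, hc⟩ := pick hxy hcx hcy
    obtain ⟨z', hz', hc'⟩ := pick hxy' hcx' hcy'
    rcases hc with ⟨-, hc⟩ | ⟨-, hc⟩ <;> rcases hc' with ⟨-, hc'⟩ | ⟨-, hc'⟩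
    · -- both true
      rcases chain hc hc' with h | h
      · have : (GV.G m).Adj c z' := Or.inl h
        rcases hz' with rfl | rfl <;> tauto
      · have : (GV.G m).Adj z c' := Or.inr h
        rcases hz with rfl | rfl <;> tauto
    · -- c true, c' false
      rcases chain hc hc' with h | h
      · have : (GV.G m).Adj c c' := Or.inl h
        tauto
      · have : (GV.G m).Adj z z' := Or.inr h
        rcases hz with rfl | rfl <;> rcases hz' with rfl | rfl <;> tauto
    · rcases chain hc hc' with h | h
      · have : (GV.G m).Adj z z' := Or.inl h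
        rcases hz with rfl | rfl <;> rcases hz' with rfl | rfl <;> tauto
      · have : (GV.G m).Adj c c' := Or.inr h
        tauto
    · rcases chain hc hc' with h | h
      · have : (GV.G m).Adj z c' := Or.inl h
        rcases hz with rfl | rfl <;> tauto
      · have : (GV.G m).Adj c z' := Or.inr h
        rcases hz' with rfl | rfl <;> tauto
  · rintro ⟨p, hp, hcol⟩
    -- choice of the threshold
    set NN : ℕ → ℕ := fun t =>
      (Finset.univ.filter (fun ij : Fin m × Fin m => p (b ij.1 ij.2) < t)).card with hNN
    have hN0 : NN 0 = 0 := by simp [hNN]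
    have hNs : ∀ t, NN (t + 1) ≤ NN t + 1 := by
      intro t
      have h1 : (Finset.univ.filter (fun ij : Fin m × Fin m => p (b ij.1 ij.2) < t + 1)) ⊆
          (Finset.univ.filter (fun ij : Fin m × Fin m => p (b ij.1 ij.2) < t)) ∪
          (Finset.univ.filter (fun ij : Fin m × Fin m => p (b ij.1 ij.2) = t)) := by
        intro x hx
        simp only [Finset.mem_filter, Finset.mem_univ, true_and, Finset.mem_union] at hx ⊢
        omega
      have h2 : (Finset.univ.filter (fun ij : Fin m × Fin m => p (b ij.1 ij.2) = t)).card ≤ 1 := by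
        rw [Finset.card_le_one]
        intro x hx y hy
        simp only [Finset.mem_filter, Finset.mem_univ, true_and] at hx hy
        have h3 := hp (hx.trans hy.symm)
        simp only [GV.b.injEq] at h3
        exact Prod.ext h3.1 h3.2
      exact (Finset.card_le_card h1).trans ((Finset.card_union_le _ _).trans (by
        simp only [hNN]; omega))
    obtain ⟨T, hT⟩ : ∃ T, m * m ≤ NN T := by
      have hfin : (Set.range (fun ij : Fin m × Fin m => p (b ij.1 ij.2))).Finite :=
        Set.finite_range _
      obtain ⟨T, hT⟩ := hfin.bddAbove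
      refine ⟨T + 1, ?_⟩
      have : (Finset.univ.filter (fun ij : Fin m × Fin m => p (b ij.1 ij.2) < T + 1)) =
          Finset.univ := by
        apply Finset.filter_true_of_mem
        intro x _
        exact Nat.lt_succ_of_le (hT ⟨x, rfl⟩)
      simp only [hNN]
      rw [this, Finset.card_univ, Fintype.card_prod, Fintype.card_fin]
    have hivt : ∀ H, H ≤ m * m → ∃ t, NN t = H := by
      intro H hH
      induction T with
      | zero =>
        refine ⟨0, ?_⟩
        omega
      | succ T ih =>
        by_cases h1 : m * m ≤ NN T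
        · exact ih h1
        · -- find least
          have hex : ∃ t, H ≤ NN t := ⟨T + 1, hH.trans hT⟩
          refine ⟨Nat.find hex, le_antisymm ?_ (Nat.find_spec hex)⟩
          rcases Nat.eq_zero_or_pos (Nat.find hex) with h0 | h0
          · rw [h0, hN0]; exact Nat.zero_le _
          · have h2 := Nat.find_min hex (m := Nat.find hex - 1) (by omega)
            have h3 := hNs (Nat.find hex - 1)
            have h4 : Nat.find hex - 1 + 1 = Nat.find hex := by omega
            rw [h4] at h3
            omega
    have hmm : m * m = 16 * ((k + 1) * (k + 1)) := by subst hm; ring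
    obtain ⟨t, ht⟩ := hivt (8 * ((k + 1) * (k + 1))) (by omega)
    obtain ⟨c, hc⟩ := hcol t
    -- pigeonhole
    have PH : ∀ (S : Finset (Fin m)) (f : Fin m → GV m), (∀ x ∈ S, p (f x) < t) →
        (∀ x ∈ S, ∀ y ∈ S, x < y → ∃ w, t ≤ p w ∧ ¬ ((GV.G m).Adj (f x) w ↔ (GV.G m).Adj (f y) w)) →
        S.card ≤ k := by
      intro S f h1 h2
      have h3 : S.card ≤ (Finset.univ : Finset (Fin k)).card := by
        apply Finset.card_le_card_of_injOn (fun x => c (f x)) (fun x _ => Finset.mem_univ _)
        intro x hx y hy hxy
        by_contra hne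
        rcases lt_or_gt_of_ne hne with h | h
        · obtain ⟨w, hw1, hw2⟩ := h2 x hx y hy h
          exact hw2 (hc (f x) (f y) (h1 x hx) (h1 y hy) hxy w hw1)
        · obtain ⟨w, hw1, hw2⟩ := h2 y hy x hx h
          exact hw2 (hc (f y) (f x) (h1 y hy) (h1 x hx) hxy.symm w hw1)
      simpa using h3
    -- adjacencies
    have adj_ab : ∀ i j i' j', (GV.G m).Adj (a i j) (b i' j') ↔ i = i' ∧ j = j' := by
      intro i j i' j'; simp [adj_iff, R]
    have adj_ba : ∀ i j i' j', (GV.G m).Adj (b i j) (a i' j') ↔ i' = i ∧ j' = j := by
      intro i j i' j'; simp [adj_iff, R]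
    have adj_albe : ∀ l i j, (GV.G m).Adj (al l) (b i j) ↔ i ≤ l := by
      intro l i j; simp [adj_iff, R]
    have adj_bal : ∀ l i j, (GV.G m).Adj (b i j) (al l) ↔ i ≤ l := by
      intro l i j; simp [adj_iff, R]
    have adj_abe : ∀ l i j, (GV.G m).Adj (a i j) (be l) ↔ j ≤ l := by
      intro l i j; simp [adj_iff, R]
    have adj_bea : ∀ l i j, (GV.G m).Adj (be l) (a i j) ↔ j ≤ l := by
      intro l i j; simp [adj_iff, R]
    -- mixed rows
    set MR : Finset (Fin m) := Finset.univ.filter (fun i =>
      (∃ j, p (b i j) < t) ∧ (∃ j, t ≤ p (b i j))) with hMR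
    have hMRc : MR.card ≤ 2 * k := by
      have h1 : (MR.filter (fun i => p (al i) < t)).card ≤ k := by
        apply PH _ (fun i => al i)
        · intro x hx; exact (Finset.mem_filter.mp hx).2
        · intro x hx y hy hxy
          obtain ⟨j, hj⟩ := (Finset.mem_filter.mp (Finset.mem_filter.mp hy).1).2.2
          refine ⟨b y j, hj, ?_⟩
          rw [adj_albe, adj_albe]
          intro h
          exact absurd (h.mpr le_rfl) (not_le.mpr hxy)
      have h2 : (MR.filter (fun i => ¬ p (al i) < t)).card ≤ k := by
        have hch : ∀ i, ∃ j, i ∈ MR → p (b i j) < t := by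
          intro i
          by_cases hi : i ∈ MR
          · obtain ⟨j, hj⟩ := (Finset.mem_filter.mp hi).2.1
            exact ⟨j, fun _ => hj⟩
          · exact ⟨i, fun h => absurd h hi⟩
        choose e he using hch
        apply PH _ (fun i => b i (e i))
        · intro x hx; exact he x (Finset.mem_filter.mp hx).1
        · intro x hx y hy hxy
          refine ⟨al x, not_lt.mp (Finset.mem_filter.mp hx).2, ?_⟩
          rw [adj_bal, adj_bal]
          intro h
          exact absurd (h.mp le_rfl) (not_le.mpr hxy)
      have h3 := Finset.card_filter_add_card_filter_not (s := MR) (fun i => p (al i) < t)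
      omega
    -- mixed columns
    set MC : Finset (Fin m) := Finset.univ.filter (fun j =>
      (∃ i, p (a i j) < t) ∧ (∃ i, t ≤ p (a i j))) with hMC
    have hMCc : MC.card ≤ 2 * k := by
      have h1 : (MC.filter (fun i => p (be i) < t)).card ≤ k := by
        apply PH _ (fun i => be i)
        · intro x hx; exact (Finset.mem_filter.mp hx).2
        · intro x hx y hy hxy
          obtain ⟨j, hj⟩ := (Finset.mem_filter.mp (Finset.mem_filter.mp hy).1).2.2
          refine ⟨a j y, hj, ?_⟩
          rw [adj_bea, adj_bea]
          intro h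
          exact absurd (h.mpr le_rfl) (not_le.mpr hxy)
      have h2 : (MC.filter (fun i => ¬ p (be i) < t)).card ≤ k := by
        have hch : ∀ i, ∃ j, i ∈ MC → p (a j i) < t := by
          intro i
          by_cases hi : i ∈ MC
          · obtain ⟨j, hj⟩ := (Finset.mem_filter.mp hi).2.1
            exact ⟨j, fun _ => hj⟩
          · exact ⟨i, fun h => absurd h hi⟩
        choose e he using hch
        apply PH _ (fun i => a (e i) i)
        · intro x hx; exact he x (Finset.mem_filter.mp hx).1
        · intro x hx y hy hxy
          refine ⟨be x, not_lt.mp (Finset.mem_filter.mp hx).2, ?_⟩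
          rw [adj_abe, adj_abe]
          intro h
          exact absurd (h.mp le_rfl) (not_le.mpr hxy)
      have h3 := Finset.card_filter_add_card_filter_not (s := MC) (fun i => p (be i) < t)
      omega
    have hprod : MR.card * m ≤ 2 * k * m := Nat.mul_le_mul_right m hMRc
    have hkm : 2 * k * m < 8 * ((k + 1) * (k + 1)) := by subst hm; nlinarith
    -- an all-earlier row
    obtain ⟨i1, hi1⟩ : ∃ i1, ∀ j, p (b i1 j) < t := by
      by_contra hcon
      push Not at hcon
      have hsub : (Finset.univ.filter (fun ij : Fin m × Fin m => p (b ij.1 ij.2) < t)) ⊆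
          MR ×ˢ Finset.univ := by
        intro x hx
        simp only [Finset.mem_filter, Finset.mem_univ, true_and] at hx
        rw [Finset.mem_product]
        refine ⟨?_, Finset.mem_univ _⟩
        rw [hMR, Finset.mem_filter]
        exact ⟨Finset.mem_univ _, ⟨x.2, hx⟩, hcon x.1⟩
      have h1 := Finset.card_le_card hsub
      rw [Finset.card_product, Finset.card_univ, Fintype.card_fin] at h1
      have h2 : NN t ≤ MR.card * m := h1
      omega
    -- an all-later row
    obtain ⟨i2, hi2⟩ : ∃ i2, ∀ j, t ≤ p (b i2 j) := by
      by_contra hcon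
      push Not at hcon
      have hsub : (Finset.univ.filter (fun ij : Fin m × Fin m => ¬ p (b ij.1 ij.2) < t)) ⊆
          MR ×ˢ Finset.univ := by
        intro x hx
        simp only [Finset.mem_filter, Finset.mem_univ, true_and, not_lt] at hx
        rw [Finset.mem_product]
        refine ⟨?_, Finset.mem_univ _⟩
        rw [hMR, Finset.mem_filter]
        exact ⟨Finset.mem_univ _, hcon x.1, ⟨x.2, hx⟩⟩
      have h1 := Finset.card_le_card hsub
      rw [Finset.card_product, Finset.card_univ, Fintype.card_fin] at h1
      have h3 := Finset.card_filter_add_card_filter_not (s := (Finset.univ : Finset (Fin m × Fin m)))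
        (fun ij => p (b ij.1 ij.2) < t)
      rw [Finset.card_univ, Fintype.card_prod, Fintype.card_fin] at h3
      have h4 : (Finset.univ.filter (fun ij : Fin m × Fin m => p (b ij.1 ij.2) < t)).card =
        8 * ((k + 1) * (k + 1)) := ht
      omega
    -- cut cells in the two rows
    have hC1 : (Finset.univ.filter (fun j => t ≤ p (a i1 j))).card ≤ k := by
      apply PH _ (fun j => b i1 j)
      · intro x _; exact hi1 x
      · intro x hx y hy hxy
        refine ⟨a i1 x, (Finset.mem_filter.mp hx).2, ?_⟩
        rw [adj_ba, adj_ba]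
        intro h
        exact hxy.ne (h.mp ⟨rfl, rfl⟩).2
    have hC2 : (Finset.univ.filter (fun j => p (a i2 j) < t)).card ≤ k := by
      apply PH _ (fun j => a i2 j)
      · intro x hx; exact (Finset.mem_filter.mp hx).2
      · intro x hx y hy hxy
        refine ⟨b i2 x, hi2 x, ?_⟩
        rw [adj_ab, adj_ab]
        intro h
        exact hxy.ne' (h.mp ⟨rfl, rfl⟩).2
    have hall : (Finset.univ : Finset (Fin m)) ⊆
        (Finset.univ.filter (fun j => t ≤ p (a i1 j))) ∪
        ((Finset.univ.filter (fun j => p (a i2 j) < t)) ∪ MC) := by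
      intro j _
      simp only [Finset.mem_union, Finset.mem_filter, Finset.mem_univ, true_and, hMC]
      by_cases h1 : t ≤ p (a i1 j)
      · left; exact h1
      · by_cases h2 : p (a i2 j) < t
        · right; left; exact h2
        · right; right
          exact ⟨⟨i1, not_le.mp h1⟩, ⟨i2, not_lt.mp h2⟩⟩
    have h1 := Finset.card_le_card hall
    have h2 := Finset.card_union_le (Finset.univ.filter (fun j => t ≤ p (a i1 j)))
      ((Finset.univ.filter (fun j => p (a i2 j) < t)) ∪ MC)
    have h3 := Finset.card_union_le (Finset.univ.filter (fun j => p (a i2 j) < t)) MC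
    rw [Finset.card_univ, Fintype.card_fin] at h1
    omega

end Pool.Agent.Helper856.Lcw.FamGrid
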