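import Pool.Agent.Helper856.Lcw.GBase

open Classical SimpleGraph

namespace Pool.Agent.Helper856.Lcw.FamQ

/-- adjacency of the next graph of the family -/
def Qadj {V : Type} (G : SimpleGraph V) (s : V → Bool) :
    Option (Fin 3 × V) → Option (Fin 3 × V) → Prop
  | none, none => False
  | none, some (_, u) => s u = true
  | some (_, u), none => s u = true
  | some (l, u), some (m, v) => l = m ∧ G.Adj u v

def QG {V : Type} (G : SimpleGraph V) (s : V → Bool) : SimpleGraph (Option (Fin 3 × V)) where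
  Adj := Qadj G s
  symm := by
    constructor
    rintro (_ | ⟨l, u⟩) (_ | ⟨m, v⟩) h
    · exact h
    · exact h
    · exact h
    · exact ⟨h.1.symm, h.2.symm⟩
  loopless := by
    constructor
    rintro (_ | ⟨l, u⟩) h
    · exact h
    · exact G.loopless.irrefl u h.2

def Qs {V : Type} (s : V → Bool) : Option (Fin 3 × V) → Bool
  | none => false
  | some (_, u) => s u

theorem QG_hub {V : Type} (G : SimpleGraph V) (s : V → Bool) {x : Option (Fin 3 × V)}
    (hx : Qs s x = true) : (QG G s).Adj none x := by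
  rcases x with _ | ⟨l, u⟩
  · exact absurd hx (by simp [Qs])
  · exact hx

theorem QG_bip {V : Type} (G : SimpleGraph V) (s : V → Bool)
    (hb : ∀ u v, G.Adj u v → s u ≠ s v) {x y : Option (Fin 3 × V)} (h : (QG G s).Adj x y) :
    Qs s x ≠ Qs s y := by
  rcases x with _ | ⟨l, u⟩ <;> rcases y with _ | ⟨m, v⟩
  · exact absurd h (fun h => h)
  · have h' : s v = true := h
    simp [Qs, h']
  · have h' : s u = true := h
    simp [Qs, h']
  · exact hb u v h.2

/-- cut-connectivity outside the copies which are not allowed -/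
theorem QG_conn {V : Type} (G : SimpleGraph V) (s : V → Bool) (ut : V) (hut : s ut = true)
    (hc : ∀ P : V → Prop, (∃ x, P x) → (∃ y, ¬ P y) → ∃ x y, G.Adj x y ∧ P x ∧ ¬ P y)
    (A : Fin 3 → Prop) (P : Option (Fin 3 × V) → Prop) (x y : Option (Fin 3 × V))
    (hxA : ∀ l u, x = some (l, u) → A l) (hyA : ∀ l u, y = some (l, u) → A l)
    (hx : P x) (hy : ¬ P y) : ∃ x y, (QG G s).Adj x y ∧ P x ∧ ¬ P y ∧
      (∀ l u, x = some (l, u) → A l) ∧ (∀ l u, y = some (l, u) → A l) := by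
  by_contra hcon
  push Not at hcon
  have hno : ∀ x y, (QG G s).Adj x y → P x → (∀ l u, x = some (l, u) → A l) →
      (∀ l u, y = some (l, u) → A l) → P y := by
    intro x y h1 h2 h3 h4
    by_contra h5
    obtain ⟨l, u, h6, h7⟩ := hcon x y h1 h2 h5 h3
    exact h7 (h4 l u h6)
  have hcopy : ∀ l, A l → ∀ u v, P (some (l, u)) → P (some (l, v)) := by
    intro l hl u v h1
    by_contra h2
    obtain ⟨a, b, h3, h4, h5⟩ := hc (fun u => P (some (l, u))) ⟨u, h1⟩ ⟨v, h2⟩
    apply h5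
    apply hno (some (l, a)) (some (l, b)) ⟨rfl, h3⟩ h4
    · intro l' u' he
      simp only [Option.some.injEq, Prod.mk.injEq] at he
      rw [← he.1]; exact hl
    · intro l' u' he
      simp only [Option.some.injEq, Prod.mk.injEq] at he
      rw [← he.1]; exact hl
  have hsomeA : ∀ l u, A l → ∀ l' u', (some (l, u) : Option (Fin 3 × V)) = some (l', u') →
      A l' := by
    intro l u hl l' u' he
    simp only [Option.some.injEq, Prod.mk.injEq] at he
    rw [← he.1]; exact hl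
  have hnoneA : ∀ l' u', (none : Option (Fin 3 × V)) = some (l', u') → A l' := by
    intro l' u' he
    exact absurd he (by simp)
  have hhub : P none := by
    rcases x with _ | ⟨l, u⟩
    · exact hx
    · have hl : A l := hxA l u rfl
      exact hno (some (l, ut)) none hut (hcopy l hl u ut hx) (hsomeA l ut hl) hnoneA
  apply hy
  rcases y with _ | ⟨l, u⟩
  · exact hhub
  · have hl : A l := hyA l u rfl
    exact hcopy l hl ut u (hno none (some (l, ut)) hut hhub hnoneA (hsomeA l ut hl))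

theorem QG_P6 {V : Type} (G : SimpleGraph V) (s : V → Bool)
    (hb : ∀ u v, G.Adj u v → s u ≠ s v)
    (hP : ∀ v0 v1 v2 v3 v4 v5 : V, G.Adj v0 v1 → G.Adj v1 v2 → G.Adj v2 v3 → G.Adj v3 v4 →
      G.Adj v4 v5 → ¬ G.Adj v0 v3 → ¬ G.Adj v0 v5 → ¬ G.Adj v2 v5 → ¬ G.Adj v1 v4 → False)
    (v0 v1 v2 v3 v4 v5 : Option (Fin 3 × V)) (h01 : (QG G s).Adj v0 v1)
    (h12 : (QG G s).Adj v1 v2) (h23 : (QG G s).Adj v2 v3) (h34 : (QG G s).Adj v3 v4)
    (h45 : (QG G s).Adj v4 v5) (n03 : ¬ (QG G s).Adj v0 v3) (n05 : ¬ (QG G s).Adj v0 v5)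
    (n25 : ¬ (QG G s).Adj v2 v5) (n14 : ¬ (QG G s).Adj v1 v4) : False := by
  have e01 := QG_bip G s hb h01
  have e12 := QG_bip G s hb h12
  have e23 := QG_bip G s hb h23
  have e34 := QG_bip G s hb h34
  have e45 := QG_bip G s hb h45
  have hn : Qs s (none : Option (Fin 3 × V)) = false := rfl
  have key : ∀ a b c d : Bool, a = false → a ≠ b → b ≠ c → c ≠ d → d = true := by decide
  rcases v0 with _ | ⟨l0, u0⟩
  · exact n03 (QG_hub G s (key _ _ _ _ hn e01 e12 e23))
  rcases v1 with _ | ⟨l1, u1⟩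
  · exact n14 (QG_hub G s (key _ _ _ _ hn e12 e23 e34))
  rcases v2 with _ | ⟨l2, u2⟩
  · exact n25 (QG_hub G s (key _ _ _ _ hn e23 e34 e45))
  rcases v3 with _ | ⟨l3, u3⟩
  · exact n03 (QG_hub G s (key _ _ _ _ hn e23.symm e12.symm e01.symm)).symm
  rcases v4 with _ | ⟨l4, u4⟩
  · exact n14 (QG_hub G s (key _ _ _ _ hn e34.symm e23.symm e12.symm)).symm
  rcases v5 with _ | ⟨l5, u5⟩
  · exact n25 (QG_hub G s (key _ _ _ _ hn e45.symm e34.symm e23.symm)).symm
  obtain ⟨k01, g01⟩ := h01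
  obtain ⟨k12, g12⟩ := h12
  obtain ⟨k23, g23⟩ := h23
  obtain ⟨k34, g34⟩ := h34
  obtain ⟨k45, g45⟩ := h45
  subst k01 k12 k23 k34 k45
  exact hP u0 u1 u2 u3 u4 u5 g01 g12 g23 g34 g45 (fun h => n03 ⟨rfl, h⟩) (fun h => n05 ⟨rfl, h⟩)
    (fun h => n25 ⟨rfl, h⟩) (fun h => n14 ⟨rfl, h⟩)

theorem middle (t : Fin 3 → ℕ) : ∃ a b c : Fin 3, a ≠ b ∧ c ≠ b ∧ t a ≤ t b ∧ t b ≤ t c := by
  rcases le_total (t 0) (t 1) with h01 | h01 <;> rcases le_total (t 1) (t 2) with h12 | h12 <;>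
    rcases le_total (t 0) (t 2) with h02 | h02
  · exact ⟨0, 1, 2, by decide, by decide, h01, h12⟩
  · exact ⟨0, 1, 2, by decide, by decide, h01, h12⟩
  · exact ⟨0, 2, 1, by decide, by decide, h02, h12⟩
  · exact ⟨2, 0, 1, by decide, by decide, h02, h01⟩
  · exact ⟨1, 0, 2, by decide, by decide, h01, h02⟩
  · exact ⟨1, 2, 0, by decide, by decide, h12, h02⟩
  · exact ⟨2, 1, 0, by decide, by decide, h12, h01⟩
  · exact ⟨2, 1, 0, by decide, by decide, h12, h01⟩

theorem QG_wide {V : Type} (G : SimpleGraph V) (s : V → Bool) (ut : V) (hut : s ut = true)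
    (hc : ∀ P : V → Prop, (∃ x, P x) → (∃ y, ¬ P y) → ∃ x y, G.Adj x y ∧ P x ∧ ¬ P y)
    (k : ℕ) (hW : Wide (k + 1) G) : Wide (k + 1 + 1) (QG G s) := by
  intro p hp
  have hinj : ∀ l : Fin 3, Function.Injective (fun u : V => p (some (l, u))) := by
    intro l u v huv
    have := hp huv
    simpa using this
  choose t f h1 h2 using fun l : Fin 3 => hW (fun u => p (some (l, u))) (hinj l)
  obtain ⟨a, b, c, hab, hcb, tab, tbc⟩ := middle t
  obtain ⟨wc, hwc, -⟩ := (h1 c 0).2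
  obtain ⟨x, y, hxy, hx, hy, hxA, hyA⟩ := QG_conn G s ut hut hc (fun l => l ≠ b)
    (fun z => p z < t b) (some (a, f a 0)) (some (c, wc))
    (by
      intro l u he
      simp only [Option.some.injEq, Prod.mk.injEq] at he
      rw [← he.1]; exact hab)
    (by
      intro l u he
      simp only [Option.some.injEq, Prod.mk.injEq] at he
      rw [← he.1]; exact hcb)
    ((h1 a 0).1.trans_le tab) (not_lt.mpr (tbc.trans hwc))
  have hout : ∀ (z : Option (Fin 3 × V)) (u : V), (∀ l u, z = some (l, u) → l ≠ b) →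
      (QG G s).Adj (some (b, u)) z → z = none := by
    intro z u hz hadj
    rcases z with _ | ⟨l, v⟩
    · rfl
    · exact absurd hadj.1.symm (hz l v rfl)
  have hdiff : ∀ j : Fin (k + 1), ∃ w, t b ≤ p w ∧
      ¬ ((QG G s).Adj x w ↔ (QG G s).Adj (some (b, f b j)) w) := by
    intro j
    by_contra hcon
    push Not at hcon
    have hy1 := (hcon y (not_lt.mp hy)).mp hxy
    have hy2 := hout y _ hyA hy1
    obtain ⟨w0, hw0, hw0a⟩ := (h1 b j).2
    have hx1 : (QG G s).Adj x (some (b, w0)) :=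
      (hcon (some (b, w0)) hw0).mpr ⟨rfl, hw0a⟩
    have hx2 := hout x _ hxA hx1.symm
    rw [hx2, hy2] at hxy
    exact hxy
  refine ⟨t b, Fin.cons x (fun i => some (b, f b i)), ?_, ?_⟩
  · intro i
    refine Fin.cases ?_ (fun j => ?_) i
    · rw [Fin.cons_zero]
      exact ⟨hx, y, not_lt.mp hy, hxy⟩
    · rw [Fin.cons_succ]
      obtain ⟨w0, hw0, hw0a⟩ := (h1 b j).2
      exact ⟨(h1 b j).1, some (b, w0), hw0, ⟨rfl, hw0a⟩⟩
  · intro i j
    refine Fin.cases ?_ (fun i' => ?_) i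
    · refine Fin.cases ?_ (fun j' => ?_) j
      · intro hne; exact absurd rfl hne
      · intro _
        rw [Fin.cons_zero, Fin.cons_succ]
        exact hdiff j'
    · refine Fin.cases ?_ (fun j' => ?_) j
      · intro _
        rw [Fin.cons_zero, Fin.cons_succ]
        obtain ⟨w, hw, hw2⟩ := hdiff i'
        exact ⟨w, hw, fun h => hw2 h.symm⟩
      · intro hne
        rw [Fin.cons_succ, Fin.cons_succ]
        have hne' : i' ≠ j' := fun h => hne (by rw [h])
        obtain ⟨w, hw, hw2⟩ := h2 b i' j' hne'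
        refine ⟨some (b, w), hw, fun h => hw2 ?_⟩
        constructor
        · intro h3
          exact (h.mp ⟨rfl, h3⟩).2
        · intro h3
          exact (h.mpr ⟨rfl, h3⟩).2

theorem exists_Q' (k : ℕ) : ∃ (V : Type) (_ : Finite V) (G : SimpleGraph V) (s : V → Bool),
    (∀ u v, G.Adj u v → s u ≠ s v) ∧
    (∀ v0 v1 v2 v3 v4 v5 : V, G.Adj v0 v1 → G.Adj v1 v2 → G.Adj v2 v3 → G.Adj v3 v4 →
      G.Adj v4 v5 → ¬ G.Adj v0 v3 → ¬ G.Adj v0 v5 → ¬ G.Adj v2 v5 → ¬ G.Adj v1 v4 → False) ∧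
    (∃ ut, s ut = true) ∧
    (∀ P : V → Prop, (∃ x, P x) → (∃ y, ¬ P y) → ∃ x y, G.Adj x y ∧ P x ∧ ¬ P y) ∧
    Wide (k + 1) G := by
  induction k with
  | zero =>
    refine ⟨Bool, inferInstance, ⊤, id, ?_, ?_, ⟨true, rfl⟩, ?_, ?_⟩
    · intro u v h
      exact h
    · intro v0 v1 v2 v3 v4 v5 h01 h12 h23 h34 h45 n03 n05 n25 n14
      simp only [top_adj] at h01 h12 h23 n03
      revert h01 h12 h23 n03
      cases v0 <;> cases v1 <;> cases v2 <;> cases v3 <;> simp
    · rintro P ⟨x, hx⟩ ⟨y, hy⟩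
      refine ⟨x, y, ?_, hx, hy⟩
      rw [top_adj]
      rintro rfl
      exact hy hx
    · intro p hp
      have hne : p false ≠ p true := fun h => by simpa using hp h
      rcases lt_or_gt_of_ne hne with h | h
      · refine ⟨p true, fun _ => false, ?_, ?_⟩
        · intro i
          exact ⟨h, true, le_rfl, by simp⟩
        · intro i j hij
          exact absurd (Fin.ext (by omega)) hij
      · refine ⟨p false, fun _ => true, ?_, ?_⟩
        · intro i
          exact ⟨h, false, le_rfl, by simp⟩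
        · intro i j hij
          exact absurd (Fin.ext (by omega)) hij
  | succ k ih =>
    obtain ⟨V, hV, G, s, hb, hP, ⟨ut, hut⟩, hc, hW⟩ := ih
    refine ⟨Option (Fin 3 × V), inferInstance, QG G s, Qs s, fun u v h => QG_bip G s hb h,
      QG_P6 G s hb hP, ⟨some (0, ut), hut⟩, ?_, QG_wide G s ut hut hc k hW⟩
    rintro P ⟨x, hx⟩ ⟨y, hy⟩
    obtain ⟨x', y', h1, h2, h3, -⟩ := QG_conn G s ut hut hc (fun _ => True) P x y
      (fun _ _ _ => trivial) (fun _ _ _ => trivial) hx hy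
    exact ⟨x', y', h1, h2, h3⟩

theorem exists_Q (k : ℕ) : ∃ (V : Type) (_ : Finite V) (G : SimpleGraph V) (s : V → Bool),
    (∀ u v, G.Adj u v → s u ≠ s v) ∧
    (∀ v0 v1 v2 v3 v4 v5 : V, G.Adj v0 v1 → G.Adj v1 v2 → G.Adj v2 v3 → G.Adj v3 v4 →
      G.Adj v4 v5 → ¬ G.Adj v0 v3 → ¬ G.Adj v0 v5 → ¬ G.Adj v2 v5 → ¬ G.Adj v1 v4 → False) ∧
    Wide k G := by
  rcases k with _ | k
  · obtain ⟨V, hV, G, s, hb, hP, -, -, -⟩ := exists_Q' 0
    refine ⟨V, hV, G, s, hb, hP, ?_⟩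
    intro p _
    exact ⟨0, Fin.elim0, fun i => i.elim0, fun i => i.elim0⟩
  · obtain ⟨V, hV, G, s, hb, hP, -, -, hW⟩ := exists_Q' k
    exact ⟨V, hV, G, s, hb, hP, hW⟩

end Pool.Agent.Helper856.Lcw.FamQ
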