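import Pool.Agent.Helper856.Lcw.GBase
import Pool.Agent.Helper856.Lcw.FamQ
import Pool.Agent.Helper856.Lcw.FamGrid

open Classical SimpleGraph

namespace Pool.Agent.Helper856.Lcw.UnbQ

open FamQ FamGrid

theorem not_glin_of_wide {V : Type} {k : ℕ} {G : SimpleGraph V} (h : Wide (k + 1) G) :
    ¬ GLin k G := by
  rintro ⟨p, hp, hg⟩
  obtain ⟨t, f, hf, hf'⟩ := h p hp
  obtain ⟨c, hc⟩ := hg t
  obtain ⟨i, j, hij, hcij⟩ := Fintype.exists_ne_map_eq_of_card_lt (fun i => c (f i)) (by simp)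
  obtain ⟨w, hw, hw'⟩ := hf' i j hij
  exact hw' (hc (f i) (f j) (hf i).1 (hf j).1 hcij w hw)

theorem bip_of_side {V : Type} {G : SimpleGraph V} (s : V → Bool)
    (h : ∀ u v, G.Adj u v → s u ≠ s v) : G.IsBipartite := by
  refine ⟨SimpleGraph.Coloring.mk (fun v => if s v then (0 : Fin 2) else 1) ?_⟩
  intro u v huv
  have := h u v huv
  cases hu : s u <;> cases hv : s v <;> simp_all

/-- bipartite complement with respect to a side function -/
def coG {V : Type} (G : SimpleGraph V) (s : V → Bool) : SimpleGraph V where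
  Adj u v := s u ≠ s v ∧ ¬ G.Adj u v
  symm := ⟨fun _ _ h => ⟨h.1.symm, fun h' => h.2 h'.symm⟩⟩
  loopless := ⟨fun _ h => h.1 rfl⟩

theorem glin_of_coG {V : Type} {k : ℕ} {G : SimpleGraph V} {s : V → Bool}
    (hs : ∀ u v, G.Adj u v → s u ≠ s v) (h : GLin k (coG G s)) : GLin (k * 2) G := by
  obtain ⟨p, hp, hg⟩ := h
  refine ⟨p, hp, fun t => ?_⟩
  obtain ⟨c, hc⟩ := hg t
  refine ⟨fun v => finProdFinEquiv (c v, if s v then (0 : Fin 2) else 1), ?_⟩
  intro u v hu hv huv w hw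
  have h5 := finProdFinEquiv.injective huv
  simp only [Prod.mk.injEq] at h5
  have h6 := hc u v hu hv h5.1 w hw
  have h7 : s u = s v := by
    have := h5.2
    cases hu : s u <;> cases hv : s v <;> simp_all
  simp only [coG, h7] at h6
  have h8 := hs u w
  have h9 := hs v w
  rw [h7] at h8
  by_cases h10 : s v = s w
  · constructor
    · intro h; exact absurd h10 (h8 h)
    · intro h; exact absurd h10 (h9 h)
  · simp only [ne_eq, h10, not_false_eq_true, true_and] at h6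
    tauto

theorem unb_P6 : Unb P6 := by
  intro k
  obtain ⟨V, hV, G, s, hs, hQ, hW⟩ := exists_Q (k + 1)
  refine ⟨V, hV, G, bip_of_side s hs, ?_, not_glin_of_wide hW⟩
  rintro ⟨f⟩
  refine hQ (f 0) (f 1) (f 2) (f 3) (f 4) (f 5) ?_ ?_ ?_ ?_ ?_ ?_ ?_ ?_ ?_ <;>
    rw [f.map_adj_iff] <;> simp [P6, gr]

theorem coG_adj {V : Type} {G : SimpleGraph V} {s : V → Bool} {u v : V} :
    (coG G s).Adj u v ↔ (s u ≠ s v ∧ ¬ G.Adj u v) := Iff.rfl

theorem P2P4_aux {V : Type} {G : SimpleGraph V} {s : V → Bool}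
    (hQ : ∀ v0 v1 v2 v3 v4 v5 : V, G.Adj v0 v1 → G.Adj v1 v2 → G.Adj v2 v3 → G.Adj v3 v4 →
      G.Adj v4 v5 → ¬ G.Adj v0 v3 → ¬ G.Adj v0 v5 → ¬ G.Adj v2 v5 → ¬ G.Adj v1 v4 → False)
    (x2 x3 x4 x5 : V) (e23 : (coG G s).Adj x2 x3) (e34 : (coG G s).Adj x3 x4)
    (e45 : (coG G s).Adj x4 x5) (n25 : ¬ (coG G s).Adj x2 x5) :
    ∀ a0 a1 : V, (coG G s).Adj a0 a1 → ¬ (coG G s).Adj a0 x3 →
      ¬ (coG G s).Adj a0 x5 → ¬ (coG G s).Adj a1 x2 → ¬ (coG G s).Adj a1 x4 →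
      s a0 = s x2 → False := by
  intro a0 a1 h01 h03 h05 h12 h14 hs02
  rw [coG_adj] at h01 h03 h05 h12 h14 e23 e34 e45 n25
  have g03 : G.Adj a0 x3 := by
    by_contra h; exact h03 ⟨by rw [hs02]; exact e23.1, h⟩
  have s24 : s x2 = s x4 := by
    have h1 := e23.1; have h2 := e34.1
    revert h1 h2; cases s x2 <;> cases s x3 <;> cases s x4 <;> simp
  have g05 : G.Adj a0 x5 := by
    by_contra h; exact h05 ⟨by rw [hs02, s24]; exact e45.1, h⟩
  have g12 : G.Adj a1 x2 := by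
    by_contra h; exact h12 ⟨by rw [← hs02]; exact h01.1.symm, h⟩
  have g14 : G.Adj a1 x4 := by
    by_contra h; exact h14 ⟨by rw [← s24, ← hs02]; exact h01.1.symm, h⟩
  have g25 : G.Adj x2 x5 := by
    by_contra h; exact n25 ⟨by rw [s24]; exact e45.1, h⟩
  exact hQ x3 a0 x5 x2 a1 x4 g03.symm g05 g25.symm g12.symm g14
    (fun h => e23.2 h.symm) e34.2 (fun h => e45.2 h.symm) h01.2

theorem unb_FP2_P4 : Unb FP2_P4 := by
  intro k
  obtain ⟨V, hV, G, s, hs, hQ, hW⟩ := exists_Q (k * 2 + 1)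
  refine ⟨V, hV, coG G s, bip_of_side s (fun u v h => (coG_adj.1 h).1), ?_,
    fun h => not_glin_of_wide hW (glin_of_coG hs h)⟩
  rintro ⟨f⟩
  have key : ∀ i j, (coG G s).Adj (f i) (f j) ↔ FP2_P4.Adj i j := fun i j => f.map_adj_iff
  have e01 : (coG G s).Adj (f 0) (f 1) := by rw [key]; simp [FP2_P4, gr]
  have e23 : (coG G s).Adj (f 2) (f 3) := by rw [key]; simp [FP2_P4, gr]
  have e34 : (coG G s).Adj (f 3) (f 4) := by rw [key]; simp [FP2_P4, gr]
  have e45 : (coG G s).Adj (f 4) (f 5) := by rw [key]; simp [FP2_P4, gr]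
  have n02 : ¬ (coG G s).Adj (f 0) (f 2) := by rw [key]; simp [FP2_P4, gr]
  have n03 : ¬ (coG G s).Adj (f 0) (f 3) := by rw [key]; simp [FP2_P4, gr]
  have n04 : ¬ (coG G s).Adj (f 0) (f 4) := by rw [key]; simp [FP2_P4, gr]
  have n05 : ¬ (coG G s).Adj (f 0) (f 5) := by rw [key]; simp [FP2_P4, gr]
  have n12 : ¬ (coG G s).Adj (f 1) (f 2) := by rw [key]; simp [FP2_P4, gr]
  have n13 : ¬ (coG G s).Adj (f 1) (f 3) := by rw [key]; simp [FP2_P4, gr]
  have n14 : ¬ (coG G s).Adj (f 1) (f 4) := by rw [key]; simp [FP2_P4, gr]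
  have n15 : ¬ (coG G s).Adj (f 1) (f 5) := by rw [key]; simp [FP2_P4, gr]
  have n25 : ¬ (coG G s).Adj (f 2) (f 5) := by rw [key]; simp [FP2_P4, gr]
  clear key
  generalize f 0 = x0 at *
  generalize f 1 = x1 at *
  generalize f 2 = x2 at *
  generalize f 3 = x3 at *
  generalize f 4 = x4 at *
  generalize f 5 = x5 at *
  by_cases h02 : s x0 = s x2
  · exact P2P4_aux hQ x2 x3 x4 x5 e23 e34 e45 n25 x0 x1 e01 n03 n05 n12 n14 h02
  · have h12 : s x1 = s x2 := by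
      have h1 := (coG_adj.1 e01).1
      revert h1 h02; cases s x0 <;> cases s x1 <;> cases s x2 <;> simp
    exact P2P4_aux hQ x2 x3 x4 x5 e23 e34 e45 n25 x1 x0 e01.symm n13 n15 n02 n04 h12

theorem unb_F2P3 : Unb F2P3 := by
  intro k
  obtain ⟨V, hV, G, s, hs, hQ, hW⟩ := exists_grid k
  refine ⟨V, hV, G, bip_of_side s hs, ?_, hW⟩
  rintro ⟨f⟩
  have key : ∀ i j, G.Adj (f i) (f j) ↔ F2P3.Adj i j := fun i j => f.map_adj_iff
  have kinj : ∀ i j, f i = f j ↔ i = j := fun i j => f.injective.eq_iff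
  have := hQ (f 0) (f 1) (f 2) (f 3) (f 4) (f 5)
  simp only [key, kinj, ne_eq] at this
  simp [F2P3, gr] at this

end Pool.Agent.Helper856.Lcw.UnbQ
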