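import Pool.Agent.Helper856.Lcw.GBase

open Classical SimpleGraph

namespace Pool.Agent.Helper856.Lcw.FamS

section famS

/-- the vertex of the path to which the copy is attached -/
def hub : Fin 3 → Fin 4 := ![1, 3, 3]

def nadj {V : Type} (G : SimpleGraph V) (r : V) :
    (Fin 4 ⊕ (Fin 3 × V)) → (Fin 4 ⊕ (Fin 3 × V)) → Prop
  | Sum.inl a, Sum.inl b => a.val + 1 = b.val ∨ b.val + 1 = a.val
  | Sum.inl a, Sum.inr (l, v) => v = r ∧ a = hub l
  | Sum.inr (l, v), Sum.inl a => v = r ∧ a = hub l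
  | Sum.inr (l, u), Sum.inr (l', v) => l = l' ∧ G.Adj u v

/-- three copies of `G` attached to a path with four vertices -/
def NG {V : Type} (G : SimpleGraph V) (r : V) : SimpleGraph (Fin 4 ⊕ (Fin 3 × V)) where
  Adj := nadj G r
  symm := ⟨by
    rintro (a | ⟨l, u⟩) (b | ⟨l', v⟩) h
    · exact Or.symm h
    · exact h
    · exact h
    · exact ⟨h.1.symm, h.2.symm⟩⟩
  loopless := ⟨by
    rintro (a | ⟨l, u⟩) h
    · rcases h with h | h <;> omega
    · exact G.loopless.irrefl u h.2⟩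

variable {V : Type} {G : SimpleGraph V} {r : V}

theorem nb0 {x : Fin 4 ⊕ (Fin 3 × V)} (h : (NG G r).Adj (Sum.inl 0) x) : x = Sum.inl 1 := by
  rcases x with b | ⟨l, v⟩
  · have h' : (0 : Fin 4).val + 1 = b.val ∨ b.val + 1 = (0 : Fin 4).val := h
    congr 1
    ext
    simp at h' ⊢
    omega
  · have h' : v = r ∧ (0 : Fin 4) = hub l := h
    fin_cases l <;> simp [hub] at h'

theorem nb1 {x : Fin 4 ⊕ (Fin 3 × V)} (h : (NG G r).Adj (Sum.inl 1) x) :
    x = Sum.inl 0 ∨ x = Sum.inl 2 ∨ x = Sum.inr (0, r) := by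
  rcases x with b | ⟨l, v⟩
  · have h' : (1 : Fin 4).val + 1 = b.val ∨ b.val + 1 = (1 : Fin 4).val := h
    rcases h' with h' | h'
    · right; left
      congr 1
      ext
      simp at h' ⊢
      omega
    · left
      congr 1
      ext
      simp at h' ⊢
      omega
  · have h' : v = r ∧ (1 : Fin 4) = hub l := h
    obtain ⟨rfl, h'⟩ := h'
    right; right
    fin_cases l <;> simp [hub] at h' ⊢

theorem nb2 {x : Fin 4 ⊕ (Fin 3 × V)} (h : (NG G r).Adj (Sum.inl 2) x) :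
    x = Sum.inl 1 ∨ x = Sum.inl 3 := by
  rcases x with b | ⟨l, v⟩
  · have h' : (2 : Fin 4).val + 1 = b.val ∨ b.val + 1 = (2 : Fin 4).val := h
    rcases h' with h' | h'
    · right
      congr 1
      ext
      simp at h' ⊢
      omega
    · left
      congr 1
      ext
      simp at h' ⊢
      omega
  · have h' : v = r ∧ (2 : Fin 4) = hub l := h
    obtain ⟨rfl, h'⟩ := h'
    fin_cases l <;> simp [hub] at h'

theorem nb3 {x : Fin 4 ⊕ (Fin 3 × V)} (h : (NG G r).Adj (Sum.inl 3) x) :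
    x = Sum.inl 2 ∨ x = Sum.inr (1, r) ∨ x = Sum.inr (2, r) := by
  rcases x with b | ⟨l, v⟩
  · have h' : (3 : Fin 4).val + 1 = b.val ∨ b.val + 1 = (3 : Fin 4).val := h
    left
    congr 1
    ext
    simp at h' ⊢
    omega
  · have h' : v = r ∧ (3 : Fin 4) = hub l := h
    obtain ⟨rfl, h'⟩ := h'
    right
    fin_cases l <;> simp [hub] at h' ⊢

theorem nbc {l : Fin 3} {v : V} {x : Fin 4 ⊕ (Fin 3 × V)} (h : (NG G r).Adj (Sum.inr (l, v)) x) :
    (∃ w, x = Sum.inr (l, w) ∧ G.Adj v w) ∨ (v = r ∧ x = Sum.inl (hub l)) := by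
  rcases x with b | ⟨l', w⟩
  · right
    have h' : v = r ∧ b = hub l := h
    exact ⟨h'.1, by rw [h'.2]⟩
  · left
    have h' : l = l' ∧ G.Adj v w := h
    exact ⟨w, by rw [h'.1], h'.2⟩

theorem nbc' {l : Fin 3} {v : V} (hv : v ≠ r) {x : Fin 4 ⊕ (Fin 3 × V)}
    (h : (NG G r).Adj (Sum.inr (l, v)) x) : ∃ w, x = Sum.inr (l, w) ∧ G.Adj v w := by
  rcases nbc h with h | h
  · exact h
  · exact absurd h.1 hv

theorem pig3 {α : Type} {x y z a b c d : α} (ha : a = x ∨ a = y ∨ a = z)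
    (hb : b = x ∨ b = y ∨ b = z) (hc : c = x ∨ c = y ∨ c = z) (hd : d = x ∨ d = y ∨ d = z) :
    a = b ∨ a = c ∨ a = d ∨ b = c ∨ b = d ∨ c = d := by
  rcases ha with ha | ha | ha <;> rcases hb with hb | hb | hb <;>
    rcases hc with hc | hc | hc <;> rcases hd with hd | hd | hd <;> simp [ha, hb, hc, hd]

theorem pig2 {α : Type} {x y a b c : α} (ha : a = x ∨ a = y) (hb : b = x ∨ b = y)
    (hc : c = x ∨ c = y) : a = b ∨ a = c ∨ b = c := by
  rcases ha with ha | ha <;> rcases hb with hb | hb <;>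
    rcases hc with hc | hc <;> simp [ha, hb, hc]

/-- the induction hypothesis -/
structure Good (k : ℕ) (V : Type) (G : SimpleGraph V) (s : V → Bool) (h : V → ℕ) (T : V → Bool)
    (r : V) (M : ℕ) : Prop where
  fin : Finite V
  side : ∀ u v, G.Adj u v → s u ≠ s v
  hne : ∀ u v, G.Adj u v → h u ≠ h v
  par : ∀ u v w, G.Adj u v → G.Adj u w → h u < h v → h u < h w → v = w
  noTT : ∀ u v, G.Adj u v → T u = false ∨ T v = false
  deg2 : ∀ u a b c, T u = false → G.Adj u a → G.Adj u b → G.Adj u c → a = b ∨ a = c ∨ b = c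
  deg3 : ∀ u a b c d, G.Adj u a → G.Adj u b → G.Adj u c → G.Adj u d →
      a = b ∨ a = c ∨ a = d ∨ b = c ∨ b = d ∨ c = d
  wide : Wide k G
  sr : s r = true
  hr : h r = M
  hM : ∀ v, h v ≤ M
  Tr : T r = false
  deg1 : ∀ a b, G.Adj r a → G.Adj r b → a = b
  conn : ∀ P : V → Prop, (∀ x y, G.Adj x y → (P x ↔ P y)) → ∀ x, P x ↔ P r

def ns (s : V → Bool) : (Fin 4 ⊕ (Fin 3 × V)) → Bool
  | Sum.inl a => (![true, false, true, false] : Fin 4 → Bool) a
  | Sum.inr (_, v) => s v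

def nh (h : V → ℕ) (M : ℕ) : (Fin 4 ⊕ (Fin 3 × V)) → ℕ
  | Sum.inl a => (![M + 4, M + 3, M + 2, M + 1] : Fin 4 → ℕ) a
  | Sum.inr (_, v) => h v

def nT (T : V → Bool) : (Fin 4 ⊕ (Fin 3 × V)) → Bool
  | Sum.inl a => (![false, true, false, true] : Fin 4 → Bool) a
  | Sum.inr (_, v) => T v

theorem hub_cases (l : Fin 3) : (hub l = 1 ∧ l = 0) ∨ (hub l = 3 ∧ (l = 1 ∨ l = 2)) := by
  fin_cases l <;> simp [hub]

theorem root2 (deg1 : ∀ a b, G.Adj r a → G.Adj r b → a = b) {l : Fin 3}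
    {a b c : Fin 4 ⊕ (Fin 3 × V)} (ha : (NG G r).Adj (Sum.inr (l, r)) a)
    (hb : (NG G r).Adj (Sum.inr (l, r)) b) (hc : (NG G r).Adj (Sum.inr (l, r)) c) :
    a = b ∨ a = c ∨ b = c := by
  rcases nbc ha with ⟨w1, rfl, h1⟩ | ⟨-, rfl⟩ <;> rcases nbc hb with ⟨w2, rfl, h2⟩ | ⟨-, rfl⟩ <;>
    rcases nbc hc with ⟨w3, rfl, h3⟩ | ⟨-, rfl⟩
  · left; rw [deg1 _ _ h1 h2]
  · left; rw [deg1 _ _ h1 h2]
  · right; left; rw [deg1 _ _ h1 h3]
  · right; right; rfl
  · right; right; rw [deg1 _ _ h2 h3]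
  · right; left; rfl
  · left; rfl
  · left; rfl

/-- crossing edge outside a copy -/
theorem cross (conn : ∀ P : V → Prop, (∀ x y, G.Adj x y → (P x ↔ P y)) → ∀ x, P x ↔ P r)
    (b : Fin 3) (P : Fin 4 ⊕ (Fin 3 × V) → Prop)
    (hP : ∀ x y, (∀ u, x ≠ Sum.inr (b, u)) → (∀ u, y ≠ Sum.inr (b, u)) →
      (NG G r).Adj x y → (P x ↔ P y)) (l : Fin 3) (hl : l ≠ b) (v : V) :
    P (Sum.inr (l, v)) ↔ P (Sum.inl 0) := by
  have h1 : ∀ a c : Fin 4, a.val + 1 = c.val → (P (Sum.inl a) ↔ P (Sum.inl c)) := by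
    intro a c hac
    exact hP _ _ (fun u => by simp) (fun u => by simp) (Or.inl hac)
  have h01 := h1 0 1 rfl
  have h12 := h1 1 2 rfl
  have h23 := h1 2 3 rfl
  have h2 : ∀ a : Fin 4, P (Sum.inl a) ↔ P (Sum.inl 0) := by
    intro a
    fin_cases a
    · exact Iff.rfl
    · exact h01.symm
    · exact (h01.trans h12).symm
    · exact (h01.trans (h12.trans h23)).symm
  have hout : ∀ w : V, ∀ u, (Sum.inr (l, w) : Fin 4 ⊕ (Fin 3 × V)) ≠ Sum.inr (b, u) := by
    intro w u h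
    have := Sum.inr_injective h
    exact hl (congrArg Prod.fst this)
  have h3 : P (Sum.inr (l, r)) ↔ P (Sum.inl (hub l)) :=
    hP _ _ (hout r) (fun u => by simp) ⟨rfl, rfl⟩
  have h4 := conn (fun w => P (Sum.inr (l, w)))
    (fun x y hxy => hP _ _ (hout x) (hout y) ⟨rfl, hxy⟩) v
  exact h4.trans (h3.trans (h2 _))

theorem exists_order (t : Fin 3 → ℕ) : ∃ a b c : Fin 3, a ≠ b ∧ c ≠ b ∧ t a ≤ t b ∧ t b ≤ t c := by
  rcases le_total (t 0) (t 1) with h01 | h01 <;> rcases le_total (t 1) (t 2) with h12 | h12 <;>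
    rcases le_total (t 0) (t 2) with h02 | h02
  · exact ⟨0, 1, 2, by decide, by decide, h01, h12⟩
  · exact ⟨0, 1, 2, by decide, by decide, h01, h12⟩
  · exact ⟨0, 2, 1, by decide, by decide, h02, h12⟩
  · exact ⟨2, 0, 1, by decide, by decide, h02, h01⟩
  · exact ⟨1, 0, 2, by decide, by decide, h01, h02⟩
  · exact ⟨1, 2, 0, by decide, by decide, h12, h02⟩
  · exact ⟨2, 1, 0, by decide, by decide, h12, h01⟩
  · exact ⟨2, 1, 0, by decide, by decide, h12, h01⟩

theorem wide_step {k : ℕ} (hk : 0 < k)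
    (conn : ∀ P : V → Prop, (∀ x y, G.Adj x y → (P x ↔ P y)) → ∀ x, P x ↔ P r)
    (hw : Wide k G) : Wide (k + 1) (NG G r) := by
  intro p hp
  have hinj : ∀ l : Fin 3, Function.Injective (fun u : V => p (Sum.inr (l, u))) := by
    intro l u v huv
    have := Sum.inr_injective (hp huv)
    exact congrArg Prod.snd this
  choose t f hf1 hf2 using fun l : Fin 3 => hw (fun u => p (Sum.inr (l, u))) (hinj l)
  obtain ⟨a, b, c, hab, hcb, htab, htbc⟩ := exists_order t
  -- crossing edge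
  have hex : ∃ x y : Fin 4 ⊕ (Fin 3 × V), (∀ u, x ≠ Sum.inr (b, u)) ∧
      (∀ u, y ≠ Sum.inr (b, u)) ∧ (NG G r).Adj x y ∧ p x < t b ∧ t b ≤ p y := by
    by_contra hcon
    push Not at hcon
    have hP : ∀ x y, (∀ u, x ≠ Sum.inr (b, u)) → (∀ u, y ≠ Sum.inr (b, u)) →
      (NG G r).Adj x y → (p x < t b ↔ p y < t b) := by
      intro x y hx hy hxy
      constructor
      · intro h
        by_contra h'
        push Not at h'
        exact absurd (hcon x y hx hy hxy h) (not_lt.mpr h')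
      · intro h
        by_contra h'
        push Not at h'
        exact absurd (hcon y x hy hx hxy.symm h) (not_lt.mpr h')
    have ha := cross conn b (fun x => p x < t b) hP a hab (f a ⟨0, hk⟩)
    obtain ⟨h1, -⟩ := hf1 a ⟨0, hk⟩
    obtain ⟨-, w, h2, -⟩ := hf1 c ⟨0, hk⟩
    have hc := cross conn b (fun x => p x < t b) hP c hcb w
    have h3 : p (Sum.inr (c, w)) < t b := hc.mpr (ha.mp (lt_of_lt_of_le h1 htab))
    have h4 : t c ≤ p (Sum.inr (c, w)) := h2
    omega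
  obtain ⟨x, y, hxb, hyb, hxy, hxt, hyt⟩ := hex
  have hnew : ∀ i : Fin k, ∃ w, t b ≤ p w ∧
      ¬ ((NG G r).Adj x w ↔ (NG G r).Adj (Sum.inr (b, f b i)) w) := by
    intro i
    by_contra hcon
    push Not at hcon
    have h1 := (hcon y hyt).mp hxy
    obtain ⟨-, w, hw1, hw2⟩ := hf1 b i
    have h2 := (hcon (Sum.inr (b, w)) hw1).mpr ⟨rfl, hw2⟩
    rcases nbc h1 with ⟨w', hw', -⟩ | ⟨-, hy⟩
    · exact hyb w' hw'
    · rcases nbc h2.symm with ⟨w', hw', -⟩ | ⟨-, hx⟩
      · exact hxb w' hw'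
      · rw [hx, hy] at hxy
        exact (NG G r).loopless.irrefl _ hxy
  refine ⟨t b, Fin.cons x (fun i => Sum.inr (b, f b i)), ?_, ?_⟩
  · intro i
    refine Fin.cases ?_ (fun i => ?_) i
    · exact ⟨hxt, y, hyt, hxy⟩
    · obtain ⟨h1, w, h2, h3⟩ := hf1 b i
      exact ⟨h1, Sum.inr (b, w), h2, rfl, h3⟩
  · intro i j
    refine Fin.cases ?_ (fun i => ?_) i
    · refine Fin.cases ?_ (fun j => ?_) j
      · intro h
        exact absurd rfl h
      · intro _
        exact hnew j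
    · refine Fin.cases ?_ (fun j => ?_) j
      · intro _
        obtain ⟨w, h1, h2⟩ := hnew i
        exact ⟨w, h1, fun h => h2 h.symm⟩
      · intro hij
        obtain ⟨w, h1, h2⟩ := hf2 b i j (fun h => hij (by rw [h]))
        refine ⟨Sum.inr (b, w), h1, fun h => h2 ?_⟩
        have h' : (b = b ∧ G.Adj (f b i) w) ↔ (b = b ∧ G.Adj (f b j) w) := h
        simpa using h'

theorem good_step {k : ℕ} (hk : 0 < k) {s : V → Bool} {h : V → ℕ} {T : V → Bool} {M : ℕ}
    (g : Good k V G s h T r M) :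
    Good (k + 1) (Fin 4 ⊕ (Fin 3 × V)) (NG G r) (ns s) (nh h M) (nT T) (Sum.inl 0) (M + 4) := by
  have := g.fin
  refine ⟨inferInstance, ?_, ?_, ?_, ?_, ?_, ?_, wide_step hk g.conn g.wide, rfl, rfl, ?_, rfl,
    ?_, ?_⟩
  · -- side
    rintro (u | ⟨l, u⟩) x hux
    · fin_cases u
      · rw [nb0 hux]; simp [ns]
      · rcases nb1 hux with rfl | rfl | rfl <;> simp [ns, g.sr]
      · rcases nb2 hux with rfl | rfl <;> simp [ns]
      · rcases nb3 hux with rfl | rfl | rfl <;> simp [ns, g.sr]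
    · rcases nbc hux with ⟨w, rfl, hw⟩ | ⟨rfl, rfl⟩
      · exact g.side u w hw
      · rcases hub_cases l with ⟨hl, -⟩ | ⟨hl, -⟩ <;> rw [hl] <;> simp [ns, g.sr]
  · -- hne
    rintro (u | ⟨l, u⟩) x hux
    · fin_cases u
      · rw [nb0 hux]; simp [nh]
      · rcases nb1 hux with rfl | rfl | rfl <;> simp [nh, g.hr]
      · rcases nb2 hux with rfl | rfl <;> simp [nh]
      · rcases nb3 hux with rfl | rfl | rfl <;> simp [nh, g.hr]
    · rcases nbc hux with ⟨w, rfl, hw⟩ | ⟨rfl, rfl⟩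
      · exact g.hne u w hw
      · rcases hub_cases l with ⟨hl, -⟩ | ⟨hl, -⟩ <;> rw [hl] <;> simp [nh, g.hr]
  · -- par
    rintro (u | ⟨l, u⟩) x y hux huy hx hy
    · fin_cases u
      · rw [nb0 hux, nb0 huy]
      · rcases nb1 hux with rfl | rfl | rfl <;> rcases nb1 huy with rfl | rfl | rfl <;>
          simp [nh, g.hr] at hx hy ⊢
      · rcases nb2 hux with rfl | rfl <;> rcases nb2 huy with rfl | rfl <;>
          simp [nh] at hx hy ⊢
      · rcases nb3 hux with rfl | rfl | rfl <;> rcases nb3 huy with rfl | rfl | rfl <;>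
          simp [nh, g.hr] at hx hy ⊢
    · have hin : ∀ w, u = r → G.Adj u w → ¬ h u < h w := by
        intro w hu _ hlt
        rw [hu, g.hr] at hlt
        exact absurd (g.hM w) (not_le.mpr hlt)
      rcases nbc hux with ⟨w, rfl, hw⟩ | ⟨hu, rfl⟩ <;>
        rcases nbc huy with ⟨w', rfl, hw'⟩ | ⟨hu', rfl⟩
      · rw [g.par u w w' hw hw' hx hy]
      · exact absurd hx (hin w hu' hw)
      · exact absurd hy (hin w' hu hw')
      · rfl
  · -- noTT
    rintro (u | ⟨l, u⟩) x hux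
    · fin_cases u
      · left; rfl
      · right
        rcases nb1 hux with rfl | rfl | rfl
        · rfl
        · rfl
        · exact g.Tr
      · left; rfl
      · right
        rcases nb3 hux with rfl | rfl | rfl
        · rfl
        · exact g.Tr
        · exact g.Tr
    · rcases nbc hux with ⟨w, rfl, hw⟩ | ⟨rfl, rfl⟩
      · exact g.noTT u w hw
      · left
        exact g.Tr
  · -- deg2
    rintro (u | ⟨l, u⟩) a b c hT ha hb hc
    · fin_cases u
      · left; rw [nb0 ha, nb0 hb]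
      · simp [nT] at hT
      · exact pig2 (nb2 ha) (nb2 hb) (nb2 hc)
      · simp [nT] at hT
    · by_cases hu : u = r
      · rw [hu] at ha hb hc
        exact root2 g.deg1 ha hb hc
      · obtain ⟨wa, rfl, ha'⟩ := nbc' hu ha
        obtain ⟨wb, rfl, hb'⟩ := nbc' hu hb
        obtain ⟨wc, rfl, hc'⟩ := nbc' hu hc
        rcases g.deg2 u wa wb wc hT ha' hb' hc' with h | h | h <;> simp [h]
  · -- deg3
    rintro (u | ⟨l, u⟩) a b c d ha hb hc hd
    · fin_cases u
      · left; rw [nb0 ha, nb0 hb]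
      · exact pig3 (nb1 ha) (nb1 hb) (nb1 hc) (nb1 hd)
      · rcases pig2 (nb2 ha) (nb2 hb) (nb2 hc) with h | h | h
        · exact Or.inl h
        · exact Or.inr (Or.inl h)
        · exact Or.inr (Or.inr (Or.inr (Or.inl h)))
      · exact pig3 (nb3 ha) (nb3 hb) (nb3 hc) (nb3 hd)
    · by_cases hu : u = r
      · rw [hu] at ha hb hc
        rcases root2 g.deg1 ha hb hc with h | h | h
        · exact Or.inl h
        · exact Or.inr (Or.inl h)
        · exact Or.inr (Or.inr (Or.inr (Or.inl h)))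
      · obtain ⟨wa, rfl, ha'⟩ := nbc' hu ha
        obtain ⟨wb, rfl, hb'⟩ := nbc' hu hb
        obtain ⟨wc, rfl, hc'⟩ := nbc' hu hc
        obtain ⟨wd, rfl, hd'⟩ := nbc' hu hd
        rcases g.deg3 u wa wb wc wd ha' hb' hc' hd' with h | h | h | h | h | h <;> simp [h]
  · -- hM
    rintro (u | ⟨l, u⟩)
    · fin_cases u <;> simp [nh]
    · exact (g.hM u).trans (by omega)
  · -- deg1
    intro a b ha hb
    rw [nb0 ha, nb0 hb]
  · -- conn
    intro P hP x
    have h1 : ∀ a c : Fin 4, a.val + 1 = c.val → (P (Sum.inl a) ↔ P (Sum.inl c)) :=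
      fun a c hac => hP _ _ (Or.inl hac)
    have h01 := h1 0 1 rfl
    have h12 := h1 1 2 rfl
    have h23 := h1 2 3 rfl
    have h2 : ∀ a : Fin 4, P (Sum.inl a) ↔ P (Sum.inl 0) := by
      intro a
      fin_cases a
      · exact Iff.rfl
      · exact h01.symm
      · exact (h01.trans h12).symm
      · exact (h01.trans (h12.trans h23)).symm
    rcases x with a | ⟨l, v⟩
    · exact h2 a
    · have h3 : P (Sum.inr (l, r)) ↔ P (Sum.inl (hub l)) := hP _ _ ⟨rfl, rfl⟩
      have h4 := g.conn (fun w => P (Sum.inr (l, w))) (fun x y hxy => hP _ _ ⟨rfl, hxy⟩) v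
      exact h4.trans (h3.trans (h2 _))

theorem good_one : Good 1 Bool ⊤ id (fun b => if b then 1 else 0) (fun _ => false) true 1 := by
  refine ⟨inferInstance, ?_, ?_, ?_, ?_, ?_, ?_, ?_, rfl, rfl, ?_, rfl, ?_, ?_⟩
  · intro u v h
    exact h
  · intro u v h
    cases u <;> cases v <;> simp at h ⊢
  · intro u v w h1 h2
    cases u <;> cases v <;> cases w <;> simp at h1 h2 ⊢
  · intro u v _
    exact Or.inl rfl
  · intro u a b c _ h1 h2 _
    cases u <;> cases a <;> cases b <;> simp at h1 h2 ⊢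
  · intro u a b c d h1 h2 _ _
    cases u <;> cases a <;> cases b <;> simp at h1 h2 ⊢
  · intro p hp
    rcases lt_or_gt_of_ne (fun h : p true = p false => by simpa using hp h) with h | h
    · exact ⟨p false, fun _ => true, fun _ => ⟨h, false, le_rfl, by simp⟩,
        fun i j hij => absurd (Subsingleton.elim i j) hij⟩
    · exact ⟨p true, fun _ => false, fun _ => ⟨h, true, le_rfl, by simp⟩,
        fun i j hij => absurd (Subsingleton.elim i j) hij⟩
  · intro v
    cases v <;> simp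
  · intro a b h1 h2
    cases a <;> cases b <;> simp at h1 h2 ⊢
  · intro P hP x
    cases x
    · exact hP false true (by simp)
    · exact Iff.rfl

theorem exists_good (k : ℕ) : ∃ (V : Type) (G : SimpleGraph V) (s : V → Bool)
    (h : V → ℕ) (T : V → Bool) (r : V) (M : ℕ), Good (k + 1) V G s h T r M := by
  induction k with
  | zero => exact ⟨_, _, _, _, _, _, _, good_one⟩
  | succ k ih =>
    obtain ⟨V, G, s, h, T, r, M, g⟩ := ih
    exact ⟨_, _, _, _, _, _, _, good_step (Nat.succ_pos k) g⟩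

end famS

theorem exists_S (k : ℕ) : ∃ (V : Type) (_ : Finite V) (G : SimpleGraph V) (s : V → Bool)
    (h : V → ℕ) (T : V → Bool),
    (∀ u v, G.Adj u v → s u ≠ s v) ∧
    (∀ u v, G.Adj u v → h u ≠ h v) ∧
    (∀ u v w, G.Adj u v → G.Adj u w → h u < h v → h u < h w → v = w) ∧
    (∀ u v, G.Adj u v → T u = false ∨ T v = false) ∧
    (∀ u a b c, T u = false → G.Adj u a → G.Adj u b → G.Adj u c → a = b ∨ a = c ∨ b = c) ∧
    (∀ u a b c d, G.Adj u a → G.Adj u b → G.Adj u c → G.Adj u d →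
      a = b ∨ a = c ∨ a = d ∨ b = c ∨ b = d ∨ c = d) ∧
    Wide k G := by
  rcases k with _ | k
  · obtain ⟨V, G, s, h, T, r, M, g⟩ := exists_good 0
    refine ⟨V, g.fin, G, s, h, T, g.side, g.hne, g.par, g.noTT, g.deg2, g.deg3, ?_⟩
    intro p _
    exact ⟨0, Fin.elim0, fun i => i.elim0, fun i => i.elim0⟩
  · obtain ⟨V, G, s, h, T, r, M, g⟩ := exists_good k
    exact ⟨V, g.fin, G, s, h, T, g.side, g.hne, g.par, g.noTT, g.deg2, g.deg3, g.wide⟩

end Pool.Agent.Helper856.Lcw.FamS
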