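import Pool.Agent.Helper856.Lcw.GBase
import Pool.Agent.Helper856.Lcw.FamS

open Classical SimpleGraph

namespace Pool.Agent.Helper856.Lcw.UnbS

open FamS

/-- the properties of the graph from `exists_S` -/
structure SG {V : Type} (G : SimpleGraph V) (s : V → Bool) (h : V → ℕ) (T : V → Bool) : Prop where
  side : ∀ u v, G.Adj u v → s u ≠ s v
  hne : ∀ u v, G.Adj u v → h u ≠ h v
  up : ∀ u v w, G.Adj u v → G.Adj u w → h u < h v → h u < h w → v = w
  tt : ∀ u v, G.Adj u v → T u = false ∨ T v = false
  three : ∀ u a b c, T u = false → G.Adj u a → G.Adj u b → G.Adj u c → a = b ∨ a = c ∨ b = c
  four : ∀ u a b c d, G.Adj u a → G.Adj u b → G.Adj u c → G.Adj u d →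
      a = b ∨ a = c ∨ a = d ∨ b = c ∨ b = d ∨ c = d

theorem SG.lm {V : Type} {G : SimpleGraph V} {s : V → Bool} {h : V → ℕ} {T : V → Bool}
    (hG : SG G s h T) {u v w : V} (h1 : G.Adj u v) (h2 : G.Adj u w) (hne : v ≠ w) :
    h v < h u ∨ h w < h u := by
  by_contra hcon
  push Not at hcon
  exact hne (hG.up u v w h1 h2 (lt_of_le_of_ne hcon.1 (hG.hne u v h1))
    (lt_of_le_of_ne hcon.2 (hG.hne u w h2)))

theorem SG.no_C4 {V : Type} {G : SimpleGraph V} {s : V → Bool} {h : V → ℕ} {T : V → Bool}
    (hG : SG G s h T) {v0 v1 v2 v3 : V} (n02 : v0 ≠ v2) (n13 : v1 ≠ v3)
    (a01 : G.Adj v0 v1) (a12 : G.Adj v1 v2) (a23 : G.Adj v2 v3) (a30 : G.Adj v3 v0) : False := by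
  have e0 := hG.lm a01 a30.symm n13
  have e1 := hG.lm a12 a01.symm n02.symm
  have e2 := hG.lm a23 a12.symm n13.symm
  have e3 := hG.lm a30 a23.symm n02
  omega

theorem SG.no_C6 {V : Type} {G : SimpleGraph V} {s : V → Bool} {h : V → ℕ} {T : V → Bool}
    (hG : SG G s h T) {v0 v1 v2 v3 v4 v5 : V} (n02 : v0 ≠ v2) (n13 : v1 ≠ v3) (n24 : v2 ≠ v4)
    (n35 : v3 ≠ v5) (n40 : v4 ≠ v0) (n51 : v5 ≠ v1)
    (a01 : G.Adj v0 v1) (a12 : G.Adj v1 v2) (a23 : G.Adj v2 v3) (a34 : G.Adj v3 v4)
    (a45 : G.Adj v4 v5) (a50 : G.Adj v5 v0) : False := by
  have e0 := hG.lm a01 a50.symm n51.symm
  have e1 := hG.lm a12 a01.symm n02.symm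
  have e2 := hG.lm a23 a12.symm n13.symm
  have e3 := hG.lm a34 a23.symm n24.symm
  have e4 := hG.lm a45 a34.symm n35.symm
  have e5 := hG.lm a50 a45.symm n40.symm
  omega

theorem SG.no_K14 {V : Type} {G : SimpleGraph V} {s : V → Bool} {h : V → ℕ} {T : V → Bool}
    (hG : SG G s h T) {u a b c d : V} (ab : a ≠ b) (ac : a ≠ c) (ad : a ≠ d) (bc : b ≠ c)
    (bd : b ≠ d) (cd : c ≠ d) (h1 : G.Adj u a) (h2 : G.Adj u b) (h3 : G.Adj u c)
    (h4 : G.Adj u d) : False := by
  rcases hG.four u a b c d h1 h2 h3 h4 with h | h | h | h | h | h
  · exact ab h
  · exact ac h
  · exact ad h
  · exact bc h
  · exact bd h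
  · exact cd h

theorem wide_not_glin {V : Type} {k : ℕ} {G : SimpleGraph V} (h : Wide (k + 1) G) :
    ¬ GLin k G := by
  rintro ⟨p, hp, hc⟩
  obtain ⟨t, f, hf1, hf2⟩ := h p hp
  obtain ⟨c, hc⟩ := hc t
  obtain ⟨i, j, hij, hcij⟩ := Fintype.exists_ne_map_eq_of_card_lt (fun i => c (f i)) (by simp)
  obtain ⟨w, hw1, hw2⟩ := hf2 i j hij
  exact hw2 (hc (f i) (f j) (hf1 i).1 (hf1 j).1 hcij w hw1)

/-- bipartite complement with respect to the sides -/
def coG {V : Type} (G : SimpleGraph V) (s : V → Bool) : SimpleGraph V where
  Adj u v := s u ≠ s v ∧ ¬ G.Adj u v
  symm := ⟨fun _ _ h => ⟨h.1.symm, fun h' => h.2 h'.symm⟩⟩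
  loopless := ⟨fun _ h => h.1 rfl⟩

theorem glin_co {V : Type} {k : ℕ} {G : SimpleGraph V} {s : V → Bool}
    (hs : ∀ u v, G.Adj u v → s u ≠ s v) (h : GLin k (coG G s)) : GLin (2 * k) G := by
  obtain ⟨p, hp, hc⟩ := h
  refine ⟨p, hp, fun t => ?_⟩
  obtain ⟨c, hc⟩ := hc t
  refine ⟨fun v => if s v then ⟨(c v).val, by omega⟩ else ⟨k + (c v).val, by omega⟩, ?_⟩
  intro u v hu hv huv w hw
  have key : s u = s v ∧ c u = c v := by
    have h1 := (c u).2
    have h2 := (c v).2
    cases hsu : s u <;> cases hsv : s v <;> simp [hsu, hsv] at huv
    · exact ⟨rfl, Fin.ext huv⟩
    · omega
    · omega
    · exact ⟨rfl, Fin.ext huv⟩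
  have h3 := hc u v hu hv key.2 w hw
  constructor
  · intro h4
    by_contra h5
    have h6 : (coG G s).Adj v w := ⟨by rw [← key.1]; exact hs u w h4, h5⟩
    exact (h3.mpr h6).2 h4
  · intro h4
    by_contra h5
    have h6 : (coG G s).Adj u w := ⟨by rw [key.1]; exact hs v w h4, h5⟩
    exact (h3.mp h6).2 h4

theorem bip {V : Type} {G : SimpleGraph V} {s : V → Bool}
    (hs : ∀ u v, G.Adj u v → s u ≠ s v) : G.IsBipartite := by
  refine ⟨Coloring.mk (fun v => if s v then (0 : Fin 2) else 1) ?_⟩
  intro u v huv
  have := hs u v huv
  cases hu : s u <;> cases hv : s v <;> simp_all

theorem unb_of {n : ℕ} {F : SimpleGraph (Fin n)}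
    (H : ∀ (V : Type) (G : SimpleGraph V) (s : V → Bool) (h : V → ℕ) (T : V → Bool),
      SG G s h T → (F ↪g G) → False) : Unb F := by
  intro k
  obtain ⟨V, hV, G, s, h, T, h1, h2, h3, h4, h5, h6, h7⟩ := exists_S (k + 1)
  refine ⟨V, hV, G, bip h1, ?_, wide_not_glin h7⟩
  rintro ⟨f⟩
  exact H V G s h T ⟨h1, h2, h3, h4, h5, h6⟩ f

theorem unb_of_co {n : ℕ} {F : SimpleGraph (Fin n)}
    (H : ∀ (V : Type) (G : SimpleGraph V) (s : V → Bool) (h : V → ℕ) (T : V → Bool),
      SG G s h T → (F ↪g coG G s) → False) : Unb F := by
  intro k
  obtain ⟨V, hV, G, s, h, T, h1, h2, h3, h4, h5, h6, h7⟩ := exists_S (2 * k + 1)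
  refine ⟨V, hV, coG G s, bip (s := s) (fun u v h => h.1), ?_,
    fun hg => wide_not_glin h7 (glin_co h1 hg)⟩
  rintro ⟨f⟩
  exact H V G s h T ⟨h1, h2, h3, h4, h5, h6⟩ f

section emb
variable {V : Type} {G : SimpleGraph V} {n : ℕ} {L : List (ℕ × ℕ)}

theorem em_adj (f : gr n L ↪g G) (i j : Fin n) (hne : i ≠ j) (h : (i.val, j.val) ∈ L) :
    G.Adj (f i) (f j) := by
  rw [f.map_adj_iff, gr, SimpleGraph.fromRel_adj]
  exact ⟨hne, Or.inl h⟩

theorem em_ne {F : SimpleGraph (Fin n)} (f : F ↪g G) (i j : Fin n) (hne : i ≠ j) : f i ≠ f j :=
  fun h => hne (f.injective h)

theorem co_side {s : V → Bool} (f : gr n L ↪g coG G s) (i j : Fin n) (hne : i ≠ j)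
    (h : (i.val, j.val) ∈ L) : s (f i) ≠ s (f j) := (em_adj f i j hne h).1

theorem co_adj {s : V → Bool} (f : gr n L ↪g coG G s) (i j : Fin n)
    (h1 : (i.val, j.val) ∉ L) (h2 : (j.val, i.val) ∉ L) (hs : s (f i) ≠ s (f j)) :
    G.Adj (f i) (f j) := by
  by_contra h
  have h3 : (coG G s).Adj (f i) (f j) := ⟨hs, h⟩
  rw [f.map_adj_iff, gr, SimpleGraph.fromRel_adj] at h3
  rcases h3.2 with h4 | h4
  · exact h1 h4
  · exact h2 h4

end emb

theorem unb_C3 : Unb C3 := by
  apply unb_of
  intro V G s h T hG f
  have a : s (f 0) ≠ s (f 1) := hG.side _ _ (em_adj f 0 1 (by decide) (by decide))
  have b : s (f 1) ≠ s (f 2) := hG.side _ _ (em_adj f 1 2 (by decide) (by decide))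
  have c : s (f 0) ≠ s (f 2) := hG.side _ _ (em_adj f 0 2 (by decide) (by decide))
  cases h0 : s (f 0) <;> cases h1 : s (f 1) <;> cases h2 : s (f 2) <;> simp_all

theorem unb_C4 : Unb C4 := by
  apply unb_of
  intro V G s h T hG f
  exact hG.no_C4 (em_ne f 0 2 (by decide)) (em_ne f 1 3 (by decide))
    (em_adj f 0 1 (by decide) (by decide)) (em_adj f 1 2 (by decide) (by decide))
    (em_adj f 2 3 (by decide) (by decide)) (em_adj f 0 3 (by decide) (by decide)).symm

theorem unb_C5 : Unb C5 := by
  apply unb_of
  intro V G s h T hG f
  have a : s (f 0) ≠ s (f 1) := hG.side _ _ (em_adj f 0 1 (by decide) (by decide))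
  have b : s (f 1) ≠ s (f 2) := hG.side _ _ (em_adj f 1 2 (by decide) (by decide))
  have c : s (f 2) ≠ s (f 3) := hG.side _ _ (em_adj f 2 3 (by decide) (by decide))
  have d : s (f 3) ≠ s (f 4) := hG.side _ _ (em_adj f 3 4 (by decide) (by decide))
  have e : s (f 0) ≠ s (f 4) := hG.side _ _ (em_adj f 0 4 (by decide) (by decide))
  cases h0 : s (f 0) <;> cases h1 : s (f 1) <;> cases h2 : s (f 2) <;>
    cases h3 : s (f 3) <;> cases h4 : s (f 4) <;> simp_all

theorem unb_C6 : Unb C6 := by
  apply unb_of
  intro V G s h T hG f
  exact hG.no_C6 (em_ne f 0 2 (by decide)) (em_ne f 1 3 (by decide)) (em_ne f 2 4 (by decide))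
    (em_ne f 3 5 (by decide)) (em_ne f 4 0 (by decide)) (em_ne f 5 1 (by decide))
    (em_adj f 0 1 (by decide) (by decide)) (em_adj f 1 2 (by decide) (by decide))
    (em_adj f 2 3 (by decide) (by decide)) (em_adj f 3 4 (by decide) (by decide))
    (em_adj f 4 5 (by decide) (by decide)) (em_adj f 0 5 (by decide) (by decide)).symm

theorem unb_K14 : Unb K14 := by
  apply unb_of
  intro V G s h T hG f
  exact hG.no_K14 (em_ne f 1 2 (by decide)) (em_ne f 1 3 (by decide)) (em_ne f 1 4 (by decide))
    (em_ne f 2 3 (by decide)) (em_ne f 2 4 (by decide)) (em_ne f 3 4 (by decide))
    (em_adj f 0 1 (by decide) (by decide)) (em_adj f 0 2 (by decide) (by decide))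
    (em_adj f 0 3 (by decide) (by decide)) (em_adj f 0 4 (by decide) (by decide))

theorem unb_DS : Unb DS := by
  apply unb_of
  intro V G s h T hG f
  rcases hG.tt _ _ (em_adj f 0 1 (by decide) (by decide)) with ht | ht
  · rcases hG.three _ _ _ _ ht (em_adj f 0 1 (by decide) (by decide))
      (em_adj f 0 2 (by decide) (by decide)) (em_adj f 0 3 (by decide) (by decide)) with e | e | e
    · exact em_ne f 1 2 (by decide) e
    · exact em_ne f 1 3 (by decide) e
    · exact em_ne f 2 3 (by decide) e
  · rcases hG.three _ _ _ _ ht (em_adj f 0 1 (by decide) (by decide)).symm
      (em_adj f 1 4 (by decide) (by decide)) (em_adj f 1 5 (by decide) (by decide)) with e | e | e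
    · exact em_ne f 0 4 (by decide) e
    · exact em_ne f 0 5 (by decide) e
    · exact em_ne f 4 5 (by decide) e

theorem unb_F2P1_2P2 : Unb F2P1_2P2 := by
  apply unb_of_co
  intro V G s h T hG f
  have e01 : s (f 0) ≠ s (f 1) := co_side f 0 1 (by decide) (by decide)
  have e23 : s (f 2) ≠ s (f 3) := co_side f 2 3 (by decide) (by decide)
  have ad : ∀ i j : Fin 6, (i.val, j.val) ∉ ([(0,1),(2,3)] : List (ℕ × ℕ)) → (j.val, i.val) ∉ ([(0,1),(2,3)] : List (ℕ × ℕ)) → ∀ b : Bool, s (f i) = b → s (f j) = !b → G.Adj (f i) (f j) := by
    intro i j h1 h2 b hb1 hb2
    have hne : s (f i) ≠ s (f j) := by rw [hb1, hb2]; cases b <;> decide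
    exact co_adj f i j h1 h2 hne
  cases h0 : s (f 0)
  case false =>
    cases h1 : s (f 1)
    case false =>
      cases h2 : s (f 2)
      case false =>
        cases h3 : s (f 3)
        case false =>
          cases h4 : s (f 4)
          case false =>
            cases h5 : s (f 5)
            case false =>
              exact e01 (by rw [h0, h1])
            case true =>
              exact e01 (by rw [h0, h1])
          case true =>
            cases h5 : s (f 5)
            case false =>
              exact e01 (by rw [h0, h1])
            case true =>
              exact e01 (by rw [h0, h1])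
        case true =>
          cases h4 : s (f 4)
          case false =>
            cases h5 : s (f 5)
            case false =>
              exact e01 (by rw [h0, h1])
            case true =>
              exact e01 (by rw [h0, h1])
          case true =>
            cases h5 : s (f 5)
            case false =>
              exact e01 (by rw [h0, h1])
            case true =>
              exact e01 (by rw [h0, h1])
      case true =>
        cases h3 : s (f 3)
        case false =>
          cases h4 : s (f 4)
          case false =>
            cases h5 : s (f 5)
            case false =>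
              exact e01 (by rw [h0, h1])
            case true =>
              exact e01 (by rw [h0, h1])
          case true =>
            cases h5 : s (f 5)
            case false =>
              exact e01 (by rw [h0, h1])
            case true =>
              exact e01 (by rw [h0, h1])
        case true =>
          cases h4 : s (f 4)
          case false =>
            cases h5 : s (f 5)
            case false =>
              exact e01 (by rw [h0, h1])
            case true =>
              exact e01 (by rw [h0, h1])
          case true =>
            cases h5 : s (f 5)
            case false =>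
              exact e01 (by rw [h0, h1])
            case true =>
              exact e01 (by rw [h0, h1])
    case true =>
      cases h2 : s (f 2)
      case false =>
        cases h3 : s (f 3)
        case false =>
          cases h4 : s (f 4)
          case false =>
            cases h5 : s (f 5)
            case false =>
              exact e23 (by rw [h2, h3])
            case true =>
              exact e23 (by rw [h2, h3])
          case true =>
            cases h5 : s (f 5)
            case false =>
              exact e23 (by rw [h2, h3])
            case true =>
              exact e23 (by rw [h2, h3])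
        case true =>
          cases h4 : s (f 4)
          case false =>
            cases h5 : s (f 5)
            case false =>
              exact hG.no_C4 (em_ne f 1 3 (by decide)) (em_ne f 4 5 (by decide)) (ad 1 4 (by decide) (by decide) _ h1 h4) (ad 4 3 (by decide) (by decide) _ h4 h3) (ad 3 5 (by decide) (by decide) _ h3 h5) (ad 5 1 (by decide) (by decide) _ h5 h1)
            case true =>
              exact hG.no_C4 (em_ne f 0 4 (by decide)) (em_ne f 3 5 (by decide)) (ad 0 3 (by decide) (by decide) _ h0 h3) (ad 3 4 (by decide) (by decide) _ h3 h4) (ad 4 5 (by decide) (by decide) _ h4 h5) (ad 5 0 (by decide) (by decide) _ h5 h0)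
          case true =>
            cases h5 : s (f 5)
            case false =>
              exact hG.no_C4 (em_ne f 0 5 (by decide)) (em_ne f 3 4 (by decide)) (ad 0 3 (by decide) (by decide) _ h0 h3) (ad 3 5 (by decide) (by decide) _ h3 h5) (ad 5 4 (by decide) (by decide) _ h5 h4) (ad 4 0 (by decide) (by decide) _ h4 h0)
            case true =>
              exact hG.no_C4 (em_ne f 0 2 (by decide)) (em_ne f 4 5 (by decide)) (ad 0 4 (by decide) (by decide) _ h0 h4) (ad 4 2 (by decide) (by decide) _ h4 h2) (ad 2 5 (by decide) (by decide) _ h2 h5) (ad 5 0 (by decide) (by decide) _ h5 h0)
      case true =>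
        cases h3 : s (f 3)
        case false =>
          cases h4 : s (f 4)
          case false =>
            cases h5 : s (f 5)
            case false =>
              exact hG.no_C4 (em_ne f 1 2 (by decide)) (em_ne f 4 5 (by decide)) (ad 1 4 (by decide) (by decide) _ h1 h4) (ad 4 2 (by decide) (by decide) _ h4 h2) (ad 2 5 (by decide) (by decide) _ h2 h5) (ad 5 1 (by decide) (by decide) _ h5 h1)
            case true =>
              exact hG.no_C4 (em_ne f 0 4 (by decide)) (em_ne f 2 5 (by decide)) (ad 0 2 (by decide) (by decide) _ h0 h2) (ad 2 4 (by decide) (by decide) _ h2 h4) (ad 4 5 (by decide) (by decide) _ h4 h5) (ad 5 0 (by decide) (by decide) _ h5 h0)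
          case true =>
            cases h5 : s (f 5)
            case false =>
              exact hG.no_C4 (em_ne f 0 5 (by decide)) (em_ne f 2 4 (by decide)) (ad 0 2 (by decide) (by decide) _ h0 h2) (ad 2 5 (by decide) (by decide) _ h2 h5) (ad 5 4 (by decide) (by decide) _ h5 h4) (ad 4 0 (by decide) (by decide) _ h4 h0)
            case true =>
              exact hG.no_C4 (em_ne f 0 3 (by decide)) (em_ne f 4 5 (by decide)) (ad 0 4 (by decide) (by decide) _ h0 h4) (ad 4 3 (by decide) (by decide) _ h4 h3) (ad 3 5 (by decide) (by decide) _ h3 h5) (ad 5 0 (by decide) (by decide) _ h5 h0)
        case true =>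
          cases h4 : s (f 4)
          case false =>
            cases h5 : s (f 5)
            case false =>
              exact e23 (by rw [h2, h3])
            case true =>
              exact e23 (by rw [h2, h3])
          case true =>
            cases h5 : s (f 5)
            case false =>
              exact e23 (by rw [h2, h3])
            case true =>
              exact e23 (by rw [h2, h3])
  case true =>
    cases h1 : s (f 1)
    case false =>
      cases h2 : s (f 2)
      case false =>
        cases h3 : s (f 3)
        case false =>
          cases h4 : s (f 4)
          case false =>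
            cases h5 : s (f 5)
            case false =>
              exact e23 (by rw [h2, h3])
            case true =>
              exact e23 (by rw [h2, h3])
          case true =>
            cases h5 : s (f 5)
            case false =>
              exact e23 (by rw [h2, h3])
            case true =>
              exact e23 (by rw [h2, h3])
        case true =>
          cases h4 : s (f 4)
          case false =>
            cases h5 : s (f 5)
            case false =>
              exact hG.no_C4 (em_ne f 0 3 (by decide)) (em_ne f 4 5 (by decide)) (ad 0 4 (by decide) (by decide) _ h0 h4) (ad 4 3 (by decide) (by decide) _ h4 h3) (ad 3 5 (by decide) (by decide) _ h3 h5) (ad 5 0 (by decide) (by decide) _ h5 h0)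
            case true =>
              exact hG.no_C4 (em_ne f 0 5 (by decide)) (em_ne f 2 4 (by decide)) (ad 0 2 (by decide) (by decide) _ h0 h2) (ad 2 5 (by decide) (by decide) _ h2 h5) (ad 5 4 (by decide) (by decide) _ h5 h4) (ad 4 0 (by decide) (by decide) _ h4 h0)
          case true =>
            cases h5 : s (f 5)
            case false =>
              exact hG.no_C4 (em_ne f 0 4 (by decide)) (em_ne f 2 5 (by decide)) (ad 0 2 (by decide) (by decide) _ h0 h2) (ad 2 4 (by decide) (by decide) _ h2 h4) (ad 4 5 (by decide) (by decide) _ h4 h5) (ad 5 0 (by decide) (by decide) _ h5 h0)
            case true =>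
              exact hG.no_C4 (em_ne f 1 2 (by decide)) (em_ne f 4 5 (by decide)) (ad 1 4 (by decide) (by decide) _ h1 h4) (ad 4 2 (by decide) (by decide) _ h4 h2) (ad 2 5 (by decide) (by decide) _ h2 h5) (ad 5 1 (by decide) (by decide) _ h5 h1)
      case true =>
        cases h3 : s (f 3)
        case false =>
          cases h4 : s (f 4)
          case false =>
            cases h5 : s (f 5)
            case false =>
              exact hG.no_C4 (em_ne f 0 2 (by decide)) (em_ne f 4 5 (by decide)) (ad 0 4 (by decide) (by decide) _ h0 h4) (ad 4 2 (by decide) (by decide) _ h4 h2) (ad 2 5 (by decide) (by decide) _ h2 h5) (ad 5 0 (by decide) (by decide) _ h5 h0)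
            case true =>
              exact hG.no_C4 (em_ne f 0 5 (by decide)) (em_ne f 3 4 (by decide)) (ad 0 3 (by decide) (by decide) _ h0 h3) (ad 3 5 (by decide) (by decide) _ h3 h5) (ad 5 4 (by decide) (by decide) _ h5 h4) (ad 4 0 (by decide) (by decide) _ h4 h0)
          case true =>
            cases h5 : s (f 5)
            case false =>
              exact hG.no_C4 (em_ne f 0 4 (by decide)) (em_ne f 3 5 (by decide)) (ad 0 3 (by decide) (by decide) _ h0 h3) (ad 3 4 (by decide) (by decide) _ h3 h4) (ad 4 5 (by decide) (by decide) _ h4 h5) (ad 5 0 (by decide) (by decide) _ h5 h0)
            case true =>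
              exact hG.no_C4 (em_ne f 1 3 (by decide)) (em_ne f 4 5 (by decide)) (ad 1 4 (by decide) (by decide) _ h1 h4) (ad 4 3 (by decide) (by decide) _ h4 h3) (ad 3 5 (by decide) (by decide) _ h3 h5) (ad 5 1 (by decide) (by decide) _ h5 h1)
        case true =>
          cases h4 : s (f 4)
          case false =>
            cases h5 : s (f 5)
            case false =>
              exact e23 (by rw [h2, h3])
            case true =>
              exact e23 (by rw [h2, h3])
          case true =>
            cases h5 : s (f 5)
            case false =>
              exact e23 (by rw [h2, h3])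
            case true =>
              exact e23 (by rw [h2, h3])
    case true =>
      cases h2 : s (f 2)
      case false =>
        cases h3 : s (f 3)
        case false =>
          cases h4 : s (f 4)
          case false =>
            cases h5 : s (f 5)
            case false =>
              exact e01 (by rw [h0, h1])
            case true =>
              exact e01 (by rw [h0, h1])
          case true =>
            cases h5 : s (f 5)
            case false =>
              exact e01 (by rw [h0, h1])
            case true =>
              exact e01 (by rw [h0, h1])
        case true =>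
          cases h4 : s (f 4)
          case false =>
            cases h5 : s (f 5)
            case false =>
              exact e01 (by rw [h0, h1])
            case true =>
              exact e01 (by rw [h0, h1])
          case true =>
            cases h5 : s (f 5)
            case false =>
              exact e01 (by rw [h0, h1])
            case true =>
              exact e01 (by rw [h0, h1])
      case true =>
        cases h3 : s (f 3)
        case false =>
          cases h4 : s (f 4)
          case false =>
            cases h5 : s (f 5)
            case false =>
              exact e01 (by rw [h0, h1])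
            case true =>
              exact e01 (by rw [h0, h1])
          case true =>
            cases h5 : s (f 5)
            case false =>
              exact e01 (by rw [h0, h1])
            case true =>
              exact e01 (by rw [h0, h1])
        case true =>
          cases h4 : s (f 4)
          case false =>
            cases h5 : s (f 5)
            case false =>
              exact e01 (by rw [h0, h1])
            case true =>
              exact e01 (by rw [h0, h1])
          case true =>
            cases h5 : s (f 5)
            case false =>
              exact e01 (by rw [h0, h1])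
            case true =>
              exact e01 (by rw [h0, h1])

theorem unb_F2P1_P4 : Unb F2P1_P4 := by
  apply unb_of_co
  intro V G s h T hG f
  have e01 : s (f 0) ≠ s (f 1) := co_side f 0 1 (by decide) (by decide)
  have e12 : s (f 1) ≠ s (f 2) := co_side f 1 2 (by decide) (by decide)
  have e23 : s (f 2) ≠ s (f 3) := co_side f 2 3 (by decide) (by decide)
  have ad : ∀ i j : Fin 6, (i.val, j.val) ∉ ([(0,1),(1,2),(2,3)] : List (ℕ × ℕ)) → (j.val, i.val) ∉ ([(0,1),(1,2),(2,3)] : List (ℕ × ℕ)) → ∀ b : Bool, s (f i) = b → s (f j) = !b → G.Adj (f i) (f j) := by
    intro i j h1 h2 b hb1 hb2
    have hne : s (f i) ≠ s (f j) := by rw [hb1, hb2]; cases b <;> decide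
    exact co_adj f i j h1 h2 hne
  cases h0 : s (f 0)
  case false =>
    cases h1 : s (f 1)
    case false =>
      cases h2 : s (f 2)
      case false =>
        cases h3 : s (f 3)
        case false =>
          cases h4 : s (f 4)
          case false =>
            cases h5 : s (f 5)
            case false =>
              exact e01 (by rw [h0, h1])
            case true =>
              exact e01 (by rw [h0, h1])
          case true =>
            cases h5 : s (f 5)
            case false =>
              exact e01 (by rw [h0, h1])
            case true =>
              exact e01 (by rw [h0, h1])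
        case true =>
          cases h4 : s (f 4)
          case false =>
            cases h5 : s (f 5)
            case false =>
              exact e01 (by rw [h0, h1])
            case true =>
              exact e01 (by rw [h0, h1])
          case true =>
            cases h5 : s (f 5)
            case false =>
              exact e01 (by rw [h0, h1])
            case true =>
              exact e01 (by rw [h0, h1])
      case true =>
        cases h3 : s (f 3)
        case false =>
          cases h4 : s (f 4)
          case false =>
            cases h5 : s (f 5)
            case false =>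
              exact e01 (by rw [h0, h1])
            case true =>
              exact e01 (by rw [h0, h1])
          case true =>
            cases h5 : s (f 5)
            case false =>
              exact e01 (by rw [h0, h1])
            case true =>
              exact e01 (by rw [h0, h1])
        case true =>
          cases h4 : s (f 4)
          case false =>
            cases h5 : s (f 5)
            case false =>
              exact e01 (by rw [h0, h1])
            case true =>
              exact e01 (by rw [h0, h1])
          case true =>
            cases h5 : s (f 5)
            case false =>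
              exact e01 (by rw [h0, h1])
            case true =>
              exact e01 (by rw [h0, h1])
    case true =>
      cases h2 : s (f 2)
      case false =>
        cases h3 : s (f 3)
        case false =>
          cases h4 : s (f 4)
          case false =>
            cases h5 : s (f 5)
            case false =>
              exact e23 (by rw [h2, h3])
            case true =>
              exact e23 (by rw [h2, h3])
          case true =>
            cases h5 : s (f 5)
            case false =>
              exact e23 (by rw [h2, h3])
            case true =>
              exact e23 (by rw [h2, h3])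
        case true =>
          cases h4 : s (f 4)
          case false =>
            cases h5 : s (f 5)
            case false =>
              exact hG.no_C4 (em_ne f 1 3 (by decide)) (em_ne f 4 5 (by decide)) (ad 1 4 (by decide) (by decide) _ h1 h4) (ad 4 3 (by decide) (by decide) _ h4 h3) (ad 3 5 (by decide) (by decide) _ h3 h5) (ad 5 1 (by decide) (by decide) _ h5 h1)
            case true =>
              exact hG.no_C4 (em_ne f 0 4 (by decide)) (em_ne f 3 5 (by decide)) (ad 0 3 (by decide) (by decide) _ h0 h3) (ad 3 4 (by decide) (by decide) _ h3 h4) (ad 4 5 (by decide) (by decide) _ h4 h5) (ad 5 0 (by decide) (by decide) _ h5 h0)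
          case true =>
            cases h5 : s (f 5)
            case false =>
              exact hG.no_C4 (em_ne f 0 5 (by decide)) (em_ne f 3 4 (by decide)) (ad 0 3 (by decide) (by decide) _ h0 h3) (ad 3 5 (by decide) (by decide) _ h3 h5) (ad 5 4 (by decide) (by decide) _ h5 h4) (ad 4 0 (by decide) (by decide) _ h4 h0)
            case true =>
              exact hG.no_C4 (em_ne f 0 2 (by decide)) (em_ne f 4 5 (by decide)) (ad 0 4 (by decide) (by decide) _ h0 h4) (ad 4 2 (by decide) (by decide) _ h4 h2) (ad 2 5 (by decide) (by decide) _ h2 h5) (ad 5 0 (by decide) (by decide) _ h5 h0)
      case true =>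
        cases h3 : s (f 3)
        case false =>
          cases h4 : s (f 4)
          case false =>
            cases h5 : s (f 5)
            case false =>
              exact e12 (by rw [h1, h2])
            case true =>
              exact e12 (by rw [h1, h2])
          case true =>
            cases h5 : s (f 5)
            case false =>
              exact e12 (by rw [h1, h2])
            case true =>
              exact e12 (by rw [h1, h2])
        case true =>
          cases h4 : s (f 4)
          case false =>
            cases h5 : s (f 5)
            case false =>
              exact e12 (by rw [h1, h2])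
            case true =>
              exact e12 (by rw [h1, h2])
          case true =>
            cases h5 : s (f 5)
            case false =>
              exact e12 (by rw [h1, h2])
            case true =>
              exact e12 (by rw [h1, h2])
  case true =>
    cases h1 : s (f 1)
    case false =>
      cases h2 : s (f 2)
      case false =>
        cases h3 : s (f 3)
        case false =>
          cases h4 : s (f 4)
          case false =>
            cases h5 : s (f 5)
            case false =>
              exact e12 (by rw [h1, h2])
            case true =>
              exact e12 (by rw [h1, h2])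
          case true =>
            cases h5 : s (f 5)
            case false =>
              exact e12 (by rw [h1, h2])
            case true =>
              exact e12 (by rw [h1, h2])
        case true =>
          cases h4 : s (f 4)
          case false =>
            cases h5 : s (f 5)
            case false =>
              exact e12 (by rw [h1, h2])
            case true =>
              exact e12 (by rw [h1, h2])
          case true =>
            cases h5 : s (f 5)
            case false =>
              exact e12 (by rw [h1, h2])
            case true =>
              exact e12 (by rw [h1, h2])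
      case true =>
        cases h3 : s (f 3)
        case false =>
          cases h4 : s (f 4)
          case false =>
            cases h5 : s (f 5)
            case false =>
              exact hG.no_C4 (em_ne f 0 2 (by decide)) (em_ne f 4 5 (by decide)) (ad 0 4 (by decide) (by decide) _ h0 h4) (ad 4 2 (by decide) (by decide) _ h4 h2) (ad 2 5 (by decide) (by decide) _ h2 h5) (ad 5 0 (by decide) (by decide) _ h5 h0)
            case true =>
              exact hG.no_C4 (em_ne f 0 5 (by decide)) (em_ne f 3 4 (by decide)) (ad 0 3 (by decide) (by decide) _ h0 h3) (ad 3 5 (by decide) (by decide) _ h3 h5) (ad 5 4 (by decide) (by decide) _ h5 h4) (ad 4 0 (by decide) (by decide) _ h4 h0)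
          case true =>
            cases h5 : s (f 5)
            case false =>
              exact hG.no_C4 (em_ne f 0 4 (by decide)) (em_ne f 3 5 (by decide)) (ad 0 3 (by decide) (by decide) _ h0 h3) (ad 3 4 (by decide) (by decide) _ h3 h4) (ad 4 5 (by decide) (by decide) _ h4 h5) (ad 5 0 (by decide) (by decide) _ h5 h0)
            case true =>
              exact hG.no_C4 (em_ne f 1 3 (by decide)) (em_ne f 4 5 (by decide)) (ad 1 4 (by decide) (by decide) _ h1 h4) (ad 4 3 (by decide) (by decide) _ h4 h3) (ad 3 5 (by decide) (by decide) _ h3 h5) (ad 5 1 (by decide) (by decide) _ h5 h1)
        case true =>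
          cases h4 : s (f 4)
          case false =>
            cases h5 : s (f 5)
            case false =>
              exact e23 (by rw [h2, h3])
            case true =>
              exact e23 (by rw [h2, h3])
          case true =>
            cases h5 : s (f 5)
            case false =>
              exact e23 (by rw [h2, h3])
            case true =>
              exact e23 (by rw [h2, h3])
    case true =>
      cases h2 : s (f 2)
      case false =>
        cases h3 : s (f 3)
        case false =>
          cases h4 : s (f 4)
          case false =>
            cases h5 : s (f 5)
            case false =>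
              exact e01 (by rw [h0, h1])
            case true =>
              exact e01 (by rw [h0, h1])
          case true =>
            cases h5 : s (f 5)
            case false =>
              exact e01 (by rw [h0, h1])
            case true =>
              exact e01 (by rw [h0, h1])
        case true =>
          cases h4 : s (f 4)
          case false =>
            cases h5 : s (f 5)
            case false =>
              exact e01 (by rw [h0, h1])
            case true =>
              exact e01 (by rw [h0, h1])
          case true =>
            cases h5 : s (f 5)
            case false =>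
              exact e01 (by rw [h0, h1])
            case true =>
              exact e01 (by rw [h0, h1])
      case true =>
        cases h3 : s (f 3)
        case false =>
          cases h4 : s (f 4)
          case false =>
            cases h5 : s (f 5)
            case false =>
              exact e01 (by rw [h0, h1])
            case true =>
              exact e01 (by rw [h0, h1])
          case true =>
            cases h5 : s (f 5)
            case false =>
              exact e01 (by rw [h0, h1])
            case true =>
              exact e01 (by rw [h0, h1])
        case true =>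
          cases h4 : s (f 4)
          case false =>
            cases h5 : s (f 5)
            case false =>
              exact e01 (by rw [h0, h1])
            case true =>
              exact e01 (by rw [h0, h1])
          case true =>
            cases h5 : s (f 5)
            case false =>
              exact e01 (by rw [h0, h1])
            case true =>
              exact e01 (by rw [h0, h1])

theorem unb_F4P1_P2 : Unb F4P1_P2 := by
  apply unb_of_co
  intro V G s h T hG f
  have e01 : s (f 0) ≠ s (f 1) := co_side f 0 1 (by decide) (by decide)
  have ad : ∀ i j : Fin 6, (i.val, j.val) ∉ ([(0,1)] : List (ℕ × ℕ)) → (j.val, i.val) ∉ ([(0,1)] : List (ℕ × ℕ)) → ∀ b : Bool, s (f i) = b → s (f j) = !b → G.Adj (f i) (f j) := by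
    intro i j h1 h2 b hb1 hb2
    have hne : s (f i) ≠ s (f j) := by rw [hb1, hb2]; cases b <;> decide
    exact co_adj f i j h1 h2 hne
  cases h0 : s (f 0)
  case false =>
    cases h1 : s (f 1)
    case false =>
      cases h2 : s (f 2)
      case false =>
        cases h3 : s (f 3)
        case false =>
          cases h4 : s (f 4)
          case false =>
            cases h5 : s (f 5)
            case false =>
              exact e01 (by rw [h0, h1])
            case true =>
              exact e01 (by rw [h0, h1])
          case true =>
            cases h5 : s (f 5)
            case false =>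
              exact e01 (by rw [h0, h1])
            case true =>
              exact e01 (by rw [h0, h1])
        case true =>
          cases h4 : s (f 4)
          case false =>
            cases h5 : s (f 5)
            case false =>
              exact e01 (by rw [h0, h1])
            case true =>
              exact e01 (by rw [h0, h1])
          case true =>
            cases h5 : s (f 5)
            case false =>
              exact e01 (by rw [h0, h1])
            case true =>
              exact e01 (by rw [h0, h1])
      case true =>
        cases h3 : s (f 3)
        case false =>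
          cases h4 : s (f 4)
          case false =>
            cases h5 : s (f 5)
            case false =>
              exact e01 (by rw [h0, h1])
            case true =>
              exact e01 (by rw [h0, h1])
          case true =>
            cases h5 : s (f 5)
            case false =>
              exact e01 (by rw [h0, h1])
            case true =>
              exact e01 (by rw [h0, h1])
        case true =>
          cases h4 : s (f 4)
          case false =>
            cases h5 : s (f 5)
            case false =>
              exact e01 (by rw [h0, h1])
            case true =>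
              exact e01 (by rw [h0, h1])
          case true =>
            cases h5 : s (f 5)
            case false =>
              exact e01 (by rw [h0, h1])
            case true =>
              exact e01 (by rw [h0, h1])
    case true =>
      cases h2 : s (f 2)
      case false =>
        cases h3 : s (f 3)
        case false =>
          cases h4 : s (f 4)
          case false =>
            cases h5 : s (f 5)
            case false =>
              exact hG.no_K14 (em_ne f 2 3 (by decide)) (em_ne f 2 4 (by decide)) (em_ne f 2 5 (by decide)) (em_ne f 3 4 (by decide)) (em_ne f 3 5 (by decide)) (em_ne f 4 5 (by decide)) (ad 1 2 (by decide) (by decide) _ h1 h2) (ad 1 3 (by decide) (by decide) _ h1 h3) (ad 1 4 (by decide) (by decide) _ h1 h4) (ad 1 5 (by decide) (by decide) _ h1 h5)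
            case true =>
              exact hG.no_C4 (em_ne f 1 5 (by decide)) (em_ne f 2 3 (by decide)) (ad 1 2 (by decide) (by decide) _ h1 h2) (ad 2 5 (by decide) (by decide) _ h2 h5) (ad 5 3 (by decide) (by decide) _ h5 h3) (ad 3 1 (by decide) (by decide) _ h3 h1)
          case true =>
            cases h5 : s (f 5)
            case false =>
              exact hG.no_C4 (em_ne f 1 4 (by decide)) (em_ne f 2 3 (by decide)) (ad 1 2 (by decide) (by decide) _ h1 h2) (ad 2 4 (by decide) (by decide) _ h2 h4) (ad 4 3 (by decide) (by decide) _ h4 h3) (ad 3 1 (by decide) (by decide) _ h3 h1)
            case true =>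
              exact hG.no_C4 (em_ne f 0 2 (by decide)) (em_ne f 4 5 (by decide)) (ad 0 4 (by decide) (by decide) _ h0 h4) (ad 4 2 (by decide) (by decide) _ h4 h2) (ad 2 5 (by decide) (by decide) _ h2 h5) (ad 5 0 (by decide) (by decide) _ h5 h0)
        case true =>
          cases h4 : s (f 4)
          case false =>
            cases h5 : s (f 5)
            case false =>
              exact hG.no_C4 (em_ne f 1 3 (by decide)) (em_ne f 2 4 (by decide)) (ad 1 2 (by decide) (by decide) _ h1 h2) (ad 2 3 (by decide) (by decide) _ h2 h3) (ad 3 4 (by decide) (by decide) _ h3 h4) (ad 4 1 (by decide) (by decide) _ h4 h1)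
            case true =>
              exact hG.no_C4 (em_ne f 0 2 (by decide)) (em_ne f 3 5 (by decide)) (ad 0 3 (by decide) (by decide) _ h0 h3) (ad 3 2 (by decide) (by decide) _ h3 h2) (ad 2 5 (by decide) (by decide) _ h2 h5) (ad 5 0 (by decide) (by decide) _ h5 h0)
          case true =>
            cases h5 : s (f 5)
            case false =>
              exact hG.no_C4 (em_ne f 0 2 (by decide)) (em_ne f 3 4 (by decide)) (ad 0 3 (by decide) (by decide) _ h0 h3) (ad 3 2 (by decide) (by decide) _ h3 h2) (ad 2 4 (by decide) (by decide) _ h2 h4) (ad 4 0 (by decide) (by decide) _ h4 h0)
            case true =>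
              exact hG.no_C4 (em_ne f 0 2 (by decide)) (em_ne f 3 4 (by decide)) (ad 0 3 (by decide) (by decide) _ h0 h3) (ad 3 2 (by decide) (by decide) _ h3 h2) (ad 2 4 (by decide) (by decide) _ h2 h4) (ad 4 0 (by decide) (by decide) _ h4 h0)
      case true =>
        cases h3 : s (f 3)
        case false =>
          cases h4 : s (f 4)
          case false =>
            cases h5 : s (f 5)
            case false =>
              exact hG.no_C4 (em_ne f 1 2 (by decide)) (em_ne f 3 4 (by decide)) (ad 1 3 (by decide) (by decide) _ h1 h3) (ad 3 2 (by decide) (by decide) _ h3 h2) (ad 2 4 (by decide) (by decide) _ h2 h4) (ad 4 1 (by decide) (by decide) _ h4 h1)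
            case true =>
              exact hG.no_C4 (em_ne f 0 3 (by decide)) (em_ne f 2 5 (by decide)) (ad 0 2 (by decide) (by decide) _ h0 h2) (ad 2 3 (by decide) (by decide) _ h2 h3) (ad 3 5 (by decide) (by decide) _ h3 h5) (ad 5 0 (by decide) (by decide) _ h5 h0)
          case true =>
            cases h5 : s (f 5)
            case false =>
              exact hG.no_C4 (em_ne f 0 3 (by decide)) (em_ne f 2 4 (by decide)) (ad 0 2 (by decide) (by decide) _ h0 h2) (ad 2 3 (by decide) (by decide) _ h2 h3) (ad 3 4 (by decide) (by decide) _ h3 h4) (ad 4 0 (by decide) (by decide) _ h4 h0)
            case true =>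
              exact hG.no_C4 (em_ne f 0 3 (by decide)) (em_ne f 2 4 (by decide)) (ad 0 2 (by decide) (by decide) _ h0 h2) (ad 2 3 (by decide) (by decide) _ h2 h3) (ad 3 4 (by decide) (by decide) _ h3 h4) (ad 4 0 (by decide) (by decide) _ h4 h0)
        case true =>
          cases h4 : s (f 4)
          case false =>
            cases h5 : s (f 5)
            case false =>
              exact hG.no_C4 (em_ne f 0 4 (by decide)) (em_ne f 2 3 (by decide)) (ad 0 2 (by decide) (by decide) _ h0 h2) (ad 2 4 (by decide) (by decide) _ h2 h4) (ad 4 3 (by decide) (by decide) _ h4 h3) (ad 3 0 (by decide) (by decide) _ h3 h0)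
            case true =>
              exact hG.no_C4 (em_ne f 0 4 (by decide)) (em_ne f 2 3 (by decide)) (ad 0 2 (by decide) (by decide) _ h0 h2) (ad 2 4 (by decide) (by decide) _ h2 h4) (ad 4 3 (by decide) (by decide) _ h4 h3) (ad 3 0 (by decide) (by decide) _ h3 h0)
          case true =>
            cases h5 : s (f 5)
            case false =>
              exact hG.no_C4 (em_ne f 0 5 (by decide)) (em_ne f 2 3 (by decide)) (ad 0 2 (by decide) (by decide) _ h0 h2) (ad 2 5 (by decide) (by decide) _ h2 h5) (ad 5 3 (by decide) (by decide) _ h5 h3) (ad 3 0 (by decide) (by decide) _ h3 h0)
            case true =>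
              exact hG.no_K14 (em_ne f 2 3 (by decide)) (em_ne f 2 4 (by decide)) (em_ne f 2 5 (by decide)) (em_ne f 3 4 (by decide)) (em_ne f 3 5 (by decide)) (em_ne f 4 5 (by decide)) (ad 0 2 (by decide) (by decide) _ h0 h2) (ad 0 3 (by decide) (by decide) _ h0 h3) (ad 0 4 (by decide) (by decide) _ h0 h4) (ad 0 5 (by decide) (by decide) _ h0 h5)
  case true =>
    cases h1 : s (f 1)
    case false =>
      cases h2 : s (f 2)
      case false =>
        cases h3 : s (f 3)
        case false =>
          cases h4 : s (f 4)
          case false =>
            cases h5 : s (f 5)
            case false =>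
              exact hG.no_K14 (em_ne f 2 3 (by decide)) (em_ne f 2 4 (by decide)) (em_ne f 2 5 (by decide)) (em_ne f 3 4 (by decide)) (em_ne f 3 5 (by decide)) (em_ne f 4 5 (by decide)) (ad 0 2 (by decide) (by decide) _ h0 h2) (ad 0 3 (by decide) (by decide) _ h0 h3) (ad 0 4 (by decide) (by decide) _ h0 h4) (ad 0 5 (by decide) (by decide) _ h0 h5)
            case true =>
              exact hG.no_C4 (em_ne f 0 5 (by decide)) (em_ne f 2 3 (by decide)) (ad 0 2 (by decide) (by decide) _ h0 h2) (ad 2 5 (by decide) (by decide) _ h2 h5) (ad 5 3 (by decide) (by decide) _ h5 h3) (ad 3 0 (by decide) (by decide) _ h3 h0)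
          case true =>
            cases h5 : s (f 5)
            case false =>
              exact hG.no_C4 (em_ne f 0 4 (by decide)) (em_ne f 2 3 (by decide)) (ad 0 2 (by decide) (by decide) _ h0 h2) (ad 2 4 (by decide) (by decide) _ h2 h4) (ad 4 3 (by decide) (by decide) _ h4 h3) (ad 3 0 (by decide) (by decide) _ h3 h0)
            case true =>
              exact hG.no_C4 (em_ne f 0 4 (by decide)) (em_ne f 2 3 (by decide)) (ad 0 2 (by decide) (by decide) _ h0 h2) (ad 2 4 (by decide) (by decide) _ h2 h4) (ad 4 3 (by decide) (by decide) _ h4 h3) (ad 3 0 (by decide) (by decide) _ h3 h0)
        case true =>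
          cases h4 : s (f 4)
          case false =>
            cases h5 : s (f 5)
            case false =>
              exact hG.no_C4 (em_ne f 0 3 (by decide)) (em_ne f 2 4 (by decide)) (ad 0 2 (by decide) (by decide) _ h0 h2) (ad 2 3 (by decide) (by decide) _ h2 h3) (ad 3 4 (by decide) (by decide) _ h3 h4) (ad 4 0 (by decide) (by decide) _ h4 h0)
            case true =>
              exact hG.no_C4 (em_ne f 0 3 (by decide)) (em_ne f 2 4 (by decide)) (ad 0 2 (by decide) (by decide) _ h0 h2) (ad 2 3 (by decide) (by decide) _ h2 h3) (ad 3 4 (by decide) (by decide) _ h3 h4) (ad 4 0 (by decide) (by decide) _ h4 h0)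
          case true =>
            cases h5 : s (f 5)
            case false =>
              exact hG.no_C4 (em_ne f 0 3 (by decide)) (em_ne f 2 5 (by decide)) (ad 0 2 (by decide) (by decide) _ h0 h2) (ad 2 3 (by decide) (by decide) _ h2 h3) (ad 3 5 (by decide) (by decide) _ h3 h5) (ad 5 0 (by decide) (by decide) _ h5 h0)
            case true =>
              exact hG.no_C4 (em_ne f 1 2 (by decide)) (em_ne f 3 4 (by decide)) (ad 1 3 (by decide) (by decide) _ h1 h3) (ad 3 2 (by decide) (by decide) _ h3 h2) (ad 2 4 (by decide) (by decide) _ h2 h4) (ad 4 1 (by decide) (by decide) _ h4 h1)
      case true =>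
        cases h3 : s (f 3)
        case false =>
          cases h4 : s (f 4)
          case false =>
            cases h5 : s (f 5)
            case false =>
              exact hG.no_C4 (em_ne f 0 2 (by decide)) (em_ne f 3 4 (by decide)) (ad 0 3 (by decide) (by decide) _ h0 h3) (ad 3 2 (by decide) (by decide) _ h3 h2) (ad 2 4 (by decide) (by decide) _ h2 h4) (ad 4 0 (by decide) (by decide) _ h4 h0)
            case true =>
              exact hG.no_C4 (em_ne f 0 2 (by decide)) (em_ne f 3 4 (by decide)) (ad 0 3 (by decide) (by decide) _ h0 h3) (ad 3 2 (by decide) (by decide) _ h3 h2) (ad 2 4 (by decide) (by decide) _ h2 h4) (ad 4 0 (by decide) (by decide) _ h4 h0)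
          case true =>
            cases h5 : s (f 5)
            case false =>
              exact hG.no_C4 (em_ne f 0 2 (by decide)) (em_ne f 3 5 (by decide)) (ad 0 3 (by decide) (by decide) _ h0 h3) (ad 3 2 (by decide) (by decide) _ h3 h2) (ad 2 5 (by decide) (by decide) _ h2 h5) (ad 5 0 (by decide) (by decide) _ h5 h0)
            case true =>
              exact hG.no_C4 (em_ne f 1 3 (by decide)) (em_ne f 2 4 (by decide)) (ad 1 2 (by decide) (by decide) _ h1 h2) (ad 2 3 (by decide) (by decide) _ h2 h3) (ad 3 4 (by decide) (by decide) _ h3 h4) (ad 4 1 (by decide) (by decide) _ h4 h1)
        case true =>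
          cases h4 : s (f 4)
          case false =>
            cases h5 : s (f 5)
            case false =>
              exact hG.no_C4 (em_ne f 0 2 (by decide)) (em_ne f 4 5 (by decide)) (ad 0 4 (by decide) (by decide) _ h0 h4) (ad 4 2 (by decide) (by decide) _ h4 h2) (ad 2 5 (by decide) (by decide) _ h2 h5) (ad 5 0 (by decide) (by decide) _ h5 h0)
            case true =>
              exact hG.no_C4 (em_ne f 1 4 (by decide)) (em_ne f 2 3 (by decide)) (ad 1 2 (by decide) (by decide) _ h1 h2) (ad 2 4 (by decide) (by decide) _ h2 h4) (ad 4 3 (by decide) (by decide) _ h4 h3) (ad 3 1 (by decide) (by decide) _ h3 h1)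
          case true =>
            cases h5 : s (f 5)
            case false =>
              exact hG.no_C4 (em_ne f 1 5 (by decide)) (em_ne f 2 3 (by decide)) (ad 1 2 (by decide) (by decide) _ h1 h2) (ad 2 5 (by decide) (by decide) _ h2 h5) (ad 5 3 (by decide) (by decide) _ h5 h3) (ad 3 1 (by decide) (by decide) _ h3 h1)
            case true =>
              exact hG.no_K14 (em_ne f 2 3 (by decide)) (em_ne f 2 4 (by decide)) (em_ne f 2 5 (by decide)) (em_ne f 3 4 (by decide)) (em_ne f 3 5 (by decide)) (em_ne f 4 5 (by decide)) (ad 1 2 (by decide) (by decide) _ h1 h2) (ad 1 3 (by decide) (by decide) _ h1 h3) (ad 1 4 (by decide) (by decide) _ h1 h4) (ad 1 5 (by decide) (by decide) _ h1 h5)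
    case true =>
      cases h2 : s (f 2)
      case false =>
        cases h3 : s (f 3)
        case false =>
          cases h4 : s (f 4)
          case false =>
            cases h5 : s (f 5)
            case false =>
              exact e01 (by rw [h0, h1])
            case true =>
              exact e01 (by rw [h0, h1])
          case true =>
            cases h5 : s (f 5)
            case false =>
              exact e01 (by rw [h0, h1])
            case true =>
              exact e01 (by rw [h0, h1])
        case true =>
          cases h4 : s (f 4)
          case false =>
            cases h5 : s (f 5)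
            case false =>
              exact e01 (by rw [h0, h1])
            case true =>
              exact e01 (by rw [h0, h1])
          case true =>
            cases h5 : s (f 5)
            case false =>
              exact e01 (by rw [h0, h1])
            case true =>
              exact e01 (by rw [h0, h1])
      case true =>
        cases h3 : s (f 3)
        case false =>
          cases h4 : s (f 4)
          case false =>
            cases h5 : s (f 5)
            case false =>
              exact e01 (by rw [h0, h1])
            case true =>
              exact e01 (by rw [h0, h1])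
          case true =>
            cases h5 : s (f 5)
            case false =>
              exact e01 (by rw [h0, h1])
            case true =>
              exact e01 (by rw [h0, h1])
        case true =>
          cases h4 : s (f 4)
          case false =>
            cases h5 : s (f 5)
            case false =>
              exact e01 (by rw [h0, h1])
            case true =>
              exact e01 (by rw [h0, h1])
          case true =>
            cases h5 : s (f 5)
            case false =>
              exact e01 (by rw [h0, h1])
            case true =>
              exact e01 (by rw [h0, h1])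

theorem unb_F3P2 : Unb F3P2 := by
  apply unb_of_co
  intro V G s h T hG f
  have e01 : s (f 0) ≠ s (f 1) := co_side f 0 1 (by decide) (by decide)
  have e23 : s (f 2) ≠ s (f 3) := co_side f 2 3 (by decide) (by decide)
  have e45 : s (f 4) ≠ s (f 5) := co_side f 4 5 (by decide) (by decide)
  have ad : ∀ i j : Fin 6, (i.val, j.val) ∉ ([(0,1),(2,3),(4,5)] : List (ℕ × ℕ)) → (j.val, i.val) ∉ ([(0,1),(2,3),(4,5)] : List (ℕ × ℕ)) → ∀ b : Bool, s (f i) = b → s (f j) = !b → G.Adj (f i) (f j) := by
    intro i j h1 h2 b hb1 hb2
    have hne : s (f i) ≠ s (f j) := by rw [hb1, hb2]; cases b <;> decide
    exact co_adj f i j h1 h2 hne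
  cases h0 : s (f 0)
  case false =>
    cases h1 : s (f 1)
    case false =>
      cases h2 : s (f 2)
      case false =>
        cases h3 : s (f 3)
        case false =>
          cases h4 : s (f 4)
          case false =>
            cases h5 : s (f 5)
            case false =>
              exact e01 (by rw [h0, h1])
            case true =>
              exact e01 (by rw [h0, h1])
          case true =>
            cases h5 : s (f 5)
            case false =>
              exact e01 (by rw [h0, h1])
            case true =>
              exact e01 (by rw [h0, h1])
        case true =>
          cases h4 : s (f 4)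
          case false =>
            cases h5 : s (f 5)
            case false =>
              exact e01 (by rw [h0, h1])
            case true =>
              exact e01 (by rw [h0, h1])
          case true =>
            cases h5 : s (f 5)
            case false =>
              exact e01 (by rw [h0, h1])
            case true =>
              exact e01 (by rw [h0, h1])
      case true =>
        cases h3 : s (f 3)
        case false =>
          cases h4 : s (f 4)
          case false =>
            cases h5 : s (f 5)
            case false =>
              exact e01 (by rw [h0, h1])
            case true =>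
              exact e01 (by rw [h0, h1])
          case true =>
            cases h5 : s (f 5)
            case false =>
              exact e01 (by rw [h0, h1])
            case true =>
              exact e01 (by rw [h0, h1])
        case true =>
          cases h4 : s (f 4)
          case false =>
            cases h5 : s (f 5)
            case false =>
              exact e01 (by rw [h0, h1])
            case true =>
              exact e01 (by rw [h0, h1])
          case true =>
            cases h5 : s (f 5)
            case false =>
              exact e01 (by rw [h0, h1])
            case true =>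
              exact e01 (by rw [h0, h1])
    case true =>
      cases h2 : s (f 2)
      case false =>
        cases h3 : s (f 3)
        case false =>
          cases h4 : s (f 4)
          case false =>
            cases h5 : s (f 5)
            case false =>
              exact e23 (by rw [h2, h3])
            case true =>
              exact e23 (by rw [h2, h3])
          case true =>
            cases h5 : s (f 5)
            case false =>
              exact e23 (by rw [h2, h3])
            case true =>
              exact e23 (by rw [h2, h3])
        case true =>
          cases h4 : s (f 4)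
          case false =>
            cases h5 : s (f 5)
            case false =>
              exact e45 (by rw [h4, h5])
            case true =>
              exact hG.no_C6 (em_ne f 0 4 (by decide)) (em_ne f 3 1 (by decide)) (em_ne f 4 2 (by decide)) (em_ne f 1 5 (by decide)) (em_ne f 2 0 (by decide)) (em_ne f 5 3 (by decide)) (ad 0 3 (by decide) (by decide) _ h0 h3) (ad 3 4 (by decide) (by decide) _ h3 h4) (ad 4 1 (by decide) (by decide) _ h4 h1) (ad 1 2 (by decide) (by decide) _ h1 h2) (ad 2 5 (by decide) (by decide) _ h2 h5) (ad 5 0 (by decide) (by decide) _ h5 h0)
          case true =>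
            cases h5 : s (f 5)
            case false =>
              exact hG.no_C6 (em_ne f 0 5 (by decide)) (em_ne f 3 1 (by decide)) (em_ne f 5 2 (by decide)) (em_ne f 1 4 (by decide)) (em_ne f 2 0 (by decide)) (em_ne f 4 3 (by decide)) (ad 0 3 (by decide) (by decide) _ h0 h3) (ad 3 5 (by decide) (by decide) _ h3 h5) (ad 5 1 (by decide) (by decide) _ h5 h1) (ad 1 2 (by decide) (by decide) _ h1 h2) (ad 2 4 (by decide) (by decide) _ h2 h4) (ad 4 0 (by decide) (by decide) _ h4 h0)
            case true =>
              exact e45 (by rw [h4, h5])
      case true =>
        cases h3 : s (f 3)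
        case false =>
          cases h4 : s (f 4)
          case false =>
            cases h5 : s (f 5)
            case false =>
              exact e45 (by rw [h4, h5])
            case true =>
              exact hG.no_C6 (em_ne f 0 4 (by decide)) (em_ne f 2 1 (by decide)) (em_ne f 4 3 (by decide)) (em_ne f 1 5 (by decide)) (em_ne f 3 0 (by decide)) (em_ne f 5 2 (by decide)) (ad 0 2 (by decide) (by decide) _ h0 h2) (ad 2 4 (by decide) (by decide) _ h2 h4) (ad 4 1 (by decide) (by decide) _ h4 h1) (ad 1 3 (by decide) (by decide) _ h1 h3) (ad 3 5 (by decide) (by decide) _ h3 h5) (ad 5 0 (by decide) (by decide) _ h5 h0)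
          case true =>
            cases h5 : s (f 5)
            case false =>
              exact hG.no_C6 (em_ne f 0 5 (by decide)) (em_ne f 2 1 (by decide)) (em_ne f 5 3 (by decide)) (em_ne f 1 4 (by decide)) (em_ne f 3 0 (by decide)) (em_ne f 4 2 (by decide)) (ad 0 2 (by decide) (by decide) _ h0 h2) (ad 2 5 (by decide) (by decide) _ h2 h5) (ad 5 1 (by decide) (by decide) _ h5 h1) (ad 1 3 (by decide) (by decide) _ h1 h3) (ad 3 4 (by decide) (by decide) _ h3 h4) (ad 4 0 (by decide) (by decide) _ h4 h0)
            case true =>
              exact e45 (by rw [h4, h5])
        case true =>
          cases h4 : s (f 4)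
          case false =>
            cases h5 : s (f 5)
            case false =>
              exact e23 (by rw [h2, h3])
            case true =>
              exact e23 (by rw [h2, h3])
          case true =>
            cases h5 : s (f 5)
            case false =>
              exact e23 (by rw [h2, h3])
            case true =>
              exact e23 (by rw [h2, h3])
  case true =>
    cases h1 : s (f 1)
    case false =>
      cases h2 : s (f 2)
      case false =>
        cases h3 : s (f 3)
        case false =>
          cases h4 : s (f 4)
          case false =>
            cases h5 : s (f 5)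
            case false =>
              exact e23 (by rw [h2, h3])
            case true =>
              exact e23 (by rw [h2, h3])
          case true =>
            cases h5 : s (f 5)
            case false =>
              exact e23 (by rw [h2, h3])
            case true =>
              exact e23 (by rw [h2, h3])
        case true =>
          cases h4 : s (f 4)
          case false =>
            cases h5 : s (f 5)
            case false =>
              exact e45 (by rw [h4, h5])
            case true =>
              exact hG.no_C6 (em_ne f 0 5 (by decide)) (em_ne f 2 1 (by decide)) (em_ne f 5 3 (by decide)) (em_ne f 1 4 (by decide)) (em_ne f 3 0 (by decide)) (em_ne f 4 2 (by decide)) (ad 0 2 (by decide) (by decide) _ h0 h2) (ad 2 5 (by decide) (by decide) _ h2 h5) (ad 5 1 (by decide) (by decide) _ h5 h1) (ad 1 3 (by decide) (by decide) _ h1 h3) (ad 3 4 (by decide) (by decide) _ h3 h4) (ad 4 0 (by decide) (by decide) _ h4 h0)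
          case true =>
            cases h5 : s (f 5)
            case false =>
              exact hG.no_C6 (em_ne f 0 4 (by decide)) (em_ne f 2 1 (by decide)) (em_ne f 4 3 (by decide)) (em_ne f 1 5 (by decide)) (em_ne f 3 0 (by decide)) (em_ne f 5 2 (by decide)) (ad 0 2 (by decide) (by decide) _ h0 h2) (ad 2 4 (by decide) (by decide) _ h2 h4) (ad 4 1 (by decide) (by decide) _ h4 h1) (ad 1 3 (by decide) (by decide) _ h1 h3) (ad 3 5 (by decide) (by decide) _ h3 h5) (ad 5 0 (by decide) (by decide) _ h5 h0)
            case true =>
              exact e45 (by rw [h4, h5])
      case true =>
        cases h3 : s (f 3)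
        case false =>
          cases h4 : s (f 4)
          case false =>
            cases h5 : s (f 5)
            case false =>
              exact e45 (by rw [h4, h5])
            case true =>
              exact hG.no_C6 (em_ne f 0 5 (by decide)) (em_ne f 3 1 (by decide)) (em_ne f 5 2 (by decide)) (em_ne f 1 4 (by decide)) (em_ne f 2 0 (by decide)) (em_ne f 4 3 (by decide)) (ad 0 3 (by decide) (by decide) _ h0 h3) (ad 3 5 (by decide) (by decide) _ h3 h5) (ad 5 1 (by decide) (by decide) _ h5 h1) (ad 1 2 (by decide) (by decide) _ h1 h2) (ad 2 4 (by decide) (by decide) _ h2 h4) (ad 4 0 (by decide) (by decide) _ h4 h0)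
          case true =>
            cases h5 : s (f 5)
            case false =>
              exact hG.no_C6 (em_ne f 0 4 (by decide)) (em_ne f 3 1 (by decide)) (em_ne f 4 2 (by decide)) (em_ne f 1 5 (by decide)) (em_ne f 2 0 (by decide)) (em_ne f 5 3 (by decide)) (ad 0 3 (by decide) (by decide) _ h0 h3) (ad 3 4 (by decide) (by decide) _ h3 h4) (ad 4 1 (by decide) (by decide) _ h4 h1) (ad 1 2 (by decide) (by decide) _ h1 h2) (ad 2 5 (by decide) (by decide) _ h2 h5) (ad 5 0 (by decide) (by decide) _ h5 h0)
            case true =>
              exact e45 (by rw [h4, h5])
        case true =>
          cases h4 : s (f 4)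
          case false =>
            cases h5 : s (f 5)
            case false =>
              exact e23 (by rw [h2, h3])
            case true =>
              exact e23 (by rw [h2, h3])
          case true =>
            cases h5 : s (f 5)
            case false =>
              exact e23 (by rw [h2, h3])
            case true =>
              exact e23 (by rw [h2, h3])
    case true =>
      cases h2 : s (f 2)
      case false =>
        cases h3 : s (f 3)
        case false =>
          cases h4 : s (f 4)
          case false =>
            cases h5 : s (f 5)
            case false =>
              exact e01 (by rw [h0, h1])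
            case true =>
              exact e01 (by rw [h0, h1])
          case true =>
            cases h5 : s (f 5)
            case false =>
              exact e01 (by rw [h0, h1])
            case true =>
              exact e01 (by rw [h0, h1])
        case true =>
          cases h4 : s (f 4)
          case false =>
            cases h5 : s (f 5)
            case false =>
              exact e01 (by rw [h0, h1])
            case true =>
              exact e01 (by rw [h0, h1])
          case true =>
            cases h5 : s (f 5)
            case false =>
              exact e01 (by rw [h0, h1])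
            case true =>
              exact e01 (by rw [h0, h1])
      case true =>
        cases h3 : s (f 3)
        case false =>
          cases h4 : s (f 4)
          case false =>
            cases h5 : s (f 5)
            case false =>
              exact e01 (by rw [h0, h1])
            case true =>
              exact e01 (by rw [h0, h1])
          case true =>
            cases h5 : s (f 5)
            case false =>
              exact e01 (by rw [h0, h1])
            case true =>
              exact e01 (by rw [h0, h1])
        case true =>
          cases h4 : s (f 4)
          case false =>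
            cases h5 : s (f 5)
            case false =>
              exact e01 (by rw [h0, h1])
            case true =>
              exact e01 (by rw [h0, h1])
          case true =>
            cases h5 : s (f 5)
            case false =>
              exact e01 (by rw [h0, h1])
            case true =>
              exact e01 (by rw [h0, h1])

end Pool.Agent.Helper856.Lcw.UnbS
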