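import Pool.Agent.Helper856.Lcw.Base
import Pool.Agent.Helper856.Lcw.GBase
import Pool.Agent.Helper856.Lcw.GA
import Pool.Agent.Helper856.Lcw.GB
import Pool.Agent.Helper856.Lcw.Classif
import Pool.Agent.Helper856.Lcw.S122Main
import Pool.Agent.Helper856.Lcw.K13L
import Pool.Agent.Helper856.Lcw.P1Main
import Pool.Agent.Helper856.Lcw.Layers
import Pool.Agent.Helper856.Lcw.UnbS
import Pool.Agent.Helper856.Lcw.UnbQ
import Pool.Agent.Helper856.Lcw.FreeL
import Pool.Agent.Helper856.Lcw.PLin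

open Classical SimpleGraph

namespace Pool.Agent.Helper856.Lcw

open GA GB Classif K13L Layers UnbS UnbQ FreeL PLin

theorem GLin.mono {V : Type} {G : SimpleGraph V} {k l : ℕ} (h : GLin k G) (hkl : k ≤ l) :
    GLin l G := by
  obtain ⟨p, hp, h⟩ := h
  refine ⟨p, hp, fun t => ?_⟩
  obtain ⟨c, hc⟩ := h t
  exact ⟨fun v => Fin.castLE hkl (c v), fun u v h1 h2 h3 =>
    hc u v h1 h2 (Fin.castLE_injective hkl h3)⟩

theorem LinBuilt.nonempty {k : ℕ} {V : Type} {G : SimpleGraph V} {l : V → Fin k}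
    (h : LinBuilt k V G l) : Nonempty V := by
  induction h with
  | single i => exact ⟨()⟩
  | union V W G H l m _ _ _ ih _ => exact ⟨Sum.inl ih.some⟩
  | join V G l i j _ _ ih => exact ih
  | relabel V G l i j _ ih => exact ih

theorem exists_lcwLE {V : Type} [Finite V] [Nonempty V] (G : SimpleGraph V) :
    {k | LcwLE G k}.Nonempty :=
  ⟨_, lcwLE_of_GLin G (Nat.card V) (GLin_of_card G _ le_rfl)⟩

theorem lcw_le_of_GLin {V : Type} [Finite V] (G : SimpleGraph V) (k : ℕ) (h : GLin k G) :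
    linearCliqueWidth G ≤ 2 * k + 1 := by
  rcases isEmpty_or_nonempty V with hV | hV
  · have : {k | LcwLE G k} = ∅ := by
      rw [Set.eq_empty_iff_forall_notMem]
      rintro k ⟨W, G', l, hb, ⟨e⟩⟩
      exact hV.false (e.symm (LinBuilt.nonempty hb).some)
    unfold linearCliqueWidth
    rw [this]
    simp
  · exact Nat.sInf_le (lcwLE_of_GLin G k h)

theorem GLin_of_lcw_le {V : Type} [Finite V] (G : SimpleGraph V) (c : ℕ)
    (h : linearCliqueWidth G ≤ c) (hc : 0 < c ∨ Nonempty V) : GLin c G := by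
  rcases isEmpty_or_nonempty V with hV | hV
  · refine ⟨fun _ => 0, fun x => (hV.false x).elim, fun t => ⟨fun v => (hV.false v).elim,
      fun u => (hV.false u).elim⟩⟩
  · have := Nat.sInf_mem (exists_lcwLE G)
    exact (GLin_of_lcwLE G _ this).mono h

/-- every bipartite graph avoiding `F` has an arrangement with `K` classes -/
def Bdd {n : ℕ} (F : SimpleGraph (Fin n)) (K : ℕ) : Prop :=
  ∀ (V : Type) [Finite V] (G : SimpleGraph V), G.IsBipartite → ¬ F.IsIndContained G → GLin K G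

theorem exists_sides {V : Type} [Finite V] (G : SimpleGraph V) (h : G.IsBipartite) :
    ∃ S T : Finset V, (∀ v, v ∈ S ∨ v ∈ T) ∧ Disjoint S T ∧
      (∀ u ∈ S, ∀ v ∈ S, ¬ G.Adj u v) ∧ (∀ u ∈ T, ∀ v ∈ T, ¬ G.Adj u v) := by
  have := Fintype.ofFinite V
  obtain ⟨C⟩ := h
  refine ⟨Finset.univ.filter (fun v => C v = 0), Finset.univ.filter (fun v => C v = 1), ?_, ?_,
    ?_, ?_⟩
  · intro v
    have : C v = 0 ∨ C v = 1 := by omega
    simpa using this
  · rw [Finset.disjoint_filter]
    intro v _ h1 h2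
    rw [h1] at h2
    exact absurd h2 (by decide)
  · intro u hu v hv huv
    simp only [Finset.mem_filter, Finset.mem_univ, true_and] at hu hv
    exact C.valid huv (by rw [hu, hv])
  · intro u hu v hv huv
    simp only [Finset.mem_filter, Finset.mem_univ, true_and] at hu hv
    exact C.valid huv (by rw [hu, hv])

theorem bdd_S122 : Bdd S122 (5 * 2) := by
  intro V _ G hG hF
  obtain ⟨S, T, h1, h2, h3, h4⟩ := exists_sides G hG
  obtain ⟨g1, g2⟩ := lam_of_free G S T h2 h3 h4 hF
  exact GLin_of_BLin G S T h1 h2 h3 h4 5 (S122_main g1 g2)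

theorem bdd_K13_3P1 : Bdd K13_3P1 (20 * 2) := by
  intro V _ G hG hF
  obtain ⟨S, T, h1, h2, h3, h4⟩ := exists_sides G hG
  obtain ⟨g1, g2⟩ := deg_of_free G S T h2 h3 h4 hF
  exact GLin_of_BLin G S T h1 h2 h3 h4 20 (K13_3P1_lemma g1 g2)

theorem bdd_P1_S113 : Bdd P1_S113 (50 * 2) := by
  intro V _ G hG hF
  obtain ⟨S, T, h1, h2, h3, h4⟩ := exists_sides G hG
  obtain ⟨g1, g2, g3, g4⟩ := bad_of_free G S T h2 h3 h4 hF
  exact GLin_of_BLin G S T h1 h2 h3 h4 50 (P1S113_main g1 g2 g3 g4)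

theorem Star.subset {α β : Type} {E : α → β → Prop} {A A' : Finset α} {B B' : Finset β}
    (h : Star E A B) (hA : A' ⊆ A) (hB : B' ⊆ B) : Star E A' B' := by
  intro v hv x hx
  rcases h v (hA hv) x (hA hx) with h | h
  · left
    exact le_trans (Finset.card_le_card (Finset.filter_subset_filter _ hB)) h
  · right
    exact fun b hb => h b (hB hb)

theorem K13P2_main {α β : Type} {E : α → β → Prop} {A : Finset α} {B : Finset β}
    (h1 : Star E A B) (h2 : Star (fun b a => E a b) B A) : BLin 488 E A B := by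
  obtain ⟨f, g, A', B', hA', hB', hf, hg, hEf, hEg, tA, tB⟩ := exists_twinfree E A B
  have hE : ∀ a ∈ A, ∀ b ∈ B, (E a b ↔ E (f a) (g b)) := fun a ha b hb =>
    (hEf a ha b hb).trans (hEg (f a) (hA' (hf a ha)) b hb)
  exact BLin.of_reps f g hf hg hE
    (K13P2_twinfree (Star.subset h1 hA' hB') (Star.subset h2 hB' hA') tB)

theorem bdd_K13_P2 : Bdd K13_P2 (488 * 2) := by
  intro V _ G hG hF
  obtain ⟨S, T, h1, h2, h3, h4⟩ := exists_sides G hG
  obtain ⟨g1, g2⟩ := star_of_free G S T h2 h3 h4 hF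
  exact GLin_of_BLin G S T h1 h2 h3 h4 488 (K13P2_main g1 g2)

theorem bdd_bot (n : ℕ) : Bdd (⊥ : SimpleGraph (Fin n)) (2 * n) := by
  intro V _ G hG hF
  exact GLin_of_card G _ (card_le_of_free G hG n hF)

/-- the class of bipartite graphs without induced `H` has bounded linear clique-width -/
def BoundedLcw {W : Type} (H : SimpleGraph W) : Prop :=
  ∃ c : ℕ, ∀ (V : Type) [Finite V] (G : SimpleGraph V),
    G.IsBipartite → ¬ H.IsIndContained G → linearCliqueWidth G ≤ c

theorem bounded_of_bdd {n m : ℕ} {H : SimpleGraph (Fin n)} {F : SimpleGraph (Fin m)} {K : ℕ}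
    (h : Bdd F K) (hH : H.IsIndContained F) : BoundedLcw H := by
  refine ⟨2 * K + 1, fun V _ G hG hF => ?_⟩
  exact lcw_le_of_GLin G K (h V G hG (fun hc => hF (hH.trans hc)))

theorem not_contained_of_unb {n m : ℕ} {H : SimpleGraph (Fin n)} {F : SimpleGraph (Fin m)}
    (h : Unb F) (hB : BoundedLcw H) : ¬ F.IsIndContained H := by
  intro hFH
  obtain ⟨c, hc⟩ := hB
  obtain ⟨V, hV, G, hG, hF, hG2⟩ := h (c + 1)
  refine hG2 ?_
  exact GLin_of_lcw_le G (c + 1) (le_trans (hc V G hG (fun h => hF (hFH.trans h))) (by omega))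
    (Or.inl (by omega))

theorem main_fin {n : ℕ} (H : SimpleGraph (Fin n)) :
    BoundedLcw H ↔ (H = ⊥ ∨ H.IsIndContained K13_3P1 ∨ H.IsIndContained K13_P2 ∨
      H.IsIndContained P1_S113 ∨ H.IsIndContained S122) := by
  constructor
  · intro h
    exact classification H (not_contained_of_unb unb_C3 h) (not_contained_of_unb unb_C4 h)
      (not_contained_of_unb unb_C5 h) (not_contained_of_unb unb_C6 h)
      (not_contained_of_unb unb_P6 h) (not_contained_of_unb unb_K14 h)
      (not_contained_of_unb unb_DS h) (not_contained_of_unb unb_F2P1_2P2 h)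
      (not_contained_of_unb unb_F2P1_P4 h) (not_contained_of_unb unb_F4P1_P2 h)
      (not_contained_of_unb unb_F3P2 h) (not_contained_of_unb unb_FP2_P4 h)
      (not_contained_of_unb unb_F2P3 h)
  · rintro (h | h | h | h | h)
    · subst h
      exact bounded_of_bdd (bdd_bot n) (IsIndContained.refl _)
    · exact bounded_of_bdd bdd_K13_3P1 h
    · exact bounded_of_bdd bdd_K13_P2 h
    · exact bounded_of_bdd bdd_P1_S113 h
    · exact bounded_of_bdd bdd_S122 h

end Pool.Agent.Helper856.Lcw
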