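import Pool.Agent.Helper856.Lcw.Base
import Pool.Agent.Helper856.Lcw.GBase

open Classical SimpleGraph

namespace Pool.Agent.Helper856.Lcw.PLin

theorem GLin_of_BLin {V : Type} [Finite V] (G : SimpleGraph V) (S T : Finset V)
    (hcov : ∀ v, v ∈ S ∨ v ∈ T) (hST : Disjoint S T) (hS : ∀ u ∈ S, ∀ v ∈ S, ¬ G.Adj u v)
    (hT : ∀ u ∈ T, ∀ v ∈ T, ¬ G.Adj u v) (k : ℕ) (h : BLin k G.Adj S T) : GLin (k * 2) G := by
  obtain ⟨p, q, hpq, h⟩ := h
  have hnot : ∀ v, v ∉ S → v ∈ T := fun v hv => (hcov v).resolve_left hv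
  have hdis : ∀ v, v ∈ S → v ∉ T := fun v hv hv' => Finset.disjoint_left.mp hST hv hv'
  let N := Nat.card V
  let e : V ≃ Fin N := Finite.equivFin V
  let pos : V → ℕ := fun v => if v ∈ S then p v else q v
  have heN : ∀ v, (e v : ℕ) < N := fun v => (e v).isLt
  refine ⟨fun v => pos v * N + e v, ?_, ?_⟩
  · intro u v huv
    have h1 : pos u * N + (e u : ℕ) = pos v * N + e v := huv
    have h2 : (pos u * N + (e u : ℕ)) % N = (pos v * N + e v) % N := by rw [h1]
    rw [Nat.mul_comm, Nat.mul_comm (pos v), Nat.mul_add_mod, Nat.mul_add_mod,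
      Nat.mod_eq_of_lt (heN u), Nat.mod_eq_of_lt (heN v)] at h2
    exact e.injective (Fin.ext h2)
  · intro t
    let τ := t / N
    have hlow : ∀ u, pos u * N + (e u : ℕ) < t → pos u ≤ τ := by
      intro u hu
      have hN : 0 < N := lt_of_le_of_lt (Nat.zero_le _) (heN u)
      show pos u ≤ t / N
      rw [Nat.le_div_iff_mul_le hN]
      omega
    have hhigh : ∀ w, t ≤ pos w * N + (e w : ℕ) → τ ≤ pos w := by
      intro w hw
      have hN : 0 < N := lt_of_le_of_lt (Nat.zero_le _) (heN w)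
      have h1 := heN w
      show t / N ≤ pos w
      have h2 : t / N < pos w + 1 := by
        rw [Nat.div_lt_iff_lt_mul hN]
        calc t ≤ pos w * N + (e w : ℕ) := hw
          _ < pos w * N + N := by omega
          _ = (pos w + 1) * N := by ring
      omega
    have hc : ∃ c : V → Fin k, ∀ a ∈ S, ∀ a' ∈ S, p a ≤ τ → p a' ≤ τ → c a = c a' →
        ∀ b ∈ T, τ ≤ q b → (G.Adj a b ↔ G.Adj a' b) := by
      by_cases hex : ∃ a ∈ S, p a = τ
      · obtain ⟨a0, ha0, hpa0⟩ := hex
        obtain ⟨c, hc⟩ := (h (τ + 1)).1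
        refine ⟨c, fun a ha a' ha' h1 h2 h3 b hb h4 => ?_⟩
        have h5 : p a0 ≠ q b := hpq a0 ha0 b hb
        exact hc a ha a' ha' (by omega) (by omega) h3 b hb (by omega)
      · obtain ⟨c, hc⟩ := (h τ).1
        refine ⟨c, fun a ha a' ha' h1 h2 h3 b hb h4 => ?_⟩
        have h5 : p a ≠ τ := fun hh => hex ⟨a, ha, hh⟩
        have h6 : p a' ≠ τ := fun hh => hex ⟨a', ha', hh⟩
        exact hc a ha a' ha' (by omega) (by omega) h3 b hb h4
    have hd : ∃ d : V → Fin k, ∀ b ∈ T, ∀ b' ∈ T, q b ≤ τ → q b' ≤ τ → d b = d b' →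
        ∀ a ∈ S, τ ≤ p a → (G.Adj a b ↔ G.Adj a b') := by
      by_cases hex : ∃ b ∈ T, q b = τ
      · obtain ⟨b0, hb0, hqb0⟩ := hex
        obtain ⟨d, hd⟩ := (h (τ + 1)).2
        refine ⟨d, fun b hb b' hb' h1 h2 h3 a ha h4 => ?_⟩
        have h5 : p a ≠ q b0 := hpq a ha b0 hb0
        exact hd b hb b' hb' (by omega) (by omega) h3 a ha (by omega)
      · obtain ⟨d, hd⟩ := (h τ).2
        refine ⟨d, fun b hb b' hb' h1 h2 h3 a ha h4 => ?_⟩
        have h5 : q b ≠ τ := fun hh => hex ⟨b, hb, hh⟩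
        have h6 : q b' ≠ τ := fun hh => hex ⟨b', hb', hh⟩
        exact hd b hb b' hb' (by omega) (by omega) h3 a ha h4
    obtain ⟨c, hc⟩ := hc
    obtain ⟨d, hd⟩ := hd
    refine ⟨fun v => finProdFinEquiv (if v ∈ S then c v else d v, if v ∈ S then 0 else 1), ?_⟩
    intro u v hu hv hcol w hw
    have hu' := hlow u hu
    have hv' := hlow v hv
    have hw' := hhigh w hw
    have h5 := finProdFinEquiv.injective hcol
    simp only [Prod.mk.injEq] at h5
    obtain ⟨h6, h7⟩ := h5
    by_cases huS : u ∈ S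
    · have hvS : v ∈ S := by
        by_contra hvS
        simp [huS, hvS] at h7
      simp only [huS, hvS, if_true] at h6
      have h8 : pos u = p u := by simp [pos, huS]
      have h9 : pos v = p v := by simp [pos, hvS]
      by_cases hwS : w ∈ S
      · exact iff_of_false (hS u huS w hwS) (hS v hvS w hwS)
      · have h10 : pos w = q w := by simp [pos, hwS]
        rw [h8] at hu'
        rw [h9] at hv'
        rw [h10] at hw'
        exact hc u huS v hvS hu' hv' h6 w (hnot w hwS) hw'
    · have hvS : v ∉ S := by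
        intro hvS
        simp [huS, hvS] at h7
      simp only [huS, hvS, if_false] at h6
      have h8 : pos u = q u := by simp [pos, huS]
      have h9 : pos v = q v := by simp [pos, hvS]
      by_cases hwS : w ∈ S
      · have h10 : pos w = p w := by simp [pos, hwS]
        rw [h8] at hu'
        rw [h9] at hv'
        rw [h10] at hw'
        have := hd u (hnot u huS) v (hnot v hvS) hu' hv' h6 w hwS hw'
        rw [G.adj_comm u w, G.adj_comm v w]
        exact this
      · exact iff_of_false (hT u (hnot u huS) w (hnot w hwS)) (hT v (hnot v hvS) w (hnot w hwS))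

theorem GLin_of_card {V : Type} [Finite V] (G : SimpleGraph V) (k : ℕ) (h : Nat.card V ≤ k) :
    GLin k G := by
  let e : V ≃ Fin (Nat.card V) := Finite.equivFin V
  refine ⟨fun v => (e v : ℕ), fun u v huv => e.injective (Fin.ext huv), fun t =>
    ⟨fun v => Fin.castLE h (e v), ?_⟩⟩
  intro u v _ _ huv w _
  have : u = v := e.injective (Fin.castLE_injective h huv)
  rw [this]

theorem card_le_of_free {V : Type} [Finite V] (G : SimpleGraph V) (hG : G.IsBipartite) (n : ℕ)
    (hF : ¬ (⊥ : SimpleGraph (Fin n)).IsIndContained G) : Nat.card V ≤ 2 * n := by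
  by_contra hcon
  push Not at hcon
  apply hF
  have : Fintype V := Fintype.ofFinite V
  obtain ⟨C⟩ := hG
  have hcard : Fintype.card (Fin 2) * n < Fintype.card V := by
    rw [Fintype.card_fin, ← Nat.card_eq_fintype_card]
    exact hcon
  obtain ⟨i, hi⟩ := Fintype.exists_lt_card_fiber_of_mul_lt_card (f := fun v : V => C v) hcard
  obtain ⟨s, hs, hsc⟩ := Finset.exists_subset_card_eq hi.le
  let f : Fin n ≃ s := (s.equivFinOfCardEq hsc).symm
  refine ⟨⟨⟨fun j => (f j).1, fun a b hab => f.injective (Subtype.ext hab)⟩, ?_⟩⟩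
  intro a b
  have ha := (Finset.mem_filter.mp (hs (f a).2)).2
  have hb := (Finset.mem_filter.mp (hs (f b).2)).2
  constructor
  · intro hadj
    exact absurd (ha.trans hb.symm) (C.valid hadj)
  · intro hadj
    exact absurd hadj (by simp)

end Pool.Agent.Helper856.Lcw.PLin
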